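import Pool.Agent.Lib_helper27.ABIF.Defs2

/-! # ABI, block C2a: the coded oracle, as a circuit -/

set_option autoImplicit false

namespace Pool.Agent.ABI

open Pool.Agent.CK
open Pool.Agent.NPC (Lit St lw tw Cert Term Rst Comp res Stuck RS wt pw GoodRoot HBig te hx NC labs
  rv rq)
open Pool.Agent.ABO (Par Lvl lev CircF hits Fml Gate Circuit Game Hard Desc cst cTree gsz)
open Pool.Agent.TD.IS (PosI Stg patchI simI)
open Pool.Agent.TD (Lam dd)

/-- the gates that replace a gate if `N` bits have been computed, and the number of the new bit -/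
def c2_gate (π : List ℕ) (N : ℕ) : Gate → List Gate × ℕ
  | .fml φ => ([.fml (ABO.rm_fml π φ)], N)
  | .chal l => ([.chal (l.map (ABO.rm_pos π))], N)
  | .ask (a :: b :: l) =>
    if l.length % 2 = 1 then
      ([.ask (l.map (ABO.rm_pos π)), .ask (l.dropLast.map (ABO.rm_pos π)),
        .fml (Fml.and (Fml.lit (ABO.rm_pos π a) false)
          (Fml.or (Fml.and (Fml.lit (ABO.rm_pos π b) false) (Fml.var N))
            (Fml.and (Fml.lit (ABO.rm_pos π b) true)
              (Fml.and (Fml.lit (ABO.rm_pos π (l.getLastD 0)) false) (Fml.var (N + 1))))))], N + 2)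
    else ([.fml (Fml.con false)], N)
  | .ask _ => ([.fml (Fml.con false)], N)

/-- the gates that replace a list of gates, and the new numbers -/
def c2_tr : List Gate → List ℕ → ℕ → List Gate × List ℕ
  | [], π, _ => ([], π)
  | g :: gs, π, N => ((c2_gate π N g).1 ++
      (c2_tr gs (π ++ [(c2_gate π N g).2]) (N + (c2_gate π N g).1.length)).1,
      (c2_tr gs (π ++ [(c2_gate π N g).2]) (N + (c2_gate π N g).1.length)).2)

theorem c2_sel {π : List ℕ} {W W' : List Bool} (h : ABO.RmInv π W W') (U : List Bool)
    (l : List ℕ) : ABO.sel (W' ++ U) (l.map (ABO.rm_pos π)) = ABO.sel W l := by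
  unfold ABO.sel
  rw [List.map_map]
  refine List.map_congr_left fun i _ => ?_
  show (W' ++ U).getD (ABO.rm_pos π i) false = W.getD i false
  rw [List.getD_append _ _ _ _ (h.lt i)]
  exact (h.val i).symm

theorem c2_sel_len (W : List Bool) (l : List ℕ) : (ABO.sel W l).length = l.length := by
  unfold ABO.sel
  rw [List.length_map]

theorem c2_sel_dropLast (W : List Bool) (l : List ℕ) :
    ABO.sel W l.dropLast = (ABO.sel W l).dropLast := by
  unfold ABO.sel
  rw [List.map_dropLast]

theorem c2_sel_last (W : List Bool) (l : List ℕ) (hl : l ≠ []) :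
    (ABO.sel W l).getLast? = some (W.getD (l.getLastD 0) false) := by
  unfold ABO.sel
  rw [List.getLast?_map, List.getLast?_eq_some_getLast hl, Option.map_some,
    List.getLastD_eq_getLast?, List.getLast?_eq_some_getLast hl]
  rfl

/-- the value of the formula -/
theorem c2_fml (R : Lang) {π : List ℕ} {W W' : List Bool} (h : ABO.RmInv π W W') (a b : ℕ)
    (l : List ℕ) (hl : l.length % 2 = 1) :
    (Fml.and (Fml.lit (ABO.rm_pos π a) false)
      (Fml.or (Fml.and (Fml.lit (ABO.rm_pos π b) false) (Fml.var W'.length))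
        (Fml.and (Fml.lit (ABO.rm_pos π b) true)
          (Fml.and (Fml.lit (ABO.rm_pos π (l.getLastD 0)) false)
            (Fml.var (W'.length + 1)))))).eval
      (W' ++ [R (ABO.sel W l), R (ABO.sel W l.dropLast)]) = codeR R (ABO.sel W (a :: b :: l)) := by
  have hv : ∀ i, (W' ++ [R (ABO.sel W l), R (ABO.sel W l.dropLast)]).getD (ABO.rm_pos π i) false =
      W.getD i false := by
    intro i
    rw [List.getD_append _ _ _ _ (h.lt i)]
    exact (h.val i).symm
  have h1 : (Fml.var W'.length).eval (W' ++ [R (ABO.sel W l), R (ABO.sel W l.dropLast)]) =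
      R (ABO.sel W l) := by
    show (W' ++ [R (ABO.sel W l), R (ABO.sel W l.dropLast)]).getD W'.length false = _
    rw [List.getD_append_right _ _ _ _ le_rfl, Nat.sub_self, List.getD_cons_zero]
  have h2 : (Fml.var (W'.length + 1)).eval (W' ++ [R (ABO.sel W l), R (ABO.sel W l.dropLast)]) =
      R (ABO.sel W l.dropLast) := by
    show (W' ++ [R (ABO.sel W l), R (ABO.sel W l.dropLast)]).getD (W'.length + 1) false = _
    rw [List.getD_append_right _ _ _ _ (Nat.le_succ _)]
    have e : W'.length + 1 - W'.length = 1 := by omega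
    rw [e]
    rfl
  have hne : l ≠ [] := by
    rintro rfl
    simp at hl
  have h3 : ((ABO.sel W l).length % 2 == 1) = true := by
    rw [c2_sel_len, hl]
    rfl
  have h4 := c2_sel_last W l hne
  have h5 := c2_sel_dropLast W l
  rw [Fml.eval_and, Fml.eval_or, Fml.eval_and, Fml.eval_and, Fml.eval_and, Fml.eval_lit,
    Fml.eval_lit, Fml.eval_lit, Fml.eval_lit, h1, h2, hv, hv, hv, h5]
  show _ = codeR R (W.getD a false :: W.getD b false :: ABO.sel W l)
  cases W.getD a false <;> cases W.getD b false <;> simp only [codeR, h3, h4] <;>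
    cases W.getD (l.getLastD 0) false <;> simp

/-- one gate -/
theorem c2_one (R : Lang) (ch : List Str → Str → Bool) {π : List ℕ} {W W' : List Bool}
    (h : ABO.RmInv π W W') (qs : List Str) (g : Gate) :
    ∃ (U : List Bool) (b : Bool) (qs' : List Str), U.length = (c2_gate π W'.length g).1.length ∧
      ABO.gstep (codeR R) ch (W, qs) g = (W ++ [b], qs') ∧
      (c2_gate π W'.length g).1.foldl (ABO.gstep R ch) (W', qs) = (W' ++ U, qs') ∧
      ABO.RmInv (π ++ [(c2_gate π W'.length g).2]) (W ++ [b]) (W' ++ U) := by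
  match g with
  | .fml φ =>
    refine ⟨[φ.eval W], φ.eval W, qs, rfl, rfl, ?_,
      h.step (by simp [c2_gate]) (ABO.rm_last _ _)⟩
    simp only [c2_gate, List.foldl_cons, List.foldl_nil, ABO.gstep]
    rw [ABO.rm_fml_eval h]
  | .chal l =>
    refine ⟨[ch qs (ABO.sel W l)], ch qs (ABO.sel W l), qs ++ [ABO.sel W l], rfl, rfl, ?_,
      h.step (by simp [c2_gate]) (ABO.rm_last _ _)⟩
    simp only [c2_gate, List.foldl_cons, List.foldl_nil, ABO.gstep]
    rw [ABO.rm_sel h]
  | .ask [] =>
    refine ⟨[false], false, qs, rfl, ?_, ?_, h.step (by simp [c2_gate]) (ABO.rm_last _ _)⟩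
    · simp [ABO.gstep, ABO.sel, codeR]
    · simp [c2_gate, ABO.gstep]
  | .ask [a] =>
    refine ⟨[false], false, qs, rfl, ?_, ?_, h.step (by simp [c2_gate]) (ABO.rm_last _ _)⟩
    · simp [ABO.gstep, ABO.sel, codeR]
    · simp [c2_gate, ABO.gstep]
  | .ask (a :: b :: l) =>
    by_cases hl : l.length % 2 = 1
    · have h2 := c2_fml R h a b l hl
      have e1 : c2_gate π W'.length (.ask (a :: b :: l)) =
        ([.ask (l.map (ABO.rm_pos π)), .ask (l.dropLast.map (ABO.rm_pos π)),
          .fml (Fml.and (Fml.lit (ABO.rm_pos π a) false)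
            (Fml.or (Fml.and (Fml.lit (ABO.rm_pos π b) false) (Fml.var W'.length))
              (Fml.and (Fml.lit (ABO.rm_pos π b) true)
                (Fml.and (Fml.lit (ABO.rm_pos π (l.getLastD 0)) false)
                  (Fml.var (W'.length + 1))))))], W'.length + 2) := if_pos hl
      rw [e1]
      refine ⟨[R (ABO.sel W l), R (ABO.sel W l.dropLast), codeR R (ABO.sel W (a :: b :: l))],
        codeR R (ABO.sel W (a :: b :: l)), qs, rfl, rfl, ?_, h.step (by simp) ?_⟩
      · simp only [List.foldl_cons, List.foldl_nil, ABO.gstep]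
        rw [ABO.rm_sel h, c2_sel h]
        have e3 : W' ++ [R (ABO.sel W l)] ++ [R (ABO.sel W l.dropLast)] =
            W' ++ [R (ABO.sel W l), R (ABO.sel W l.dropLast)] := by
          rw [List.append_assoc]
          rfl
        rw [e3, h2, List.append_assoc]
        rfl
      · rw [List.getD_append_right _ _ _ _ (Nat.le_add_right _ _)]
        have e : W'.length + 2 - W'.length = 2 := by omega
        rw [e]
        rfl
    · have e1 : c2_gate π W'.length (.ask (a :: b :: l)) = ([.fml (Fml.con false)], W'.length) :=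
        if_neg hl
      rw [e1]
      have h3 : codeR R (ABO.sel W (a :: b :: l)) = false := by
        show codeR R (W.getD a false :: W.getD b false :: ABO.sel W l) = false
        have h4 : ((ABO.sel W l).length % 2 == 1) = false := by
          rw [c2_sel_len]
          simpa using hl
        cases W.getD a false <;> cases W.getD b false <;> simp only [codeR, h4, Bool.false_and]
      refine ⟨[false], false, qs, rfl, ?_, ?_, h.step (by simp) (ABO.rm_last _ _)⟩
      · simp only [ABO.gstep, h3]
      · simp [ABO.gstep]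

theorem c2_foldl (R : Lang) (ch : List Str → Str → Bool) : ∀ (gs : List Gate) (π : List ℕ)
    (W W' : List Bool) (qs : List Str), ABO.RmInv π W W' →
    ((c2_tr gs π W'.length).1.foldl (ABO.gstep R ch) (W', qs)).2 =
        (gs.foldl (ABO.gstep (codeR R) ch) (W, qs)).2 ∧
      ABO.RmInv (c2_tr gs π W'.length).2 (gs.foldl (ABO.gstep (codeR R) ch) (W, qs)).1
        ((c2_tr gs π W'.length).1.foldl (ABO.gstep R ch) (W', qs)).1
  | [], _, _, _, _, h => ⟨rfl, h⟩
  | g :: gs, π, W, W', qs, h => by
    obtain ⟨U, b, qs', hU, h1, h2, h3⟩ := c2_one R ch h qs g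
    have h4 := c2_foldl R ch gs _ _ _ qs' h3
    rw [List.length_append, hU] at h4
    simp only [c2_tr, List.foldl_append, List.foldl_cons]
    rw [h1, h2]
    exact h4

theorem c2_gate_size (d : ℕ) (π : List ℕ) (N : ℕ) (g : Gate)
    (hg : ∀ l, g = Gate.ask l → l.length ≤ d) :
    gsz (c2_gate π N g).1 ≤ g.size + (d + 40) * (if g.isAsk = true then 1 else 0) := by
  match g with
  | .fml φ =>
    simp only [c2_gate, ABO.gsz_cons, ABO.gsz_nil, ABO.Gate.size, ABO.rm_fml_size]
    omega
  | .chal l =>
    simp only [c2_gate, ABO.gsz_cons, ABO.gsz_nil, ABO.Gate.size, List.length_map]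
    omega
  | .ask [] =>
    have := Fml.size_con false
    simp only [c2_gate, ABO.gsz_cons, ABO.gsz_nil, ABO.Gate.size, ABO.Gate.isAsk, if_true,
      List.length_nil]
    omega
  | .ask [a] =>
    have := Fml.size_con false
    simp only [c2_gate, ABO.gsz_cons, ABO.gsz_nil, ABO.Gate.size, ABO.Gate.isAsk, if_true,
      List.length_cons, List.length_nil]
    omega
  | .ask (a :: b :: l) =>
    have hd := hg _ rfl
    rw [List.length_cons, List.length_cons] at hd
    by_cases hl : l.length % 2 = 1
    · have e1 : c2_gate π N (.ask (a :: b :: l)) =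
        ([.ask (l.map (ABO.rm_pos π)), .ask (l.dropLast.map (ABO.rm_pos π)),
          .fml (Fml.and (Fml.lit (ABO.rm_pos π a) false)
            (Fml.or (Fml.and (Fml.lit (ABO.rm_pos π b) false) (Fml.var N))
              (Fml.and (Fml.lit (ABO.rm_pos π b) true)
                (Fml.and (Fml.lit (ABO.rm_pos π (l.getLastD 0)) false)
                  (Fml.var (N + 1))))))], N + 2) := if_pos hl
      rw [e1]
      have h1 := Fml.size_lit (ABO.rm_pos π a) false
      have h2 := Fml.size_lit (ABO.rm_pos π b) false
      have h3 := Fml.size_lit (ABO.rm_pos π b) true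
      have h4 := Fml.size_lit (ABO.rm_pos π (l.getLastD 0)) false
      simp only [ABO.gsz_cons, ABO.gsz_nil, ABO.Gate.size, ABO.Gate.isAsk, if_true,
        List.length_cons, List.length_map, List.length_dropLast, Fml.size_and, Fml.size_or,
        Fml.size]
      omega
    · have e1 : c2_gate π N (.ask (a :: b :: l)) = ([.fml (Fml.con false)], N) := if_neg hl
      rw [e1]
      have := Fml.size_con false
      simp only [ABO.gsz_cons, ABO.gsz_nil, ABO.Gate.size, ABO.Gate.isAsk, if_true,
        List.length_cons]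
      omega

theorem c2_tr_size (d : ℕ) : ∀ (gs : List Gate) (π : List ℕ) (N : ℕ), ABO.Lens d gs →
    gsz (c2_tr gs π N).1 ≤ gsz gs + (d + 40) * ABO.asks gs
  | [], _, _, _ => by simp [c2_tr]
  | g :: gs, π, N, hd => by
    have h1 := c2_gate_size d π N g (fun l hl => hd l (by rw [hl]; exact List.mem_cons_self))
    have h2 := c2_tr_size d gs (π ++ [(c2_gate π N g).2]) (N + (c2_gate π N g).1.length)
      (fun l hl => hd l (List.mem_cons_of_mem _ hl))
    have h3 : ABO.asks (g :: gs) = ABO.asks gs + (if g.isAsk = true then 1 else 0) := by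
      unfold ABO.asks
      rw [List.countP_cons]
    simp only [c2_tr, ABO.gsz_append, ABO.gsz_cons]
    rw [h3, Nat.mul_add]
    omega

/-- C2: every question is replaced by two questions and a formula -/
theorem rm_code (R : Lang) (C : Circuit) (s d : ℕ) (hC : C.Within s d) :
    ∃ C' : Circuit, C'.size ≤ s + (d + 1) * (64 * (d + 1)) ∧
      ∀ (G : Game) (ω : Str), G.wins R C' ω = G.wins (codeR R) C ω := by
  have h0 : ABO.RmInv [] [] [false] := by
    refine ⟨rfl, fun i => ?_, fun i => ?_⟩
    · simp [ABO.rm_pos]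
    · simp [ABO.rm_pos]
  refine ⟨⟨Gate.fml (Fml.con false) :: (c2_tr C.gates [] 1).1,
    C.out.map (ABO.rm_pos (c2_tr C.gates [] 1).2)⟩, ?_, ?_⟩
  · have h1 := c2_tr_size d C.gates [] 1 hC.lens
    have h4 := Fml.size_con false
    show (((Gate.fml (Fml.con false) :: (c2_tr C.gates [] 1).1).map ABO.Gate.size).sum +
      (C.out.map (ABO.rm_pos (c2_tr C.gates [] 1).2)).length) ≤ _
    rw [List.map_cons, List.sum_cons, List.length_map]
    have h2 : gsz C.gates + C.out.length ≤ s := hC.size
    have h3 : (d + 40) * ABO.asks C.gates ≤ (d + 40) * d := Nat.mul_le_mul_left _ hC.asks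
    have h5 : 4 + (d + 40) * d ≤ (d + 1) * (64 * (d + 1)) := by
      have e1 : (d + 1) * (64 * (d + 1)) = 4 + (d + 40) * d + (63 * (d * d) + 88 * d + 60) := by
        ring
      rw [e1]
      exact Nat.le_add_right _ _
    have h6 : ((c2_tr C.gates [] 1).1.map ABO.Gate.size).sum ≤
      gsz C.gates + (d + 40) * ABO.asks C.gates := h1
    have h7 : (Gate.fml (Fml.con false)).size = (Fml.con false).size + 1 := rfl
    rw [h7]
    omega
  · intro G ω
    have key := c2_foldl R (G.ch ω) C.gates [] [] [false] [] h0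
    unfold ABO.Game.wins ABO.Circuit.play
    simp only [List.foldl_cons]
    have e : ABO.gstep R (G.ch ω) ([], []) (Gate.fml (Fml.con false)) = ([false], []) := by
      simp [ABO.gstep]
    rw [e]
    have h1 := key.1
    have h2 := ABO.rm_sel key.2 C.out
    simp only [List.length_singleton] at h1 h2
    rw [h1, h2]


end Pool.Agent.ABI
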