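import Pool.Agent.Lib_helper27.ABIF.Defs2
import Pool.Agent.Lib_helper74.CKF.ADDR

set_option autoImplicit false

namespace Pool.Agent.ABI

open Pool.Agent.CK
open Pool.Agent.NPC (Lit St lw tw Cert Term Rst Comp res Stuck RS wt pw GoodRoot HBig te hx NC labs
  rv rq)
open Pool.Agent.ABO (Par Lvl lev CircF hits Fml Gate Circuit Game Hard Desc cst cTree gsz)
open Pool.Agent.TD.IS (PosI Stg patchI simI)
open Pool.Agent.TD (Lam dd)

theorem codeR_pos (R : Lang) : (∀ w, (∃ p, sdec w = some p) → codeR R w = false) ∧
    (∀ w, (∃ p, tdec w = some p) → codeR R w = false) ∧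
    ∀ x : Str, codeR R (if x.length % 2 = 1 then false :: false :: x
      else false :: true :: (x ++ [false])) = R x := by
  refine ⟨?_, ?_, ?_⟩
  · rintro w ⟨p, hp⟩
    obtain ⟨h1, rfl⟩ := sdec_eq hp
    have h2 : (il p.1 p.2.1).reverse.length % 2 = 0 := by
      rw [List.length_reverse, addr_il_length _ _ h1]; omega
    unfold saddr
    cases p.2.2 <;> simp [codeR, h2, -List.length_reverse]
  · rintro w ⟨p, hp⟩
    rw [tdec_eq hp]
    simp [taddr, codeR]
  · intro x
    split_ifs with h
    · simp [codeR, h]
    · have h' : (x.length + 1) % 2 = 1 := by omega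
      simp [codeR, h']

theorem codeR_out (N : ℕ) (x : Str) : (if x.length % 2 = 1 then false :: false :: x
      else false :: true :: (x ++ [false])) ∉ PosBd N := by
  rintro (⟨r, l, hrl, -, hw⟩ | ⟨e, z, b, c, -, -, -, hw⟩)
  · split_ifs at hw with h
    · simp [saddr] at hw
    · have h1 := congrArg List.length hw
      simp only [saddr, List.length_cons, List.length_append, List.length_reverse,
        List.length_nil] at h1
      rw [addr_il_length _ _ hrl] at h1
      omega
  · split_ifs at hw with h <;> simp [taddr] at hw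


end Pool.Agent.ABI
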