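import Pool.Agent.Lib_helper27.ABIF.Defs2
import Pool.Agent.Lib_helper27.ABO.B.HD

set_option autoImplicit false

namespace Pool.Agent.ABI

open Pool.Agent.CK
open Pool.Agent.NPC (Lit St lw tw Cert Term Rst Comp res Stuck RS wt pw GoodRoot HBig te hx NC labs
  rv rq)
open Pool.Agent.ABO (Par Lvl lev CircF hits Fml Gate Circuit Game Hard Desc cst cTree gsz)
open Pool.Agent.TD.IS (PosI Stg patchI simI)
open Pool.Agent.TD (Lam dd)

theorem c3_addr (e : ℕ) (z : Str) (b : ℕ) (c : Bool) :
    taddr e z b c = [true, c] ++ (ABO.hd_pat b e (alen e z) ++ z) := by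
  simp [taddr, ABO.hd_pat]

/-- C3 -/
theorem exists_hdr2 (e h L : ℕ) : ∃ φ : Fml, φ.size ≤ 6 * L + 10 ∧ φ.Below L ∧
    ∀ w : Str, w.length = L → (φ.eval w = true ↔
      ∃ (z : Str) (b : ℕ) (c : Bool), z.length = h ∧ w = taddr e z b c) := by
  set A := (h + 2) ^ (e ^ 2) with hA
  have hlen : ∀ (z : Str) (b : ℕ) (c : Bool), z.length = h →
      (taddr e z b c).length = b + e + A + h + 5 := by
    intro z b c hz
    rw [c3_addr, List.length_append, List.length_append, ABO.hd_pat_len]
    have : alen e z = A := by rw [alen, hz]
    rw [this, hz]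
    simp only [List.length_cons, List.length_nil]
    omega
  by_cases hL : e + A + h + 5 ≤ L
  · obtain ⟨b, hb⟩ := Nat.exists_eq_add_of_le hL
    set m := b + e + A + 3 with hm
    have hLm : L = 2 + m + h := by omega
    refine ⟨Fml.eqC (0 :: List.range' 2 m) (true :: ABO.hd_pat b e A), ?_, ?_, ?_⟩
    · refine (Fml.size_eqC _ _).trans ?_
      simp only [List.length_cons, List.length_range']
      omega
    · apply Fml.below_eqC
      intro i hi
      simp only [List.mem_cons, List.mem_range'_1] at hi
      omega
    · intro w hw
      rw [Fml.eval_eqC _ _ _ (by simp [ABO.hd_pat_len, hm])]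
      rw [List.map_cons, ABO.hd_range w 2 m (by omega)]
      constructor
      · intro heq
        simp only [List.cons.injEq] at heq
        obtain ⟨h0, h2⟩ := heq
        refine ⟨w.drop (2 + m), b, w.getD 1 false, by rw [List.length_drop]; omega, ?_⟩
        rw [c3_addr]
        have hal : alen e (w.drop (2 + m)) = A := by
          rw [alen, List.length_drop]
          have : w.length - (2 + m) = h := by omega
          rw [this]
        rw [hal, ← h2]
        have e1 : (w.drop 2).take m ++ w.drop (2 + m) = w.drop 2 := by
          rw [← List.drop_drop, List.take_append_drop]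
        rw [e1]
        match w, hw with
        | a0 :: a1 :: u, _ =>
          simp only [List.getD_cons_zero] at h0
          simp [h0]
        | [], hw => simp at hw; omega
        | [_], hw => simp at hw; omega
      · rintro ⟨z, b', c, hz, rfl⟩
        have h3 := hlen z b' c hz
        have hbb : b' = b := by omega
        subst hbb
        have hal : alen e z = A := by rw [alen, hz]
        rw [c3_addr, hal]
        simp only [List.cons_append, List.nil_append, List.getD_cons_zero,
          List.drop_succ_cons, List.drop_zero, List.cons.injEq, true_and]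
        rw [List.take_append_of_le_length (by rw [ABO.hd_pat_len]), List.take_of_length_le
          (by rw [ABO.hd_pat_len])]
  · refine ⟨Fml.con false, (Fml.size_con false).trans (by omega), Fml.below_con _ _, ?_⟩
    intro w hw
    rw [Fml.eval_con]
    constructor
    · intro h1; exact absurd h1 (by decide)
    · rintro ⟨z, b, c, hz, rfl⟩
      rw [hlen z b c hz] at hw
      omega

/-- C3 -/
theorem taddr_parts2 (e : ℕ) (z : Str) (b : ℕ) (c : Bool) :
    (taddr e z b c).length = b + e + (z.length + 2) ^ (e ^ 2) + z.length + 5 ∧
    (taddr e z b c).getD 1 false = c ∧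
    ∀ i < z.length, (taddr e z b c).getD
      (b + e + (z.length + 2) ^ (e ^ 2) + 5 + i) false = z.getD i false := by
  refine ⟨?_, ?_, ?_⟩
  · rw [c3_addr, List.length_append, List.length_append, ABO.hd_pat_len]
    simp only [List.length_cons, List.length_nil, alen]
    omega
  · rw [c3_addr]
    rfl
  · intro i _
    have e1 : [true, c] ++ (ABO.hd_pat b e (alen e z) ++ z) =
        ([true, c] ++ ABO.hd_pat b e (alen e z)) ++ z := by rw [List.append_assoc]
    have e2 : ([true, c] ++ ABO.hd_pat b e (alen e z)).length =
        b + e + (z.length + 2) ^ (e ^ 2) + 5 := by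
      rw [List.length_append, ABO.hd_pat_len]
      simp only [List.length_cons, List.length_nil, alen]
      omega
    rw [c3_addr, e1, ← e2, List.getD_append_right _ _ _ _ (by omega)]
    congr 1
    omega


end Pool.Agent.ABI
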