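import Pool.Agent.Lib_helper27.ABIF.Defs2

/-!
-/

set_option autoImplicit false

namespace Pool.Agent.ABI

open Pool.Agent.CK
open Pool.Agent.NPC (Lit St lw tw Cert Term Rst Comp res Stuck RS wt pw GoodRoot HBig te hx NC labs
  rv rq)
open Pool.Agent.ABO (Par Lvl lev CircF hits Fml Gate Circuit Game Hard Desc cst cTree gsz)
open Pool.Agent.TD.IS (PosI Stg patchI simI)
open Pool.Agent.TD (Lam dd)

open Classical in
/-- C4 -/
theorem patch_stB {Qt : Type} (F : St → Lang) (items : Finset (ℕ × Str))
    (val : Qt → ℕ × Str → Str) (T : {it // it ∈ items} → Qt) (tv : ℕ × Str → Str)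
    (htv : ∀ it : {it // it ∈ items}, tv it.1 = val (T it) it.1) (ω : St) :
    patchI (stB items val) (F ω) T = tabF F items tv ω := by
  funext w
  unfold patchI tabF stB
  dsimp only
  rcases tdec w with _ | p
  · rfl
  · dsimp only
    by_cases h : p.1 ∈ items
    · rw [dif_pos h, if_pos h]
      show bit (val (T ⟨p.1, h⟩) p.1) p.2 = bit (tv p.1) p.2
      rw [htv ⟨p.1, h⟩]
    · rw [dif_neg h, if_neg h]


end Pool.Agent.ABI
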