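import Pool.Agent.Lib_helper27.ABIF.Defs2
import Pool.Agent.Lib_helper27.ABIF.B.C3

/-!
-/

set_option autoImplicit false

namespace Pool.Agent.ABI

open Pool.Agent.CK
open Pool.Agent.NPC (Lit St lw tw Cert Term Rst Comp res Stuck RS wt pw GoodRoot HBig te hx NC labs
  rv rq)
open Pool.Agent.ABO (Par Lvl lev CircF hits Fml Gate Circuit Game Hard Desc cst cTree gsz)
open Pool.Agent.TD.IS (PosI Stg patchI simI)
open Pool.Agent.TD (Lam dd)

/-! ### positions -/

theorem c4b_ps_intro {Qt : Type} {items : Finset (ℕ × Str)} {val : Qt → ℕ × Str → Str}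
    {e : ℕ} {z : Str} (h : (e, z) ∈ items) (b : ℕ) (c : Bool) :
    (stB items val).ps (taddr e z b c) =
      some (PosI.dir ⟨(e, z), h⟩ (⟨(e, z), h⟩, (b, c))) := by
  simp only [stB, tdec_taddr]
  rw [dif_pos h]

theorem c4b_ps_elim {Qt : Type} {items : Finset (ℕ × Str)} {val : Qt → ℕ × Str → Str} {w : Str}
    {p : PosI {it // it ∈ items} Qt ({it // it ∈ items} × (ℕ × Bool))}
    (h : (stB items val).ps w = some p) :
    ∃ (e : ℕ) (z : Str) (b : ℕ) (c : Bool) (hi : (e, z) ∈ items), w = taddr e z b c ∧
      p = PosI.dir ⟨(e, z), hi⟩ (⟨(e, z), hi⟩, (b, c)) := by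
  rcases ht : tdec w with _ | q
  · simp [stB, ht] at h
  · have hw := tdec_eq ht
    obtain ⟨⟨e, z⟩, ⟨b, c⟩⟩ := q
    simp only at hw
    by_cases hc : (e, z) ∈ items
    · have e1 := c4b_ps_intro (val := val) hc b c
      rw [← hw, h] at e1
      exact ⟨e, z, b, c, hc, hw, Option.some.inj e1⟩
    · have e1 : (stB items val).ps w = none := by
        simp only [stB, ht]
        rw [dif_neg hc]
      rw [e1] at h
      exact absurd h (by simp)

/-! ### headers -/

/-- the formula for the header of an address of an entry `(e, z)` with `|z| = h` -/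
noncomputable def c4b_hdr (l : ℕ) (p : ℕ × ℕ) : Fml := (exists_hdr2 p.1 p.2 l).choose

theorem c4b_hdr_size (l : ℕ) (p : ℕ × ℕ) : (c4b_hdr l p).size ≤ 6 * l + 10 :=
  (exists_hdr2 p.1 p.2 l).choose_spec.1

theorem c4b_hdr_below (l : ℕ) (p : ℕ × ℕ) : (c4b_hdr l p).Below l :=
  (exists_hdr2 p.1 p.2 l).choose_spec.2.1

theorem c4b_hdr_eval (w : Str) (p : ℕ × ℕ) : ((c4b_hdr w.length p).eval w = true ↔
    ∃ (z : Str) (b : ℕ) (c : Bool), z.length = p.2 ∧ w = taddr p.1 z b c) :=
  (exists_hdr2 p.1 p.2 w.length).choose_spec.2.2 w rfl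

theorem c4b_hdr_uniq {w z : Str} {e b : ℕ} {c : Bool} (hw : w = taddr e z b c) (p : ℕ × ℕ) :
    ((c4b_hdr w.length p).eval w = true ↔ p = (e, z.length)) := by
  rw [c4b_hdr_eval]
  constructor
  · rintro ⟨z', b', c', hz, hw'⟩
    rw [hw] at hw'
    obtain ⟨h1, h2, -, -⟩ := addr_taddr_inj hw'
    exact Prod.ext h1.symm (by rw [h2]; exact hz.symm)
  · rintro rfl
    exact ⟨z, b, c, rfl, hw⟩

open Classical in
/-- the possible pairs `(e, |z|)` -/
noncomputable def c4b_H (items : Finset (ℕ × Str)) (d l : ℕ) : List (ℕ × ℕ) :=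
  ((List.range (d + 1)).product (List.range (d + 1))).filter fun p =>
    (p.1, List.replicate p.2 false) ∈ items ∧ p.1 + (p.2 + 2) ^ (p.1 ^ 2) + p.2 + 5 ≤ l

theorem c4b_mem_H {items : Finset (ℕ × Str)} {d l : ℕ} {p : ℕ × ℕ} : p ∈ c4b_H items d l ↔
    (p.1 < d + 1 ∧ p.2 < d + 1) ∧ ((p.1, List.replicate p.2 false) ∈ items ∧
      p.1 + (p.2 + 2) ^ (p.1 ^ 2) + p.2 + 5 ≤ l) := by
  simp only [c4b_H, List.mem_filter, decide_eq_true_eq, List.product, List.mem_flatMap,
    List.mem_map, List.mem_range]
  constructor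
  · rintro ⟨⟨a, ha, b, hb, rfl⟩, h⟩
    exact ⟨⟨ha, hb⟩, h⟩
  · rintro ⟨⟨ha, hb⟩, h⟩
    exact ⟨⟨p.1, ha, p.2, hb, rfl⟩, h⟩

/-- the formula `ψ (e, |z|)`, where `(e, z)` is the entry -/
noncomputable def c4b_any (items : Finset (ℕ × Str)) (d l : ℕ) (ψ : ℕ × ℕ → Fml) : Fml :=
  Fml.any ((c4b_H items d l).map fun p => Fml.and (c4b_hdr l p) (ψ p))

theorem c4b_any_eval {items : Finset (ℕ × Str)} {d : ℕ} {w z : Str} {e b : ℕ} {c : Bool}
    (hi : (e, List.replicate z.length false) ∈ items) (hw : w = taddr e z b c)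
    (hd : w.length ≤ d) (ψ : ℕ × ℕ → Fml) :
    (c4b_any items d w.length ψ).eval w = (ψ (e, z.length)).eval w := by
  have hl : w.length = b + e + (z.length + 2) ^ (e ^ 2) + z.length + 5 := by
    rw [hw, (taddr_parts2 e z b c).1]
  rw [Bool.eq_iff_iff]
  simp only [c4b_any, Fml.eval_any, List.any_map, List.any_eq_true, Function.comp_apply,
    Fml.eval_and, Bool.and_eq_true]
  constructor
  · rintro ⟨p, _, h1, h2⟩
    rw [c4b_hdr_uniq hw] at h1
    rw [← h1]
    exact h2
  · intro h
    refine ⟨(e, z.length), ?_, (c4b_hdr_uniq hw _).2 rfl, h⟩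
    rw [c4b_mem_H]
    refine ⟨⟨?_, ?_⟩, hi, ?_⟩
    · show e < d + 1
      omega
    · show z.length < d + 1
      omega
    · show e + (z.length + 2) ^ (e ^ 2) + z.length + 5 ≤ w.length
      omega

theorem c4b_any_size {items : Finset (ℕ × Str)} {d l m : ℕ} (ψ : ℕ × ℕ → Fml) (hl : l ≤ d)
    (h : ∀ p ∈ c4b_H items d l, (ψ p).size ≤ m) :
    (c4b_any items d l ψ).size ≤ (d + 1) * (d + 1) * (6 * d + 10 + m + 3 + 5) + 3 := by
  have h1 := Fml.size_any ((c4b_H items d l).map fun p => Fml.and (c4b_hdr l p) (ψ p))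
    (6 * d + 10 + m + 3) (by
      intro φ hφ
      obtain ⟨p, hp, rfl⟩ := List.mem_map.1 hφ
      have h2 := h p hp
      have h3 := c4b_hdr_size l p
      rw [Fml.size_and]
      omega)
  refine h1.trans (Nat.add_le_add_right (Nat.mul_le_mul_right _ ?_) _)
  rw [List.length_map]
  refine (List.length_filter_le _ _).trans ?_
  have h2 : ((List.range (d + 1)).product (List.range (d + 1))).length =
      (List.range (d + 1)).length * (List.range (d + 1)).length :=
    List.length_product _ _
  rw [h2, List.length_range]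

theorem c4b_any_below {items : Finset (ℕ × Str)} {d l : ℕ} (ψ : ℕ × ℕ → Fml)
    (h : ∀ p ∈ c4b_H items d l, (ψ p).Below l) : (c4b_any items d l ψ).Below l := by
  refine Fml.below_any fun φ hφ => ?_
  obtain ⟨p, hp, rfl⟩ := List.mem_map.1 hφ
  exact Fml.below_and (c4b_hdr_below _ _) (h p hp)

/-! ### the code -/

/-- the code of an entry -/
def c4b_code (d : ℕ) (e : ℕ) (z : Str) : List Bool :=
  if e < d ∧ z.length < d then
    (List.replicate e true ++ false :: z) ++
      true :: List.replicate (2 * d + 2 - e - z.length) false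
  else List.replicate (2 * d + 4) false

theorem c4b_code_len (d e : ℕ) (z : Str) : (c4b_code d e z).length = 2 * d + 4 := by
  unfold c4b_code
  split_ifs with h
  · rw [List.length_append, List.length_append, List.length_cons, List.length_cons,
      List.length_replicate, List.length_replicate]
    omega
  · rw [List.length_replicate]

theorem c4b_key : ∀ (a b : ℕ) (u v : List Bool),
    List.replicate a false ++ true :: u = List.replicate b false ++ true :: v → u = v := by
  intro a
  induction a with
  | zero =>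
    intro b u v h
    cases b with
    | zero => simpa using h
    | succ b => simp [List.replicate_succ] at h
  | succ a ih =>
    intro b u v h
    cases b with
    | zero => simp [List.replicate_succ] at h
    | succ b =>
      refine ih b u v ?_
      simpa [List.replicate_succ] using h

theorem c4b_last (x y : List Bool) (a b : ℕ)
    (h : x ++ true :: List.replicate a false = y ++ true :: List.replicate b false) : x = y := by
  have h1 := congrArg List.reverse h
  simp only [List.reverse_append, List.reverse_cons, List.reverse_replicate,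
    List.append_assoc, List.singleton_append] at h1
  exact List.reverse_injective (c4b_key a b _ _ h1)

theorem c4b_first : ∀ (e e' : ℕ) (z z' : List Bool),
    List.replicate e true ++ false :: z = List.replicate e' true ++ false :: z' →
      e = e' ∧ z = z' := by
  intro e
  induction e with
  | zero =>
    intro e' z z' h
    cases e' with
    | zero => simpa using h
    | succ e' => simp [List.replicate_succ] at h
  | succ e ih =>
    intro e' z z' h
    cases e' with
    | zero => simp [List.replicate_succ] at h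
    | succ e' =>
      have h1 : List.replicate e true ++ false :: z = List.replicate e' true ++ false :: z' := by
        simpa [List.replicate_succ] using h
      obtain ⟨h2, h3⟩ := ih e' z z' h1
      exact ⟨by rw [h2], h3⟩

theorem c4b_code_inj {d e e' : ℕ} {z z' : Str} (he : e < d) (hz : z.length < d)
    (h : c4b_code d e' z' = c4b_code d e z) : e' = e ∧ z' = z := by
  unfold c4b_code at h
  rw [if_pos (⟨he, hz⟩ : e < d ∧ z.length < d)] at h
  split_ifs at h with h1
  · exact c4b_first _ _ _ _ (c4b_last _ _ _ _ h)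
  · exfalso
    have h2 : true ∈ List.replicate (2 * d + 4) false := by
      rw [h]
      simp
    exact absurd (List.eq_of_mem_replicate h2) (by simp)

/-- the formula for bit `i` of the code, for entries `(e, z)` with `p = (e, |z|)` -/
def c4b_bit (l i : ℕ) (p : ℕ × ℕ) : Fml :=
  if i < p.1 then Fml.con true else
    if i < p.1 + 1 then Fml.con false else
      if i < p.1 + 1 + p.2 then Fml.var (l - p.2 + (i - (p.1 + 1)))
        else Fml.con (decide (i = p.1 + 1 + p.2))

theorem c4b_bit_eval {d : ℕ} {w z : Str} {e b : ℕ} {c : Bool} (hw : w = taddr e z b c)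
    (hd : w.length ≤ d) (i : ℕ) :
    (c4b_bit w.length i (e, z.length)).eval w = (c4b_code d e z).getD i false := by
  have hl : w.length = b + e + (z.length + 2) ^ (e ^ 2) + z.length + 5 := by
    rw [hw, (taddr_parts2 e z b c).1]
  have hed : e < d := by omega
  have hzd : z.length < d := by omega
  unfold c4b_bit c4b_code
  rw [if_pos (⟨hed, hzd⟩ : e < d ∧ z.length < d)]
  simp only
  have hL : (List.replicate e true ++ false :: z).length = e + 1 + z.length := by
    rw [List.length_append, List.length_replicate, List.length_cons]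
    omega
  by_cases h1 : i < e
  · rw [if_pos h1, Fml.eval_con, List.getD_append _ _ _ _ (by rw [hL]; omega),
      List.getD_append _ _ _ _ (by rw [List.length_replicate]; exact h1),
      List.getD_replicate _ h1]
  · rw [if_neg h1]
    by_cases h2 : i < e + 1
    · have h3 : i = e := by omega
      rw [if_pos h2, Fml.eval_con, List.getD_append _ _ _ _ (by rw [hL]; omega),
        List.getD_append_right _ _ _ _ (by rw [List.length_replicate]; omega),
        List.length_replicate, h3, Nat.sub_self, List.getD_cons_zero]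
    · rw [if_neg h2]
      by_cases h3 : i < e + 1 + z.length
      · rw [if_pos h3, List.getD_append _ _ _ _ (by rw [hL]; omega),
          List.getD_append_right _ _ _ _ (by rw [List.length_replicate]; omega),
          List.length_replicate]
        have h4 : i - e = (i - (e + 1)) + 1 := by omega
        rw [h4, List.getD_cons_succ]
        show w.getD (w.length - z.length + (i - (e + 1))) false = _
        have h5 : w.length - z.length + (i - (e + 1)) =
            b + e + (z.length + 2) ^ (e ^ 2) + 5 + (i - (e + 1)) := by omega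
        rw [h5]
        nth_rewrite 1 [hw]
        exact (taddr_parts2 e z b c).2.2 (i - (e + 1)) (by omega)
      · rw [if_neg h3, Fml.eval_con, List.getD_append_right _ _ _ _ (by rw [hL]; omega), hL]
        rcases Nat.eq_or_lt_of_le (not_lt.1 h3) with h4 | h4
        · rw [← h4]
          simp
        · have h5 : i - (e + 1 + z.length) = (i - (e + 1 + z.length) - 1) + 1 := by omega
          have h6 : decide (i = e + 1 + z.length) = false := by
            rw [decide_eq_false_iff_not]
            omega
          rw [h5, List.getD_cons_succ, h6]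
          rcases lt_or_ge (i - (e + 1 + z.length) - 1) (2 * d + 2 - e - z.length) with h7 | h7
          · rw [List.getD_replicate _ h7]
          · rw [List.getD_eq_default]
            rw [List.length_replicate]
            exact h7

/-! ### the value -/

/-- the formula for the answer, for entries `(e, z)` with `p = (e, |z|)` and value `v` -/
def c4b_rd (l : ℕ) (v : ℕ × ℕ → Str) (p : ℕ × ℕ) : Fml :=
  Fml.ite (Fml.var 1)
    (Fml.con (bit (v p) (l - (p.1 + (p.2 + 2) ^ (p.1 ^ 2) + p.2 + 5), true)))
    (Fml.con (bit (v p) (l - (p.1 + (p.2 + 2) ^ (p.1 ^ 2) + p.2 + 5), false)))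

theorem c4b_rd_size (l : ℕ) (v : ℕ × ℕ → Str) (p : ℕ × ℕ) : (c4b_rd l v p).size ≤ 21 := by
  unfold c4b_rd
  rw [Fml.size_ite]
  have h1 := Fml.size_con (bit (v p) (l - (p.1 + (p.2 + 2) ^ (p.1 ^ 2) + p.2 + 5), true))
  have h2 := Fml.size_con (bit (v p) (l - (p.1 + (p.2 + 2) ^ (p.1 ^ 2) + p.2 + 5), false))
  have h3 : (Fml.var 1).size = 1 := rfl
  rw [h3]
  omega

theorem c4b_rd_eval {w z : Str} {e b : ℕ} {c : Bool} (hw : w = taddr e z b c)
    (v : ℕ × ℕ → Str) :
    (c4b_rd w.length v (e, z.length)).eval w = bit (v (e, z.length)) (b, c) := by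
  have hl : w.length = b + e + (z.length + 2) ^ (e ^ 2) + z.length + 5 := by
    rw [hw, (taddr_parts2 e z b c).1]
  have h2 : (Fml.var 1).eval w = c := by
    show w.getD 1 false = c
    rw [hw]
    exact (taddr_parts2 e z b c).2.1
  have hb : w.length - (e + (z.length + 2) ^ (e ^ 2) + z.length + 5) = b := by omega
  unfold c4b_rd
  rw [Fml.eval_ite, h2]
  simp only [Fml.eval_con, hb]
  cases c <;> simp

theorem c4b_num (d m : ℕ) (hm : m ≤ 21) :
    (d + 1) * (d + 1) * (6 * d + 10 + m + 3 + 5) + 3 ≤ 256 * (d + 1) ^ 4 := by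
  have h1 : 6 * d + 10 + m + 3 + 5 ≤ 39 * (d + 1) := by omega
  have h2 : (d + 1) * (d + 1) * (6 * d + 10 + m + 3 + 5) ≤ (d + 1) * (d + 1) * (39 * (d + 1)) :=
    Nat.mul_le_mul_left _ h1
  have h3 : (d + 1) * (d + 1) * (39 * (d + 1)) = 39 * (d + 1) ^ 3 := by ring
  have h4 : (d + 1) ^ 3 ≤ (d + 1) ^ 4 := Nat.pow_le_pow_right (Nat.succ_pos d) (by norm_num)
  have h5 : 1 ≤ (d + 1) ^ 4 := Nat.one_le_pow _ _ (Nat.succ_pos d)
  omega

theorem c4b_con (d : ℕ) (b : Bool) : (Fml.con b).size ≤ 256 * (d + 1) ^ 4 := by
  have h := Fml.size_con b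
  have h1 : 1 ≤ (d + 1) ^ 4 := Nat.one_le_pow _ _ (Nat.succ_pos d)
  omega

/-- C4b -/
theorem exists_descB {Qt : Type} (items : Finset (ℕ × Str)) (val : Qt → ℕ × Str → Str) (d : ℕ)
    (hit : ∀ e (z z' : Str), z.length = z'.length → (e, z) ∈ items → (e, z') ∈ items)
    (hval : ∀ q e (z z' : Str), z.length = z'.length → val q (e, z) = val q (e, z')) :
    Nonempty (Desc (stB items val) d (256 * (d + 1) ^ 4) (2 * d + 4)) := by
  have hinv : ∀ (w : Str) (l : ℕ) (q : Qt) (i : {it // it ∈ items} × (ℕ × Bool)),
      (stB items val).ps w = some (PosI.inv l q i) → False := by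
    intro w l q i h
    obtain ⟨e, z, b, c, hi, -, h1⟩ := c4b_ps_elim h
    exact absurd h1 (by simp)
  have hrep : ∀ (e : ℕ) (z : Str), (e, z) ∈ items →
      (e, List.replicate z.length false) ∈ items := fun e z h =>
    hit e z _ (by rw [List.length_replicate]) h
  refine ⟨{
    dirF := fun l => c4b_any items d l fun _ => Fml.con true
    invF := fun _ => Fml.con false
    rep := fun l => (List.range (2 * d + 4)).map fun i => c4b_any items d l (c4b_bit l i)
    rdF := fun l q => c4b_any items d l
      (c4b_rd l fun p => val q (p.1, List.replicate p.2 false))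
    matF := fun _ _ => Fml.con false
    rzF := fun _ => Fml.con false
    rz0F := fun _ => Fml.con false
    code := fun it => c4b_code d it.1.1 it.1.2
    inj := ?_
    code_len := fun it => c4b_code_len d _ _
    rep_len := fun l => by simp
    dirF_eval := ?_
    invF_eval := ?_
    rep_eval := ?_
    rdF_eval := ?_
    matF_eval := fun w _ l q i h => (hinv w l q i h).elim
    rzF_eval := fun w _ l q i h => (hinv w l q i h).elim
    rz0F_eval := fun w _ l q i h => (hinv w l q i h).elim
    dirF_size := ?_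
    invF_size := fun l _ => ⟨c4b_con _ _, Fml.below_con _ _⟩
    rep_size := ?_
    rdF_size := ?_
    matF_size := fun l _ _ => ⟨c4b_con _ _, Fml.below_con _ _⟩
    rzF_size := fun l _ => ⟨c4b_con _ _, Fml.below_con _ _⟩
    rz0F_size := fun l _ => ⟨c4b_con _ _, Fml.below_con _ _⟩ }⟩
  · intro w hw it i h it' hz'
    obtain ⟨e, z, b, c, hi, hw', h1⟩ := c4b_ps_elim h
    have h2 : it = ⟨(e, z), hi⟩ := (PosI.dir.inj h1).1
    have hl : w.length = b + e + (z.length + 2) ^ (e ^ 2) + z.length + 5 := by
      rw [hw', (taddr_parts2 e z b c).1]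
    subst h2
    obtain ⟨h3, h4⟩ := c4b_code_inj (d := d) (e := e) (z := z) (by omega) (by omega) hz'
    exact Subtype.ext (Prod.ext h3 h4)
  · intro w hw
    constructor
    · intro h
      simp only [c4b_any, Fml.eval_any, List.any_map, List.any_eq_true, Function.comp_apply,
        Fml.eval_and, Bool.and_eq_true, Fml.eval_con, and_true] at h
      obtain ⟨p, h1, h2⟩ := h
      obtain ⟨z, b, c, hz, hw'⟩ := (c4b_hdr_eval w p).1 h2
      rw [c4b_mem_H] at h1
      have hi : (p.1, z) ∈ items :=
        hit p.1 _ z (by rw [List.length_replicate, hz]) h1.2.1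
      refine ⟨⟨(p.1, z), hi⟩, (⟨(p.1, z), hi⟩, (b, c)), ?_⟩
      rw [hw']
      exact c4b_ps_intro hi b c
    · rintro ⟨it, i, h⟩
      obtain ⟨e, z, b, c, hi, hw', h1⟩ := c4b_ps_elim h
      rw [c4b_any_eval (hrep e z hi) hw' hw, Fml.eval_con]
  · intro w hw
    rw [Fml.eval_con]
    constructor
    · intro h
      exact absurd h (by simp)
    · rintro ⟨l, q, i, h⟩
      exact (hinv w l q i h).elim
  · intro w hw it i h
    obtain ⟨e, z, b, c, hi, hw', h1⟩ := c4b_ps_elim h
    have h2 : it = ⟨(e, z), hi⟩ := (PosI.dir.inj h1).1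
    subst h2
    rw [List.map_map]
    refine List.ext_getElem (by rw [c4b_code_len]; simp) fun j h3 h4 => ?_
    rw [List.getElem_map, List.getElem_range, Function.comp_apply,
      c4b_any_eval (hrep e z hi) hw' hw, c4b_bit_eval hw' hw, List.getD_eq_getElem _ _ h4]
  · intro w hw it i h q
    obtain ⟨e, z, b, c, hi, hw', h1⟩ := c4b_ps_elim h
    have h2 : i = (⟨(e, z), hi⟩, (b, c)) := (PosI.dir.inj h1).2
    rw [h2, c4b_any_eval (hrep e z hi) hw' hw, c4b_rd_eval hw']
    show bit (val q (e, List.replicate z.length false)) (b, c) = bit (val q (e, z)) (b, c)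
    rw [hval q e (List.replicate z.length false) z (by rw [List.length_replicate])]
  · intro l hl
    refine ⟨(c4b_any_size (m := 3) _ hl fun _ _ => Fml.size_con _).trans
      (c4b_num d 3 (by omega)), c4b_any_below _ fun _ _ => Fml.below_con _ _⟩
  · intro l hl φ hφ
    obtain ⟨i, hi, rfl⟩ := List.mem_map.1 hφ
    refine ⟨(c4b_any_size (m := 3) _ hl fun p hp => ?_).trans (c4b_num d 3 (by omega)),
      c4b_any_below _ fun p hp => ?_⟩
    · unfold c4b_bit
      split_ifs
      · exact Fml.size_con _
      · exact Fml.size_con _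
      · show 1 ≤ 3
        omega
      · exact Fml.size_con _
    · unfold c4b_bit
      rw [c4b_mem_H] at hp
      split_ifs with h1 h2 h3
      · exact Fml.below_con _ _
      · exact Fml.below_con _ _
      · show l - p.2 + (i - (p.1 + 1)) < l
        omega
      · exact Fml.below_con _ _
  · intro l hl q
    refine ⟨(c4b_any_size (m := 21) _ hl fun p hp => c4b_rd_size _ _ _).trans
      (c4b_num d _ le_rfl), c4b_any_below _ fun p hp => ?_⟩
    rw [c4b_mem_H] at hp
    unfold c4b_rd
    refine Fml.below_ite ?_ (Fml.below_con _ _) (Fml.below_con _ _)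
    show 1 < l
    omega

end Pool.Agent.ABI

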