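import Pool.Agent.Lib_helper27.ABIF.Defs2

/-!
-/

set_option autoImplicit false

namespace Pool.Agent.ABI

open Pool.Agent.CK
open Pool.Agent.NPC (Lit St lw tw Cert Term Rst Comp res Stuck RS wt pw GoodRoot HBig te hx NC labs
  rv rq)
open Pool.Agent.ABO (Par Lvl lev CircF hits Fml Gate Circuit Game Hard Desc cst cTree gsz)
open Pool.Agent.TD.IS (PosI Stg patchI simI)
open Pool.Agent.TD (Lam dd)

theorem c5_card_X (n : ℕ) : (Fintype.card (X n) : ℝ) = 2 ^ n := by
  have h : Fintype.card (X n) = 2 ^ n := by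
    have : Fintype.card (List.Vector Bool n) = 2 ^ n := by simp
    exact (Fintype.card_congr (Equiv.refl _)).trans this
  rw [h]
  push_cast
  rfl

/-- `(1 + 1/(3D)) ^ (3 D (c+1)) ≥ 2 ^ (c+1)` -/
theorem c5_pow (D c : ℕ) (hD : 1 ≤ D) :
    (1 : ℝ) < (1 + 1 / (3 * (D : ℝ))) ^ (3 * D * (c + 1)) * (1 / 2 : ℝ) ^ c := by
  have hD' : (0 : ℝ) < D := by exact_mod_cast hD
  have h1 : (2 : ℝ) ≤ (1 + 1 / (3 * (D : ℝ))) ^ (3 * D) := by
    have hb := one_add_mul_le_pow (a := 1 / (3 * (D : ℝ)))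
      (by have : (0 : ℝ) ≤ 1 / (3 * (D : ℝ)) := by positivity
          linarith) (3 * D)
    have he : 1 + ((3 * D : ℕ) : ℝ) * (1 / (3 * (D : ℝ))) = 2 := by
      push_cast
      field_simp
      norm_num
    rw [he] at hb
    exact hb
  rw [pow_mul]
  have h2 : (2 : ℝ) ^ (c + 1) ≤ ((1 + 1 / (3 * (D : ℝ))) ^ (3 * D)) ^ (c + 1) :=
    pow_le_pow_left₀ (by norm_num) h1 _
  have h3 : (0 : ℝ) < (1 / 2 : ℝ) ^ c := by positivity
  have h4 : (2 : ℝ) ^ (c + 1) * (1 / 2 : ℝ) ^ c = 2 := by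
    rw [pow_succ, mul_assoc, mul_comm (2 : ℝ) ((1 / 2 : ℝ) ^ c), ← mul_assoc, ← mul_pow]
    norm_num
  calc (1 : ℝ) < 2 := by norm_num
    _ = (2 : ℝ) ^ (c + 1) * (1 / 2 : ℝ) ^ c := h4.symm
    _ ≤ _ := mul_le_mul_of_nonneg_right h2 h3.le

/-- the stage with a dummy component -/
def c5_G {Zt Qt ι : Type} (K : Type) (G : Stg Zt Qt ι) : Stg Zt (Qt × K) ι where
  ps w := match G.ps w with
    | none => none
    | some (PosI.dir z i) => some (PosI.dir z i)
    | some (PosI.inv _ _ _) => none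
  ln := G.ln
  rd q i := G.rd q.1 i
  rz := G.rz

theorem c5_lookup {Zt Qt K : Type} [DecidableEq Zt] (z : Zt) : ∀ ρ : List (Zt × (Qt × K)),
    (ρ.map fun p => (p.1, p.2.1)).lookup z = (ρ.lookup z).map Prod.fst := by
  intro ρ
  induction ρ with
  | nil => rfl
  | cons a l ih =>
    obtain ⟨x, q⟩ := a
    rw [List.map_cons, List.lookup_cons, List.lookup_cons]
    by_cases h : z = x
    · subst h
      simp
    · have h' : (z == x) = false := by simpa using h
      simp only [h', ih]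

theorem c5_sim {β Zt Qt ι K : Type} [DecidableEq Zt] (G : Stg Zt Qt ι)
    (hinv : ∀ w l q i, G.ps w ≠ some (PosI.inv l q i)) (d0 : β) (t : DT β) :
    ∀ (ρ : List (Zt × (Qt × K))) (r : List (Qt × K)),
    simI (c5_G K G) d0 t ρ r = simI G d0 t (ρ.map fun p => (p.1, p.2.1)) (r.map Prod.fst) := by
  induction t with
  | leaf b => intro ρ r; rw [simI, simI]
  | node w n0 n1 ih0 ih1 =>
    intro ρ r
    rcases h : G.ps w with _ | ⟨z, i⟩ | ⟨l, q, i⟩
    · have h' : (c5_G K G).ps w = none := by simp [c5_G, h]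
      simp only [simI, h, h']
      rw [ih0, ih1]
    · have h' : (c5_G K G).ps w = some (PosI.dir z i) := by simp [c5_G, h]
      simp only [simI, h, h', c5_lookup]
      rcases ρ.lookup z with _ | q
      · rcases r with _ | ⟨q, r⟩
        · rfl
        · simp only [Option.map_none, List.map_cons]
          show (if G.rd q.1 i = true then _ else _) = _
          rw [ih0, ih1]
          rfl
      · simp only [Option.map_some]
        show (if G.rd q.1 i = true then _ else _) = _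
        rw [ih0, ih1]
    · exact absurd h (hinv w l q i)

theorem c5_patch {Zt Qt ι K : Type} [DecidableEq Zt] (G : Stg Zt Qt ι)
    (hinv : ∀ w l q i, G.ps w ≠ some (PosI.inv l q i)) (O : Lang) (T : Zt → Qt × K) :
    patchI (c5_G K G) O T = patchI G O (fun z => (T z).1) := by
  funext w
  rcases h : G.ps w with _ | ⟨z, i⟩ | ⟨l, q, i⟩
  · have h' : (c5_G K G).ps w = none := by simp [c5_G, h]
    simp only [patchI, h, h']
  · have h' : (c5_G K G).ps w = some (PosI.dir z i) := by simp [c5_G, h]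
    simp only [patchI, h, h']
    rfl
  · exact absurd h (hinv w l q i)

theorem c5_pr {Zt Qt K : Type} [Fintype Zt] [DecidableEq Zt] [Fintype Qt] [DecidableEq Qt]
    [Fintype K] [DecidableEq K] [Nonempty K] [Nonempty Qt] (F : (Zt → Qt) → ℝ) :
    Pr (fun (_ : Zt) (_ : Qt × K) => (1 : ℝ) / Fintype.card (Qt × K)) []
      (fun T => F (fun z => (T z).1)) =
    Pr (fun (_ : Zt) (_ : Qt) => (1 : ℝ) / Fintype.card Qt) [] F := by
  unfold Pr
  have e1 : ∀ T : Zt → Qt × K, (∏ z, CK.wt (fun (_ : Zt) (_ : Qt × K) =>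
      (1 : ℝ) / Fintype.card (Qt × K)) [] z (T z)) =
      ((1 : ℝ) / Fintype.card (Qt × K)) ^ Fintype.card Zt := by
    intro T
    simp [CK.wt, Finset.prod_const, Finset.card_univ]
  have e2 : ∀ T : Zt → Qt, (∏ z, CK.wt (fun (_ : Zt) (_ : Qt) =>
      (1 : ℝ) / Fintype.card Qt) [] z (T z)) =
      ((1 : ℝ) / Fintype.card Qt) ^ Fintype.card Zt := by
    intro T
    simp [CK.wt, Finset.prod_const, Finset.card_univ]
  simp only [e1, e2]
  rw [← Finset.mul_sum, ← Finset.mul_sum]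
  have e3 : ∑ T : Zt → Qt × K, F (fun z => (T z).1) =
      (Fintype.card K : ℝ) ^ Fintype.card Zt * ∑ T : Zt → Qt, F T := by
    rw [← (Equiv.arrowProdEquivProdArrow Zt (fun _ => Qt) (fun _ => K)).symm.sum_comp,
      Fintype.sum_prod_type]
    rw [Finset.mul_sum]
    refine Finset.sum_congr rfl fun T _ => ?_
    have : ∀ y : Zt → K, F (fun z => ((Equiv.arrowProdEquivProdArrow Zt (fun _ => Qt)
        (fun _ => K)).symm (T, y) z).1) = F T := fun y => rfl
    simp only [this]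
    rw [Finset.sum_const, Finset.card_univ, nsmul_eq_mul, Fintype.card_fun]
    push_cast
    rfl
  rw [e3, ← mul_assoc, ← mul_pow]
  congr 2
  rw [Fintype.card_prod]
  push_cast
  have hK : (Fintype.card K : ℝ) ≠ 0 := by exact_mod_cast Fintype.card_ne_zero
  have hQ : (Fintype.card Qt : ℝ) ≠ 0 := by exact_mod_cast Fintype.card_ne_zero
  field_simp

theorem c5_hits {s : ℕ} (B : X s → DT Str) (O : Lang) :
    ∑ x, ind (((B x).map fun y => y == [true]).eval O) =
      (hits (fun _ => [true]) B O : ℝ) := by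
  unfold hits
  rw [Finset.card_filter]
  push_cast
  refine Finset.sum_congr rfl fun x _ => ?_
  rw [DT.eval_map]
  unfold ind
  by_cases h : (B x).eval O = [true]
  · rw [if_pos h, h]
    rfl
  · rw [if_neg h, if_neg]
    simpa using h

/-- `v + 1/(4D) + d ε ≤ (v + 1/D) / (1 + 1/(3D))` -/
theorem c5_num (v : ℝ) (hv0 : 0 ≤ v) (hv1 : v ≤ 1) (D d : ℕ) (hD : 1 ≤ D) (ε : ℝ)
    (hε : (d : ℝ) * ε ≤ 1 / (4 * D)) :
    v + 1 / (4 * D) + d * ε ≤ (v + 1 / (D : ℝ)) / (1 + 1 / (3 * (D : ℝ))) := by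
  have hD' : (0 : ℝ) < D := by exact_mod_cast hD
  have hD1 : (1 : ℝ) ≤ D := by exact_mod_cast hD
  set η : ℝ := 1 / (D : ℝ) with hη
  have hη0 : 0 < η := by positivity
  have hη1 : η ≤ 1 := by
    rw [hη, div_le_one hD']
    exact hD1
  have e1 : 1 / (3 * (D : ℝ)) = η / 3 := by
    rw [hη]
    field_simp
  have e2 : 1 / (4 * (D : ℝ)) = η / 4 := by
    rw [hη]
    field_simp
  rw [e1, le_div_iff₀ (by positivity)]
  rw [e2] at hε ⊢
  have h3 : (v + η / 2) * (1 + η / 3) ≤ v + η := by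
    nlinarith [mul_nonneg hη0.le (sub_nonneg.2 hv1), mul_nonneg hη0.le (sub_nonneg.2 hη1)]
  have h4 : (v + η / 4 + d * ε) * (1 + η / 3) ≤ (v + η / 2) * (1 + η / 3) :=
    mul_le_mul_of_nonneg_right (by linarith) (by positivity)
  linarith

open Classical in
theorem table_one {Zt Qt ι : Type} [Fintype Zt] [DecidableEq Zt] [Fintype Qt] [DecidableEq Qt]
    [Nonempty Qt] (G : Stg Zt Qt ι) (hinv : ∀ w l q i, G.ps w ≠ some (PosI.inv l q i))
    (hln : Function.Injective G.ln) (O : Lang) {s d : ℕ} (A : X s → DT Str)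
    (hA : ∀ x, (A x).depth ≤ d) (v : ℝ) (hv0 : 0 ≤ v) (hv1 : v ≤ 1) (D : ℕ) (hD : 1 ≤ D) (c : ℕ)
    (hsim : ∀ (ρ : List (Zt × Qt)) (r : List Qt), ρ.length ≤ 3 * D * (c + 1) * d → r.length = d →
      (hits (fun _ => [true]) (fun x => simI G [] (A x) ρ r) O : ℝ) <
        (v + 1 / (4 * D)) * 2 ^ s) :
    Pr (fun (_ : Zt) (_ : Qt) => (1 : ℝ) / Fintype.card Qt) [] (fun T => ind (decide
      ((v + 1 / D) * 2 ^ s ≤ (hits (fun _ => [true]) A (patchI G O T) : ℝ)))) ≤
        (1 / 2 : ℝ) ^ c := by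
  have hD' : (0 : ℝ) < D := by exact_mod_cast hD
  set M : ℕ := 4 * D * d + 1 with hM
  have : Nonempty (Fin M) := ⟨⟨0, by omega⟩⟩
  set ε : ℝ := 1 / (Fintype.card (Qt × Fin M) : ℝ) with hε
  have hcardpos : (0 : ℝ) < (Fintype.card (Qt × Fin M) : ℝ) := by
    exact_mod_cast Fintype.card_pos
  have hε0 : 0 ≤ ε := by positivity
  have hMle : ((M : ℕ) : ℝ) ≤ (Fintype.card (Qt × Fin M) : ℝ) := by
    rw [Fintype.card_prod, Fintype.card_fin]
    have : 1 ≤ Fintype.card Qt := Fintype.card_pos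
    have h2 : M ≤ Fintype.card Qt * M := Nat.le_mul_of_pos_left _ this
    exact_mod_cast h2
  have hdε : (d : ℝ) * ε ≤ 1 / (4 * D) := by
    have h1 : ε ≤ 1 / (M : ℝ) :=
      one_div_le_one_div_of_le (by rw [hM]; positivity) hMle
    have h2 : (d : ℝ) * ε ≤ d * (1 / (M : ℝ)) := mul_le_mul_of_nonneg_left h1 (Nat.cast_nonneg _)
    refine h2.trans ?_
    rw [mul_one_div, div_le_div_iff₀ (by rw [hM]; positivity) (by positivity), hM]
    push_cast
    nlinarith
  have hsum : ∀ l (q : Qt × Fin M), ∑ z with (c5_G (Fin M) G).ln z = l, ε ≤ ε := by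
    intro l q
    rw [Finset.sum_const, nsmul_eq_mul]
    have h : (Finset.univ.filter fun z : Zt => (c5_G (Fin M) G).ln z = l).card ≤ 1 := by
      rw [Finset.card_le_one]
      intro a ha b hb
      rw [Finset.mem_filter] at ha hb
      have ha' : G.ln a = l := ha.2
      have hb' : G.ln b = l := hb.2
      exact hln (ha'.trans hb'.symm)
    have h' : ((Finset.univ.filter fun z : Zt => (c5_G (Fin M) G).ln z = l).card : ℝ) ≤ 1 := by
      exact_mod_cast h
    calc _ ≤ 1 * ε := mul_le_mul_of_nonneg_right h' hε0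
      _ = _ := one_mul _
  have hmain := TD.IS.failprobG (fun (_ : Bool) (_ : Qt × Fin M) => ε)
    (fun _ => ⟨fun _ => hε0, by
      rw [Finset.sum_const, nsmul_eq_mul, Finset.card_univ, hε]
      field_simp⟩) (fun _ : Zt => true) (c5_G (Fin M) G)
    O (fun x => (A x).map fun y => y == [true]) d
    (fun x => by rw [DT.depth_map]; exact hA x) ε 0 hε0
    (le_refl _) hsum ((v + 1 / D) * 2 ^ s) (1 / (3 * (D : ℝ)))
    (by positivity) (3 * D * (c + 1)) ((1 / 2 : ℝ) ^ c) (by positivity)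
    (c5_pow _ _ hD) (fun x ρ pre post _ _ _ => by simp) ?_
  · have e := c5_pr (Zt := Zt) (K := Fin M) (fun T : Zt → Qt => ind (decide
      ((v + 1 / D) * 2 ^ s ≤ (hits (fun _ => [true]) A (patchI G O T) : ℝ))))
    rw [← e]
    refine le_trans (le_of_eq ?_) hmain
    congr 1
    funext T
    rw [c5_hits A, c5_patch G hinv]
  · intro ρ r hρ hr
    have h1 : ∀ x, ((simI (c5_G (Fin M) G) false ((A x).map fun y => y == [true]) ρ r)) =
        ((simI G [] (A x) (ρ.map fun p => (p.1, p.2.1)) (r.map Prod.fst)).map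
          fun y => y == [true]) := by
      intro x
      have h2 := TD.IS.simI_map (c5_G (Fin M) G) ([] : Str) (fun y => y == [true]) (A x) ρ r
      have h3 : (([] : Str) == [true]) = false := rfl
      rw [h3] at h2
      rw [← h2, c5_sim G hinv]
    have h4 : ∑ x, ind ((simI (c5_G (Fin M) G) false ((A x).map fun y => y == [true]) ρ r).eval O) =
        (hits (fun _ => [true]) (fun x => simI G [] (A x) (ρ.map fun p => (p.1, p.2.1))
          (r.map Prod.fst)) O : ℝ) := by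
      rw [← c5_hits]
      refine Finset.sum_congr rfl fun x _ => ?_
      rw [h1]
    rw [h4]
    have h5 := hsim (ρ.map fun p => (p.1, p.2.1)) (r.map Prod.fst)
      (by rw [List.length_map]; exact hρ) (by rw [List.length_map]; exact hr)
    refine lt_of_lt_of_le h5 ?_
    rw [c5_card_X, add_zero]
    have hnum := c5_num v hv0 hv1 D d hD ε hdε
    have hp : (0 : ℝ) < 2 ^ s := by positivity
    have h6 := mul_le_mul_of_nonneg_right hnum hp.le
    have e1 : (v + 1 / (D : ℝ)) / (1 + 1 / (3 * (D : ℝ))) * 2 ^ s =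
      (v + 1 / (D : ℝ)) * 2 ^ s / (1 + 1 / (3 * (D : ℝ))) := by ring
    rw [e1] at h6
    nlinarith [h6]


end Pool.Agent.ABI
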