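import Pool.Agent.Lib_helper27.ABIF.Defs2
import Pool.Agent.Lib_helper27.ABIF.B.C4b
import Pool.Agent.Lib_helper27.ABIF.B.C5

/-!
-/

set_option autoImplicit false
set_option linter.unusedSectionVars false

namespace Pool.Agent.ABI

open Pool.Agent.CK
open Pool.Agent.NPC (Lit St lw tw Cert Term Rst Comp res Stuck RS wt pw GoodRoot HBig te hx NC labs
  rv rq)
open Pool.Agent.ABO (Par Lvl lev CircF hits Fml Gate Circuit Game Hard Desc cst cTree gsz)
open Pool.Agent.TD.IS (PosI Stg patchI simI)
open Pool.Agent.TD (Lam dd)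

section ex

variable {ι Λ : Type} [Fintype ι] [DecidableEq ι] [DecidableEq Λ]

theorem c6_w_nonneg {p : ι → Finset Λ → ℝ} (hp0 : ∀ r S, 0 ≤ p r S) (S : ι → Finset Λ) :
    0 ≤ ∏ r, p r (S r) := Finset.prod_nonneg fun r _ => hp0 r (S r)

theorem c6_EX_one {p : ι → Finset Λ → ℝ} {H : ι → Finset Λ}
    (hp1 : ∀ r, ∑ S ∈ (H r).powerset, p r S = 1) : EX p H (fun _ => 1) = 1 := by
  unfold EX
  simp only [mul_one]
  rw [← Finset.prod_univ_sum (fun r => (H r).powerset) (fun r S => p r S)]
  exact Finset.prod_eq_one fun r _ => hp1 r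

theorem c6_EX_mono {p : ι → Finset Λ → ℝ} {H : ι → Finset Λ} (hp0 : ∀ r S, 0 ≤ p r S)
    {f g : (ι → Finset Λ) → ℝ} (h : ∀ S, f S ≤ g S) : EX p H f ≤ EX p H g :=
  Finset.sum_le_sum fun S _ => mul_le_mul_of_nonneg_left (h S) (c6_w_nonneg hp0 S)

theorem c6_EX_add (p : ι → Finset Λ → ℝ) (H : ι → Finset Λ) (f g : (ι → Finset Λ) → ℝ) :
    EX p H (fun S => f S + g S) = EX p H f + EX p H g := by
  unfold EX
  rw [← Finset.sum_add_distrib]
  exact Finset.sum_congr rfl fun S _ => mul_add _ _ _

theorem c6_EX_const (p : ι → Finset Λ → ℝ) (H : ι → Finset Λ) (a : ℝ)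
    (hp1 : ∀ r, ∑ S ∈ (H r).powerset, p r S = 1) : EX p H (fun _ => a) = a := by
  have h := c6_EX_one hp1
  unfold EX at h ⊢
  rw [← Finset.sum_mul]
  simp only [mul_one] at h
  rw [h, one_mul]

theorem c6_EX_sum {κ : Type} (p : ι → Finset Λ → ℝ) (H : ι → Finset Λ) (K : Finset κ)
    (f : κ → (ι → Finset Λ) → ℝ) :
    EX p H (fun S => ∑ k ∈ K, f k S) = ∑ k ∈ K, EX p H (f k) := by
  unfold EX
  rw [Finset.sum_comm]
  exact Finset.sum_congr rfl fun S _ => Finset.mul_sum _ _ _

theorem c6_swap {Z Q : Type} [Fintype Z] [DecidableEq Z] [Fintype Q] [DecidableEq Q]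
    (μ : Z → Q → ℝ) (ρ : List (Z × Q)) (p : ι → Finset Λ → ℝ) (H : ι → Finset Λ)
    (g : (Z → Q) → (ι → Finset Λ) → ℝ) :
    Pr μ ρ (fun T => EX p H (fun S => g T S)) = EX p H (fun S => Pr μ ρ (fun T => g T S)) := by
  unfold Pr EX
  simp only [Finset.mul_sum]
  rw [Finset.sum_comm]
  refine Finset.sum_congr rfl fun S _ => Finset.sum_congr rfl fun T _ => ?_
  ring

end ex

/-- the list of a partial sequence -/
def c6_lst {α : Type} {M : ℕ} (f : Fin M → Option α) : List α := (List.ofFn f).reduceOption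

theorem c6_lst_length {α : Type} {M : ℕ} (f : Fin M → Option α) : (c6_lst f).length ≤ M := by
  unfold c6_lst
  refine (List.reduceOption_length_le _).trans ?_
  simp

theorem c6_lst_surj {α : Type} : ∀ {M : ℕ} (ρ : List α), ρ.length ≤ M →
    ∃ f : Fin M → Option α, c6_lst f = ρ := by
  intro M
  induction M with
  | zero =>
    intro ρ h
    have h0 : ρ = [] := List.length_eq_zero_iff.1 (Nat.le_zero.1 h)
    subst h0
    exact ⟨fun i => none, by simp [c6_lst]⟩
  | succ M ih =>
    intro ρ h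
    cases ρ with
    | nil =>
      obtain ⟨f, hf⟩ := ih [] (Nat.zero_le _)
      refine ⟨Fin.cons none f, ?_⟩
      unfold c6_lst at hf ⊢
      rw [List.ofFn_succ]
      simpa using hf
    | cons a ρ =>
      obtain ⟨f, hf⟩ := ih ρ (by simpa using h)
      refine ⟨Fin.cons (some a) f, ?_⟩
      unfold c6_lst at hf ⊢
      rw [List.ofFn_succ]
      simpa using hf

theorem c6_cst_mono (d m B : ℕ) {s s' : ℕ} (h : s ≤ s') : cst d m B s ≤ cst d m B s' := by
  unfold cst
  exact Nat.mul_le_mul_left _ (by omega)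

theorem c6_unif {Z Q : Type} [Fintype Z] [Fintype Q] [Nonempty Q] :
    IsPD (fun (_ : Z) (_ : Q) => (1 : ℝ) / Fintype.card Q) := by
  intro z
  have h : (0 : ℝ) < Fintype.card Q := by exact_mod_cast Fintype.card_pos
  refine ⟨fun q => by positivity, ?_⟩
  rw [Finset.sum_const, nsmul_eq_mul, Finset.card_univ]
  field_simp

open Classical in
theorem table_risk {ι : Type} [Fintype ι] [DecidableEq ι] (p : ι → Finset Str → ℝ)
    (H : ι → Finset Str) (hp0 : ∀ r S, 0 ≤ p r S) (hp1 : ∀ r, ∑ S ∈ (H r).powerset, p r S = 1)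
    (F : (ι → Finset Str) → Lang) {Qt : Type} [Fintype Qt] [DecidableEq Qt] [Nonempty Qt]
    (items : Finset (ℕ × Str)) (val : Qt → ℕ × Str → Str)
    (hit : ∀ e (z z' : Str), z.length = z'.length → (e, z) ∈ items → (e, z') ∈ items)
    (hval : ∀ q e (z z' : Str), z.length = z'.length → val q (e, z) = val q (e, z'))
    (Gm : Game) (d u u' : ℕ) (v : ℝ) (hv0 : 0 ≤ v) (hv1 : v ≤ 1) (D : ℕ) (hD : 1 ≤ D)
    (c b B : ℕ) (A : X Gm.s → DT Str) (hA : A ∈ CircF Gm (2 ^ u') d)
    (hu : 2 ^ u' + (d + 1) * cst d (256 * (d + 1) ^ 4) (2 * d + 4) (3 * D * (c + 1) * d) ≤ 2 ^ u)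
    (hb : (items.card * Fintype.card Qt + 1) ^ (3 * D * (c + 1) * d + d) ≤ 2 ^ b)
    (hB : ∀ A' ∈ CircF Gm (2 ^ u) d, EX p H (fun S => if (v + 1 / (4 * D)) * 2 ^ Gm.s ≤
      (hits (fun _ => [true]) A' (F S) : ℝ) then 1 else 0) ≤ (1 / 2) ^ B) :
    Pr (fun (_ : {it // it ∈ items}) (_ : Qt) => (1 : ℝ) / Fintype.card Qt) [] (fun T =>
      EX p H (fun S => if (v + 1 / D) * 2 ^ Gm.s ≤
        (hits (fun _ => [true]) A (patchI (stB items val) (F S) T) : ℝ) then 1 else 0)) ≤
      (1 / 2) ^ c + 2 ^ b * (1 / 2) ^ B := by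
  have hD' : (0 : ℝ) < D := by exact_mod_cast hD
  have h2s : (0 : ℝ) < 2 ^ Gm.s := by positivity
  have hpd : IsPD (fun (_ : {it // it ∈ items}) (_ : Qt) => (1 : ℝ) / Fintype.card Qt) := c6_unif
  have hhalf : (0 : ℝ) ≤ (1 / 2 : ℝ) ^ c := by positivity
  have hthr : (v + 1 / (4 * D)) * 2 ^ Gm.s ≤ (v + 1 / (D : ℝ)) * 2 ^ Gm.s := by
    apply mul_le_mul_of_nonneg_right _ h2s.le
    have : 1 / (4 * (D : ℝ)) ≤ 1 / D :=
      one_div_le_one_div_of_le hD' (by linarith)
    linarith
  by_cases hem : items = ∅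
  · -- no entries
    have hpatch : ∀ (O : Lang) (T : {it // it ∈ items} → Qt), patchI (stB items val) O T = O := by
      intro O T
      funext w
      have hps : (stB items val).ps w = none := by
        unfold stB
        dsimp only
        cases tdec w with
        | none => rfl
        | some q =>
          dsimp only
          rw [dif_neg]
          rw [hem]
          exact Finset.notMem_empty _
      unfold patchI
      rw [hps]
    have hA2 : A ∈ CircF Gm (2 ^ u) d := by
      obtain ⟨C, hC, hAC⟩ := hA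
      exact ⟨C, ABO.within_mono hC (le_trans (Nat.le_add_right _ _) hu) le_rfl, hAC⟩
    have h1 : EX p H (fun S => if (v + 1 / (D : ℝ)) * 2 ^ Gm.s ≤
        (hits (fun _ => [true]) A (F S) : ℝ) then 1 else 0) ≤ (1 / 2) ^ B := by
      refine le_trans (c6_EX_mono hp0 fun S => ?_) (hB A hA2)
      by_cases h : (v + 1 / (D : ℝ)) * 2 ^ Gm.s ≤ (hits (fun _ => [true]) A (F S) : ℝ)
      · rw [if_pos h, if_pos (hthr.trans h)]
      · rw [if_neg h]
        split_ifs <;> norm_num
    have h2 : (1 : ℝ) ≤ 2 ^ b := one_le_pow₀ (by norm_num)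
    have h3 : (0 : ℝ) ≤ (1 / 2 : ℝ) ^ B := by positivity
    calc _ ≤ Pr (fun (_ : {it // it ∈ items}) (_ : Qt) => (1 : ℝ) / Fintype.card Qt) []
          (fun _ => (1 / 2 : ℝ) ^ B * 1) := by
          refine Pr_mono hpd [] fun T => ?_
          simp only [hpatch, mul_one]
          exact h1
      _ = (1 / 2 : ℝ) ^ B := by rw [Pr_mul, Pr_one hpd, mul_one]
      _ ≤ _ := by nlinarith
  -- at least one entry
  set M : ℕ := 3 * D * (c + 1) * d with hM
  obtain ⟨Ds⟩ := exists_descB items val d hit hval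
  obtain ⟨C, hC, hAC⟩ := hA
  have hdepth : ∀ x, (A x).depth ≤ d := fun x =>
    (ABO.circF_bounds (G := Gm) (s := 2 ^ u') (d := d) ⟨C, hC, hAC⟩ x).1
  -- the simulations
  let P : Type := (Fin M → Option ({it // it ∈ items} × Qt)) × (Fin d → Qt)
  let sim : P → X Gm.s → DT Str := fun t x =>
    simI (stB items val) [] (A x) (c6_lst t.1) (List.ofFn t.2)
  let bad : P → (ι → Finset Str) → ℝ := fun t S =>
    if (v + 1 / (4 * D)) * 2 ^ Gm.s ≤ (hits (fun _ => [true]) (sim t) (F S) : ℝ) then 1 else 0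
  have hbad0 : ∀ t S, 0 ≤ bad t S := by
    intro t S
    show 0 ≤ (if _ then (1 : ℝ) else 0)
    split_ifs <;> norm_num
  have hbad : ∀ t, EX p H (bad t) ≤ (1 / 2) ^ B := by
    intro t
    obtain ⟨C', hC', h1⟩ := ABO.lemC (stB items val) Ds Gm C _ hC (c6_lst t.1) (List.ofFn t.2)
      (by simp)
    have hin : (fun x : X Gm.s => cTree Gm C' x.1) ∈ CircF Gm (2 ^ u) d := by
      refine ⟨C', ABO.within_mono hC' ?_ le_rfl, rfl⟩
      refine le_trans ?_ hu
      apply Nat.add_le_add_left
      apply Nat.mul_le_mul_left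
      exact c6_cst_mono _ _ _ (c6_lst_length t.1)
    have h2 := hB _ hin
    have h3 : ∀ S, hits (fun _ => [true]) (sim t) (F S) =
        hits (fun _ => [true]) (fun x : X Gm.s => cTree Gm C' x.1) (F S) := by
      intro S
      unfold hits
      congr 1
      apply Finset.filter_congr
      intro x _
      show ((simI (stB items val) [] (A x) (c6_lst t.1) (List.ofFn t.2)).eval (F S) = _) ↔ _
      rw [hAC, h1 x.1 (F S)]
    have h4 : bad t = fun S => if (v + 1 / (4 * D)) * 2 ^ Gm.s ≤
        (hits (fun _ => [true]) (fun x : X Gm.s => cTree Gm C' x.1) (F S) : ℝ) then 1 else 0 := by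
      funext S
      show (if _ then (1 : ℝ) else 0) = _
      rw [h3 S]
    rw [h4]
    exact h2
  -- for one state
  have hone : ∀ S, Pr (fun (_ : {it // it ∈ items}) (_ : Qt) => (1 : ℝ) / Fintype.card Qt) []
      (fun T => if (v + 1 / D) * 2 ^ Gm.s ≤
        (hits (fun _ => [true]) A (patchI (stB items val) (F S) T) : ℝ) then 1 else 0) ≤
      (1 / 2 : ℝ) ^ c + ∑ t : P, bad t S := by
    intro S
    by_cases hex : ∃ t : P, (v + 1 / (4 * D)) * 2 ^ Gm.s ≤
        (hits (fun _ => [true]) (sim t) (F S) : ℝ)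
    · obtain ⟨t, ht⟩ := hex
      have h1 : (1 : ℝ) ≤ ∑ t : P, bad t S := by
        have h2 : bad t S = 1 := if_pos ht
        calc (1 : ℝ) = bad t S := h2.symm
          _ ≤ _ := Finset.single_le_sum (f := fun t => bad t S) (fun t _ => hbad0 t S)
            (Finset.mem_univ t)
      have h2 : Pr (fun (_ : {it // it ∈ items}) (_ : Qt) => (1 : ℝ) / Fintype.card Qt) []
          (fun T => if (v + 1 / D) * 2 ^ Gm.s ≤
            (hits (fun _ => [true]) A (patchI (stB items val) (F S) T) : ℝ) then 1 else 0) ≤ 1 := by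
        refine le_of_le_of_eq (Pr_mono hpd [] (G := fun _ => 1) fun T => ?_) (Pr_one hpd [])
        split_ifs <;> norm_num
      linarith
    · push Not at hex
      have h1 := table_one (stB items val) (by
          intro w l q i h
          unfold stB at h
          dsimp only at h
          cases hw : tdec w with
          | none => rw [hw] at h; simp at h
          | some q' =>
            rw [hw] at h
            dsimp only at h
            split_ifs at h
            simp at h)
        (by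
          intro a a' h
          exact Subtype.ext (Encodable.encode_injective h))
        (F S) A hdepth v hv0 hv1 D hD c (by
          intro ρ r hρ hr
          obtain ⟨f, hf⟩ := c6_lst_surj (M := M) ρ hρ
          obtain ⟨g, hg⟩ : ∃ g : Fin d → Qt, List.ofFn g = r := by
            subst hr
            exact ⟨fun i => r.get i, List.ofFn_get r⟩
          have h2 := hex (f, g)
          have h3 : sim (f, g) = fun x => simI (stB items val) [] (A x) ρ r := by
            funext x
            show simI (stB items val) [] (A x) (c6_lst f) (List.ofFn g) = _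
            rw [hf, hg]
          rw [h3] at h2
          exact h2)
      have h4 : (fun T => ind (decide ((v + 1 / D) * 2 ^ Gm.s ≤
          (hits (fun _ => [true]) A (patchI (stB items val) (F S) T) : ℝ)))) =
          fun T => if (v + 1 / D) * 2 ^ Gm.s ≤
            (hits (fun _ => [true]) A (patchI (stB items val) (F S) T) : ℝ) then (1 : ℝ) else 0 := by
        funext T
        unfold ind
        simp only [decide_eq_true_eq]
      rw [h4] at h1
      have h5 : 0 ≤ ∑ t : P, bad t S := Finset.sum_nonneg fun t _ => hbad0 t S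
      linarith
  -- number of simulations
  have hcard : Fintype.card P ≤ 2 ^ b := by
    have hne : 1 ≤ items.card := by
      rw [Nat.one_le_iff_ne_zero, ne_eq, Finset.card_eq_zero]
      exact hem
    have h1 : Fintype.card P = (items.card * Fintype.card Qt + 1) ^ M * Fintype.card Qt ^ d := by
      show Fintype.card ((Fin M → Option ({it // it ∈ items} × Qt)) × (Fin d → Qt)) = _
      rw [Fintype.card_prod, Fintype.card_fun, Fintype.card_fun, Fintype.card_option,
        Fintype.card_prod, Fintype.card_coe, Fintype.card_fin, Fintype.card_fin]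
    rw [h1]
    refine le_trans ?_ hb
    rw [pow_add]
    apply Nat.mul_le_mul_left
    apply Nat.pow_le_pow_left
    nlinarith
  rw [c6_swap]
  calc _ ≤ EX p H (fun S => (1 / 2 : ℝ) ^ c + ∑ t : P, bad t S) := c6_EX_mono hp0 hone
    _ = (1 / 2 : ℝ) ^ c + ∑ t : P, EX p H (bad t) := by
      rw [c6_EX_add, c6_EX_const p H _ hp1, c6_EX_sum p H Finset.univ bad]
    _ ≤ (1 / 2 : ℝ) ^ c + ∑ _t : P, (1 / 2 : ℝ) ^ B := by
      have := Finset.sum_le_sum (s := (Finset.univ : Finset P)) fun t _ => hbad t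
      linarith
    _ = (1 / 2 : ℝ) ^ c + Fintype.card P * (1 / 2 : ℝ) ^ B := by
      rw [Finset.sum_const, nsmul_eq_mul, Finset.card_univ]
    _ ≤ _ := by
      have h1 : (Fintype.card P : ℝ) ≤ 2 ^ b := by exact_mod_cast hcard
      have h2 : (0 : ℝ) ≤ (1 / 2 : ℝ) ^ B := by positivity
      have := mul_le_mul_of_nonneg_right h1 h2
      linarith


end Pool.Agent.ABI
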