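import Pool.Agent.Lib_helper27.ABIF.Defs2

set_option autoImplicit false

namespace Pool.Agent.ABI

open Pool.Agent.CK
open Pool.Agent.NPC (Lit St lw tw Cert Term Rst Comp res Stuck RS wt pw GoodRoot HBig te hx NC labs
  rv rq)
open Pool.Agent.ABO (Par Lvl lev CircF hits)
open Pool.Agent.TD.IS (PosI Stg patchI simI)
open Pool.Agent.TD (Lam dd)

/-- F1 -/
theorem sub_refl (E : Set Str) (A : Fam) : Sub E A A :=
  ⟨Finset.Subset.refl _, fun _ _ => Finset.Subset.refl _, id, fun _ _ _ => rfl,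
    fun _ _ _ _ _ => rfl⟩

/-- F1 -/
theorem sub_trans {E E' : Set Str} {A B C : Fam} (h : Sub E C B) (h' : Sub E' B A) :
    Sub (E ∪ E') C A := by
  obtain ⟨h1, h2, g, h3, h4⟩ := h
  obtain ⟨h1', h2', g', h3', h4'⟩ := h'
  refine ⟨h1.trans h1', fun r hr => (h2 r hr).trans (h2' r (h1 hr)), fun ω => g' (g ω),
    fun ω w hw => ?_, fun r hr l hl ω => ?_⟩
  · rw [Set.mem_union, not_or] at hw
    rw [h3 ω w hw.1, h3' (g ω) w hw.2]
  · show g' (g ω) (r, l) = ω (r, l)
    rw [h4' r (h1 hr) l (h2 r hr hl), h4 r hr l hl]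

theorem f1_saddr_len (x y : Str) (b : Bool) (h : x.length = y.length) :
    (saddr x y b).length = 2 * x.length + 2 := by
  simp only [saddr, List.length_cons, List.length_reverse]
  rw [addr_il_length x y h]

/-- F1: if the changed positions are not read; as `Sub.hGood` and `NL_congr` -/
theorem sub_hGood {E : Set Str} {A B : Fam} (h : Sub E B A) {i : ℕ} {r q : Str} {S : Finset Str}
    (hE : ∀ w ∈ E, (q.length + 2) ^ (i + 2) ≤ w.length) (hr : r ∈ B.R) (hS : S ⊆ B.H r)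
    (hg : HGood A i r q S) : HGood B i r q S := by
  classical
  obtain ⟨h1, h2, g, h3, h4⟩ := h
  refine ⟨hS, fun ω hω => ?_⟩
  set ω' : St := fun p => if p.1 = r ∧ p.2 ∉ B.H r then false else g ω p with hω'
  have hrl : ∀ l ∈ B.H r, ω' (r, l) = ω (r, l) := by
    intro l hl
    have : ω' (r, l) = g ω (r, l) := by
      simp only [hω']
      rw [if_neg]
      rintro ⟨-, h5⟩
      exact h5 hl
    rw [this, h4 r hr l hl]
  have key : ∀ w : Str, w.length < (q.length + 2) ^ (i + 2) → B.F ω w = A.F ω' w := by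
    intro w hw
    have hwE : w ∉ E := fun hc => absurd (hE w hc) (by omega)
    rw [h3 ω w hwE]
    obtain ⟨T, hT1, hT2, hT3⟩ := A.cert (g ω) w
    symm
    apply hT3 ω'
    intro p hp
    obtain ⟨p1, p2⟩ := p
    simp only [hω']
    by_cases hc : p1 = r ∧ p2 ∉ B.H r
    · rw [if_pos hc]
      obtain ⟨hc1, hc2⟩ := hc
      subst hc1
      have hpH := (hT1 _ hp).2
      have hlen := A.hH _ _ hpH
      have hlw : lw (p1, p2) ≤ tw T := Finset.single_le_sum (f := lw) (fun _ _ => Nat.zero_le _) hp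
      have hlw2 : 2 * p1.length + 2 ≤ tw T := hlw
      have hsl : (saddr p1 p2 true).length = 2 * p1.length + 2 := f1_saddr_len p1 p2 true hlen.symm
      have hsE : saddr p1 p2 true ∉ E := fun hc => absurd (hE _ hc) (by omega)
      have h5 := h3 ω _ hsE
      rw [B.free p1 hr p2 hlen ω, A.free p1 (h1 hr) p2 hlen (g ω)] at h5
      simpa [hc2, hpH] using h5
    · rw [if_neg hc]
  have hNL : NL i (B.F ω) q = NL i (A.F ω') q := NL_congr i _ _ q key
  rw [hNL, hg.2 ω' ?_]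
  · constructor
    · rintro ⟨l, hl, hl'⟩
      rw [hrl l (hS hl)] at hl'
      exact ⟨l, hl, hl'⟩
    · rintro ⟨l, hl, hl'⟩
      refine ⟨l, hl, ?_⟩
      rw [hrl l (hS hl)]
      exact hl'
  · intro l hl hgl
    by_cases hlB : l ∈ B.H r
    · rw [hrl l hlB] at hgl
      exact hω l hlB hgl
    · have : ω' (r, l) = false := by
        simp [hω', hlB]
      rw [this] at hgl
      exact absurd hgl (by simp)

/-- F1 -/
theorem V_free (A : Fam) {r : Str} (hr : r ∈ A.R) (ω : St) :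
    V (A.F ω) r = true ↔ ∃ l ∈ A.H r, ω (r, l) = true := by
  simp only [V, decide_eq_true_eq]
  constructor
  · rintro ⟨y, h1, h2⟩
    rw [A.free r hr y h1, Bool.and_eq_true, decide_eq_true_iff] at h2
    exact ⟨y, h2⟩
  · rintro ⟨l, hl, hl'⟩
    refine ⟨l, A.hH r l hl, ?_⟩
    rw [A.free r hr l (A.hH r l hl), hl', decide_eq_true hl]
    rfl

theorem f1_num (N k j : ℕ) (hN : 2 ≤ N) (hk : k ≤ j) : N + N ^ k ≤ N ^ (j + 2) := by
  have h1 : N ^ k ≤ N ^ j := Nat.pow_le_pow_right (by omega) hk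
  have h0 : 1 ≤ N ^ j := Nat.one_le_pow _ _ (by omega)
  have h2 : N ^ (j + 2) = N ^ j * N * N := by ring
  have h3 : 2 * N ^ j ≤ N ^ j * N := by nlinarith
  have h4 : N ≤ N ^ j * N := by nlinarith
  have h5 : 2 * (N ^ j * N) ≤ N ^ j * N * N := by nlinarith
  omega

/-- F1 -/
theorem sub_wrong {E : Set Str} {A B : Fam} (h : Sub E B A) {m : ℕ × ℕ} {x : Str}
    (hE : ∀ w ∈ E, (x.length + 2) ^ ((m.2 + 2) * (m.1 + 2)) ≤ w.length)
    (hw : Wrong A m x) : Wrong B m x := by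
  obtain ⟨h1, h2, g, h3, h4⟩ := h
  intro ω
  have hagree : ∀ w : Str, w.length < (x.length + 2) ^ ((m.2 + 2) * (m.1 + 2)) →
      B.F ω w = A.F (g ω) w := by
    intro w hw'
    exact h3 ω w (fun hc => absurd (hE w hc) (by omega))
  set N := x.length + 2 with hN
  have hN2 : 2 ≤ N := by omega
  have hk : ex m.2 ≤ m.2 := Nat.unpair_right_le m.2
  have hnum := f1_num N (ex m.2) m.2 hN2 hk
  have hpow : N ^ (m.2 + 2) ≤ N ^ ((m.2 + 2) * (m.1 + 2)) :=
    Nat.pow_le_pow_right (by omega) (Nat.le_mul_of_pos_right _ (by omega))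
  have hV : V (B.F ω) x = V (A.F (g ω)) x := by
    apply V_congr
    intro w hw'
    apply hagree
    have h1 : 2 * N ≤ N ^ (m.2 + 2) := by
      have h2 : N ^ 2 ≤ N ^ (m.2 + 2) := Nat.pow_le_pow_right (by omega) (by omega)
      nlinarith
    omega
  have hPL : PL m.2 (join (B.F ω) (NL m.1 (B.F ω))) x =
      PL m.2 (join (A.F (g ω)) (NL m.1 (A.F (g ω)))) x := by
    rw [← eval_PT, ← eval_PT]
    refine DT.eval_join_congr _ _ (allQ_PT m.2 x) ?_ ?_
    · intro w hw'
      rw [List.length_cons, ← hN] at hw'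
      exact hagree w (by omega)
    · intro w hw'
      rw [List.length_cons, ← hN] at hw'
      apply NL_congr
      intro u hu
      refine hagree u (hu.trans_le ?_)
      calc (w.length + 2) ^ (m.1 + 2) ≤ (N ^ (m.2 + 2)) ^ (m.1 + 2) :=
            Nat.pow_le_pow_left (by omega) _
        _ = N ^ ((m.2 + 2) * (m.1 + 2)) := by rw [pow_mul]
  rw [hPL, hV]
  exact hw (g ω)

/-- F1: `GoodN` is inherited -/
theorem sub_goodN {E : Set Str} {A B : Fam} (h : Sub E B A) {N : ℕ} {e : ℕ} {z : Str}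
    (hE : ∀ w ∈ E, N ≤ w.length ∧ ∀ b c, w ≠ taddr e z b c)
    (hg : ∀ ω, GoodN N (A.F ω) e z) : ∀ ω, GoodN N (B.F ω) e z := by
  obtain ⟨h1, h2, g, h3, h4⟩ := h
  intro ω
  obtain ⟨q, hq1, hq2, hq3, hq4, hq5⟩ := hg (g ω)
  have hagree : ∀ w : Str, w.length < N → B.F ω w = A.F (g ω) w := by
    intro w hw'
    exact h3 ω w (fun hc => absurd (hE w hc).1 (by omega))
  refine ⟨q, hq1, hq2, hq3, fun b c => ?_, ?_⟩
  · rw [← hq4 b c]
    exact h3 ω _ (fun hc => (hE _ hc).2 b c rfl)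
  · rw [NL_congr (iC e) (B.F ω) (A.F (g ω)) q (fun w hw' => hagree w (by omega)),
      NL_congr (iN e) (B.F ω) (A.F (g ω)) z (fun w hw' => hagree w (by omega)), hq5]


end Pool.Agent.ABI
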