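import Pool.Agent.Lib_helper27.ABIF.Defs2

/-!
-/

set_option autoImplicit false

namespace Pool.Agent.ABI

open Pool.Agent.CK
open Pool.Agent.NPC (Lit St lw tw Cert Term Rst Comp res Stuck RS wt pw GoodRoot HBig te hx NC labs
  rv rq)
open Pool.Agent.ABO (Par Lvl lev CircF hits)
open Pool.Agent.TD.IS (PosI Stg patchI simI)
open Pool.Agent.TD (Lam dd)

theorem f10a_mem_labs {b : ℕ} {l : List Bool} : l ∈ labs b ↔ l.length = b := by
  unfold NPC.labs
  simp

theorem f10a_none (O : Lang) (U : Finset Str) (ω : St) {w : Str} (h : sdec w = none) :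
    startF O U ω w = O w := by
  unfold startF
  rw [h]

theorem f10a_in (O : Lang) (U : Finset Str) (ω : St) {w : Str} {p : Str × (Str × Bool)}
    (h : sdec w = some p) (hp : p.1 ∈ U) : startF O U ω w = (p.2.2 && ω (p.1, p.2.1)) := by
  unfold startF
  rw [h]
  simp only [hp, if_true]

theorem f10a_out (O : Lang) (U : Finset Str) (ω : St) {w : Str} {p : Str × (Str × Bool)}
    (h : sdec w = some p) (hp : p.1 ∉ U) : startF O U ω w = O w := by
  unfold startF
  rw [h]
  simp only [hp, if_false]

theorem f10a_len (r l : Str) (b : Bool) (h : r.length = l.length) :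
    (saddr r l b).length = 2 * r.length + 2 := by
  have h1 : key (saddr r l b) = 2 * r.length + 2 := key_saddr r l b h
  have h2 : tdec (saddr r l b) = none := tdec_saddr r l b
  unfold key at h1
  rw [h2] at h1
  exact h1

theorem start_fam (O : Lang) (U : Finset Str) :
    ∃ A : Fam, A.R = U ∧ (∀ r, A.H r = labs r.length) ∧ A.F = startF O U := by
  refine ⟨{
    R := U
    H := fun r => labs r.length
    F := startF O U
    hH := fun r l hl => f10a_mem_labs.1 hl
    free := ?_
    cert := ?_ }, rfl, fun _ => rfl, rfl⟩
  · intro r hr l hl ω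
    rw [f10a_in O U ω (sdec_saddr r l true hl.symm) hr]
    have hm : l ∈ labs r.length := f10a_mem_labs.2 hl
    simp [hm]
  · intro ω w
    rcases hs : sdec w with _ | p
    · refine ⟨∅, by simp, by simp [tw], ?_⟩
      intro ω' _
      simp only [f10a_none O U _ hs]
    · obtain ⟨h1, h2⟩ := sdec_eq hs
      by_cases hp : p.1 ∈ U
      · refine ⟨{(p.1, p.2.1)}, ?_, ?_, ?_⟩
        · intro q hq
          rw [Finset.mem_singleton] at hq
          subst hq
          exact ⟨hp, f10a_mem_labs.2 h1.symm⟩
        · have h3 : w.length = 2 * p.1.length + 2 := by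
            conv_lhs => rw [h2]
            exact f10a_len _ _ _ h1
          simp only [tw, Finset.sum_singleton, lw]
          omega
        · intro ω' h'
          have := h' (p.1, p.2.1) (Finset.mem_singleton_self _)
          simp only [f10a_in O U _ hs hp, this]
      · refine ⟨∅, by simp, by simp [tw], ?_⟩
        intro ω' _
        simp only [f10a_out O U _ hs hp]


end Pool.Agent.ABI
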