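import Pool.Agent.Lib_helper27.ABIF.Defs2

/-! # ABI, block P6: the LAB lemma -/

set_option autoImplicit false

namespace Pool.Agent.ABI

open Pool.Agent.CK
open Pool.Agent.NPC (Lit St lw tw Cert Term Rst Comp res Stuck RS wt pw GoodRoot HBig te hx NC labs
  rv rq)

section prob

variable {ι Λ : Type} [Fintype ι] [DecidableEq ι] [DecidableEq Λ]

open Classical in
/-- the property of `x` in the induction -/
def p6_bad {𝒳 : Type} (hid : 𝒳 → Finset (ι × Λ)) (K0 : Finset (ι × Λ)) {Ω : Type} [Fintype Ω]
    (c : Finset (ι × Λ) → (ι × Λ → Bool) → Ω → Finset (ι × Λ)) (e : ℝ) (j : ℕ)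
    (K : Finset (ι × Λ)) (s : ι × Λ → Bool) (x : 𝒳) : Prop :=
  K \ K0 ⊆ hid x ∧ ∃ val : ι × Λ → Bool, (∀ y ∈ K, val y = s y) ∧
    ∀ K' : Finset (ι × Λ), K ⊆ K' → K' ⊆ K0 ∪ hid x → (K' \ K).card ≤ j →
      e * Fintype.card Ω < ((Finset.univ.filter fun ω =>
        ¬ Disjoint (c K' val ω) (hid x \ K')).card : ℝ)

open Classical in
theorem p6_step {𝒳 : Type} (X : Finset 𝒳) (w : 𝒳 → ℝ) (hw : ∀ x ∈ X, 0 ≤ w x)
    (hid : 𝒳 → Finset (ι × Λ)) (δ : ℝ) (hδ0 : 0 ≤ δ) (K0 : Finset (ι × Λ))
    (hδ : ∀ Y : Finset (ι × Λ), Disjoint Y K0 →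
      ∑ x ∈ X.filter (fun x => Y ⊆ hid x), w x ≤ δ ^ Y.card)
    {Ω : Type} [Fintype Ω] (c : Finset (ι × Λ) → (ι × Λ → Bool) → Ω → Finset (ι × Λ))
    (hc : ∀ K s s', (∀ x ∈ K, s x = s' x) → c K s = c K s')
    (q : ℕ) (hq : ∀ K s ω, (c K s ω).card ≤ q) (e : ℝ) (he : 0 < e) (j : ℕ) :
    ∀ (K : Finset (ι × Λ)) (s : ι × Λ → Bool), K0 ⊆ K →
      ∑ x ∈ X.filter (fun x => p6_bad hid K0 c e j K s x), w x ≤
        (2 * q / e) ^ j * δ ^ (j + (K \ K0).card) := by
  induction j with
  | zero =>
    intro K s hK
    rw [pow_zero, one_mul, zero_add]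
    refine le_trans ?_ (hδ (K \ K0) Finset.sdiff_disjoint)
    refine Finset.sum_le_sum_of_subset_of_nonneg ?_ fun x hx _ => hw x (Finset.mem_filter.1 hx).1
    intro x hx
    rw [Finset.mem_filter] at hx ⊢
    exact ⟨hx.1, hx.2.1⟩
  | succ j ih =>
    intro K s hK
    have hqe : 0 ≤ 2 * (q : ℝ) / e := by positivity
    rcases Nat.eq_zero_or_pos (Fintype.card Ω) with hN | hN
    · have h1 : X.filter (fun x => p6_bad hid K0 c e (j + 1) K s x) = ∅ := by
        rw [Finset.filter_eq_empty_iff]
        rintro x _ ⟨h2, val, h3, h4⟩
        have h5 := h4 K (Finset.Subset.refl K) ?_ ?_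
        · haveI : IsEmpty Ω := Fintype.card_eq_zero_iff.1 hN
          rw [hN] at h5
          simp at h5
        · intro y hy
          by_cases hy0 : y ∈ K0
          · exact Finset.mem_union_left _ hy0
          · exact Finset.mem_union_right _ (h2 (Finset.mem_sdiff.2 ⟨hy, hy0⟩))
        · rw [Finset.sdiff_self]
          exact Nat.zero_le _
      rw [h1, Finset.sum_empty]
      positivity
    · have hNr : (0 : ℝ) < Fintype.card Ω := by exact_mod_cast hN
      -- main inequality for one `x`
      have key : ∀ x ∈ X.filter (fun x => p6_bad hid K0 c e (j + 1) K s x),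
          (e * Fintype.card Ω) * w x ≤ ∑ ω : Ω, ∑ y ∈ (c K s ω).filter (fun y => y ∉ K),
            ∑ b : Bool, (if p6_bad hid K0 c e j (insert y K) (Function.update s y b) x
              then w x else 0) := by
        intro x hx
        rw [Finset.mem_filter] at hx
        obtain ⟨hxX, h2, val, h3, h4⟩ := hx
        have hwx := hw x hxX
        have hcK : c K val = c K s := hc K val s h3
        have hsub : K ⊆ K0 ∪ hid x := by
          intro y hy
          by_cases hy0 : y ∈ K0
          · exact Finset.mem_union_left _ hy0
          · exact Finset.mem_union_right _ (h2 (Finset.mem_sdiff.2 ⟨hy, hy0⟩))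
        have h5 := h4 K (Finset.Subset.refl K) hsub (by
          rw [Finset.sdiff_self]
          exact Nat.zero_le _)
        rw [hcK] at h5
        have h6 : ((Finset.univ.filter fun ω =>
            ¬ Disjoint (c K s ω) (hid x \ K)).card : ℝ) * w x =
            ∑ ω : Ω, if ¬ Disjoint (c K s ω) (hid x \ K) then w x else 0 := by
          rw [← Finset.sum_filter, Finset.sum_const, nsmul_eq_mul]
        calc (e * Fintype.card Ω) * w x ≤ ((Finset.univ.filter fun ω =>
            ¬ Disjoint (c K s ω) (hid x \ K)).card : ℝ) * w x :=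
              mul_le_mul_of_nonneg_right h5.le hwx
          _ = ∑ ω : Ω, if ¬ Disjoint (c K s ω) (hid x \ K) then w x else 0 := h6
          _ ≤ _ := by
            refine Finset.sum_le_sum fun ω _ => ?_
            have hnn : ∀ y b, 0 ≤ (if p6_bad hid K0 c e j (insert y K) (Function.update s y b) x
                then w x else 0) := by
              intro y b
              split_ifs
              · exact hwx
              · exact le_rfl
            split_ifs with h7
            · exact Finset.sum_nonneg fun y _ => Finset.sum_nonneg fun b _ => hnn y b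
            · rw [Finset.not_disjoint_iff] at h7
              obtain ⟨y, hy1, hy2⟩ := h7
              rw [Finset.mem_sdiff] at hy2
              have hyin : y ∈ (c K s ω).filter (fun y => y ∉ K) :=
                Finset.mem_filter.2 ⟨hy1, hy2.2⟩
              refine le_trans ?_ (Finset.single_le_sum
                (f := fun y => ∑ b : Bool, (if p6_bad hid K0 c e j (insert y K)
                  (Function.update s y b) x then w x else 0))
                (fun y _ => Finset.sum_nonneg fun b _ => hnn y b) hyin)
              refine le_trans ?_ (Finset.single_le_sum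
                (f := fun b => (if p6_bad hid K0 c e j (insert y K)
                  (Function.update s y b) x then w x else 0))
                (fun b _ => hnn y b) (Finset.mem_univ (val y)))
              have hb : p6_bad hid K0 c e j (insert y K) (Function.update s y (val y)) x := by
                refine ⟨?_, val, ?_, ?_⟩
                · intro z hz
                  rw [Finset.mem_sdiff, Finset.mem_insert] at hz
                  rcases hz.1 with h8 | h8
                  · rw [h8]
                    exact hy2.1
                  · exact h2 (Finset.mem_sdiff.2 ⟨h8, hz.2⟩)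
                · intro z hz
                  by_cases hzy : z = y
                  · rw [hzy, Function.update_self]
                  · rw [Function.update_of_ne hzy]
                    exact h3 z ((Finset.mem_insert.1 hz).resolve_left hzy)
                · intro K' hK1 hK2 hK3
                  refine h4 K' ((Finset.subset_insert y K).trans hK1) hK2 ?_
                  have h9 : K' \ K ⊆ insert y (K' \ insert y K) := by
                    intro z hz
                    rw [Finset.mem_sdiff] at hz
                    by_cases hzy : z = y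
                    · rw [hzy]
                      exact Finset.mem_insert_self _ _
                    · refine Finset.mem_insert_of_mem (Finset.mem_sdiff.2 ⟨hz.1, ?_⟩)
                      rw [Finset.mem_insert]
                      rintro (h | h)
                      · exact hzy h
                      · exact hz.2 h
                  exact (Finset.card_le_card h9).trans ((Finset.card_insert_le _ _).trans
                    (Nat.add_le_add_right hK3 1))
              rw [if_pos hb]
      -- sum over `x`
      have h8 : (e * Fintype.card Ω) *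
          ∑ x ∈ X.filter (fun x => p6_bad hid K0 c e (j + 1) K s x), w x ≤
          ∑ ω : Ω, ∑ y ∈ (c K s ω).filter (fun y => y ∉ K), ∑ b : Bool,
            (2 * q / e) ^ j * δ ^ (j + (K \ K0).card + 1) := by
        rw [Finset.mul_sum]
        refine (Finset.sum_le_sum key).trans ?_
        rw [Finset.sum_comm]
        refine Finset.sum_le_sum fun ω _ => ?_
        rw [Finset.sum_comm]
        refine Finset.sum_le_sum fun y hy => ?_
        rw [Finset.sum_comm]
        refine Finset.sum_le_sum fun b _ => ?_
        rw [Finset.mem_filter] at hy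
        have h9 := ih (insert y K) (Function.update s y b) (hK.trans (Finset.subset_insert y K))
        have h10 : (insert y K \ K0).card = (K \ K0).card + 1 := by
          have h11 : insert y K \ K0 = insert y (K \ K0) :=
            Finset.insert_sdiff_of_notMem K fun h => hy.2 (hK h)
          rw [h11, Finset.card_insert_of_notMem]
          exact fun h => hy.2 (Finset.mem_sdiff.1 h).1
        rw [h10, ← add_assoc] at h9
        refine le_trans (le_trans (Finset.sum_le_sum_of_subset_of_nonneg
          (Finset.filter_subset _ X) ?_) (le_of_eq (Finset.sum_filter _ _).symm)) h9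
        intro x hx _
        split_ifs
        · exact hw x hx
        · exact le_rfl
      have h12 : ∑ ω : Ω, ∑ y ∈ (c K s ω).filter (fun y => y ∉ K), ∑ b : Bool,
            (2 * q / e) ^ j * δ ^ (j + (K \ K0).card + 1) ≤
          Fintype.card Ω * (q * (2 * ((2 * q / e) ^ j * δ ^ (j + (K \ K0).card + 1)))) := by
        have h13 : ∀ ω ∈ (Finset.univ : Finset Ω), ∑ y ∈ (c K s ω).filter (fun y => y ∉ K),
            ∑ b : Bool, (2 * (q : ℝ) / e) ^ j * δ ^ (j + (K \ K0).card + 1) ≤
            q * (2 * ((2 * q / e) ^ j * δ ^ (j + (K \ K0).card + 1))) := by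
          intro ω _
          rw [Finset.sum_const, Finset.sum_const, Finset.card_univ, Fintype.card_bool,
            nsmul_eq_mul, nsmul_eq_mul]
          have h14 : (((c K s ω).filter (fun y => y ∉ K)).card : ℝ) ≤ q := by
            exact_mod_cast (Finset.card_filter_le _ _).trans (hq K s ω)
          have h15 : 0 ≤ ((2 : ℕ) : ℝ) * ((2 * q / e) ^ j * δ ^ (j + (K \ K0).card + 1)) := by
            positivity
          calc _ ≤ (q : ℝ) * (((2 : ℕ) : ℝ) *
                ((2 * q / e) ^ j * δ ^ (j + (K \ K0).card + 1))) :=
                mul_le_mul_of_nonneg_right h14 h15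
            _ = _ := by norm_num
        refine (Finset.sum_le_sum h13).trans ?_
        rw [Finset.sum_const, nsmul_eq_mul, Finset.card_univ]
      have h16 := h8.trans h12
      have h17 : (Fintype.card Ω : ℝ) * (q * (2 * ((2 * q / e) ^ j *
          δ ^ (j + (K \ K0).card + 1)))) = (e * Fintype.card Ω) *
          ((2 * q / e) ^ (j + 1) * δ ^ (j + 1 + (K \ K0).card)) := by
        rw [show j + 1 + (K \ K0).card = j + (K \ K0).card + 1 by ring, pow_succ (2 * (q : ℝ) / e)]
        field_simp
      rw [h17] at h16
      exact le_of_mul_le_mul_left h16 (mul_pos he hNr)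

open Classical in
/-- P6 -/
theorem lab {𝒳 : Type} (X : Finset 𝒳) (w : 𝒳 → ℝ) (hw : ∀ x ∈ X, 0 ≤ w x)
    (hid : 𝒳 → Finset (ι × Λ)) (δ : ℝ) (hδ0 : 0 ≤ δ) (K0 : Finset (ι × Λ))
    (hδ : ∀ Y : Finset (ι × Λ), Disjoint Y K0 →
      ∑ x ∈ X.filter (fun x => Y ⊆ hid x), w x ≤ δ ^ Y.card)
    {Ω : Type} [Fintype Ω] (c : Finset (ι × Λ) → (ι × Λ → Bool) → Ω → Finset (ι × Λ))
    (hc : ∀ K s s', (∀ x ∈ K, s x = s' x) → c K s = c K s')
    (q : ℕ) (hq : ∀ K s ω, (c K s ω).card ≤ q) (e : ℝ) (he : 0 < e) (m : ℕ) :
    ∑ x ∈ X.filter (fun x => ∃ val : ι × Λ → Bool, ∀ K : Finset (ι × Λ), K0 ⊆ K →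
        K ⊆ K0 ∪ hid x → (K \ K0).card ≤ m →
        e * Fintype.card Ω < ((Finset.univ.filter fun ω =>
          ¬ Disjoint (c K val ω) (hid x \ K)).card : ℝ)), w x ≤
      2 ^ K0.card * (2 * q * δ / e) ^ m := by
  have h1 : ∑ x ∈ X.filter (fun x => ∃ val : ι × Λ → Bool, ∀ K : Finset (ι × Λ), K0 ⊆ K →
        K ⊆ K0 ∪ hid x → (K \ K0).card ≤ m →
        e * Fintype.card Ω < ((Finset.univ.filter fun ω =>
          ¬ Disjoint (c K val ω) (hid x \ K)).card : ℝ)), w x ≤
      ∑ T ∈ K0.powerset, ∑ x ∈ X.filter (fun x =>
        p6_bad hid K0 c e m K0 (fun y => decide (y ∈ T)) x), w x := by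
    have h2 : ∀ T ∈ K0.powerset, ∑ x ∈ X.filter (fun x =>
        p6_bad hid K0 c e m K0 (fun y => decide (y ∈ T)) x), w x =
        ∑ x ∈ X, if p6_bad hid K0 c e m K0 (fun y => decide (y ∈ T)) x then w x else 0 :=
      fun T _ => by rw [Finset.sum_filter]
    rw [Finset.sum_congr rfl h2, Finset.sum_comm, Finset.sum_filter]
    refine Finset.sum_le_sum fun x hx => ?_
    have hwx := hw x hx
    have hnn : ∀ T : Finset (ι × Λ), 0 ≤
        (if p6_bad hid K0 c e m K0 (fun y => decide (y ∈ T)) x then w x else 0) := by
      intro T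
      split_ifs
      · exact hwx
      · exact le_rfl
    split_ifs with h3
    · obtain ⟨val, hval⟩ := h3
      refine le_trans ?_ (Finset.single_le_sum
        (f := fun T : Finset (ι × Λ) =>
          (if p6_bad hid K0 c e m K0 (fun y => decide (y ∈ T)) x then w x else 0))
        (fun T _ => hnn T) (Finset.mem_powerset.2
          (Finset.filter_subset (fun y => val y = true) K0)))
      have hb : p6_bad hid K0 c e m K0
          (fun y => decide (y ∈ K0.filter fun y => val y = true)) x := by
        refine ⟨?_, val, ?_, hval⟩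
        · rw [Finset.sdiff_self]
          exact Finset.empty_subset _
        · intro y hy
          rcases Bool.eq_false_or_eq_true (val y) with h4 | h4
          · rw [h4]
            symm
            rw [decide_eq_true_eq, Finset.mem_filter]
            exact ⟨hy, h4⟩
          · rw [h4]
            symm
            rw [decide_eq_false_iff_not, Finset.mem_filter]
            rintro ⟨_, h5⟩
            rw [h4] at h5
            exact Bool.noConfusion h5
      rw [if_pos hb]
    · exact Finset.sum_nonneg fun T _ => hnn T
  refine h1.trans ?_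
  have h3 : ∀ T ∈ K0.powerset, ∑ x ∈ X.filter (fun x =>
        p6_bad hid K0 c e m K0 (fun y => decide (y ∈ T)) x), w x ≤
        (2 * q * δ / e) ^ m := by
    intro T _
    have h4 := p6_step X w hw hid δ hδ0 K0 hδ c hc q hq e he m K0 (fun y => decide (y ∈ T))
      (Finset.Subset.refl _)
    rw [Finset.sdiff_self, Finset.card_empty, add_zero, ← mul_pow] at h4
    rwa [show 2 * (q : ℝ) * δ / e = 2 * q / e * δ by ring]
  refine (Finset.sum_le_sum h3).trans (le_of_eq ?_)
  rw [Finset.sum_const, Finset.card_powerset, nsmul_eq_mul, Nat.cast_pow, Nat.cast_ofNat]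

end prob


end Pool.Agent.ABI
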