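import Pool.Agent.Lib_helper27.ABIF.Defs2
import Pool.Agent.Lib_helper27.ABIF.B.P6

/-! # Block F11a: the end of an epoch, polynomial hierarchy -/

set_option autoImplicit false

namespace Pool.Agent.ABI

open Pool.Agent.CK
open Pool.Agent.NPC (Lit St lw tw Cert Term Rst Comp res Stuck RS wt pw GoodRoot HBig te hx NC labs
  rv rq)
open Pool.Agent.ABO (Par Lvl lev CircF hits)
open Pool.Agent.TD.IS (PosI Stg patchI simI)
open Pool.Agent.TD (Lam dd)

open Pool.Agent.PHS in
/-- labels for the blocks -/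
def F11_Lab (A : Fam) (x : Str) (K m : ℕ) (lab : Str → Str) : Prop :=
  ∀ κ : List (X m), κ.length = K → lab (flat κ) ∈ A.H x ∧ (lab (flat κ)).take (K * m) = flat κ

open Pool.Agent.PHS in
theorem f11_inj {A : Fam} {x : Str} {K m : ℕ} {lab : Str → Str} (h : F11_Lab A x K m lab)
    {κ κ' : List (X m)} (hκ : κ.length = K) (hκ' : κ'.length = K)
    (he : lab (flat κ) = lab (flat κ')) : κ = κ' := by
  apply flat_inj (hκ.trans hκ'.symm)
  rw [← (h κ hκ).2, ← (h κ' hκ').2, he]

open Pool.Agent.PHS in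
/-- Locality in terms of the vector. -/
theorem f11_cert (A : Fam) (x : Str) (K m : ℕ) (lab : Str → Str)
    (hlab : F11_Lab A x K m lab) (w : Str) :
    CertC w.length (fun v : List (X m) → Bool => A.F (NPC.phst x K m lab v) w) := by
  classical
  intro v
  obtain ⟨T, -, hT2, hT3⟩ := A.cert (NPC.phst x K m lab v) w
  have hun : ∃ un : Str → List (X m), ∀ κ : List (X m), κ.length = K →
      un (lab (flat κ)) = κ := by
    refine ⟨fun l => if h : ∃ κ : List (X m), κ.length = K ∧ lab (flat κ) = l then h.choose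
      else [], fun κ hκ => ?_⟩
    have h : ∃ κ' : List (X m), κ'.length = K ∧ lab (flat κ') = lab (flat κ) := ⟨κ, hκ, rfl⟩
    simp only [dif_pos h]
    exact f11_inj hlab h.choose_spec.1 hκ h.choose_spec.2
  obtain ⟨un, hun⟩ := hun
  refine ⟨T.image (fun p => un p.2), ?_, ?_⟩
  · refine Finset.card_image_le.trans (le_trans ?_ hT2)
    unfold tw
    rw [Finset.card_eq_sum_ones]
    exact Finset.sum_le_sum fun p _ => by unfold lw; omega
  · intro v' hv'
    apply hT3
    intro p hp
    have key : ∀ κ : List (X m), κ.length = K → lab (flat κ) = p.2 → v' κ = v κ := by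
      intro κ hκ he
      apply hv'
      rw [Finset.mem_image]
      exact ⟨p, hp, by rw [← he, hun κ hκ]⟩
    rw [Bool.eq_iff_iff, NPC.phst_iff, NPC.phst_iff]
    refine and_congr_right fun _ => exists_congr fun κ => ?_
    constructor
    · rintro ⟨h1, h2, h3⟩
      exact ⟨h1, h2, by rw [← key κ h1 h2]; exact h3⟩
    · rintro ⟨h1, h2, h3⟩
      exact ⟨h1, h2, by rw [key κ h1 h2]; exact h3⟩

open Pool.Agent.PHS in
/-- The vector is read from the oracle. -/
theorem f11_read (A : Fam) (x : Str) (hx : x ∈ A.R) (K m : ℕ)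
    (lab : Str → Str) (hlab : F11_Lab A x K m lab) (v : List (X m) → Bool)
    (l : List (X m)) (hl : l.length = K) :
    v l = true ↔ ¬ ∃ l' : List Bool, (flat l).length + l'.length = x.length ∧
      A.F (NPC.phst x K m lab v) (saddr x (flat l ++ l') true) = true := by
  have hfl : (flat l).length = K * m := by rw [length_flat, hl]
  constructor
  · rintro hv ⟨l', h1, h2⟩
    rw [A.free x hx _ (by rw [List.length_append]; exact h1), Bool.and_eq_true,
      NPC.phst_iff] at h2
    obtain ⟨-, -, κ, hκ, he, hvκ⟩ := h2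
    have h3 : flat κ = flat l := by
      rw [← (hlab κ hκ).2, he]
      simp only
      rw [← hfl, List.take_left]
    have h4 : κ = l := flat_inj (hκ.trans hl.symm) h3
    rw [h4, hv] at hvκ
    exact Bool.noConfusion hvκ
  · intro h
    by_contra hv
    rw [Bool.not_eq_true] at hv
    apply h
    obtain ⟨h1, h2⟩ := hlab l hl
    have h3 : flat l ++ (lab (flat l)).drop (K * m) = lab (flat l) := by
      have h5 := List.take_append_drop (K * m) (lab (flat l))
      rw [h2] at h5
      exact h5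
    have h4 : (lab (flat l)).length = x.length := A.hH x _ h1
    refine ⟨(lab (flat l)).drop (K * m), ?_, ?_⟩
    · rw [← List.length_append, h3, h4]
    · rw [h3, A.free x hx _ h4, Bool.and_eq_true, NPC.phst_iff]
      exact ⟨decide_eq_true h1, rfl, l, hl, rfl, hv⟩

open Pool.Agent.PHS in
/-- F11 -/
theorem end_PH (dh : PHS.DepthHierarchy) (k : ℕ) (s : List ℕ) : ∃ C m0 : ℕ, ∀ m ≥ m0,
    ∀ (L : ℕ) (A : Fam) (x : Str) (lab : Str → Str), m ^ C ≤ L → x ∈ A.R →
      x.length = 4 * ((2 * k + 1) * m) →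
      (∀ κ : Str, κ.length = (2 * k + 1) * m → lab κ ∈ A.H x ∧ (lab κ).take κ.length = κ) →
      ∃ v : Str → Bool, ∀ (ω : St), (∀ p, ω p = true ↔
          p.1 = x ∧ ∃ κ : Str, κ.length = (2 * k + 1) * m ∧ lab κ = p.2 ∧ v κ = true) →
        ∀ O : Lang, (∀ w : Str, w.length < L → O w = A.F ω w) →
          ∃ w, SL k s O w ≠ NPC.HQ k O w := by
  classical
  obtain ⟨C, m0, hkill⟩ := kill dh k s
  obtain ⟨E, hE⟩ := SL_congr k s
  obtain ⟨K, hK⟩ : ∃ K, K = 2 * k + 1 := ⟨_, rfl⟩
  refine ⟨C + 4 * E + 3, max m0 (4 * K + 2), fun m hm L A x lab hL hxR hxb hlab0 => ?_⟩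
  have hm0 : m0 ≤ m := (le_max_left _ _).trans hm
  have hmK : 4 * K + 2 ≤ m := (le_max_right _ _).trans hm
  rw [← hK] at hxb hlab0 ⊢
  have hm6 : 6 ≤ m := by omega
  have hpow : ∀ j, j ≤ C + 4 * E + 3 → m ^ j ≤ L := fun j hj =>
    (Nat.pow_le_pow_right (by omega) hj).trans hL
  have hbm2 : x.length ≤ m ^ 2 := by
    have : 4 * K * m ≤ m * m := Nat.mul_le_mul_right _ (by omega)
    calc x.length = 4 * K * m := by rw [hxb]; ring
      _ ≤ m * m := this
      _ = m ^ 2 := by ring
  have hbL : 2 * x.length + 2 < L := by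
    have h1 : m ^ 3 ≤ L := hpow 3 (by omega)
    have h2 : m ^ 3 = m * m ^ 2 := by ring
    have h3 : 6 * m ^ 2 ≤ m * m ^ 2 := Nat.mul_le_mul_right _ hm6
    have h4 : 1 ≤ m ^ 2 := Nat.one_le_pow _ _ (by omega)
    omega
  have hlab : F11_Lab A x K m lab := by
    intro κ hκ
    have h1 : (flat κ).length = K * m := by rw [length_flat, hκ]
    have h2 := hlab0 (flat κ) h1
    rw [h1] at h2
    exact h2
  obtain ⟨v, hv⟩ := hkill m hm0 x hbm2 (fun v => A.F (NPC.phst x K m lab v))
    (fun w hw => CertC.mono (f11_cert A x K m lab hlab w) hw.le)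
    (fun v l hl => f11_read A x hxR K m lab hlab v l (by rw [hK]; exact hl))
  rw [← NPC.HQ_iff] at hv
  refine ⟨fun κ => decide (∃ κ' : List (X m), κ'.length = K ∧ flat κ' = κ ∧ v κ' = false),
    fun ω hω O hO => ⟨ones m ++ false :: x, fun he => hv ?_⟩⟩
  have hωe : ω = NPC.phst x K m lab v := by
    funext p
    rw [Bool.eq_iff_iff, hω, NPC.phst_iff]
    refine and_congr_right fun _ => ?_
    constructor
    · rintro ⟨κ, -, h2, h3⟩
      obtain ⟨κ', h4, h5, h6⟩ := of_decide_eq_true h3
      exact ⟨κ', h4, by rw [h5]; exact h2, h6⟩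
    · rintro ⟨κ', h1, h2, h3⟩
      exact ⟨flat κ', by rw [length_flat, h1], h2, decide_eq_true ⟨κ', h1, rfl, h3⟩⟩
  have hag : ∀ w : Str, w.length < L → A.F (NPC.phst x K m lab v) w = O w := by
    intro w hw
    rw [hO w hw, hωe]
  have e1 : SL k s (A.F (NPC.phst x K m lab v)) (ones m ++ false :: x) =
      SL k s O (ones m ++ false :: x) := by
    apply hE
    intro w hw
    apply hag
    refine lt_of_lt_of_le hw ?_
    have h1 : (ones m ++ false :: x).length + 2 ≤ m ^ 4 := by
      rw [List.length_append, List.length_cons]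
      have h2 : (ones m).length = m := List.length_replicate ..
      rw [h2]
      have h3 : m ≤ m ^ 2 := by nlinarith
      have h4 : 4 ≤ m ^ 2 := by nlinarith
      have h5 : m ^ 4 = m ^ 2 * m ^ 2 := by ring
      have h6 : 4 * m ^ 2 ≤ m ^ 2 * m ^ 2 := Nat.mul_le_mul_right _ h4
      omega
    calc ((ones m ++ false :: x).length + 2) ^ E ≤ (m ^ 4) ^ E := Nat.pow_le_pow_left h1 _
      _ = m ^ (4 * E) := (pow_mul _ _ _).symm
      _ ≤ L := hpow _ (by omega)
  have e2 : NPC.HQ k (A.F (NPC.phst x K m lab v)) (ones m ++ false :: x) =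
      NPC.HQ k O (ones m ++ false :: x) := by
    apply NPC.HQ_congr
    intro w hw
    apply hag
    rw [hw]
    exact hbL
  rw [e1, e2, he]


end Pool.Agent.ABI
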