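import Pool.Agent.Lib_helper27.ABIF.Defs2

/-!
-/

set_option autoImplicit false

namespace Pool.Agent.ABI

open Pool.Agent.CK
open Pool.Agent.NPC (Lit St lw tw Cert Term Rst Comp res Stuck RS wt pw GoodRoot HBig te hx NC labs
  rv rq)
open Pool.Agent.ABO (Par Lvl lev CircF hits)
open Pool.Agent.TD.IS (PosI Stg patchI simI)
open Pool.Agent.TD (Lam dd)

theorem f3_tw_union (S T : Finset Lit) : tw (S ∪ T) ≤ tw S + tw T := by
  unfold tw
  have h := Finset.sum_union_inter (s₁ := S) (s₂ := T) (f := lw)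
  omega

theorem f3_lw_le {T : Finset Lit} {p : Lit} (hp : p ∈ T) : lw p ≤ tw T :=
  Finset.single_le_sum (f := lw) (fun _ _ => Nat.zero_le _) hp

/-- F3 -/
theorem cert_tree (A : Fam) {β : Type} (t : DT β) (b d : ℕ) (hd : t.depth ≤ d)
    (hq : t.AllQ fun w => w.length ≤ b) (ω : St) :
    ∃ T : Finset Lit, (∀ p ∈ T, p.1 ∈ A.R ∧ p.2 ∈ A.H p.1) ∧ (∀ p ∈ T, lw p ≤ b) ∧
      tw T ≤ d * b ∧ Cert (fun ω => t.eval (A.F ω)) ω T := by
  classical
  induction t generalizing d with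
  | leaf a =>
    refine ⟨∅, fun p hp => absurd hp (Finset.notMem_empty p),
      fun p hp => absurd hp (Finset.notMem_empty p), Nat.zero_le _, fun ω' _ => rfl⟩
  | node w n0 n1 h0 h1 =>
    rw [DT.depth_node] at hd
    obtain ⟨hw, hq0, hq1⟩ := hq
    obtain ⟨Tw, hTw1, hTw2, hTw3⟩ := A.cert ω w
    have hsub : ∃ T : Finset Lit, (∀ p ∈ T, p.1 ∈ A.R ∧ p.2 ∈ A.H p.1) ∧ (∀ p ∈ T, lw p ≤ b) ∧
        tw T ≤ (d - 1) * b ∧ ∀ ω' : St, (∀ p ∈ T, ω' p = ω p) → A.F ω' w = A.F ω w →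
          (DT.node w n0 n1).eval (A.F ω') = (DT.node w n0 n1).eval (A.F ω) := by
      by_cases hv : A.F ω w = true
      · obtain ⟨T, a1, a2, a3, a4⟩ := h1 (d - 1) (by omega) hq1
        refine ⟨T, a1, a2, a3, fun ω' hω' he => ?_⟩
        rw [DT.eval_node, DT.eval_node, he, if_pos hv, if_pos hv]
        exact a4 ω' hω'
      · obtain ⟨T, a1, a2, a3, a4⟩ := h0 (d - 1) (by omega) hq0
        refine ⟨T, a1, a2, a3, fun ω' hω' he => ?_⟩
        rw [DT.eval_node, DT.eval_node, he, if_neg hv, if_neg hv]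
        exact a4 ω' hω'
    obtain ⟨T, a1, a2, a3, a4⟩ := hsub
    refine ⟨Tw ∪ T, ?_, ?_, ?_, ?_⟩
    · intro p hp
      rcases Finset.mem_union.1 hp with h | h
      · exact hTw1 p h
      · exact a1 p h
    · intro p hp
      rcases Finset.mem_union.1 hp with h | h
      · exact (f3_lw_le h).trans (hTw2.trans hw)
      · exact a2 p h
    · have h2 := f3_tw_union Tw T
      have h3 : (d - 1) * b + b = d * b := by
        obtain ⟨d', rfl⟩ : ∃ d', d = d' + 1 := ⟨d - 1, by omega⟩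
        rw [Nat.add_sub_cancel]
        ring
      have h4 : w.length ≤ b := hw
      omega
    · intro ω' hω'
      exact a4 ω' (fun p hp => hω' p (Finset.mem_union_right _ hp))
        (hTw3 ω' fun p hp => hω' p (Finset.mem_union_left _ hp))

theorem f3_num (i m : ℕ) (hm : 2 ≤ m) : max m (m ^ ex i) + m ^ ex i ≤ m ^ (i + 2) := by
  have hk : ex i ≤ i := Nat.unpair_right_le i
  have h1 : m ^ ex i ≤ m ^ i := Nat.pow_le_pow_right (by omega) hk
  have h0 : 1 ≤ m ^ i := Nat.one_le_pow _ _ (by omega)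
  have h2 : m ^ (i + 2) = m ^ i * m * m := by ring
  have h3 : 2 * m ^ i ≤ m ^ i * m := by nlinarith
  have h4 : m ≤ m ^ i * m := by nlinarith
  have h5 : 2 * (m ^ i * m) ≤ m ^ i * m * m := by nlinarith
  have : max m (m ^ ex i) ≤ m ^ i * m := by
    apply max_le
    · omega
    · omega
  omega

/-- F3 -/
theorem cert_acc (A : Fam) (i : ℕ) (q y : Str) (hy : y.length ≤ (q.length + 2) ^ ex i) (ω : St) :
    ∃ T : Finset Lit, (∀ p ∈ T, p.1 ∈ A.R ∧ p.2 ∈ A.H p.1) ∧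
      (∀ p ∈ T, lw p < (q.length + 2) ^ (i + 2)) ∧ tw T ≤ (q.length + 2) ^ (2 * i + 2) ∧
      Cert (fun ω => accB (A.F ω) (prog i) q y ((q.length + 2) ^ ex i)) ω T := by
  set m := q.length + 2 with hm
  have hm2 : 2 ≤ m := by omega
  have hb := f3_num i m hm2
  have hpos : 1 ≤ m ^ (i + 2) := Nat.one_le_pow _ _ (by omega)
  have hall := mach_allQ_runTree (m ^ ex i) ([prog i], init q y) (max m (m ^ ex i)) (m ^ (i + 2))
    (mach_init_len q y (max m (m ^ ex i)) ((by omega : q.length ≤ m).trans (le_max_left _ _))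
      (hy.trans (le_max_right _ _))) hb
  have hall2 : ((runTree (m ^ ex i) ([prog i], init q y)).map fun cf : Config =>
      cf.1.isEmpty && ((cf.2 0).head? == some true)).AllQ
        (fun w => w.length ≤ m ^ (i + 2) - 1) := by
    apply mach_allQ_map
    refine hall.mono ?_
    intro w hw
    omega
  obtain ⟨T, h1, h2, h3, h4⟩ := cert_tree A _ (m ^ (i + 2) - 1) (m ^ ex i)
    (by rw [DT.depth_map]; exact mach_depth_runTree _ _) hall2 ω
  refine ⟨T, h1, fun p hp => ?_, ?_, ?_⟩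
  · have := h2 p hp
    omega
  · have hk : ex i ≤ i := Nat.unpair_right_le i
    have h5 : m ^ ex i ≤ m ^ i := Nat.pow_le_pow_right (by omega) hk
    calc tw T ≤ m ^ ex i * (m ^ (i + 2) - 1) := h3
      _ ≤ m ^ i * m ^ (i + 2) := Nat.mul_le_mul h5 (Nat.sub_le _ _)
      _ = m ^ (2 * i + 2) := by rw [← pow_add]; congr 1; ring
  · intro ω' hω'
    have h5 := h4 ω' hω'
    simp only [DT.eval_map, mach_eval_runTree] at h5
    exact h5

/-- F3 -/
theorem cert_NL (A : Fam) (i : ℕ) (q : Str) (ω : St) (h : NL i (A.F ω) q = true) :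
    ∃ T : Finset Lit, (∀ p ∈ T, p.1 ∈ A.R ∧ p.2 ∈ A.H p.1) ∧
      (∀ p ∈ T, lw p < (q.length + 2) ^ (i + 2)) ∧ tw T ≤ (q.length + 2) ^ (2 * i + 2) ∧
      ∀ ω' : St, (∀ p ∈ T, ω' p = ω p) → NL i (A.F ω') q = true := by
  classical
  unfold NL at h
  rw [decide_eq_true_eq] at h
  obtain ⟨y, hy, hy2⟩ := h
  obtain ⟨T, h1, h2, h3, h4⟩ := cert_acc A i q y hy ω
  refine ⟨T, h1, h2, h3, fun ω' hω' => ?_⟩
  unfold NL
  rw [decide_eq_true_eq]
  exact ⟨y, hy, (h4 ω' hω').trans hy2⟩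


end Pool.Agent.ABI
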