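import Pool.Agent.Lib_helper27.ABIF.Defs2
import Pool.Agent.Lib_helper64.NPC.Blk.F1
import Pool.Agent.Lib_helper27.ABIF.B.F1
import Pool.Agent.Lib_helper27.ABIF.B.F3
import Pool.Agent.Lib_helper27.ABIF.B.P6

/-! # Block F11b: the end of an epoch, NP -/

set_option autoImplicit false

namespace Pool.Agent.ABI

open Pool.Agent.CK
open Pool.Agent.NPC (Lit St lw tw Cert Term Rst Comp res Stuck RS wt pw GoodRoot HBig te hx NC labs
  rv rq)
open Pool.Agent.ABO (Par Lvl lev CircF hits)
open Pool.Agent.TD.IS (PosI Stg patchI simI)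
open Pool.Agent.TD (Lam dd)

/-- number of literals of a certificate -/
theorem f11b_card_le (T : Finset Lit) : T.card ≤ tw T := by
  unfold NPC.tw
  rw [Finset.card_eq_sum_ones]
  exact Finset.sum_le_sum fun p _ => by unfold NPC.lw; omega

theorem end_NP (i : ℕ) (L : ℕ) (A : Fam) (x : Str) (lab : Str → Str) (hx : x ∈ A.R)
    (hL : (x.length + 2) ^ (i + 2) ≤ L)
    (hlab : ∀ κ : Str, κ.length = x.length / 4 → lab κ ∈ A.H x ∧ (lab κ).take κ.length = κ)
    (hcard : (x.length + 2) ^ (2 * i + 2) < 2 ^ (x.length / 4)) :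
    ∃ v : Str → Bool, ∀ (ω : St), (∀ p, ω p = true ↔
        p.1 = x ∧ ∃ κ : Str, κ.length = x.length / 4 ∧ lab κ = p.2 ∧ v κ = true) →
      ∀ O : Lang, (∀ w : Str, w.length < L → O w = A.F ω w) →
        ∃ w, NL i O w ≠ !(V O w) := by
  classical
  have h2 : 2 * x.length + 2 < L := by
    refine lt_of_lt_of_le ?_ hL
    calc 2 * x.length + 2 < (x.length + 2) ^ 2 := by nlinarith
      _ ≤ (x.length + 2) ^ (i + 2) := Nat.pow_le_pow_right (by omega) (by omega)
  have hOV : ∀ (ω : St) (O : Lang), (∀ w : Str, w.length < L → O w = A.F ω w) →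
      NL i O x = NL i (A.F ω) x ∧ V O x = V (A.F ω) x := by
    intro ω O hO
    constructor
    · apply NL_congr
      intro w hw
      exact hO w (lt_of_lt_of_le hw hL)
    · apply V_congr
      intro w hw
      exact hO w (by omega)
  set ω0 : St := fun _ => false with hω0
  cases hN : NL i (A.F ω0) x with
  | false =>
    refine ⟨fun _ => false, fun ω hω O hO => ⟨x, ?_⟩⟩
    have hωe : ω = ω0 := by
      funext p
      rw [hω0, ← Bool.not_eq_true, hω p]
      rintro ⟨_, κ, _, _, hκ⟩
      exact Bool.false_ne_true hκ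
    obtain ⟨h3, h4⟩ := hOV ω O hO
    rw [h3, h4, hωe, hN]
    have hV0 : V (A.F ω0) x = false := by
      rw [← Bool.not_eq_true, V_free A hx]
      rintro ⟨l, _, hl⟩
      simp [hω0] at hl
    rw [hV0]
    decide
  | true =>
    obtain ⟨T, _, _, hT3, hT4⟩ := cert_NL A i x ω0 hN
    have hinj : Set.InjOn (fun κ : Str => ((x, lab κ) : Lit)) (labs (x.length / 4) : Set Str) := by
      intro a ha b hb hab
      rw [Finset.mem_coe, NPC.mem_labs] at ha hb
      have h5 : lab a = lab b := (Prod.ext_iff.1 hab).2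
      have h6 := (hlab a ha).2
      have h7 := (hlab b hb).2
      rw [← h6, ← h7, ha, hb, h5]
    have hTc : T.card < ((labs (x.length / 4)).image fun κ : Str => ((x, lab κ) : Lit)).card := by
      rw [Finset.card_image_of_injOn hinj, NPC.card_labs]
      exact lt_of_le_of_lt ((f11b_card_le T).trans hT3) hcard
    obtain ⟨q, hq, hq'⟩ := Finset.exists_mem_notMem_of_card_lt_card hTc
    obtain ⟨κ0, hκ0, rfl⟩ := Finset.mem_image.1 hq
    rw [NPC.mem_labs] at hκ0
    refine ⟨fun κ => decide (κ = κ0), fun ω hω O hO => ⟨x, ?_⟩⟩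
    have hωp : ∀ p, ω p = true ↔ p = (x, lab κ0) := by
      intro p
      rw [hω p]
      constructor
      · rintro ⟨h5, κ, _, h6, h7⟩
        have h8 : κ = κ0 := of_decide_eq_true h7
        rw [Prod.ext_iff]
        exact ⟨h5, by rw [← h6, h8]⟩
      · rintro rfl
        exact ⟨rfl, κ0, hκ0, rfl, decide_eq_true rfl⟩
    obtain ⟨h3, h4⟩ := hOV ω O hO
    rw [h3, h4]
    have h5 : NL i (A.F ω) x = true := by
      apply hT4
      intro p hp
      rw [hω0, ← Bool.not_eq_true, hωp]
      rintro rfl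
      exact hq' hp
    have h6 : V (A.F ω) x = true := by
      rw [V_free A hx]
      exact ⟨lab κ0, (hlab κ0 hκ0).1, (hωp _).2 rfl⟩
    rw [h5, h6]
    decide

end Pool.Agent.ABI

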