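import Pool.Agent.Lib_helper27.ABIF.Defs2
import Pool.Agent.Lib_helper64.NPC.Blk.F12c

/-!
-/

set_option autoImplicit false

namespace Pool.Agent.ABI

open Pool.Agent.CK
open Pool.Agent.NPC (Lit St lw tw Cert Term Rst Comp res Stuck RS wt pw GoodRoot HBig te hx NC labs
  rv rq)
open Pool.Agent.ABO (Par Lvl lev CircF hits)
open Pool.Agent.TD.IS (PosI Stg patchI simI)
open Pool.Agent.TD (Lam dd)

theorem f12_index (i j l a : ℕ) :
    ∃ e, iC e = i ∧ iM e = j ∧ iN e = l ∧ a ≤ ia e ∧ Adq e ∧ Adeq e := by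
  obtain ⟨b, hb1, hb2, hb3⟩ := ((enum_pow (2 * (i + 3))).and
    ((Filter.eventually_ge_atTop a).and
      (Filter.eventually_ge_atTop (8 * ((2 * l + 3) * (i + 3) * (j + 3)))))).exists
  set e := Nat.pair i (Nat.pair j (Nat.pair l b)) with he
  have h1 : iC e = i := by unfold iC; rw [he, Nat.unpair_pair]
  have h2 : iM e = j := by unfold iM; rw [he, Nat.unpair_pair, Nat.unpair_pair]
  have h3 : iN e = l := by
    unfold iN; rw [he, Nat.unpair_pair, Nat.unpair_pair, Nat.unpair_pair]
  have h4 : ia e = b := by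
    unfold ia; rw [he, Nat.unpair_pair, Nat.unpair_pair, Nat.unpair_pair]
  have h5 : b ≤ e := (Nat.right_le_pair l b).trans
    ((Nat.right_le_pair j _).trans (Nat.right_le_pair i _))
  have h6 : (ia e + 2) ^ (2 * (iC e + 3)) ≤ 2 ^ e := by
    rw [h1, h4]
    exact hb1.trans (Nat.pow_le_pow_right (by norm_num) h5)
  refine ⟨e, h1, h2, h3, by rw [h4]; exact hb2, ⟨?_, h6⟩, ?_, h6⟩
  · rw [h1, h2, h3]; omega
  · rw [h1, h2, h3]; omega

theorem collapse2 {O : Lang} (h : ∀ i j, NPC.Cor i j O →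
      ∃ a, ∀ e, iC e = i → iM e = j → a ≤ ia e → Adq e → ∀ z, Good O e z) :
    ManyOneComplete O (V O) ∧
    (∀ C, InNP O C → TuringReducible O (V O) C → ManyOneComplete O C) ∧
    ∀ C, TuringComplete O C → ManyOneComplete O C := by
  have hmain : ∀ C, InNP O C → TuringReducible O (V O) C → ManyOneComplete O C := by
    intro C hC hT
    refine ⟨hC, fun A hA => ?_⟩
    obtain ⟨i, hi⟩ := exists_NL hC
    obtain ⟨l, hl⟩ := exists_NL hA
    obtain ⟨j, hj⟩ := exists_PL hT
    have hcor : NPC.Cor i j O := by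
      intro x
      rw [hi, hj]
    obtain ⟨a, ha⟩ := h i j hcor
    obtain ⟨e, he1, he2, he3, he4, he5, -⟩ := f12_index i j l a
    have hgood := fun z => ha e he1 he2 he4 he5 z
    choose f hf1 hf2 hf3 using hgood
    refine ⟨f, inFP_read O e f (fun z => ?_) hf2, fun z => ?_⟩
    · refine le_trans ?_ (hf1 z)
      calc (f z).length ≤ (f z).length + 2 := by omega
        _ = ((f z).length + 2) ^ 1 := (pow_one _).symm
        _ ≤ ((f z).length + 2) ^ (iC e + 2) := Nat.pow_le_pow_right (by omega) (by omega)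
    · have := hf3 z
      rw [he1, hi, he3, hl] at this
      exact this.symm
  have hNP : InNP O (V O) := NPC.inNP_V O
  exact ⟨hmain _ hNP (turing_refl O _), hmain, fun C hC => hmain C hC.1 (hC.2 _ hNP)⟩


end Pool.Agent.ABI
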