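import Pool.Agent.Lib_helper27.ABIF.Defs2

set_option autoImplicit false

namespace Pool.Agent.ABI

open Pool.Agent.CK
open Pool.Agent.NPC (Lit St lw tw Cert Term Rst Comp res Stuck RS wt pw GoodRoot HBig te hx NC labs
  rv rq)
open Pool.Agent.ABO (Par Lvl lev CircF hits)
open Pool.Agent.TD.IS (PosI Stg patchI simI)
open Pool.Agent.TD (Lam dd)

theorem key2_le (w : Str) : key2 w ≤ w.length := by
  unfold key2
  split
  · exact min_le_left _ _
  · exact le_rfl

theorem f2a_taddr_len (e : ℕ) (z : Str) (b : ℕ) (c : Bool) :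
    alen e z ≤ (taddr e z b c).length := by
  simp only [taddr, ones, List.length_cons, List.length_append, List.length_replicate]
  omega

theorem key2_taddr (e : ℕ) (z : Str) (b : ℕ) (c : Bool) (he : 2 ≤ e) :
    key2 (taddr e z b c) = (z.length + 2) ^ (2 * e) := by
  unfold key2
  rw [tdec_taddr]
  simp only
  refine min_eq_right ?_
  refine le_trans ?_ (f2a_taddr_len e z b c)
  unfold alen
  exact Nat.pow_le_pow_right (by omega) (by nlinarith)

theorem key2_saddr (x y : Str) (b : Bool) (h : x.length = y.length) :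
    key2 (saddr x y b) = 2 * x.length + 2 := by
  unfold key2
  rw [tdec_saddr]
  simp only [saddr, List.length_cons, List.length_reverse]
  rw [addr_il_length x y h]

theorem ext2_trans {N N' : ℕ} {O O' O'' : Lang} (hN : N ≤ N') (h : Ext2 N O O')
    (h' : Ext2 N' O' O'') : Ext2 N O O'' := by
  intro w hw
  rw [h' w (lt_of_lt_of_le hw hN), h w hw]

theorem goodN_ext {N : ℕ} {O O' : Lang} (h : Ext2 N O O') {e : ℕ} {z : Str} (he : 2 ≤ e)
    (hz : (z.length + 2) ^ (2 * e) < N) (hg : GoodN N O e z) : GoodN N O' e z := by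
  obtain ⟨q, h1, h2, h3, h4, h5⟩ := hg
  have hw : ∀ w : Str, w.length < N → O' w = O w := fun w hw =>
    h w (lt_of_le_of_lt (key2_le w) hw)
  refine ⟨q, h1, h2, h3, fun b c => ?_, ?_⟩
  · rw [h _ (by rw [key2_taddr e z b c he]; exact hz), h4]
  · rw [NL_congr (iC e) O' O q fun w hl => hw w (lt_of_lt_of_le hl h1),
      NL_congr (iN e) O' O z fun w hl => hw w (lt_of_lt_of_le hl h2), h5]

theorem goodN_mono {N N' : ℕ} (hN : N ≤ N') {O : Lang} {e : ℕ} {z : Str}
    (hg : GoodN N O e z) : GoodN N' O e z := by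
  obtain ⟨q, h1, h2, h3, h4, h5⟩ := hg
  exact ⟨q, h1.trans hN, h2.trans hN, h3, h4, h5⟩

theorem goodN_good {N : ℕ} {O : Lang} {e : ℕ} {z : Str} (hg : GoodN N O e z) :
    Good O e z := by
  obtain ⟨q, _, _, h3, h4, h5⟩ := hg
  exact ⟨q, h3, h4, h5⟩


end Pool.Agent.ABI
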