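import Pool.Agent.Lib_helper27.ABIF.Defs2
import Pool.Agent.Lib_helper64.NPC.Blk.F11b
import Pool.Agent.Lib_helper27.ABIF.B.F2a

set_option autoImplicit false

namespace Pool.Agent.ABI

open Pool.Agent.CK
open Pool.Agent.NPC (Lit St lw tw Cert Term Rst Comp res Stuck RS wt pw GoodRoot HBig te hx NC labs
  rv rq)
open Pool.Agent.ABO (Par Lvl lev CircF hits)
open Pool.Agent.TD.IS (PosI Stg patchI simI)
open Pool.Agent.TD (Lam dd)

theorem f2b_len {N : ℕ} (x : Str) (i j : ℕ)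
    (h : (x.length + 2) ^ ((j + 2) * (i + 2)) ≤ N) :
    (x.length + (x.length + 2) ^ ex j + 2) ^ (i + 2) ≤ N ∧ 2 * x.length + 2 < N := by
  set n := x.length + 2 with hn
  have hn2 : 2 ≤ n := by omega
  have h1 : n ^ (j + 1) ≤ n ^ (j + 2) := Nat.pow_le_pow_right (by omega) (by omega)
  constructor
  · have h2 : x.length + n ^ ex j + 2 ≤ n ^ (j + 2) := by
      have h3 : n ^ ex j ≤ n ^ (j + 1) := Nat.pow_le_pow_right (by omega)
        (le_trans (Nat.unpair_right_le j) (Nat.le_succ j))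
      have h4 : n ≤ n ^ (j + 1) := Nat.le_self_pow (by omega) n
      have h5 : n ^ (j + 2) = n ^ (j + 1) * n := pow_succ _ _
      have h6 : n ^ (j + 1) * 2 ≤ n ^ (j + 1) * n := Nat.mul_le_mul_left _ hn2
      omega
    calc (x.length + n ^ ex j + 2) ^ (i + 2) ≤ (n ^ (j + 2)) ^ (i + 2) :=
          Nat.pow_le_pow_left h2 _
      _ = n ^ ((j + 2) * (i + 2)) := (pow_mul _ _ _).symm
      _ ≤ N := h
  · have h2 : n ^ 4 ≤ n ^ ((j + 2) * (i + 2)) := Nat.pow_le_pow_right (by omega) (by nlinarith)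
    have h3 : 2 * n < n ^ 4 := by
      have h7 : n ^ 4 = n * (n * (n * n)) := by ring
      have h8 : 4 ≤ n * n := by nlinarith
      have h9 : 8 ≤ n * (n * n) := by nlinarith
      rw [h7]
      nlinarith
    omega

theorem f2b_V {N : ℕ} {O O' : Lang} (x : Str) (hN : 2 * x.length + 2 < N)
    (h : Ext2 N O O') : V O' x = V O x := by
  unfold V
  congr 1
  apply propext
  constructor
  · rintro ⟨y, hy, hO⟩
    refine ⟨y, hy, ?_⟩
    rw [← h _ (by rw [key2_saddr _ _ _ hy.symm]; exact hN)]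
    exact hO
  · rintro ⟨y, hy, hO⟩
    refine ⟨y, hy, ?_⟩
    rw [h _ (by rw [key2_saddr _ _ _ hy.symm]; exact hN)]
    exact hO

theorem kilN_ext {N : ℕ} {O O' : Lang} (h : Ext2 N O O') {m : ℕ × ℕ} (hk : KilN N O m) :
    KilN N O' m := by
  obtain ⟨x, h1, h2⟩ := hk
  obtain ⟨h3, h4⟩ := f2b_len x m.1 m.2 h1
  refine ⟨x, h1, ?_⟩
  rw [NPC.F11b_PL_congr (i := m.1) (j := m.2) (b := x.length + (x.length + 2) ^ ex m.2)
    (N := N) x le_rfl h3 (fun w hw => h w (lt_of_le_of_lt (key2_le w) hw)), f2b_V x h4 h]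
  exact h2

theorem kilN_mono {N N' : ℕ} (hN : N ≤ N') {O : Lang} {m : ℕ × ℕ} (hk : KilN N O m) :
    KilN N' O m := by
  obtain ⟨x, h1, h2⟩ := hk
  exact ⟨x, h1.trans hN, h2⟩

theorem limit2 (M : ℕ → ℕ) (hM : ∀ i, i ≤ M i) (hmono : Monotone M) (O : ℕ → Lang)
    (h : ∀ i, Ext2 (M i) (O i) (O (i + 1))) : ∃ O' : Lang, ∀ i, Ext2 (M i) (O i) O' := by
  have hext : ∀ k j, Ext2 (M k) (O k) (O (k + j)) := by
    intro k j
    induction j with
    | zero => exact fun w _ => rfl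
    | succ j ih =>
      intro w hw
      rw [← add_assoc, h (k + j) w (lt_of_lt_of_le hw (hmono (by omega))), ih w hw]
  refine ⟨fun w => O (key2 w + 1) w, ?_⟩
  intro k w hw
  change O (key2 w + 1) w = O k w
  have hkw : key2 w < M (key2 w + 1) := lt_of_lt_of_le (Nat.lt_succ_self _) (hM _)
  rcases le_total k (key2 w + 1) with hle | hle
  · obtain ⟨j, hj⟩ := Nat.exists_eq_add_of_le hle
    rw [hj]
    exact hext k j w hw
  · obtain ⟨j, hj⟩ := Nat.exists_eq_add_of_le hle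
    rw [hj]
    exact (hext (key2 w + 1) j w hkw).symm


end Pool.Agent.ABI
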