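import Pool.Agent.Lib_helper27.ABIF.Defs2
import Pool.Agent.Lib_helper27.ABIF.B.F1
import Pool.Agent.Lib_helper27.ABIF.B.F3

set_option autoImplicit false

namespace Pool.Agent.ABI

open Pool.Agent.CK
open Pool.Agent.NPC (Lit St lw tw Cert Term Rst Comp res Stuck RS wt pw GoodRoot HBig te hx NC labs
  rv rq)
open Pool.Agent.ABO (Par Lvl lev CircF hits)
open Pool.Agent.TD.IS (PosI Stg patchI simI)
open Pool.Agent.TD (Lam dd)

open Classical in
/-- the state of the old family -/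
noncomputable def f4_g (A : Fam) (u : Str) (i : ℕ) (z : Str) (Enc : Str → Str) (ω : St) : St :=
  fun p => if p.1 = u then decide (∃ y : Str, y.length ≤ (z.length + 2) ^ ex i ∧ Enc y = p.2 ∧
    accB (A.F ω) (prog i) z y ((z.length + 2) ^ ex i) = true) else ω p

theorem f4_g_ne (A : Fam) {u : Str} (i : ℕ) (z : Str) (Enc : Str → Str) (ω : St) {p : Lit}
    (hp : p.1 ≠ u) : f4_g A u i z Enc ω p = ω p := by
  unfold f4_g
  rw [if_neg hp]

open Classical in
theorem f4_g_eq (A : Fam) {u : Str} (i : ℕ) (z : Str) (Enc : Str → Str) (ω : St)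
    (l : Str) : f4_g A u i z Enc ω (u, l) = true ↔ ∃ y : Str,
      y.length ≤ (z.length + 2) ^ ex i ∧ Enc y = l ∧
      accB (A.F ω) (prog i) z y ((z.length + 2) ^ ex i) = true := by
  unfold f4_g
  rw [if_pos rfl, decide_eq_true_iff]

open Classical in
theorem f4_NL (i : ℕ) (O : Lang) (z : Str) : NL i O z = true ↔ ∃ y : Str,
    y.length ≤ (z.length + 2) ^ ex i ∧ accB O (prog i) z y ((z.length + 2) ^ ex i) = true := by
  unfold NL
  rw [decide_eq_true_iff]

theorem f4_tw_union (A B : Finset Lit) : tw (A ∪ B) ≤ tw A + tw B := by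
  unfold tw
  rw [← Finset.sum_union_inter]
  exact Nat.le_add_right _ _

theorem f4_tw_biUnion (T : Finset Lit) (D : Lit → Finset Lit) :
    tw (T.biUnion D) ≤ ∑ p ∈ T, tw (D p) := by
  classical
  induction T using Finset.induction_on with
  | empty =>
    rw [Finset.biUnion_empty, Finset.sum_empty]
    unfold tw
    rw [Finset.sum_empty]
  | insert a T ha ih =>
    rw [Finset.biUnion_insert, Finset.sum_insert ha]
    exact (f4_tw_union _ _).trans (Nat.add_le_add_left ih _)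

theorem f4_pow {i : ℕ} {z u : Str} (hz : (z.length + 2) ^ (2 * i + 2) ≤ u.length) :
    (z.length + 2) ^ (i + 2) ≤ u.length :=
  (Nat.pow_le_pow_right (by omega) (by omega)).trans hz

/-- certificates for the bit at the label `l` of the bound slot -/
theorem f4_cert (A : Fam) {u : Str} (i : ℕ) (z : Str)
    (hz : (z.length + 2) ^ (2 * i + 2) ≤ u.length) (Enc : Str → Str)
    (hEnc : ∀ y y' : Str, y.length ≤ (z.length + 2) ^ ex i → y'.length ≤ (z.length + 2) ^ ex i →
      Enc y = Enc y' → y = y') (ω : St) (l : Str) :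
    ∃ T : Finset Lit, (∀ p ∈ T, p.1 ∈ A.R.erase u ∧ p.2 ∈ A.H p.1) ∧ tw T ≤ lw (u, l) ∧
      ∀ ω' : St, (∀ p ∈ T, ω' p = ω p) → f4_g A u i z Enc ω' (u, l) = f4_g A u i z Enc ω (u, l) := by
  by_cases h : ∃ y : Str, y.length ≤ (z.length + 2) ^ ex i ∧ Enc y = l
  · obtain ⟨y, hyl, hy⟩ := h
    obtain ⟨T, h1, h2, h3, h4⟩ := cert_acc A i z y hyl ω
    refine ⟨T, fun p hp => ⟨Finset.mem_erase.2 ⟨?_, (h1 p hp).1⟩, (h1 p hp).2⟩, ?_, ?_⟩
    · intro h
      have h5 := h2 p hp
      have h6 := f4_pow hz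
      unfold lw at h5
      rw [h] at h5
      omega
    · have h5 : lw (u, l) = 2 * u.length + 2 := rfl
      omega
    · intro ω' hω'
      have h5 : accB (A.F ω') (prog i) z y ((z.length + 2) ^ ex i) =
          accB (A.F ω) (prog i) z y ((z.length + 2) ^ ex i) := h4 ω' hω'
      have h6 : ∀ ω : St, f4_g A u i z Enc ω (u, l) = true ↔
          accB (A.F ω) (prog i) z y ((z.length + 2) ^ ex i) = true := by
        intro ω
        rw [f4_g_eq A i z Enc ω]
        constructor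
        · rintro ⟨y', hyl', hy', h7⟩
          have h8 : y' = y := hEnc y' y hyl' hyl (hy'.trans hy.symm)
          rw [h8] at h7
          exact h7
        · exact fun h7 => ⟨y, hyl, hy, h7⟩
      rw [Bool.eq_iff_iff, h6, h6, h5]
  · refine ⟨∅, fun p hp => absurd hp (Finset.notMem_empty p), ?_, ?_⟩
    · unfold tw
      rw [Finset.sum_empty]
      exact Nat.zero_le _
    · intro ω' _
      have h6 : ∀ ω : St, f4_g A u i z Enc ω (u, l) = false := by
        intro ω
        rw [Bool.eq_false_iff]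
        intro h7
        rw [f4_g_eq A i z Enc ω] at h7
        obtain ⟨y, hyl, hy, -⟩ := h7
        exact h ⟨y, hyl, hy⟩
      rw [h6, h6]

/-- certificates for the new oracles -/
theorem f4_fam (A : Fam) {u : Str} (i : ℕ) (z : Str)
    (hz : (z.length + 2) ^ (2 * i + 2) ≤ u.length) (Enc : Str → Str)
    (hEnc : ∀ y y' : Str, y.length ≤ (z.length + 2) ^ ex i → y'.length ≤ (z.length + 2) ^ ex i →
      Enc y = Enc y' → y = y') (ω : St) (w : Str) :
    ∃ T : Finset Lit, (∀ p ∈ T, p.1 ∈ A.R.erase u ∧ p.2 ∈ A.H p.1) ∧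
      tw T ≤ w.length ∧ Cert (fun ω => A.F (f4_g A u i z Enc ω) w) ω T := by
  classical
  obtain ⟨T₀, h1, h2, h3⟩ := A.cert (f4_g A u i z Enc ω) w
  choose C hC1 hC2 hC3 using fun l => f4_cert A i z hz Enc hEnc ω l
  have key : ∀ p ∈ T₀, ∃ D : Finset Lit, (∀ p' ∈ D, p'.1 ∈ A.R.erase u ∧ p'.2 ∈ A.H p'.1) ∧
      tw D ≤ lw p ∧ ∀ ω' : St, (∀ p' ∈ D, ω' p' = ω p') →
        f4_g A u i z Enc ω' p = f4_g A u i z Enc ω p := by
    intro p hp
    by_cases hpu : p.1 = u
    · obtain ⟨a, l⟩ := p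
      have hpu' : a = u := hpu
      subst hpu'
      exact ⟨C l, hC1 l, hC2 l, hC3 l⟩
    · refine ⟨{p}, ?_, ?_, ?_⟩
      · intro p' hp'
        rw [Finset.mem_singleton] at hp'
        subst hp'
        exact ⟨Finset.mem_erase.2 ⟨hpu, (h1 p' hp).1⟩, (h1 p' hp).2⟩
      · unfold tw
        rw [Finset.sum_singleton]
      · intro ω' hω'
        rw [f4_g_ne A i z Enc ω' hpu, f4_g_ne A i z Enc ω hpu]
        exact hω' p (Finset.mem_singleton_self p)
  choose! D hD1 hD2 hD3 using key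
  refine ⟨T₀.biUnion D, ?_, ?_, ?_⟩
  · intro p hp
    obtain ⟨p', hp', hp''⟩ := Finset.mem_biUnion.1 hp
    exact hD1 p' hp' p hp''
  · have h4 : tw (T₀.biUnion D) ≤ ∑ p ∈ T₀, tw (D p) := f4_tw_biUnion T₀ D
    exact (h4.trans (Finset.sum_le_sum hD2)).trans h2
  · intro ω' hω'
    refine h3 (f4_g A u i z Enc ω') fun p hp => ?_
    exact hD3 p hp ω' fun p' hp' => hω' p' (Finset.mem_biUnion.2 ⟨p, hp, hp'⟩)

theorem f4_bind (A : Fam) (u q : Str) (hu : u ∈ A.R) (S : Finset Str)
    (i' : ℕ) (hg : HGood A i' u q S) (i : ℕ) (z : Str)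
    (hz : (z.length + 2) ^ (2 * i + 2) ≤ u.length) (Enc : Str → Str)
    (hEnc : ∀ y : Str, y.length ≤ (z.length + 2) ^ ex i → Enc y ∈ S ∧
      ∀ y' : Str, y'.length ≤ (z.length + 2) ^ ex i → Enc y = Enc y' → y = y') :
    ∃ B : Fam, B.R = A.R.erase u ∧ B.H = A.H ∧ (∀ ω, B.F ω = A.F (f4_g A u i z Enc ω)) ∧
      ∀ ω, NL i' (B.F ω) q = NL i (B.F ω) z := by
  have hinj : ∀ y y' : Str, y.length ≤ (z.length + 2) ^ ex i →
      y'.length ≤ (z.length + 2) ^ ex i → Enc y = Enc y' → y = y' :=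
    fun y y' hy hy' h => (hEnc y hy).2 y' hy' h
  let B : Fam :=
    { R := A.R.erase u
      H := A.H
      F := fun ω => A.F (f4_g A u i z Enc ω)
      hH := A.hH
      free := fun r hr l hl ω => by
        rw [A.free r (Finset.mem_of_mem_erase hr) l hl,
          f4_g_ne A i z Enc ω (p := (r, l)) (Finset.ne_of_mem_erase hr)]
      cert := fun ω w => f4_fam A i z hz Enc hinj ω w }
  refine ⟨B, rfl, rfl, fun ω => rfl, fun ω => ?_⟩
  show NL i' (A.F (f4_g A u i z Enc ω)) q = NL i (A.F (f4_g A u i z Enc ω)) z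
  have hacc : ∀ y : Str, y.length ≤ (z.length + 2) ^ ex i →
      accB (A.F (f4_g A u i z Enc ω)) (prog i) z y ((z.length + 2) ^ ex i) =
        accB (A.F ω) (prog i) z y ((z.length + 2) ^ ex i) := by
    intro y hy
    obtain ⟨T, h1, h2, h3, h4⟩ := cert_acc A i z y hy ω
    refine h4 (f4_g A u i z Enc ω) fun p hp => f4_g_ne A i z Enc ω ?_
    intro h
    have h5 := h2 p hp
    have h6 := f4_pow hz
    unfold lw at h5
    rw [h] at h5
    omega
  have h1 : NL i (A.F (f4_g A u i z Enc ω)) z = true ↔ ∃ y : Str,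
      y.length ≤ (z.length + 2) ^ ex i ∧
        accB (A.F ω) (prog i) z y ((z.length + 2) ^ ex i) = true := by
    rw [f4_NL]
    constructor
    · rintro ⟨y, hy, h⟩
      exact ⟨y, hy, by rw [← hacc y hy]; exact h⟩
    · rintro ⟨y, hy, h⟩
      exact ⟨y, hy, by rw [hacc y hy]; exact h⟩
  have h2 := hg.2 (f4_g A u i z Enc ω) (by
    intro l _ hl
    rw [f4_g_eq A i z Enc ω] at hl
    obtain ⟨y, hyl, hy, -⟩ := hl
    rw [← hy]
    exact (hEnc y hyl).1)
  rw [Bool.eq_iff_iff, h1, h2]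
  constructor
  · rintro ⟨l, _, hl⟩
    rw [f4_g_eq A i z Enc ω] at hl
    obtain ⟨y, hyl, -, hy⟩ := hl
    exact ⟨y, hyl, hy⟩
  · rintro ⟨y, hy, h⟩
    refine ⟨Enc y, (hEnc y hy).1, ?_⟩
    rw [f4_g_eq A i z Enc ω]
    exact ⟨y, hy, rfl, h⟩

theorem bind_all (A : Fam) (items : Finset (ℕ × Str)) (slot qq : ℕ × Str → Str)
    (SS : ℕ × Str → Finset Str) (Enc : ℕ × Str → Str → Str)
    (hinj : Set.InjOn slot items) (hR : ∀ it ∈ items, slot it ∈ A.R)
    (hg : ∀ it ∈ items, HGood A (iC it.1) (slot it) (qq it) (SS it))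
    (hsize : ∀ it ∈ items, NPC.sl it.1 it.2 ≤ (slot it).length)
    (hEnc : ∀ it ∈ items, ∀ y : Str, y.length ≤ (it.2.length + 2) ^ ex (iN it.1) →
      Enc it y ∈ SS it ∧ ∀ y' : Str, y'.length ≤ (it.2.length + 2) ^ ex (iN it.1) →
        Enc it y = Enc it y' → y = y') :
    ∃ (B : Fam) (g : St → St), Sub ∅ B A ∧ B.R = A.R \ items.image slot ∧ B.H = A.H ∧
      (∀ ω, B.F ω = A.F (g ω)) ∧ (∀ ω p, p.1 ∉ items.image slot → g ω p = ω p) ∧
      (∀ ω, ∀ it ∈ items, ∀ l, g ω (slot it, l) = true →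
        ∃ y : Str, y.length ≤ (it.2.length + 2) ^ ex (iN it.1) ∧ Enc it y = l) ∧
      ∀ it ∈ items, ∀ ω, NL (iC it.1) (B.F ω) (qq it) = NL (iN it.1) (B.F ω) it.2 := by
  classical
  induction items using Finset.induction_on with
  | empty =>
    refine ⟨A, fun ω => ω, sub_refl ∅ A, ?_, rfl, fun ω => rfl, fun ω p _ => rfl,
      fun ω it hit => absurd hit (Finset.notMem_empty it),
      fun it hit => absurd hit (Finset.notMem_empty it)⟩
    rw [Finset.image_empty, Finset.sdiff_empty]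
  | insert a s ha ih =>
    obtain ⟨B, g, hBA, hBR, hBH, hBF, hg1, hg2, hB⟩ := ih
      (hinj.mono (by rw [Finset.coe_insert]; exact Set.subset_insert _ _))
      (fun it hit => hR it (Finset.mem_insert_of_mem hit))
      (fun it hit => hg it (Finset.mem_insert_of_mem hit))
      (fun it hit => hsize it (Finset.mem_insert_of_mem hit))
      (fun it hit => hEnc it (Finset.mem_insert_of_mem hit))
    have ha' := Finset.mem_insert_self a s
    have hns : slot a ∉ s.image slot := by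
      intro h
      obtain ⟨b, hb, hb'⟩ := Finset.mem_image.1 h
      have h1 : b = a := hinj (Finset.mem_coe.2 (Finset.mem_insert_of_mem hb))
        (Finset.mem_coe.2 ha') hb'
      rw [h1] at hb
      exact ha hb
    have hu : slot a ∈ B.R := by
      rw [hBR, Finset.mem_sdiff]
      exact ⟨hR a ha', hns⟩
    have hgB : HGood B (iC a.1) (slot a) (qq a) (SS a) :=
      sub_hGood hBA (fun w hw => absurd hw (Set.notMem_empty w)) hu
        (by rw [hBH]; exact (hg a ha').1) (hg a ha')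
    obtain ⟨C, hCR, hCH, hCF, hC⟩ := f4_bind B (slot a) (qq a) hu (SS a) (iC a.1) hgB
      (iN a.1) a.2 (hsize a ha') (Enc a) (hEnc a ha')
    have hRR : C.R = A.R \ (insert a s).image slot := by
      rw [hCR, hBR]
      ext r
      simp only [Finset.mem_erase, Finset.mem_sdiff, Finset.mem_image, Finset.mem_insert,
        exists_eq_or_imp]
      constructor
      · rintro ⟨h1, h2, h3⟩
        exact ⟨h2, fun h => h.elim (fun h => h1 h.symm) h3⟩
      · rintro ⟨h1, h2⟩
        exact ⟨fun h => h2 (Or.inl h.symm), h1, fun h => h2 (Or.inr h)⟩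
    have hFF : ∀ ω, C.F ω = A.F (g (f4_g B (slot a) (iN a.1) a.2 (Enc a) ω)) := by
      intro ω
      rw [hCF, hBF]
    have hg3 : ∀ ω p, p.1 ∉ (insert a s).image slot →
        g (f4_g B (slot a) (iN a.1) a.2 (Enc a) ω) p = ω p := by
      intro ω p hp
      rw [Finset.image_insert, Finset.mem_insert, not_or] at hp
      rw [hg1 _ p hp.2, f4_g_ne B (iN a.1) a.2 (Enc a) ω hp.1]
    refine ⟨C, fun ω => g (f4_g B (slot a) (iN a.1) a.2 (Enc a) ω), ?_, hRR, hCH.trans hBH, hFF,
      hg3, ?_, ?_⟩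
    · refine ⟨by rw [hRR]; exact Finset.sdiff_subset,
        fun r _ => by rw [hCH.trans hBH],
        fun ω => g (f4_g B (slot a) (iN a.1) a.2 (Enc a) ω), fun ω w _ => by rw [hFF], ?_⟩
      intro r hr l _ ω
      rw [hRR, Finset.mem_sdiff] at hr
      exact hg3 ω (r, l) hr.2
    · intro ω it hit l hl
      rcases Finset.mem_insert.1 hit with rfl | hit
      · have h1 : g (f4_g B (slot it) (iN it.1) it.2 (Enc it) ω) (slot it, l) =
            f4_g B (slot it) (iN it.1) it.2 (Enc it) ω (slot it, l) := hg1 _ (slot it, l) hns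
        have h2 := h1.symm.trans hl
        rw [f4_g_eq B (iN it.1) it.2 (Enc it) ω] at h2
        obtain ⟨y, h3, h4, -⟩ := h2
        exact ⟨y, h3, h4⟩
      · exact hg2 _ it hit l hl
    · intro it hit ω
      rcases Finset.mem_insert.1 hit with rfl | hit
      · exact hC ω
      · rw [hCF ω]
        exact hB it hit _


end Pool.Agent.ABI
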