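import Pool.Agent.Lib_helper27.ABIF.Defs2

/-!
-/

set_option autoImplicit false

namespace Pool.Agent.ABI

open Pool.Agent.CK
open Pool.Agent.NPC (Lit St lw tw Cert Term Rst Comp res Stuck RS wt pw GoodRoot HBig te hx NC labs
  rv rq)
open Pool.Agent.ABO (Par Lvl lev CircF hits)
open Pool.Agent.TD.IS (PosI Stg patchI simI)
open Pool.Agent.TD (Lam dd)

theorem f5_alive {U : Finset Str} {ρ : Rst {r // r ∈ U} Str} {ω : St} {p : Lit} (h : p.1 ∈ U)
    (ha : (ρ ⟨p.1, h⟩).1 = true) :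
    rst ρ ω p = (ω p && decide (p.2 ∈ (ρ ⟨p.1, h⟩).2)) := by
  unfold rst
  rw [dif_pos h, if_pos ha]

theorem f5_agree {U : Finset Str} {ρ : Rst {r // r ∈ U} Str} {ω ω' : St} {p : Lit}
    (h : ∀ hU : p.1 ∈ U, (ρ ⟨p.1, hU⟩).1 = true → p.2 ∈ (ρ ⟨p.1, hU⟩).2 → ω' p = ω p) :
    rst ρ ω' p = rst ρ ω p := by
  unfold rst
  by_cases h1 : p.1 ∈ U
  · rw [dif_pos h1, dif_pos h1]
    by_cases h2 : (ρ ⟨p.1, h1⟩).1 = true
    · rw [if_pos h2, if_pos h2]
      by_cases h3 : p.2 ∈ (ρ ⟨p.1, h1⟩).2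
      · rw [h h1 h2 h3]
      · simp [h3]
    · rw [if_neg h2, if_neg h2]
  · rw [dif_neg h1, dif_neg h1]

/-- F5: `F ω = A.F (rst ρ ω)` -/
theorem restrict (A : Fam) (U : Finset Str) (hU : A.R ⊆ U) (ρ : Rst {r // r ∈ U} Str)
    (hρ : ∀ r, (ρ r).2 ⊆ A.H r.1) :
    ∃ B : Fam, Sub ∅ B A ∧ (∀ r : {r // r ∈ U}, r.1 ∈ B.R ↔ r.1 ∈ A.R ∧ (ρ r).1 = true) ∧
      (∀ r : {r // r ∈ U}, B.H r.1 = (ρ r).2) ∧ ∀ ω, B.F ω = A.F (rst ρ ω) := by
  classical
  let R' : Finset Str := A.R.filter fun r => ∃ h : r ∈ U, (ρ ⟨r, h⟩).1 = true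
  let H' : Str → Finset Str := fun r => if h : r ∈ U then (ρ ⟨r, h⟩).2 else A.H r
  have hR' : ∀ r, r ∈ R' ↔ r ∈ A.R ∧ ∃ h : r ∈ U, (ρ ⟨r, h⟩).1 = true := fun r =>
    Finset.mem_filter
  have hH' : ∀ (r : Str) (h : r ∈ U), H' r = (ρ ⟨r, h⟩).2 := fun r h => dif_pos h
  have hfree : ∀ r ∈ R', ∀ l, ∀ ω : St,
      rst ρ ω (r, l) = (ω (r, l) && decide (l ∈ H' r)) := by
    intro r hr l ω
    obtain ⟨_, h, ha⟩ := (hR' r).1 hr
    rw [f5_alive (p := (r, l)) h ha, hH' r h]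
  let B : Fam :=
    { R := R'
      H := H'
      F := fun ω => A.F (rst ρ ω)
      hH := fun r l hl => by
        by_cases h : r ∈ U
        · rw [hH' r h] at hl
          exact A.hH r l (hρ ⟨r, h⟩ hl)
        · have h2 : H' r = A.H r := dif_neg h
          rw [h2] at hl
          exact A.hH r l hl
      free := fun r hr l hl ω => by
        obtain ⟨hA, h, ha⟩ := (hR' r).1 hr
        rw [A.free r hA l hl, hfree r hr l ω]
        by_cases h1 : l ∈ H' r
        · have h2 : l ∈ A.H r := hρ ⟨r, h⟩ ((hH' r h) ▸ h1)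
          simp [h1, h2]
        · simp [h1]
      cert := fun ω w => by
        obtain ⟨T, h1, h2, h3⟩ := A.cert (rst ρ ω) w
        refine ⟨T.filter (fun p => ∃ h : p.1 ∈ U, (ρ ⟨p.1, h⟩).1 = true ∧
          p.2 ∈ (ρ ⟨p.1, h⟩).2), ?_, ?_, ?_⟩
        · intro p hp
          rw [Finset.mem_filter] at hp
          obtain ⟨hp1, h, ha, hb⟩ := hp
          refine ⟨(hR' _).2 ⟨(h1 p hp1).1, h, ha⟩, ?_⟩
          rw [hH' _ h]
          exact hb
        · refine le_trans ?_ h2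
          unfold tw
          exact Finset.sum_le_sum_of_subset (Finset.filter_subset _ _)
        · intro ω' hω'
          refine h3 (rst ρ ω') fun p hp => f5_agree fun h ha hb => ?_
          exact hω' p (Finset.mem_filter.2 ⟨hp, h, ha, hb⟩) }
  refine ⟨B, ⟨fun r hr => ((hR' r).1 hr).1, ?_, rst ρ, fun _ _ _ => rfl, ?_⟩, ?_, ?_,
    fun _ => rfl⟩
  · intro r hr
    obtain ⟨_, h, _⟩ := (hR' r).1 hr
    show H' r ⊆ A.H r
    rw [hH' r h]
    exact hρ ⟨r, h⟩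
  · intro r hr l hl ω
    have hl' : l ∈ H' r := hl
    rw [hfree r hr l ω]
    simp [hl']
  · intro r
    show r.1 ∈ R' ↔ _
    rw [hR']
    constructor
    · rintro ⟨h1, h, h2⟩
      exact ⟨h1, h2⟩
    · rintro ⟨h1, h2⟩
      exact ⟨h1, r.2, h2⟩
  · intro r
    exact hH' r.1 r.2

open Classical in
/-- F5: some slots get a fixed state -/
theorem fixed (A : Fam) (D : Finset Str) (T : Str → Finset Str) :
    ∃ B : Fam, Sub ∅ B A ∧ B.R = A.R \ D ∧ B.H = A.H ∧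
      ∀ ω, B.F ω = A.F (fun p => if p.1 ∈ D then decide (p.2 ∈ T p.1) else ω p) := by
  let g : St → St := fun ω p => if p.1 ∈ D then decide (p.2 ∈ T p.1) else ω p
  have hg : ∀ ω : St, ∀ p : Lit, p.1 ∉ D → g ω p = ω p := fun ω p h => if_neg h
  let B : Fam :=
    { R := A.R \ D
      H := A.H
      F := fun ω => A.F (g ω)
      hH := A.hH
      free := fun r hr l hl ω => by
        rw [Finset.mem_sdiff] at hr
        rw [A.free r hr.1 l hl, hg ω (r, l) hr.2]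
      cert := fun ω w => by
        obtain ⟨S, h1, h2, h3⟩ := A.cert (g ω) w
        refine ⟨S.filter (fun p => p.1 ∉ D), ?_, ?_, ?_⟩
        · intro p hp
          rw [Finset.mem_filter] at hp
          exact ⟨Finset.mem_sdiff.2 ⟨(h1 p hp.1).1, hp.2⟩, (h1 p hp.1).2⟩
        · refine le_trans ?_ h2
          unfold tw
          exact Finset.sum_le_sum_of_subset (Finset.filter_subset _ _)
        · intro ω' hω'
          refine h3 (g ω') fun p hp => ?_
          by_cases h : p.1 ∈ D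
          · show (if p.1 ∈ D then _ else _) = (if p.1 ∈ D then _ else _)
            rw [if_pos h, if_pos h]
          · rw [hg ω' p h, hg ω p h]
            exact hω' p (Finset.mem_filter.2 ⟨hp, h⟩) }
  refine ⟨B, ⟨Finset.sdiff_subset, fun r _ => Finset.Subset.refl _, g, fun _ _ _ => rfl, ?_⟩, rfl,
    rfl, fun _ => rfl⟩
  intro r hr l hl ω
  exact hg ω (r, l) (Finset.mem_sdiff.1 hr).2


end Pool.Agent.ABI
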