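import Pool.Agent.Lib_helper27.ABIF.Defs2
import Pool.Agent.Lib_helper64.NPC.Blk.F7
import Pool.Agent.Lib_helper27.ABIF.B.F3

/-! # ABI, block F6: the queries of a family -/

set_option autoImplicit false

namespace Pool.Agent.ABI

open Pool.Agent.CK
open Pool.Agent.NPC (Lit St lw tw Cert Term Rst Comp res Stuck RS wt pw GoodRoot HBig te hx NC labs
  rv rq)
open Pool.Agent.ABO (Par Lvl lev CircF hits)
open Pool.Agent.TD.IS (PosI Stg patchI simI)
open Pool.Agent.TD (Lam dd)

open Classical in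
/-- all literals of the family -/
noncomputable def f6_U (A : Fam) (U : Finset Str) : Finset ({r // r ∈ U} × Str) :=
  U.attach ×ˢ A.R.biUnion A.H

open Classical in
/-- all queries with values -/
noncomputable def f6_D (L : ℕ) (A : Fam) (U : Finset Str) (i : ℕ) (w : Str) :
    Finset ((Finset ({r // r ∈ U} × Str) × Finset ({r // r ∈ U} × Str)) × Bool) :=
  (((f6_U A U).powerset ×ˢ (f6_U A U).powerset) ×ˢ (Finset.univ : Finset Bool)).filter
    fun x => x.1.1.card + x.1.2.card ≤ L ^ 2 ∧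
      ∀ ω, Term.Holds ⟨x.1.1, x.1.2⟩ ω → nf A U i w ω = x.2

/-- the query lists -/
noncomputable def f6_qs (L : ℕ) (A : Fam) (U : Finset Str) (i : ℕ) (w : Str) :
    List (Term {r // r ∈ U} Str × Bool) :=
  (f6_D L A U i w).toList.map fun x => (⟨x.1.1, x.1.2⟩, x.2)

theorem f6_complete (L : ℕ) (A : Fam) (U : Finset Str) (hU : A.R ⊆ U) (i : ℕ) (w : Str)
    (ω : {r // r ∈ U} × Str → Bool) (T : Finset Lit)
    (hT : ∀ p ∈ T, p.1 ∈ A.R ∧ p.2 ∈ A.H p.1) (hc : T.card ≤ L ^ 2) (b : Bool)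
    (hb : ∀ ω' : St, (∀ p ∈ T, ω' p = est ω p) → join (A.F ω') (NL i (A.F ω')) w = b) :
    ∃ t ∈ f6_qs L A U i w, t.1.Holds ω := by
  classical
  set pos := (f6_U A U).filter fun x => (x.1.1, x.2) ∈ T ∧ ω x = true with hpos
  set neg := (f6_U A U).filter fun x => (x.1.1, x.2) ∈ T ∧ ω x = false with hneg
  have hholds : Term.Holds ⟨pos, neg⟩ ω :=
    ⟨fun p hp => (Finset.mem_filter.1 hp).2.2, fun p hp => (Finset.mem_filter.1 hp).2.2⟩
  have hcard : pos.card + neg.card ≤ L ^ 2 := by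
    have hdis : Disjoint pos neg := by
      rw [Finset.disjoint_left]
      intro p h1 h2
      have e1 := (Finset.mem_filter.1 h1).2.2
      have e2 := (Finset.mem_filter.1 h2).2.2
      rw [e1] at e2
      exact absurd e2 (by decide)
    rw [← Finset.card_union_of_disjoint hdis]
    refine le_trans ?_ hc
    apply Finset.card_le_card_of_injOn
      (fun x : {r // r ∈ U} × Str => ((x.1.1, x.2) : Lit))
    · intro x hx
      rcases Finset.mem_union.1 (Finset.mem_coe.1 hx) with h | h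
      · exact (Finset.mem_filter.1 h).2.1
      · exact (Finset.mem_filter.1 h).2.1
    · intro x _ y _ hxy
      simp only [Prod.mk.injEq] at hxy
      exact Prod.ext (Subtype.ext hxy.1) hxy.2
  have hval : ∀ ω1, Term.Holds ⟨pos, neg⟩ ω1 → nf A U i w ω1 = b := by
    intro ω1 h1
    unfold nf
    apply hb
    intro p hp
    obtain ⟨hpR, hpH⟩ := hT p hp
    have hpU := hU hpR
    simp only [est, dif_pos hpU]
    have hU' : ((⟨p.1, hpU⟩, p.2) : {r // r ∈ U} × Str) ∈ f6_U A U :=
      Finset.mem_product.2 ⟨Finset.mem_attach _ _, Finset.mem_biUnion.2 ⟨p.1, hpR, hpH⟩⟩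
    cases hω : ω (⟨p.1, hpU⟩, p.2) with
    | true => exact h1.1 _ (Finset.mem_filter.2 ⟨hU', hp, hω⟩)
    | false => exact h1.2 _ (Finset.mem_filter.2 ⟨hU', hp, hω⟩)
  refine ⟨(⟨pos, neg⟩, b), ?_, hholds⟩
  unfold f6_qs
  rw [List.mem_map]
  refine ⟨((pos, neg), b), ?_, rfl⟩
  rw [Finset.mem_toList]
  unfold f6_D
  rw [Finset.mem_filter]
  refine ⟨?_, hcard, hval⟩
  refine Finset.mem_product.2 ⟨Finset.mem_product.2 ⟨?_, ?_⟩, Finset.mem_univ _⟩
  · exact Finset.mem_powerset.2 (Finset.filter_subset _ _)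
  · exact Finset.mem_powerset.2 (Finset.filter_subset _ _)

/-- F6 -/
theorem queries (A : Fam) (U : Finset Str) (hU : A.R ⊆ U) (L i a : ℕ) (ha : a < L)
    (ha' : (a + 2) ^ (i + 2) ≤ L) :
    ∃ qs : Str → List (Term {r // r ∈ U} Str × Bool),
      (∀ w, ∀ t ∈ qs w, t.1.size ≤ L ^ 2) ∧
      (∀ w, ∀ t ∈ qs w, ∀ ω, t.1.Holds ω → nf A U i w ω = t.2) ∧
      (∀ w : Str, w.length ≤ a → ∀ ω, nf A U i w ω = true → ∃ t ∈ qs w, t.1.Holds ω) ∧
      (∀ w : Str, w.length ≤ a → (¬ ∃ q, w = true :: q) → ∀ ω, ∃ t ∈ qs w, t.1.Holds ω) := by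
  classical
  have hsq : ∀ n : ℕ, n ≤ L → n ≤ L ^ 2 := fun n hn =>
    le_trans hn (Nat.le_self_pow (by norm_num) L)
  have hfalse : ∀ w : Str, w.length ≤ a → (¬ ∃ q, w = true :: q) →
      ∀ ω, ∃ t ∈ f6_qs L A U i w, t.1.Holds ω := by
    intro w hw hno ω
    cases w with
    | nil =>
      apply f6_complete L A U hU i [] ω ∅ (by simp) (by simp) false
      intro ω' _
      rfl
    | cons c w =>
      cases c with
      | true => exact absurd ⟨w, rfl⟩ hno
      | false =>
        rw [List.length_cons] at hw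
        obtain ⟨T, hT, hTw, hcert⟩ := A.cert (est ω) w
        apply f6_complete L A U hU i (false :: w) ω T hT
          (le_trans (NPC.f7_card_le T) (hsq _ (by omega))) (A.F (est ω) w)
        intro ω' hω'
        exact hcert ω' hω'
  refine ⟨f6_qs L A U i, ?_, ?_, ?_, hfalse⟩
  · intro w t ht
    unfold f6_qs at ht
    rw [List.mem_map] at ht
    obtain ⟨x, hx, rfl⟩ := ht
    rw [Finset.mem_toList] at hx
    exact (Finset.mem_filter.1 hx).2.1
  · intro w t ht
    unfold f6_qs at ht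
    rw [List.mem_map] at ht
    obtain ⟨x, hx, rfl⟩ := ht
    rw [Finset.mem_toList] at hx
    exact (Finset.mem_filter.1 hx).2.2
  · intro w hw ω hω
    by_cases h : ∃ q, w = true :: q
    · obtain ⟨q, rfl⟩ := h
      rw [List.length_cons] at hw
      have hqa : (q.length + 2) ^ (i + 2) ≤ L :=
        le_trans (Nat.pow_le_pow_left (by omega) _) ha'
      have hNL : NL i (A.F (est ω)) q = true := hω
      obtain ⟨T, hT, -, hTw, hcert⟩ := cert_NL A i q (est ω) hNL
      apply f6_complete L A U hU i (true :: q) ω T hT ?_ true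
      · intro ω' hω'
        exact hcert ω' hω'
      · refine le_trans (NPC.f7_card_le T) (le_trans hTw ?_)
        calc (q.length + 2) ^ (2 * i + 2) ≤ (q.length + 2) ^ ((i + 2) * 2) :=
              Nat.pow_le_pow_right (by omega) (by omega)
          _ = ((q.length + 2) ^ (i + 2)) ^ 2 := by rw [pow_mul]
          _ ≤ L ^ 2 := Nat.pow_le_pow_left hqa 2
    · exact hfalse w hw h ω


end Pool.Agent.ABI
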