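import Pool.Agent.Lib_helper27.ABIF.Defs2
import Pool.Agent.Lib_helper64.NPC.Blk.A13

/-! # Block F7: good slots without correctness -/

set_option autoImplicit false

namespace Pool.Agent.ABI

open Pool.Agent.CK
open Pool.Agent.NPC (Lit St lw tw Cert Term Rst Comp res Stuck RS wt pw GoodRoot HBig te hx NC labs
  rv rq)
open Pool.Agent.ABO (Par Lvl lev CircF hits)
open Pool.Agent.TD.IS (PosI Stg patchI simI)
open Pool.Agent.TD (Lam dd)

open Pool.Agent.NPC (a13_om a13_comp' a13_res a13_res_fals a13_lab a13_mem_lab a13_card_lab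
  a13_sat_holds a13_fals_not res_sound rq_allQ rv_eval rq_some rq_length rq_differ frequent
  indep_set)

/-- F7 -/
theorem f7_comp {ι Λ : Type} [DecidableEq ι] (ρ : Rst ι Λ) (u : ι) (T : Finset Λ)
    (ω : ι × Λ → Bool) (hω : Comp ρ ω) (hT : ∀ l, ω (u, l) = true ↔ l ∈ T) :
    Comp (Function.update ρ u (false, T)) ω := by
  intro r l
  by_cases h : r = u
  · subst h
    simp only [Function.update_self]
    refine ⟨fun hl => ?_, fun _ hl => (hT l).2 hl⟩
    by_contra h2
    rw [Bool.not_eq_false] at h2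
    exact hl ((hT l).1 h2)
  · simpa [Function.update_of_ne h] using hω r l

/-- F7 -/
theorem good_slot2 {ι Λ : Type} [DecidableEq ι] [DecidableEq Λ] (ρ : Rst ι Λ) (u : ι)
    (t : DT Bool) (qs : Str → List (Term ι Λ × Bool))
    (f : Str → (ι × Λ → Bool) → Bool) (P : Str → Prop) (ht : t.AllQ P)
    (m W : ℕ) (hm : t.depth ≤ m) (hW : ∀ w, P w → ∀ a ∈ qs w, a.1.size ≤ W)
    (hs : ∀ w, P w → ∀ a ∈ qs w, ∀ ω, a.1.Holds ω → f w ω = a.2)
    (hc : ∀ w, P w → ∀ ω, f w ω = true → ∃ a ∈ qs w, a.1.Holds ω)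
    (hd : ∀ w, P w → (¬ ∃ q, w = true :: q) → ∀ ω, ∃ a ∈ qs w, a.1.Holds ω)
    (hg : GoodRoot ρ u t qs) (hbig : 4 * m * W < (ρ u).2.card) :
    (∃ T : Finset Λ, (T = ∅ ∨ ∃ l ∈ (ρ u).2, T = {l}) ∧
      ∀ ω, Comp ρ ω → (∀ l, ω (u, l) = true ↔ l ∈ T) →
        ¬ (t.eval (fun w => f w ω) = true ↔ ∃ l, ω (u, l) = true)) ∨
    ∃ q, P (true :: q) ∧ ∃ H'' ⊆ (ρ u).2, (ρ u).2.card ≤ H''.card * (4 * m * (2 * W + 1)) ∧
      ∀ ω, Comp ρ ω → (∀ l, ω (u, l) = true → l ∈ H'') →
        (f (true :: q) ω = true ↔ ∃ l, ω (u, l) = true) := by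
  classical
  obtain ⟨hu, h0, B, hB, hB'⟩ := hg
  -- the restrictions and the answers
  set R : Finset Λ → Rst ι Λ := fun T => Function.update ρ u (false, T) with hR
  set v : Finset Λ → List Bool → Option Bool := fun T w => res (R T) (qs w) with hv
  have hPq : ∀ T, ∀ w ∈ rq (v T) t, P w := fun T => rq_allQ (v T) t P ht
  have hcomp' : ∀ T, Comp (R T) (a13_om ρ u T) := fun T => a13_comp' ρ u T
  have hsound : ∀ T w b, P w → v T w = some b → ∀ ω, Comp (R T) ω → f w ω = b := by
    intro T w b hw hb ω hω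
    exact res_sound (R T) (qs w) (f w) (hs w hw) (hc w hw) b hb ω hω
  have heval : ∀ T, ¬ Stuck (v T) t → ∀ ω, Comp (R T) ω →
      t.eval (fun w => f w ω) = rv (v T) t := by
    intro T hT ω hω
    apply rv_eval (v T) t hT
    intro w hw
    obtain ⟨b, hb⟩ := rq_some (v T) t hT w hw
    rw [hb, hsound T w b (hPq T w hw) hb _ hω]
  -- values
  by_cases hval0' : rv (v ∅) t = true
  · left
    refine ⟨∅, Or.inl rfl, fun ω hω hT h => ?_⟩
    have h1 := heval ∅ h0 ω (f7_comp ρ u ∅ ω hω hT)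
    rw [hval0'] at h1
    obtain ⟨l, hl⟩ := h.1 h1
    exact absurd ((hT l).1 hl) (Finset.notMem_empty l)
  have hval0 : rv (v ∅) t = false := by simpa using hval0'
  by_cases hval1' : ∃ l ∈ (ρ u).2, l ∉ B ∧ rv (v {l}) t = false
  · left
    obtain ⟨l, hl, hlB, hlf⟩ := hval1'
    refine ⟨{l}, Or.inr ⟨l, hl, rfl⟩, fun ω hω hT h => ?_⟩
    have h1 := heval {l} (hB' l hl hlB) ω (f7_comp ρ u {l} ω hω hT)
    rw [h.2 ⟨l, (hT l).2 (Finset.mem_singleton_self l)⟩, hlf] at h1
    exact absurd h1 (by decide)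
  right
  have hval1 : ∀ l ∈ (ρ u).2, l ∉ B → rv (v {l}) t = true := by
    intro l hl hlB
    by_contra h2
    rw [Bool.not_eq_true] at h2
    exact hval1' ⟨l, hl, hlB, h2⟩
  -- satisfied terms for the questions of the empty state
  have hsat : ∀ w, ∃ π : Term ι Λ, (P w → π.size ≤ W) ∧
      ∀ b, v ∅ w = some b → (∃ a ∈ qs w, a.1 = π ∧ a.1.Sat (R ∅) ∧ a.2 = b) ∨
        (b = false ∧ ∀ a ∈ qs w, a.1.Fals (R ∅)) := by
    intro w
    by_cases h : ∃ b, v ∅ w = some b
    · obtain ⟨b, hb⟩ := h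
      rcases a13_res (R ∅) (qs w) b hb with ⟨a, ha, ha1, ha2⟩ | h'
      · refine ⟨a.1, fun hw => hW w hw a ha, ?_⟩
        intro b' hb'
        rw [hb] at hb'
        cases hb'
        exact Or.inl ⟨a, ha, rfl, ha1, ha2⟩
      · refine ⟨⟨∅, ∅⟩, fun _ => by simp [Term.size], ?_⟩
        intro b' hb'
        rw [hb] at hb'
        cases hb'
        exact Or.inr h'
    · exact ⟨⟨∅, ∅⟩, fun _ => by simp [Term.size], fun b hb => absurd ⟨b, hb⟩ h⟩
  choose π0 hπ0 hπ0' using hsat
  set X : Finset Λ := (rq (v ∅) t).toFinset.biUnion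
    fun w => a13_lab u (π0 w).pos ∪ a13_lab u (π0 w).neg with hX
  have hVcard : (rq (v ∅) t).toFinset.card ≤ m :=
    le_trans (List.toFinset_card_le _) (le_trans (rq_length _ _) hm)
  have hXcard : X.card ≤ m * W := by
    refine le_trans (Finset.card_biUnion_le_card_mul _ _ W ?_) (Nat.mul_le_mul_right _ hVcard)
    intro w hw
    refine le_trans (Finset.card_union_le _ _) ?_
    refine le_trans (Nat.add_le_add (a13_card_lab _ _) (a13_card_lab _ _)) ?_
    exact hπ0 w (hPq ∅ w (List.mem_toFinset.1 hw))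
  -- the distinguished question of a label
  have hquest : ∀ l, ∃ w : List Bool, l ∈ (ρ u).2 → l ∉ B → l ∉ X →
      w ∈ rq (v ∅) t ∧ (∀ a ∈ qs w, a.1.Fals (R ∅)) ∧ ∃ a ∈ qs w, a.1.Sat (R {l}) ∧ a.2 = true := by
    intro l
    by_cases hl : l ∈ (ρ u).2 ∧ l ∉ B ∧ l ∉ X
    · obtain ⟨hl, hlB, hlX⟩ := hl
      have hne : rv (v ∅) t ≠ rv (v {l}) t := by
        rw [hval0, hval1 l hl hlB]; decide
      obtain ⟨w, hw, hw', hww⟩ := rq_differ (v ∅) (v {l}) t hne
      refine ⟨w, fun _ _ _ => ⟨hw, ?_⟩⟩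
      obtain ⟨b, hb⟩ := rq_some (v ∅) t h0 w hw
      obtain ⟨b', hb'⟩ := rq_some (v {l}) t (hB' l hl hlB) w hw'
      have hPw := hPq ∅ w hw
      rcases hπ0' w b hb with ⟨a, ha, ha1, ha2, ha3⟩ | ⟨hbf, hall⟩
      · exfalso
        have hlw : l ∉ a13_lab u (π0 w).neg := by
          intro h
          apply hlX
          rw [hX]
          exact Finset.mem_biUnion.2 ⟨w, List.mem_toFinset.2 hw, Finset.mem_union_right _ h⟩
        have hs1 : a.1.Sat (R {l}) := by
          refine ⟨fun p hp => ?_, fun p hp => ?_⟩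
          · have h2 := ha2.1 p hp
            by_cases hpu : p.1 = u
            · simp [hR, hpu] at h2
            · simpa [hR, Function.update_of_ne hpu] using h2
          · have h2 := ha2.2 p hp
            by_cases hpu : p.1 = u
            · simp only [hR, hpu, Function.update_self, Finset.mem_singleton]
              intro hpl
              apply hlw
              apply a13_mem_lab
              rw [← ha1, ← hpu, ← hpl]
              exact hp
            · simpa [hR, Function.update_of_ne hpu] using h2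
        have e1 : f w (a13_om ρ u {l}) = a.2 :=
          hs w hPw a ha _ (a13_sat_holds _ _ hs1 _ (hcomp' {l}))
        have e2 := hsound {l} w b' hPw hb' _ (hcomp' {l})
        apply hww
        rw [hb, hb', ← e2, e1, ha3]
      · refine ⟨hall, ?_⟩
        rcases a13_res (R {l}) (qs w) b' hb' with ⟨a, ha, ha1, ha2⟩ | ⟨hbf', -⟩
        · refine ⟨a, ha, ha1, ?_⟩
          rw [ha2]
          by_contra h3
          rw [Bool.not_eq_true] at h3
          apply hww
          rw [hb, hb', hbf, h3]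
        · exfalso
          apply hww
          rw [hb, hb', hbf, hbf']
    · exact ⟨[], fun h1 h2 h3 => absurd ⟨h1, h2, h3⟩ hl⟩
  choose g hgq using hquest
  set S2 : Finset Λ := ((ρ u).2 \ B) \ X with hS2
  have hmemS2 : ∀ l, l ∈ S2 ↔ (l ∈ (ρ u).2 ∧ l ∉ B) ∧ l ∉ X := by
    intro l
    rw [hS2, Finset.mem_sdiff, Finset.mem_sdiff]
  have hS2card : (ρ u).2.card ≤ 4 * S2.card := by
    have e1 : ((ρ u).2 \ B).card ≤ S2.card + X.card := by
      have := Finset.le_card_sdiff X ((ρ u).2 \ B)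
      rw [← hS2] at this
      omega
    have e2 : (ρ u).2.card ≤ ((ρ u).2 \ B).card + B.card := by
      have := Finset.le_card_sdiff B (ρ u).2
      omega
    have e3 : 4 * (m * W) < (ρ u).2.card := by
      rw [← mul_assoc]; exact hbig
    omega
  have hS2ne : S2.Nonempty := by
    rw [← Finset.card_pos]
    omega
  obtain ⟨w0, hw0, hw0c⟩ := frequent S2 g (rq (v ∅) t).toFinset
    (fun l hl => List.mem_toFinset.2 (by
      obtain ⟨⟨h1, h2⟩, h3⟩ := (hmemS2 l).1 hl
      exact (hgq l h1 h2 h3).1)) hS2ne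
  set S3 : Finset Λ := S2.filter fun l => g l = w0 with hS3
  have hw0q : w0 ∈ rq (v ∅) t := List.mem_toFinset.1 hw0
  have hPw0 : P w0 := hPq ∅ w0 hw0q
  have hS3prop : ∀ l ∈ S3, l ∈ (ρ u).2 ∧ (∀ a ∈ qs w0, a.1.Fals (R ∅)) ∧
      ∃ a ∈ qs w0, a.1.Sat (R {l}) ∧ a.2 = true := by
    intro l hl
    obtain ⟨hl2, hlg⟩ := Finset.mem_filter.1 hl
    obtain ⟨⟨h1, h2⟩, h3⟩ := (hmemS2 l).1 hl2
    obtain ⟨-, h5, h6⟩ := hgq l h1 h2 h3
    rw [hlg] at h5 h6
    exact ⟨h1, h5, h6⟩
  have hS3card : S2.card ≤ S3.card * m := le_trans hw0c (Nat.mul_le_mul_left _ hVcard)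
  have hS3ne : S3.Nonempty := by
    rw [← Finset.card_pos]
    rcases Nat.eq_zero_or_pos S3.card with h | h
    · rw [h, zero_mul] at hS3card
      have := Finset.card_pos.2 hS2ne
      omega
    · exact h
  have hfals : ∀ a ∈ qs w0, a.1.Fals (R ∅) := by
    obtain ⟨l, hl⟩ := hS3ne
    exact (hS3prop l hl).2.1
  -- the question begins with `true`
  have hform : ∃ q, w0 = true :: q := by
    by_contra hno
    obtain ⟨a, ha, hah⟩ := hd w0 hPw0 hno (a13_om ρ u ∅)
    exact a13_fals_not _ _ (hfals a ha) _ (hcomp' ∅) hah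
  obtain ⟨q, rfl⟩ := hform
  -- the terms
  have hterm : ∀ l, ∃ π : Term ι Λ, l ∈ S3 → π.size ≤ W ∧ π.Sat (R {l}) ∧
      ∀ ω, π.Holds ω → f (true :: q) ω = true := by
    intro l
    by_cases hl : l ∈ S3
    · obtain ⟨-, -, a, ha, ha1, ha2⟩ := hS3prop l hl
      refine ⟨a.1, fun _ => ⟨hW _ hPw0 a ha, ha1, fun ω hω => ?_⟩⟩
      rw [hs _ hPw0 a ha ω hω, ha2]
    · exact ⟨⟨∅, ∅⟩, fun h => absurd h hl⟩
  choose π hπ using hterm
  obtain ⟨I, hIS, hIcard, hI⟩ := indep_set S3 (fun l => a13_lab u (π l).neg) W (by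
    intro l hl
    refine le_trans (a13_card_lab _ _) ?_
    have := (hπ l hl).1
    unfold Term.size at this
    omega)
  refine ⟨q, hPw0, I, ?_, ?_, ?_⟩
  · intro l hl
    exact (hS3prop l (hIS hl)).1
  · calc (ρ u).2.card ≤ 4 * S2.card := hS2card
      _ ≤ 4 * (S3.card * m) := Nat.mul_le_mul_left _ hS3card
      _ ≤ 4 * ((I.card * (2 * W + 1)) * m) :=
          Nat.mul_le_mul_left _ (Nat.mul_le_mul_right _ hIcard)
      _ = I.card * (4 * m * (2 * W + 1)) := by ring
  · intro ω hω hωI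
    constructor
    · intro hf
      by_contra hno
      push Not at hno
      have hc0 : Comp (R ∅) ω := by
        intro r l
        by_cases h : r = u
        · subst h
          refine ⟨fun _ => by simpa using hno l, fun _ hl => ?_⟩
          simp [hR] at hl
        · simpa [hR, Function.update_of_ne h] using hω r l
      have h1 : v ∅ (true :: q) = some false := a13_res_fals (R ∅) _ hfals
      rw [hsound ∅ (true :: q) false hPw0 h1 ω hc0] at hf
      exact absurd hf (by decide)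
    · rintro ⟨l, hl⟩
      have hlI := hωI l hl
      obtain ⟨-, hπs, hπh⟩ := hπ l (hIS hlI)
      apply hπh
      refine ⟨fun p hp => ?_, fun p hp => ?_⟩
      · have h1 := hπs.1 p hp
        by_cases hpu : p.1 = u
        · simp only [hR, hpu, Function.update_self, Finset.mem_singleton, true_and] at h1
          have : p = (u, l) := Prod.ext hpu h1
          rw [this]; exact hl
        · simp only [hR, Function.update_of_ne hpu] at h1
          exact (hω p.1 p.2).2 h1.1 h1.2
      · have h1 := hπs.2 p hp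
        by_cases hpu : p.1 = u
        · simp only [hR, hpu, Function.update_self, Finset.mem_singleton] at h1
          by_contra h2
          rw [Bool.not_eq_false] at h2
          have h3 : ω (u, p.2) = true := by
            rw [← hpu]; exact h2
          have h4 := hωI p.2 h3
          apply hI l hlI p.2 h4 (fun h => h1 h.symm)
          apply a13_mem_lab
          rw [← hpu]
          exact hp
        · simp only [hR, Function.update_of_ne hpu] at h1
          exact (hω p.1 p.2).1 h1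


end Pool.Agent.ABI
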