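import Pool.Agent.Lib_helper27.ABIF.Defs2
import Pool.Agent.Lib_helper74.CKF.ADDR

set_option autoImplicit false

namespace Pool.Agent.ABI

open Pool.Agent.CK
open Pool.Agent.NPC (Lit St lw tw Cert Term Rst Comp res Stuck RS wt pw GoodRoot HBig te hx NC labs
  rv rq)
open Pool.Agent.ABO (Par Lvl lev CircF hits)
open Pool.Agent.TD.IS (PosI Stg patchI simI)
open Pool.Agent.TD (Lam dd)

theorem tabF_taddr (F : St → Lang) (items : Finset (ℕ × Str)) (tv : ℕ × Str → Str) (ω : St)
    (it : ℕ × Str) (hit : it ∈ items) (b : ℕ) (c : Bool) :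
    tabF F items tv ω (taddr it.1 it.2 b c) = bit (tv it) (b, c) := by
  unfold tabF
  rw [tdec_taddr]
  exact if_pos hit

theorem tabF_other (F : St → Lang) (items : Finset (ℕ × Str)) (tv : ℕ × Str → Str) (ω : St)
    (w : Str) (hw : ∀ it ∈ items, ∀ b c, w ≠ taddr it.1 it.2 b c) :
    tabF F items tv ω w = F ω w := by
  unfold tabF
  cases h : tdec w with
  | none => rfl
  | some p =>
    simp only
    by_cases hp : p.1 ∈ items
    · exact absurd (tdec_eq h) (hw p.1 hp _ _)
    · rw [if_neg hp]

theorem addT (A : Fam) (items : Finset (ℕ × Str)) (tv : ℕ × Str → Str) :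
    ∃ B : Fam, B.R = A.R ∧ B.H = A.H ∧ B.F = tabF A.F items tv := by
  classical
  refine ⟨⟨A.R, A.H, tabF A.F items tv, A.hH, ?_, ?_⟩, rfl, rfl, rfl⟩
  · intro r hr l hl ω
    rw [← A.free r hr l hl ω]
    unfold tabF
    rw [tdec_saddr]
  · intro ω w
    cases h : tdec w with
    | none =>
      obtain ⟨T, h1, h2, h3⟩ := A.cert ω w
      refine ⟨T, h1, h2, ?_⟩
      have e : (fun ω => tabF A.F items tv ω w) = fun ω => A.F ω w := by
        funext ω'
        unfold tabF
        rw [h]
      rw [e]
      exact h3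
    | some p =>
      by_cases hp : p.1 ∈ items
      · refine ⟨∅, by simp, by simp [tw], ?_⟩
        intro ω' _
        unfold tabF
        rw [h]
        simp only
        rw [if_pos hp, if_pos hp]
      · obtain ⟨T, h1, h2, h3⟩ := A.cert ω w
        refine ⟨T, h1, h2, ?_⟩
        have e : (fun ω => tabF A.F items tv ω w) = fun ω => A.F ω w := by
          funext ω'
          unfold tabF
          rw [h]
          simp only
          rw [if_neg hp]
        rw [e]
        exact h3


end Pool.Agent.ABI
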