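import Pool.Agent.Lib_helper27.ABIF.Defs2

set_option autoImplicit false

namespace Pool.Agent.ABI

open Pool.Agent.CK
open Pool.Agent.NPC (Lit St lw tw Cert Term Rst Comp res Stuck RS wt pw GoodRoot HBig te hx NC labs
  rv rq)
open Pool.Agent.ABO (Par Lvl lev CircF hits Fml Gate Circuit Game Hard Desc cst cTree gsz)
open Pool.Agent.TD.IS (PosI Stg patchI simI)
open Pool.Agent.TD (Lam dd)

theorem lj_succ (N j : ℕ) : Lj N (j + 1) = Lj N j ^ 2 := by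
  unfold Lj
  rw [← pow_mul, pow_succ]

theorem lj_mono {N i j : ℕ} (hN : 1 ≤ N) (h : i ≤ j) : Lj N i ≤ Lj N j := by
  unfold Lj
  exact Nat.pow_le_pow_right hN (Nat.pow_le_pow_right (by norm_num) h)

theorem lj_last (J : ℕ) : Lj (2 ^ 2 ^ J) J = 2 ^ 2 ^ (2 * J) := by
  unfold Lj
  rw [← pow_mul, ← pow_add, two_mul]

theorem n2_pow {J : ℕ} (hJ : 16 ≤ J) : 3 * J + 11 ≤ 2 ^ J := by
  induction J, hJ using Nat.le_induction with
  | base => norm_num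
  | succ n hn ih =>
    rw [pow_succ]
    omega

theorem n2_lt (J : ℕ) : J ≤ 2 ^ J := Nat.lt_two_pow_self.le

theorem n2_four (J : ℕ) : 4 ^ J = 2 ^ (2 * J) := by
  rw [pow_mul]
  norm_num

theorem nc_ep {J N j : ℕ} (hJ : 16 ≤ J) (hN : N = 2 ^ 2 ^ J) (hj : j ≤ J) :
    NC J N (Lj N j) := by
  have h1 := n2_pow hJ
  have hN1 : 1 ≤ N := by rw [hN]; exact Nat.one_le_two_pow
  have hN16 : 16 ≤ N := by
    rw [hN]
    calc 16 = 2 ^ 4 := by norm_num
      _ ≤ 2 ^ 2 ^ J := Nat.pow_le_pow_right (by norm_num) (by omega)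
  have hNL : N ≤ Lj N j := by
    unfold Lj
    exact Nat.le_self_pow (by positivity) N
  refine ⟨hN16.trans hNL, hNL, fun b hb => ?_⟩
  have h2 : Lj N j ^ 100 ≤ 2 ^ (100 * 4 ^ J) := by
    unfold Lj
    rw [hN, ← pow_mul, ← pow_mul, n2_four]
    apply Nat.pow_le_pow_right (by norm_num)
    rw [← mul_assoc]
    calc 2 ^ J * 2 ^ j * 100 ≤ 2 ^ J * 2 ^ J * 100 :=
          Nat.mul_le_mul_right _ (Nat.mul_le_mul_left _ (Nat.pow_le_pow_right (by norm_num) hj))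
      _ = 100 * 2 ^ (2 * J) := by rw [two_mul, pow_add]; ring
  refine h2.trans (Nat.pow_le_pow_right (by norm_num) ?_)
  rw [Nat.le_div_iff_mul_le (by omega)]
  have h3 : 100 * 4 ^ J * (4 * J) ≤ 2 ^ (9 + 3 * J) := by
    calc 100 * 4 ^ J * (4 * J) = 400 * (2 ^ (2 * J) * J) := by rw [n2_four]; ring
      _ ≤ 2 ^ 9 * (2 ^ (2 * J) * 2 ^ J) :=
          Nat.mul_le_mul (by norm_num) (Nat.mul_le_mul_left _ (n2_lt J))
      _ = 2 ^ (9 + 3 * J) := by rw [← pow_add, ← pow_add]; congr 1; omega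
  have h4 : 2 ^ (9 + 3 * J + 2) ≤ N := by
    rw [hN]
    exact Nat.pow_le_pow_right (by norm_num) (by omega)
  have h5 : 1 ≤ 2 ^ (9 + 3 * J) := Nat.one_le_two_pow
  have h6 : 2 ^ (9 + 3 * J + 2) = 4 * 2 ^ (9 + 3 * J) := by rw [pow_add]; ring
  omega

theorem ep_small {J N : ℕ} (hJ : 16 ≤ J) (hN : N = 2 ^ 2 ^ J) :
    2 ^ 16 ≤ N ∧ 64 * J ^ 2 ≤ N ∧ 4 ^ J ≤ N := by
  have h1 := n2_pow hJ
  rw [hN]
  refine ⟨Nat.pow_le_pow_right (by norm_num) (by omega), ?_, ?_⟩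
  · calc 64 * J ^ 2 ≤ 2 ^ 6 * (2 ^ J) ^ 2 :=
          Nat.mul_le_mul (by norm_num) (Nat.pow_le_pow_left (n2_lt J) 2)
      _ = 2 ^ (6 + J * 2) := by rw [← pow_mul, ← pow_add]
      _ ≤ 2 ^ 2 ^ J := Nat.pow_le_pow_right (by norm_num) (by omega)
  · rw [n2_four]
    exact Nat.pow_le_pow_right (by norm_num) (by omega)

theorem pairIn_card (J : ℕ) : {m : ℕ × ℕ | PairIn J m}.Finite ∧
    {m : ℕ × ℕ | PairIn J m}.ncard ≤ J ^ 2 := by
  have h : {m : ℕ × ℕ | PairIn J m} ⊆ ((Finset.range J ×ˢ Finset.range J : Finset (ℕ × ℕ)) :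
      Set (ℕ × ℕ)) := by
    intro m hm
    have h1 : 4 * ((m.1 + 2) * (m.2 + 2)) ≤ J := hm
    rw [Finset.mem_coe, Finset.mem_product, Finset.mem_range, Finset.mem_range]
    constructor
    · nlinarith
    · nlinarith
  refine ⟨(Finset.finite_toSet _).subset h, ?_⟩
  have h2 := Set.ncard_le_ncard h (Finset.finite_toSet _)
  rw [Set.ncard_coe_finset, Finset.card_product, Finset.card_range] at h2
  rw [pow_two]
  exact h2


end Pool.Agent.ABI
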