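import Pool.Agent.Lib_helper27.ABIF.Defs2

/-! # Block P1a of ABI: mass and support of the law of one slot (helper56) -/

set_option autoImplicit false

namespace Pool.Agent.ABI

open Pool.Agent.CK
open Pool.Agent.NPC (Lit St lw tw Cert Term Rst Comp res Stuck RS wt pw GoodRoot HBig te hx NC labs
  rv rq)

theorem p1a_pow (η : ℝ) (H : Finset Str) :
    ∑ S ∈ H.powerset, η ^ S.card * (1 - η) ^ (H.card - S.card) = 1 := by
  rw [Finset.sum_pow_mul_eq_add_pow η (1 - η) H]
  simp

theorem gl_basic (η : ℝ) (h0 : 0 ≤ η) (h1 : η ≤ 1) (θs : List ℝ)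
    (hθ : ∀ θ ∈ θs, 0 ≤ θ ∧ θ ≤ 1)
    (H : Finset Str) : (∀ S, 0 ≤ gl η θs H S) ∧ (∀ S, ¬ S ⊆ H → gl η θs H S = 0) ∧
      ∑ S ∈ H.powerset, gl η θs H S = 1 := by
  induction θs generalizing H with
  | nil =>
    refine ⟨?_, ?_, ?_⟩
    · intro S
      unfold gl
      split_ifs
      · exact mul_nonneg (pow_nonneg h0 _) (pow_nonneg (by linarith) _)
      · exact le_rfl
    · intro S hS
      unfold gl
      rw [if_neg hS]
    · refine Eq.trans ?_ (p1a_pow η H)
      apply Finset.sum_congr rfl
      intro S hS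
      unfold gl
      rw [if_pos (Finset.mem_powerset.1 hS)]
  | cons θ θs ih =>
    have hθ' : ∀ x ∈ θs, 0 ≤ x ∧ x ≤ 1 := fun x hx => hθ x (List.mem_cons_of_mem _ hx)
    obtain ⟨ht0, ht1⟩ := hθ θ List.mem_cons_self
    have hw : ∀ H' : Finset Str, 0 ≤ η ^ H'.card * (1 - η) ^ (H.card - H'.card) := fun H' =>
      mul_nonneg (pow_nonneg h0 _) (pow_nonneg (by linarith) _)
    refine ⟨?_, ?_, ?_⟩
    · intro S
      simp only [gl]
      refine Finset.sum_nonneg fun H' _ => mul_nonneg (hw H') (add_nonneg ?_ ?_)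
      · refine mul_nonneg (by linarith) ?_
        split_ifs <;> norm_num
      · exact mul_nonneg ht0 ((ih hθ' H').1 S)
    · intro S hS
      simp only [gl]
      refine Finset.sum_eq_zero fun H' hH' => ?_
      have h2 : S ≠ H' := by
        rintro rfl
        exact hS (Finset.mem_powerset.1 hH')
      have h3 : ¬ S ⊆ H' := fun h => hS (h.trans (Finset.mem_powerset.1 hH'))
      rw [if_neg h2, (ih hθ' H').2.1 S h3]
      ring
    · simp only [gl]
      rw [Finset.sum_comm]
      refine Eq.trans ?_ (p1a_pow η H)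
      apply Finset.sum_congr rfl
      intro H' hH'
      rw [← Finset.mul_sum, Finset.sum_add_distrib, ← Finset.mul_sum, ← Finset.mul_sum]
      have h2 : ∑ S ∈ H.powerset, (if S = H' then (1 : ℝ) else 0) = 1 := by
        rw [Finset.sum_ite_eq' H.powerset H' (fun _ => (1 : ℝ)), if_pos hH']
      have h3 : ∑ S ∈ H.powerset, gl η θs H' S = 1 := by
        rw [← (ih hθ' H').2.2]
        symm
        apply Finset.sum_subset
        · exact Finset.powerset_mono.2 (Finset.mem_powerset.1 hH')
        · intro S _ hS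
          exact (ih hθ' H').2.1 S fun h => hS (Finset.mem_powerset.2 h)
      rw [h2, h3]
      ring


end Pool.Agent.ABI
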