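import Pool.Agent.Lib_helper27.ABIF.Defs2
import Pool.Agent.Lib_helper27.ABIF.B.P1a

/-!
-/

set_option autoImplicit false

namespace Pool.Agent.ABI

open Pool.Agent.CK
open Pool.Agent.NPC (Lit St lw tw Cert Term Rst Comp res Stuck RS wt pw GoodRoot HBig te hx NC labs
  rv rq)

/-- weight of the product measure -/
noncomputable def p1b_W (η : ℝ) (H S : Finset Str) : ℝ := η ^ S.card * (1 - η) ^ (H.card - S.card)

theorem p1b_W_nonneg (η : ℝ) (h0 : 0 ≤ η) (h1 : η ≤ 1) (H S : Finset Str) : 0 ≤ p1b_W η H S :=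
  mul_nonneg (pow_nonneg h0 _) (pow_nonneg (by linarith) _)

theorem p1b_insert (η : ℝ) (a : Str) (H : Finset Str) (ha : a ∉ H) (f : Finset Str → ℝ) :
    ∑ S ∈ (insert a H).powerset, p1b_W η (insert a H) S * f S =
      ∑ S ∈ H.powerset, p1b_W η H S * ((1 - η) * f S + η * f (insert a S)) := by
  rw [Finset.sum_powerset_insert ha, ← Finset.sum_add_distrib]
  refine Finset.sum_congr rfl fun S hS => ?_
  rw [Finset.mem_powerset] at hS
  have haS : a ∉ S := fun h => ha (hS h)
  have hc : S.card ≤ H.card := Finset.card_le_card hS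
  have e1 : (insert a H).card - S.card = (H.card - S.card) + 1 := by
    rw [Finset.card_insert_of_notMem ha]; omega
  have e2 : (insert a H).card - (insert a S).card = H.card - S.card := by
    rw [Finset.card_insert_of_notMem ha, Finset.card_insert_of_notMem haS]; omega
  unfold p1b_W
  rw [e1, e2, Finset.card_insert_of_notMem haS]
  ring

/-- the value of a functional of the state -/
noncomputable def p1b_G (η : ℝ) (θs : List ℝ) (H : Finset Str) (f : Finset Str → ℝ) : ℝ :=
  ∑ S ∈ H.powerset, gl η θs H S * f S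

theorem p1b_nil (η : ℝ) (H : Finset Str) (f : Finset Str → ℝ) :
    p1b_G η [] H f = ∑ S ∈ H.powerset, p1b_W η H S * f S := by
  unfold p1b_G
  refine Finset.sum_congr rfl fun S hS => ?_
  rw [Finset.mem_powerset] at hS
  simp only [gl, if_pos hS, p1b_W]

theorem p1b_cons (η : ℝ) (h0 : 0 ≤ η) (h1 : η ≤ 1) (θ : ℝ) (θs : List ℝ)
    (hθ : ∀ t ∈ θs, 0 ≤ t ∧ t ≤ 1) (H : Finset Str) (f : Finset Str → ℝ) :
    p1b_G η (θ :: θs) H f =
      ∑ H' ∈ H.powerset, p1b_W η H H' * ((1 - θ) * f H' + θ * p1b_G η θs H' f) := by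
  unfold p1b_G
  have e1 : ∀ S ∈ H.powerset, gl η (θ :: θs) H S * f S =
      ∑ H' ∈ H.powerset, p1b_W η H H' *
        ((1 - θ) * ((if S = H' then 1 else 0) * f S) + θ * (gl η θs H' S * f S)) := by
    intro S _
    have : gl η (θ :: θs) H S = ∑ H' ∈ H.powerset, p1b_W η H H' *
      ((1 - θ) * (if S = H' then 1 else 0) + θ * gl η θs H' S) := by
      simp only [gl, p1b_W]
    rw [this, Finset.sum_mul]
    refine Finset.sum_congr rfl fun H' _ => ?_
    ring
  rw [Finset.sum_congr rfl e1, Finset.sum_comm]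
  refine Finset.sum_congr rfl fun H' hH' => ?_
  rw [Finset.mem_powerset] at hH'
  rw [← Finset.mul_sum, Finset.sum_add_distrib, ← Finset.mul_sum, ← Finset.mul_sum]
  congr 2
  · congr 1
    rw [Finset.sum_eq_single H']
    · simp
    · intro S _ hS
      simp [hS]
    · intro h
      exact absurd (Finset.mem_powerset.mpr hH') h
  · congr 1
    symm
    refine Finset.sum_subset (Finset.powerset_mono.mpr hH') fun S _ hS => ?_
    rw [Finset.mem_powerset] at hS
    rw [(gl_basic η h0 h1 θs hθ H').2.1 S hS, zero_mul]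

/-- base case of `up` -/
theorem p1b_up0 (η : ℝ) (h0 : 0 ≤ η) (H : Finset Str) (x : Str) (f : Finset Str → ℝ)
    (h1 : η ≤ 1) (hf0 : ∀ S, 0 ≤ f S) (hf : ∀ S, f (insert x S) = f S) :
    ∑ S ∈ H.powerset, p1b_W η H S * (if x ∈ S then f S else 0) ≤
      η * ∑ S ∈ H.powerset, p1b_W η H S * f S := by
  by_cases hx : x ∈ H
  · obtain ⟨H0, hx0, rfl⟩ : ∃ H0 : Finset Str, x ∉ H0 ∧ H = insert x H0 :=
      ⟨H.erase x, Finset.notMem_erase x H, (Finset.insert_erase hx).symm⟩
    rw [p1b_insert η x H0 hx0, p1b_insert η x H0 hx0, Finset.mul_sum]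
    refine Finset.sum_le_sum fun S hS => ?_
    rw [Finset.mem_powerset] at hS
    have hxS : x ∉ S := fun h => hx0 (hS h)
    rw [if_neg hxS, if_pos (Finset.mem_insert_self x S), hf]
    refine le_of_eq ?_
    ring
  · have : ∑ S ∈ H.powerset, p1b_W η H S * (if x ∈ S then f S else 0) = 0 := by
      refine Finset.sum_eq_zero fun S hS => ?_
      rw [Finset.mem_powerset] at hS
      rw [if_neg (fun h => hx (hS h)), mul_zero]
    rw [this]
    exact mul_nonneg h0 (Finset.sum_nonneg fun S _ =>
      mul_nonneg (p1b_W_nonneg η h0 h1 H S) (hf0 S))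

theorem p1b_up (η : ℝ) (h0 : 0 ≤ η) (h1 : η ≤ 1) (x : Str) (f : Finset Str → ℝ)
    (hf0 : ∀ S, 0 ≤ f S) (hf : ∀ S, f (insert x S) = f S) : ∀ (θs : List ℝ)
    (_ : ∀ t ∈ θs, 0 ≤ t ∧ t ≤ 1) (H : Finset Str),
    p1b_G η θs H (fun S => if x ∈ S then f S else 0) ≤ η * p1b_G η θs H f := by
  intro θs
  induction θs with
  | nil =>
    intro _ H
    rw [p1b_nil, p1b_nil]
    exact p1b_up0 η h0 H x f h1 hf0 hf
  | cons θ θs ih =>
    intro hθ H
    have hθ' : ∀ t ∈ θs, 0 ≤ t ∧ t ≤ 1 := fun t ht => hθ t (List.mem_cons_of_mem _ ht)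
    have hθ0 := hθ θ List.mem_cons_self
    rw [p1b_cons η h0 h1 θ θs hθ', p1b_cons η h0 h1 θ θs hθ']
    have e1 : ∑ H' ∈ H.powerset, p1b_W η H H' * ((1 - θ) * (if x ∈ H' then f H' else 0) +
        θ * p1b_G η θs H' (fun S => if x ∈ S then f S else 0)) =
        (1 - θ) * ∑ H' ∈ H.powerset, p1b_W η H H' * (if x ∈ H' then f H' else 0) +
        θ * ∑ H' ∈ H.powerset, p1b_W η H H' *
          p1b_G η θs H' (fun S => if x ∈ S then f S else 0) := by
      rw [Finset.mul_sum, Finset.mul_sum, ← Finset.sum_add_distrib]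
      refine Finset.sum_congr rfl fun S _ => ?_
      ring
    have e2 : ∑ H' ∈ H.powerset, p1b_W η H H' * ((1 - θ) * f H' + θ * p1b_G η θs H' f) =
        (1 - θ) * ∑ H' ∈ H.powerset, p1b_W η H H' * f H' +
        θ * ∑ H' ∈ H.powerset, p1b_W η H H' * p1b_G η θs H' f := by
      rw [Finset.mul_sum, Finset.mul_sum, ← Finset.sum_add_distrib]
      refine Finset.sum_congr rfl fun S _ => ?_
      ring
    rw [e1, e2]
    have a1 := p1b_up0 η h0 H x f h1 hf0 hf
    have a2 : ∑ H' ∈ H.powerset, p1b_W η H H' *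
        p1b_G η θs H' (fun S => if x ∈ S then f S else 0) ≤
        η * ∑ H' ∈ H.powerset, p1b_W η H H' * p1b_G η θs H' f := by
      rw [Finset.mul_sum]
      refine Finset.sum_le_sum fun H' _ => ?_
      have := mul_le_mul_of_nonneg_left (ih hθ' H') (p1b_W_nonneg η h0 h1 H H')
      calc _ ≤ _ := this
        _ = _ := by ring
    have b1 := mul_le_mul_of_nonneg_left a1 (show 0 ≤ 1 - θ by linarith [hθ0.2])
    have b2 := mul_le_mul_of_nonneg_left a2 hθ0.1
    calc _ ≤ _ := add_le_add b1 b2
      _ = _ := by ring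

/-- base case of `low` -/
theorem p1b_low0 (η : ℝ) (h0 : 0 ≤ η) (h1 : η ≤ 1 / 2) (s : Str → Bool) (H : Finset Str) :
    ∀ K : Finset Str, (∀ l ∈ K, s l = true → l ∈ H) →
      η ^ K.card ≤ ∑ S ∈ H.powerset, p1b_W η H S *
        (if ∀ l ∈ K, (l ∈ S ↔ s l = true) then 1 else 0) := by
  induction H using Finset.induction_on with
  | empty =>
    intro K hK
    have e : ∀ l ∈ K, (l ∈ (∅ : Finset Str) ↔ s l = true) := by
      intro l hl
      constructor
      · intro h; exact absurd h (Finset.notMem_empty l)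
      · intro h; exact hK l hl h
    rw [Finset.powerset_empty, Finset.sum_singleton, if_pos e]
    simp only [p1b_W, Finset.card_empty, pow_zero, Nat.sub_zero, mul_one]
    exact pow_le_one₀ h0 (by linarith)
  | insert a H ha ih =>
    intro K hK
    rw [p1b_insert η a H ha]
    by_cases haK : a ∈ K
    · obtain ⟨K', haK', rfl⟩ : ∃ K' : Finset Str, a ∉ K' ∧ K = insert a K' :=
        ⟨K.erase a, Finset.notMem_erase a K, (Finset.insert_erase haK).symm⟩
      have hK' : ∀ l ∈ K', s l = true → l ∈ H := by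
        intro l hl hs
        have := hK l (Finset.mem_insert_of_mem hl) hs
        rcases Finset.mem_insert.mp this with h | h
        · exact absurd (h ▸ hl) haK'
        · exact h
      have i1 := ih K' hK'
      rw [Finset.card_insert_of_notMem haK', pow_succ]
      have key : ∀ S ∈ H.powerset,
          η * (p1b_W η H S * (if ∀ l ∈ K', (l ∈ S ↔ s l = true) then 1 else 0)) ≤
          p1b_W η H S * ((1 - η) *
            (if ∀ l ∈ insert a K', (l ∈ S ↔ s l = true) then 1 else 0) +
            η * (if ∀ l ∈ insert a K', (l ∈ insert a S ↔ s l = true) then 1 else 0)) := by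
        intro S hS
        rw [Finset.mem_powerset] at hS
        have haS : a ∉ S := fun h => ha (hS h)
        have hW := p1b_W_nonneg η h0 (by linarith) H S
        by_cases hP : ∀ l ∈ K', (l ∈ S ↔ s l = true)
        · rw [if_pos hP]
          by_cases hs : s a = true
          · have c2 : ∀ l ∈ insert a K', (l ∈ insert a S ↔ s l = true) := by
              intro l hl
              rcases Finset.mem_insert.mp hl with h | h
              · subst h
                exact ⟨fun _ => hs, fun _ => Finset.mem_insert_self _ _⟩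
              · have hne : l ≠ a := fun e => haK' (e ▸ h)
                rw [Finset.mem_insert, or_iff_right hne]
                exact hP l h
            rw [if_pos c2]
            split_ifs
            · nlinarith
            · nlinarith
          · have c1 : ∀ l ∈ insert a K', (l ∈ S ↔ s l = true) := by
              intro l hl
              rcases Finset.mem_insert.mp hl with h | h
              · subst h
                exact ⟨fun h => absurd h haS, fun h => absurd h hs⟩
              · exact hP l h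
            rw [if_pos c1]
            split_ifs
            · nlinarith
            · nlinarith
        · rw [if_neg hP, mul_zero, mul_zero]
          refine mul_nonneg hW (add_nonneg (mul_nonneg (by linarith) ?_) (mul_nonneg h0 ?_))
          · split_ifs <;> norm_num
          · split_ifs <;> norm_num
      calc η ^ K'.card * η ≤ (∑ S ∈ H.powerset, p1b_W η H S *
            (if ∀ l ∈ K', (l ∈ S ↔ s l = true) then 1 else 0)) * η :=
            mul_le_mul_of_nonneg_right i1 h0
        _ = ∑ S ∈ H.powerset,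
            η * (p1b_W η H S * (if ∀ l ∈ K', (l ∈ S ↔ s l = true) then 1 else 0)) := by
            rw [mul_comm, Finset.mul_sum]
        _ ≤ _ := Finset.sum_le_sum key
    · have hK' : ∀ l ∈ K, s l = true → l ∈ H := by
        intro l hl hs
        rcases Finset.mem_insert.mp (hK l hl hs) with h | h
        · exact absurd (h ▸ hl) haK
        · exact h
      refine (ih K hK').trans (le_of_eq ?_)
      refine Finset.sum_congr rfl fun S hS => ?_
      have c : (∀ l ∈ K, (l ∈ insert a S ↔ s l = true)) ↔ ∀ l ∈ K, (l ∈ S ↔ s l = true) := by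
        refine forall₂_congr fun l hl => ?_
        have hne : l ≠ a := fun e => haK (e ▸ hl)
        rw [Finset.mem_insert, or_iff_right hne]
      have c' : (if ∀ l ∈ K, (l ∈ insert a S ↔ s l = true) then (1 : ℝ) else 0) =
          if ∀ l ∈ K, (l ∈ S ↔ s l = true) then 1 else 0 := by
        by_cases h : ∀ l ∈ K, (l ∈ S ↔ s l = true)
        · rw [if_pos h, if_pos (c.mpr h)]
        · rw [if_neg h, if_neg (fun h' => h (c.mp h'))]
      rw [c']
      ring

theorem p1b_low (η : ℝ) (h0 : 0 ≤ η) (h1 : η ≤ 1 / 2) (θs : List ℝ)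
    (hθ : ∀ t ∈ θs, 0 ≤ t ∧ t ≤ 1 / 2) (H K : Finset Str) (s : Str → Bool)
    (hK : ∀ l ∈ K, s l = true → l ∈ H) :
    (η / 2) ^ K.card ≤ p1b_G η θs H (fun S => if ∀ l ∈ K, (l ∈ S ↔ s l = true) then 1 else 0) := by
  have hθ1 : ∀ t ∈ θs, 0 ≤ t ∧ t ≤ 1 := fun t ht => ⟨(hθ t ht).1, by linarith [(hθ t ht).2]⟩
  have b0 := p1b_low0 η h0 h1 s H K hK
  cases θs with
  | nil =>
    rw [p1b_nil]
    refine le_trans ?_ b0
    exact pow_le_pow_left₀ (by linarith) (by linarith) _
  | cons θ θs =>
    by_cases hKe : K = ∅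
    · subst hKe
      have g := (gl_basic η h0 (by linarith) (θ :: θs) hθ1 H).2.2
      have : p1b_G η (θ :: θs) H
          (fun S => if ∀ l ∈ (∅ : Finset Str), (l ∈ S ↔ s l = true) then 1 else 0) = 1 := by
        refine Eq.trans ?_ g
        unfold p1b_G
        refine Finset.sum_congr rfl fun S _ => ?_
        dsimp only
        rw [if_pos (by intro l hl; exact absurd hl (Finset.notMem_empty l)), mul_one]
      rw [this]
      simp
    · have hc : 1 ≤ K.card := Finset.card_pos.mpr (Finset.nonempty_iff_ne_empty.mpr hKe)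
      have hθ0 := hθ θ List.mem_cons_self
      rw [p1b_cons η h0 (by linarith) θ θs (fun t ht => hθ1 t (List.mem_cons_of_mem _ ht))]
      have e1 : (1 / 2 : ℝ) * ∑ S ∈ H.powerset, p1b_W η H S *
          (if ∀ l ∈ K, (l ∈ S ↔ s l = true) then 1 else 0) ≤
          ∑ H' ∈ H.powerset, p1b_W η H H' *
            ((1 - θ) * (if ∀ l ∈ K, (l ∈ H' ↔ s l = true) then 1 else 0) +
            θ * p1b_G η θs H' (fun S => if ∀ l ∈ K, (l ∈ S ↔ s l = true) then 1 else 0)) := by
        rw [Finset.mul_sum]
        refine Finset.sum_le_sum fun S _ => ?_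
        have hW := p1b_W_nonneg η h0 (by linarith) H S
        have hG : 0 ≤ p1b_G η θs S
            (fun S => if ∀ l ∈ K, (l ∈ S ↔ s l = true) then 1 else 0) := by
          unfold p1b_G
          refine Finset.sum_nonneg fun T _ => mul_nonneg
            ((gl_basic η h0 (by linarith) θs
              (fun t ht => hθ1 t (List.mem_cons_of_mem _ ht)) S).1 T) ?_
          dsimp only
          split_ifs <;> norm_num
        have hG' := mul_nonneg hθ0.1 hG
        have hI : (0 : ℝ) ≤ (if ∀ l ∈ K, (l ∈ S ↔ s l = true) then 1 else 0) := by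
          split_ifs <;> norm_num
        have : (1 / 2 : ℝ) * (if ∀ l ∈ K, (l ∈ S ↔ s l = true) then 1 else 0) ≤
            (1 - θ) * (if ∀ l ∈ K, (l ∈ S ↔ s l = true) then 1 else 0) +
            θ * p1b_G η θs S (fun S => if ∀ l ∈ K, (l ∈ S ↔ s l = true) then 1 else 0) := by
          nlinarith [mul_nonneg (show (0 : ℝ) ≤ 1 / 2 - θ by linarith [hθ0.2]) hI]
        calc _ = p1b_W η H S *
              ((1 / 2 : ℝ) * (if ∀ l ∈ K, (l ∈ S ↔ s l = true) then 1 else 0)) := by ring
          _ ≤ _ := mul_le_mul_of_nonneg_left this hW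
      refine le_trans ?_ e1
      refine le_trans ?_ (mul_le_mul_of_nonneg_left b0 (by norm_num))
      rw [div_pow, div_eq_mul_inv, mul_comm]
      refine mul_le_mul_of_nonneg_right ?_ (pow_nonneg h0 _)
      rw [← inv_pow, one_div]
      calc ((2 : ℝ)⁻¹) ^ K.card ≤ (2 : ℝ)⁻¹ ^ 1 :=
            pow_le_pow_of_le_one (by norm_num) (by norm_num) hc
        _ = _ := pow_one _

theorem law_gl (η : ℝ) (h0 : 0 < η) (h1 : η ≤ 1 / 2) (θs : List ℝ)
    (hθ : ∀ θ ∈ θs, 0 ≤ θ ∧ θ ≤ 1 / 2) (H : Finset Str) : Law (gl η θs H) H η := by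
  have hθ1 : ∀ t ∈ θs, 0 ≤ t ∧ t ≤ 1 := fun t ht => ⟨(hθ t ht).1, by linarith [(hθ t ht).2]⟩
  have g := gl_basic η h0.le (by linarith) θs hθ1 H
  refine ⟨g.1, g.2.2, ?_, ?_⟩
  · intro K s x hx
    have u := p1b_up η h0.le (by linarith) x
      (fun S => if ∀ l ∈ K, (l ∈ S ↔ s l = true) then 1 else 0)
      (fun S => by split_ifs <;> norm_num) (fun S => by
        have c : (∀ l ∈ K, (l ∈ insert x S ↔ s l = true)) ↔ ∀ l ∈ K, (l ∈ S ↔ s l = true) := by
          refine forall₂_congr fun l hl => ?_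
          have hne : l ≠ x := fun e => hx (e ▸ hl)
          rw [Finset.mem_insert, or_iff_right hne]
        by_cases h : ∀ l ∈ K, (l ∈ S ↔ s l = true)
        · rw [if_pos h, if_pos (c.mpr h)]
        · rw [if_neg h, if_neg (fun h' => h (c.mp h'))]) θs hθ1 H
    rw [Finset.sum_filter, Finset.sum_filter]
    unfold p1b_G at u
    dsimp only at u
    refine le_trans (le_of_eq ?_) (u.trans (le_of_eq ?_))
    · refine Finset.sum_congr rfl fun S _ => ?_
      by_cases hxS : x ∈ S
      · by_cases h : ∀ l ∈ K, (l ∈ S ↔ s l = true)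
        · rw [if_pos ⟨h, hxS⟩, if_pos hxS, if_pos h, mul_one]
        · rw [if_neg (fun h' => h h'.1), if_pos hxS, if_neg h, mul_zero]
      · rw [if_neg (fun h' => hxS h'.2), if_neg hxS, mul_zero]
    · congr 1
      refine Finset.sum_congr rfl fun S _ => ?_
      by_cases h : ∀ l ∈ K, (l ∈ S ↔ s l = true)
      · rw [if_pos h, if_pos h, mul_one]
      · rw [if_neg h, if_neg h, mul_zero]
  · intro K s hK
    have l := p1b_low η h0.le h1 θs hθ H K s hK
    rw [Finset.sum_filter]
    unfold p1b_G at l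
    dsimp only at l
    refine l.trans (le_of_eq ?_)
    refine Finset.sum_congr rfl fun S _ => ?_
    by_cases h : ∀ l ∈ K, (l ∈ S ↔ s l = true)
    · rw [if_pos h, if_pos h, mul_one]
    · rw [if_neg h, if_neg h, mul_zero]


end Pool.Agent.ABI
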