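import Pool.Agent.Lib_helper27.ABIF.Defs2
import Pool.Agent.Lib_helper27.ABIF.B.F3
import Pool.Agent.Lib_helper27.ABIF.B.N2
import Pool.Agent.Lib_helper27.ABIF.B.P1b

set_option autoImplicit false

namespace Pool.Agent.ABI

open Pool.Agent.CK
open Pool.Agent.NPC (Lit St lw tw Cert Term Rst Comp res Stuck RS wt pw GoodRoot HBig te hx NC labs
  rv rq)
open Pool.Agent.ABO (Par Lvl lev CircF hits Fml Gate Circuit Game Hard Desc cst cTree gsz)
open Pool.Agent.TD.IS (PosI Stg patchI simI)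
open Pool.Agent.TD (Lam dd)

theorem winA_hits (J N : ℕ) (F : Fam) {s : ℕ} (A : X s → DT Str)
    (S : {r // r ∈ Us J N} → Finset Str) :
    (Finset.univ.filter fun x => winA J N F A S x = true).card =
      hits (fun _ => [true]) A (F.F (stf S)) := by
  unfold hits winA
  congr 1
  refine Finset.filter_congr fun x _ => ?_
  rw [decide_eq_true_iff]

theorem cert_game (J N : ℕ) (F : Fam) (hF : F.R ⊆ Us J N) {s : ℕ} (A : X s → DT Str) (d : ℕ)
    (hA : ∀ x, (A x).depth ≤ d ∧ (A x).AllQ fun w => w.length ≤ d) :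
    ∃ cert : ({r // r ∈ Us J N} → Finset Str) → X s → Finset ({r // r ∈ Us J N} × Str),
      (∀ S x S', (∀ y ∈ cert S x, (y.2 ∈ S' y.1 ↔ y.2 ∈ S y.1)) →
        winA J N F A S' x = winA J N F A S x) ∧
      (∀ S x, (cert S x).card ≤ d ^ 2) ∧
      ∀ S x, ∀ y ∈ cert S x, y.1.1 ∈ F.R ∧ y.2 ∈ F.H y.1.1 ∧ 2 * y.1.1.length + 2 ≤ d := by
  classical
  have key : ∀ (S : {r // r ∈ Us J N} → Finset Str) (x : X s),
      ∃ T : Finset Lit, (∀ p ∈ T, p.1 ∈ F.R ∧ p.2 ∈ F.H p.1) ∧ (∀ p ∈ T, lw p ≤ d) ∧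
        tw T ≤ d * d ∧ Cert (fun ω => (A x).eval (F.F ω)) (stf S) T := fun S x =>
    cert_tree F (A x) d d (hA x).1 (hA x).2 (stf S)
  choose T hT1 hT2 hT3 hT4 using key
  refine ⟨fun S x => (T S x).attach.image fun p =>
    ((⟨p.1.1, hF (hT1 S x p.1 p.2).1⟩ : {r // r ∈ Us J N}), p.1.2), ?_, ?_, ?_⟩
  · intro S x S' h
    have h1 : (A x).eval (F.F (stf S')) = (A x).eval (F.F (stf S)) := by
      refine hT4 S x (stf S') ?_
      intro p hp
      have hU : p.1 ∈ Us J N := hF (hT1 S x p hp).1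
      have h2 := h ((⟨p.1, hU⟩ : {r // r ∈ Us J N}), p.2)
        (Finset.mem_image.2 ⟨⟨p, hp⟩, Finset.mem_attach _ _, rfl⟩)
      unfold stf
      rw [dif_pos hU, dif_pos hU]
      exact decide_eq_decide.2 h2
    unfold winA
    rw [h1]
  · intro S x
    refine Finset.card_image_le.trans ?_
    rw [Finset.card_attach]
    have h1 : (T S x).card ≤ tw (T S x) := by
      unfold tw
      rw [Finset.card_eq_sum_ones]
      refine Finset.sum_le_sum fun p _ => ?_
      unfold lw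
      omega
    rw [pow_two]
    exact h1.trans (hT3 S x)
  · intro S x y hy
    obtain ⟨p, _, rfl⟩ := Finset.mem_image.1 hy
    obtain ⟨h1, h2⟩ := hT1 S x p.1 p.2
    exact ⟨h1, h2, hT2 S x p.1 p.2⟩

theorem F_congr (F : Fam) {ω ω' : St} (h : ∀ r ∈ F.R, ∀ l ∈ F.H r, ω (r, l) = ω' (r, l)) :
    F.F ω = F.F ω' := by
  funext w
  obtain ⟨T, hT1, _, hT3⟩ := F.cert ω' w
  exact hT3 ω fun p hp => h p.1 (hT1 p hp).1 p.2 (hT1 p hp).2

theorem law_lawA {J N : ℕ} (hJ : 16 ≤ J) (hN : N = 2 ^ 2 ^ J) (j : ℕ) (F : Fam)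
    (r : {r // r ∈ Us J N}) : Law (lawA J N j F r) (F.H r.1) (et J r.1.length) := by
  have hr : N ≤ 2 * r.1.length + 2 := by
    have h1 := r.2
    unfold Us at h1
    exact (Finset.mem_filter.1 h1).2.1
  have hte : 1 ≤ te J r.1.length := by
    obtain ⟨h1, _, h3⟩ := nc_ep hJ hN (Nat.zero_le J)
    have h4 := h3 r.1.length hr
    have h5 : 2 ^ 400 ≤ 2 ^ (r.1.length / (4 * J)) := by
      refine le_trans ?_ h4
      calc 2 ^ 400 = (2 ^ 4) ^ 100 := by rw [← pow_mul]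
        _ ≤ (Lj N 0) ^ 100 := Nat.pow_le_pow_left h1 100
    have h6 : 400 ≤ r.1.length / (4 * J) := (Nat.pow_le_pow_iff_right (by norm_num)).1 h5
    unfold te
    omega
  have he0 : 0 < et J r.1.length := by
    unfold et
    positivity
  have he1 : et J r.1.length ≤ 1 / 2 := by
    unfold et
    calc (1 / 2 : ℝ) ^ te J r.1.length ≤ (1 / 2) ^ 1 :=
          pow_le_pow_of_le_one (by norm_num) (by norm_num) hte
      _ = 1 / 2 := pow_one _
  refine law_gl (et J r.1.length) he0 he1 (ths J N j) ?_ (F.H r.1)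
  intro θ hθ
  unfold ths at hθ
  obtain ⟨i, _, rfl⟩ := List.mem_map.1 hθ
  have h2 : 2 ≤ Lj N (j + i) := by
    unfold Lj
    have h3 : 2 ≤ N := by
      rw [hN]
      exact Nat.le_self_pow (by positivity) 2
    exact h3.trans (Nat.le_self_pow (by positivity) N)
  have h4 : (2 : ℝ) ≤ (Lj N (j + i) : ℝ) := by exact_mod_cast h2
  have h5 : (2 : ℝ) ≤ (Lj N (j + i) : ℝ) ^ 8 := by
    calc (2 : ℝ) ≤ (Lj N (j + i) : ℝ) ^ 1 := by rw [pow_one]; exact h4
      _ ≤ (Lj N (j + i) : ℝ) ^ 8 := pow_le_pow_right₀ (by linarith) (by norm_num)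
  constructor
  · positivity
  · exact one_div_le_one_div_of_le (by norm_num) h5


end Pool.Agent.ABI
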