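import Pool.Agent.Lib_helper27.ABIF.Defs2
import Pool.Agent.Lib_helper27.ABIF.B.P1a

set_option autoImplicit false

namespace Pool.Agent.ABI

open Pool.Agent.CK
open Pool.Agent.NPC (Lit St lw tw Cert Term Rst Comp res Stuck RS wt pw GoodRoot HBig te hx NC labs
  rv rq)

/-- the law of the state of a slot given the restriction -/
noncomputable def glk (η : ℝ) (θs : List ℝ) (x : Bool × Finset Str) (S : Finset Str) : ℝ :=
  if x.1 = true then gl η θs x.2 S else if S = x.2 then 1 else 0

theorem gl_cons_eq {ι : Type} (η : ι → ℝ) (θ : ℝ) (θs : List ℝ) (H : ι → Finset Str) (r : ι)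
    (S : Finset Str) : gl (η r) (θ :: θs) (H r) S =
      ∑ x ∈ (Finset.univ : Finset Bool) ×ˢ (H r).powerset, pw θ η H r x * glk (η r) θs x S := by
  rw [gl, Finset.sum_product_right]
  apply Finset.sum_congr rfl
  intro H' _
  simp only [Fintype.sum_bool, pw, glk, if_true, Bool.false_eq_true, if_false]
  ring

theorem glk_sum (η : ℝ) (h0 : 0 ≤ η) (h1 : η ≤ 1) (θs : List ℝ) (hθ : ∀ θ ∈ θs, 0 ≤ θ ∧ θ ≤ 1)
    (x : Bool × Finset Str) (S : Finset Str) :
    ∑ T ∈ x.2.powerset, gl η θs x.2 T * (if S = (if x.1 = true then T else x.2) then 1 else 0) =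
      glk η θs x S := by
  obtain ⟨_, h3, h4⟩ := gl_basic η h0 h1 θs hθ x.2
  unfold glk
  by_cases hx : x.1 = true
  · simp only [hx, if_true]
    by_cases hS : S ⊆ x.2
    · rw [Finset.sum_eq_single S]
      · simp
      · intro T _ hT
        rw [if_neg (fun h => hT h.symm), mul_zero]
      · intro h
        exact absurd (Finset.mem_powerset.2 hS) h
    · rw [h3 S hS]
      apply Finset.sum_eq_zero
      intro T hT
      rw [if_neg, mul_zero]
      rintro rfl
      exact hS (Finset.mem_powerset.1 hT)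
  · simp only [hx, if_false, Bool.false_eq_true]
    rw [← Finset.sum_mul, h4, one_mul]

variable {ι Λ : Type} [Fintype ι] [DecidableEq ι] [DecidableEq Λ]

theorem EX_restrict_one (η : ι → ℝ) (h0 : ∀ r, 0 ≤ η r) (h1 : ∀ r, η r ≤ 1) (θs : List ℝ)
    (hθ : ∀ θ' ∈ θs, 0 ≤ θ' ∧ θ' ≤ 1) (H : ι → Finset Str) (f : (ι → Finset Str) → ℝ)
    (ρ : Rst ι Str) (hρ : ∀ r, (ρ r).2 ⊆ H r) :
    EX (fun r => gl (η r) θs (ρ r).2) (fun r => (ρ r).2)
        (fun S => f fun r => if (ρ r).1 = true then S r else (ρ r).2) =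
      ∑ S ∈ Fintype.piFinset fun r => (H r).powerset, (∏ r, glk (η r) θs (ρ r) (S r)) * f S := by
  unfold EX
  have e1 : ∀ T ∈ Fintype.piFinset fun r => ((ρ r).2).powerset,
      (∏ r, gl (η r) θs (ρ r).2 (T r)) * (f fun r => if (ρ r).1 = true then T r else (ρ r).2) =
      ∑ S ∈ Fintype.piFinset fun r => (H r).powerset,
        (∏ r, gl (η r) θs (ρ r).2 (T r) *
          (if S r = (if (ρ r).1 = true then T r else (ρ r).2) then 1 else 0)) * f S := by
    intro T hT
    rw [Fintype.mem_piFinset] at hT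
    rw [Finset.sum_eq_single (fun r => if (ρ r).1 = true then T r else (ρ r).2)]
    · simp
    · intro S _ hS
      have : ∃ r, S r ≠ (if (ρ r).1 = true then T r else (ρ r).2) := by
        by_contra hcon
        push Not at hcon
        exact hS (funext hcon)
      obtain ⟨r, hr⟩ := this
      rw [Finset.prod_eq_zero (Finset.mem_univ r), zero_mul]
      rw [if_neg hr, mul_zero]
    · intro h
      exfalso
      apply h
      rw [Fintype.mem_piFinset]
      intro r
      rw [Finset.mem_powerset]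
      split_ifs
      · exact (Finset.mem_powerset.1 (hT r)).trans (hρ r)
      · exact hρ r
  rw [Finset.sum_congr rfl e1, Finset.sum_comm]
  apply Finset.sum_congr rfl
  intro S _
  rw [← Finset.sum_mul]
  congr 1
  rw [← Finset.prod_univ_sum (fun r => ((ρ r).2).powerset)
    (fun r T => gl (η r) θs (ρ r).2 T *
      (if S r = (if (ρ r).1 = true then T else (ρ r).2) then 1 else 0))]
  apply Finset.prod_congr rfl
  intro r _
  exact glk_sum (η r) (h0 r) (h1 r) θs hθ (ρ r) (S r)

theorem EX_restrict (η : ι → ℝ) (h0 : ∀ r, 0 ≤ η r) (h1 : ∀ r, η r ≤ 1) (θ : ℝ) (θs : List ℝ)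
    (hθ : ∀ θ' ∈ θs, 0 ≤ θ' ∧ θ' ≤ 1) (H : ι → Finset Str) (f : (ι → Finset Str) → ℝ) :
    EX (fun r => gl (η r) (θ :: θs) (H r)) H f =
      ∑ ρ ∈ RS H, wt (pw θ η H) ρ * EX (fun r => gl (η r) θs (ρ r).2) (fun r => (ρ r).2)
        (fun S => f fun r => if (ρ r).1 = true then S r else (ρ r).2) := by
  have e1 : ∀ ρ ∈ RS H, wt (pw θ η H) ρ * EX (fun r => gl (η r) θs (ρ r).2) (fun r => (ρ r).2)
        (fun S => f fun r => if (ρ r).1 = true then S r else (ρ r).2) =
      ∑ S ∈ Fintype.piFinset fun r => (H r).powerset,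
        (∏ r, pw θ η H r (ρ r) * glk (η r) θs (ρ r) (S r)) * f S := by
    intro ρ hρ
    unfold RS at hρ
    rw [Fintype.mem_piFinset] at hρ
    rw [EX_restrict_one η h0 h1 θs hθ H f ρ (fun r =>
      Finset.mem_powerset.1 (Finset.mem_product.1 (hρ r)).2), Finset.mul_sum]
    apply Finset.sum_congr rfl
    intro S _
    rw [Finset.prod_mul_distrib, NPC.wt, mul_assoc]
  rw [Finset.sum_congr rfl e1, Finset.sum_comm]
  unfold EX
  apply Finset.sum_congr rfl
  intro S _
  rw [← Finset.sum_mul]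
  congr 1
  unfold RS
  rw [← Finset.prod_univ_sum (fun r => (Finset.univ : Finset Bool) ×ˢ (H r).powerset)
    (fun r x => pw θ η H r x * glk (η r) θs x (S r))]
  apply Finset.prod_congr rfl
  intro r _
  exact gl_cons_eq η θ θs H r (S r)


end Pool.Agent.ABI
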