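import Pool.Agent.Lib_helper27.ABIF.Defs2
import Pool.Agent.Lib_helper27.ABIF.B.P11
import Pool.Agent.Lib_helper27.ABIF.B.G0

/-!
-/

set_option autoImplicit false

namespace Pool.Agent.ABI

open Pool.Agent.CK
open Pool.Agent.NPC (Lit St lw tw Cert Term Rst Comp res Stuck RS wt pw GoodRoot HBig te hx NC labs
  rv rq)
open Pool.Agent.ABO (Par Lvl lev CircF hits Fml Gate Circuit Game Hard Desc cst cTree gsz)
open Pool.Agent.TD.IS (PosI Stg patchI simI)
open Pool.Agent.TD (Lam dd)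

theorem g1_ths {J N j : ℕ} (hj : j < J) :
    ths J N j = (1 / (Lj N j : ℝ) ^ 8) :: ths J N (j + 1) := by
  unfold ths
  have h1 : J - j = (J - (j + 1)) + 1 := by omega
  rw [h1, List.range_succ_eq_map, List.map_cons, List.map_map]
  congr 1
  refine List.map_congr_left fun i _ => ?_
  show 1 / (Lj N (j + (i + 1)) : ℝ) ^ 8 = _
  rw [show j + (i + 1) = j + 1 + i by ring]

theorem g1_ths_mem {J N j : ℕ} (hN : 1 ≤ N) : ∀ θ' ∈ ths J N j, 0 ≤ θ' ∧ θ' ≤ 1 := by
  intro θ' h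
  unfold ths at h
  rw [List.mem_map] at h
  obtain ⟨i, _, rfl⟩ := h
  have h1 : (1 : ℝ) ≤ (Lj N (j + i) : ℝ) := by
    have : 1 ≤ Lj N (j + i) := Nat.one_le_pow _ _ hN
    exact_mod_cast this
  have h2 : (1 : ℝ) ≤ (Lj N (j + i) : ℝ) ^ 8 := one_le_pow₀ h1
  exact ⟨by positivity, by rw [div_le_one (by linarith)]; exact h2⟩

/-- G1: from `EX_restrict` and `F_congr` -/
theorem risk_restrict {J N j : ℕ} (hJ : 16 ≤ J) (hN : N = 2 ^ 2 ^ J) (hj : j < J) (A : Fam)
    (hR : A.R ⊆ Us J N) (B : Rst {r // r ∈ Us J N} Str → Fam)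
    (hBH : ∀ ρ ∈ RS (fun r : {r // r ∈ Us J N} => A.H r.1), ∀ r : {r // r ∈ Us J N},
      (B ρ).H r.1 = (ρ r).2)
    (hBF : ∀ ρ ∈ RS (fun r : {r // r ∈ Us J N} => A.H r.1), ∀ ω, (B ρ).F ω = A.F (rst ρ ω))
    {s : ℕ} (Adv : X s → DT Str) (w : ℝ) :
    Risk J N j A Adv w = ∑ ρ ∈ RS (fun r : {r // r ∈ Us J N} => A.H r.1),
      wt (pw (1 / (Lj N j : ℝ) ^ 8) (fun r : {r // r ∈ Us J N} => et J r.1.length)
        (fun r => A.H r.1)) ρ * Risk J N (j + 1) (B ρ) Adv w := by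
  classical
  have hN1 : 1 ≤ N := by rw [hN]; exact Nat.one_le_two_pow
  have h0 : ∀ r : {r // r ∈ Us J N}, 0 ≤ et J r.1.length := fun r => by unfold et; positivity
  have h1 : ∀ r : {r // r ∈ Us J N}, et J r.1.length ≤ 1 := fun r => by
    unfold et
    exact pow_le_one₀ (by norm_num) (by norm_num)
  have hE := EX_restrict (fun r : {r // r ∈ Us J N} => et J r.1.length) h0 h1
    (1 / (Lj N j : ℝ) ^ 8) (ths J N (j + 1)) (g1_ths_mem hN1)
    (fun r : {r // r ∈ Us J N} => A.H r.1)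
    (fun S => if w ≤ (hits (fun _ => [true]) Adv (A.F (stf S)) : ℝ) then 1 else 0)
  have hL : lawA J N j A = fun r : {r // r ∈ Us J N} => gl (et J r.1.length)
      ((1 / (Lj N j : ℝ) ^ 8) :: ths J N (j + 1)) (A.H r.1) := by
    funext r
    unfold lawA
    rw [g1_ths hj]
  unfold Risk
  rw [hL, hE]
  refine Finset.sum_congr rfl fun ρ hρ => ?_
  congr 1
  have hsub : ∀ r, (ρ r).2 ⊆ A.H r.1 := fun r => by
    have h2 := Fintype.mem_piFinset.mp hρ r
    rw [Finset.mem_product] at h2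
    exact Finset.mem_powerset.mp h2.2
  have hL2 : lawA J N (j + 1) (B ρ) = fun r : {r // r ∈ Us J N} => gl (et J r.1.length)
      (ths J N (j + 1)) (ρ r).2 := by
    funext r
    unfold lawA
    rw [hBH ρ hρ r]
  have hH2 : (fun r : {r // r ∈ Us J N} => (B ρ).H r.1) = fun r => (ρ r).2 := by
    funext r
    exact hBH ρ hρ r
  rw [hL2, hH2]
  unfold EX
  refine Finset.sum_congr rfl fun S hS => ?_
  congr 1
  have hF : (B ρ).F (stf S) =
      A.F (stf fun r : {r // r ∈ Us J N} => if (ρ r).1 = true then S r else (ρ r).2) := by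
    rw [hBF ρ hρ]
    refine F_congr A fun r hr l hl => ?_
    have hrU := hR hr
    have hSr : S ⟨r, hrU⟩ ⊆ (ρ ⟨r, hrU⟩).2 :=
      Finset.mem_powerset.mp (Fintype.mem_piFinset.mp hS ⟨r, hrU⟩)
    unfold rst stf
    simp only [hrU, dif_pos]
    by_cases ha : (ρ ⟨r, hrU⟩).1 = true
    · simp only [ha, if_true]
      by_cases hm : l ∈ S ⟨r, hrU⟩
      · simp [hm, hSr hm]
      · simp [hm]
    · simp only [ha]
      simp
  beta_reduce
  rw [hF]

end Pool.Agent.ABI
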