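import Pool.Agent.Lib_helper27.ABIF.Defs2
import Pool.Agent.Lib_helper64.NPC.Blk.F1

/-! # Block G2 -/

set_option autoImplicit false

namespace Pool.Agent.ABI

open Pool.Agent.CK
open Pool.Agent.NPC (Lit St lw tw Cert Term Rst Comp res Stuck RS wt pw GoodRoot HBig te hx NC labs
  rv rq)
open Pool.Agent.ABO (Par Lvl lev CircF hits Fml Gate Circuit Game Hard Desc cst cTree gsz)
open Pool.Agent.TD.IS (PosI Stg patchI simI)
open Pool.Agent.TD (Lam dd)

theorem g2_sum (B : ℕ) : 3 * (∑ b ∈ Finset.range B, 2 ^ b * 2 ^ b) + 1 = 4 ^ B := by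
  induction B with
  | zero => simp
  | succ B ih =>
    rw [Finset.sum_range_succ, pow_succ, ← ih]
    have h : (2 : ℕ) ^ B * 2 ^ B = 4 ^ B := by
      rw [← mul_pow]
      norm_num
    rw [h, ← ih]
    ring

theorem small_card (n : ℕ) (U : Finset Str) (H : Str → Finset Str)
    (hH : ∀ r, ∀ l ∈ H r, l.length = r.length) :
    (((U.filter fun r => 16 * r.length < n).sigma fun r => H r).card ≤ kap0 n) := by
  classical
  rcases Nat.eq_zero_or_pos n with h0 | h0
  · subst h0
    simp [kap0]
  set B := (n - 1) / 16 + 1 with hB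
  have hsub : ((U.filter fun r => 16 * r.length < n).sigma fun r => H r) ⊆
      (Finset.range B).biUnion fun b => (labs b).sigma fun _ => labs b := by
    rintro ⟨r, l⟩ h
    rw [Finset.mem_sigma, Finset.mem_filter] at h
    rw [Finset.mem_biUnion]
    refine ⟨r.length, ?_, ?_⟩
    · rw [Finset.mem_range]
      have := h.1.2
      simp only at this
      omega
    · rw [Finset.mem_sigma, Pool.Agent.NPC.mem_labs, Pool.Agent.NPC.mem_labs]
      exact ⟨rfl, hH r l h.2⟩
  have h1 := (Finset.card_le_card hsub).trans Finset.card_biUnion_le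
  have h2 : ∀ b ∈ Finset.range B, ((labs b).sigma fun _ => labs b).card = 2 ^ b * 2 ^ b := by
    intro b _
    rw [Finset.card_sigma, Finset.sum_const, Pool.Agent.NPC.card_labs, smul_eq_mul]
  rw [Finset.sum_congr rfl h2] at h1
  have h3 := g2_sum B
  have h4 : 4 ^ B ≤ 4 * 2 ^ (n / 8) := by
    rw [hB, pow_succ, mul_comm, show (4 : ℕ) ^ ((n - 1) / 16) = 2 ^ (2 * ((n - 1) / 16)) by
      rw [pow_mul]; norm_num]
    gcongr
    · norm_num
    · omega
  show _ ≤ 2 ^ (n / 8 + 1)
  rw [pow_succ]
  omega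

theorem et_bounds {J N n : ℕ} (hJ : 16 ≤ J) (hN : N = 2 ^ 2 ^ J) (hn : NumL n) (hc : N ≤ dd n)
    (r : Str) (hr : r ∈ Us J N) :
    (2 * r.length + 2 ≤ dd n → (1 / 2 : ℝ) ^ dd n ≤ et J r.length) ∧
      (n ≤ 16 * r.length → et J r.length ≤ del n) := by
  constructor
  · intro h
    unfold et
    apply pow_le_pow_of_le_one (by norm_num) (by norm_num)
    have h1 : te J r.length ≤ r.length := by
      unfold te
      exact (Nat.sub_le _ _).trans (Nat.div_le_self _ _)
    omega
  · intro h
    unfold et del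
    apply pow_le_pow_of_le_one (by norm_num) (by norm_num)
    refine hn.hte J (by omega) ?_ _ h
    unfold dd at hc
    rw [hN] at hc
    exact (Nat.pow_le_pow_iff_right (by norm_num)).1 hc


end Pool.Agent.ABI
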