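import Pool.Agent.Lib_helper27.ABIF.Defs2

/-!
-/

set_option autoImplicit false

namespace Pool.Agent.ABI

open Pool.Agent.CK
open Pool.Agent.NPC (Lit St lw tw Cert Term Rst Comp res Stuck RS wt pw GoodRoot HBig te hx NC labs
  rv rq)

section prob

variable {ι Λ : Type} [Fintype ι] [DecidableEq ι] [DecidableEq Λ]

theorem EX_one {p : ι → Finset Λ → ℝ} {H : ι → Finset Λ}
    (hp : ∀ r, ∑ S ∈ (H r).powerset, p r S = 1) : EX p H (fun _ => 1) = 1 := by
  unfold EX
  simp only [mul_one]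
  rw [← Finset.prod_univ_sum (fun r => (H r).powerset) (fun r S => p r S)]
  simp [hp]

theorem EX_mono {p : ι → Finset Λ → ℝ} {H : ι → Finset Λ} (hp : ∀ r S, 0 ≤ p r S)
    {f g : (ι → Finset Λ) → ℝ} (h : ∀ S, (∀ r, S r ⊆ H r) → f S ≤ g S) :
    EX p H f ≤ EX p H g := by
  unfold EX
  refine Finset.sum_le_sum fun S hS => ?_
  refine mul_le_mul_of_nonneg_left (h S fun r => ?_) (Finset.prod_nonneg fun r _ => hp r (S r))
  exact Finset.mem_powerset.1 (Fintype.mem_piFinset.1 hS r)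

theorem EX_lin (p : ι → Finset Λ → ℝ) (H : ι → Finset Λ) (a : ℝ)
    (f g : (ι → Finset Λ) → ℝ) :
    EX p H (fun S => a * f S + g S) = a * EX p H f + EX p H g := by
  unfold EX
  rw [Finset.mul_sum, ← Finset.sum_add_distrib]
  exact Finset.sum_congr rfl fun S _ => by ring

theorem EX_sum {α : Type} (I : Finset α) (p : ι → Finset Λ → ℝ) (H : ι → Finset Λ)
    (f : α → (ι → Finset Λ) → ℝ) :
    EX p H (fun S => ∑ i ∈ I, f i S) = ∑ i ∈ I, EX p H (f i) := by
  unfold EX
  rw [Finset.sum_comm]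
  exact Finset.sum_congr rfl fun S _ => by rw [Finset.mul_sum]

theorem EX_comm (p p' : ι → Finset Λ → ℝ) (H H' : ι → Finset Λ)
    (f : (ι → Finset Λ) → (ι → Finset Λ) → ℝ) :
    EX p H (fun S => EX p' H' (fun T => f S T)) =
      EX p' H' (fun T => EX p H (fun S => f S T)) := by
  unfold EX
  simp only [Finset.mul_sum]
  rw [Finset.sum_comm]
  exact Finset.sum_congr rfl fun S _ => Finset.sum_congr rfl fun T _ => by ring

end prob


end Pool.Agent.ABI
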