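import Pool.Agent.Lib_helper27.ABIF.Defs2
import Pool.Agent.Lib_helper27.ABIF.B.P2

set_option autoImplicit false

namespace Pool.Agent.ABI

open Pool.Agent.CK
open Pool.Agent.NPC (Lit St lw tw Cert Term Rst Comp res Stuck RS wt pw GoodRoot HBig te hx NC labs
  rv rq)

section prob

variable {ι Λ : Type} [Fintype ι] [DecidableEq ι] [DecidableEq Λ]

/-- the exchange of the components in `U` -/
def p3_mix (U : Finset ι) (S T : ι → Finset Λ) : ι → Finset Λ := fun r => if r ∈ U then T r else S r

omit [Fintype ι] [DecidableEq Λ] in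
theorem p3_mix_mix (U : Finset ι) (S T : ι → Finset Λ) :
    p3_mix U (p3_mix U S T) (p3_mix U T S) = S := by
  funext r
  unfold p3_mix
  by_cases h : r ∈ U
  · simp only [h, if_true]
  · simp only [h, if_false]

theorem p3_mem (U : Finset ι) (H : ι → Finset Λ) {S T : ι → Finset Λ}
    (hS : S ∈ Fintype.piFinset fun r => (H r).powerset)
    (hT : T ∈ Fintype.piFinset fun r => (H r).powerset) :
    p3_mix U S T ∈ Fintype.piFinset fun r => (H r).powerset := by
  rw [Fintype.mem_piFinset] at hS hT ⊢
  intro r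
  unfold p3_mix
  by_cases h : r ∈ U
  · simp only [h, if_true]
    exact hT r
  · simp only [h, if_false]
    exact hS r

theorem p3_prod (U : Finset ι) (p : ι → Finset Λ → ℝ) (S T : ι → Finset Λ) :
    (∏ r, p r (p3_mix U S T r)) * (∏ r, p r (p3_mix U T S r)) =
      (∏ r, p r (S r)) * (∏ r, p r (T r)) := by
  rw [← Finset.prod_mul_distrib, ← Finset.prod_mul_distrib]
  apply Finset.prod_congr rfl
  intro r _
  unfold p3_mix
  by_cases h : r ∈ U
  · simp only [h, if_true]
    ring
  · simp only [h, if_false]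

/-- P3: the slots in `U` are taken from an independent second state.  Proof: exchange the
components in `U` of `S` and `T`; this is a bijection of the pairs `(S, T)` that preserves the
weight; then `EX_one`. -/
theorem EX_resample {p : ι → Finset Λ → ℝ} {H : ι → Finset Λ}
    (hp : ∀ r, ∑ S ∈ (H r).powerset, p r S = 1) (U : Finset ι) (f : (ι → Finset Λ) → ℝ) :
    EX p H f = EX p H (fun S => EX p H (fun T => f fun r => if r ∈ U then T r else S r)) := by
  have h1 : EX p H f = ∑ S ∈ Fintype.piFinset (fun r => (H r).powerset),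
      ∑ T ∈ Fintype.piFinset (fun r => (H r).powerset),
        (∏ r, p r (S r)) * (∏ r, p r (T r)) * f S := by
    have h2 := EX_one hp
    unfold EX at h2 ⊢
    apply Finset.sum_congr rfl
    intro S _
    calc (∏ r, p r (S r)) * f S = (∏ r, p r (S r)) * f S *
        ∑ T ∈ Fintype.piFinset (fun r => (H r).powerset), (∏ r, p r (T r)) * 1 := by
          rw [h2, mul_one]
      _ = _ := by
          rw [Finset.mul_sum]
          apply Finset.sum_congr rfl
          intro T _
          ring
  have h3 : EX p H (fun S => EX p H (fun T => f fun r => if r ∈ U then T r else S r)) =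
      ∑ S ∈ Fintype.piFinset (fun r => (H r).powerset),
      ∑ T ∈ Fintype.piFinset (fun r => (H r).powerset),
        (∏ r, p r (S r)) * (∏ r, p r (T r)) * f (p3_mix U S T) := by
    unfold EX
    apply Finset.sum_congr rfl
    intro S _
    rw [Finset.mul_sum]
    apply Finset.sum_congr rfl
    intro T _
    unfold p3_mix
    ring
  rw [h1, h3, ← Finset.sum_product', ← Finset.sum_product']
  refine Finset.sum_nbij' (fun t => (p3_mix U t.1 t.2, p3_mix U t.2 t.1))
    (fun t => (p3_mix U t.1 t.2, p3_mix U t.2 t.1)) ?_ ?_ ?_ ?_ ?_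
  · intro t ht
    rw [Finset.mem_product] at ht ⊢
    exact ⟨p3_mem U H ht.1 ht.2, p3_mem U H ht.2 ht.1⟩
  · intro t ht
    rw [Finset.mem_product] at ht ⊢
    exact ⟨p3_mem U H ht.1 ht.2, p3_mem U H ht.2 ht.1⟩
  · intro t _
    exact Prod.ext (p3_mix_mix U t.1 t.2) (p3_mix_mix U t.2 t.1)
  · intro t _
    exact Prod.ext (p3_mix_mix U t.1 t.2) (p3_mix_mix U t.2 t.1)
  · intro t _
    show (∏ r, p r (t.1 r)) * (∏ r, p r (t.2 r)) * f t.1 =
      (∏ r, p r (p3_mix U t.1 t.2 r)) * (∏ r, p r (p3_mix U t.2 t.1 r)) *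
        f (p3_mix U (p3_mix U t.1 t.2) (p3_mix U t.2 t.1))
    rw [p3_prod, p3_mix_mix]


end prob

end Pool.Agent.ABI
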