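import Pool.Agent.Lib_helper27.ABIF.Defs2

/-!
-/

set_option autoImplicit false

namespace Pool.Agent.ABI

open Pool.Agent.CK
open Pool.Agent.NPC (Lit St lw tw Cert Term Rst Comp res Stuck RS wt pw GoodRoot HBig te hx NC labs
  rv rq)

section prob

variable {ι Λ : Type} [Fintype ι] [DecidableEq ι] [DecidableEq Λ]

open Classical in
theorem p4a_prod (p : ι → Finset Λ → ℝ) (H : ι → Finset Λ) (Q : ι → Finset Λ → Prop) :
    EX p H (fun S => if ∀ r, Q r (S r) then 1 else 0) =
      ∏ r, ∑ T ∈ (H r).powerset.filter (Q r), p r T := by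
  unfold EX
  have h1 : ∀ r, ∑ T ∈ (H r).powerset.filter (Q r), p r T =
      ∑ T ∈ (H r).powerset, p r T * (if Q r T then 1 else 0) := by
    intro r
    rw [Finset.sum_filter]
    refine Finset.sum_congr rfl fun T _ => ?_
    split_ifs <;> simp
  simp_rw [h1]
  rw [Finset.prod_univ_sum]
  refine Finset.sum_congr rfl fun S _ => ?_
  rw [Finset.prod_mul_distrib]
  congr 1
  rw [Finset.prod_ite_zero]
  simp

open Classical in
/-- P4: product of the bounds `Law.low` (`EX` of a product of functions of the components is the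
product of the sums) -/
theorem EX_low {p : ι → Finset Λ → ℝ} {H : ι → Finset Λ} {η : ι → ℝ}
    (hp : ∀ r, Law (p r) (H r) (η r)) (K : Finset (ι × Λ)) (s : ι × Λ → Bool)
    (hs : ∀ x ∈ K, s x = true → x.2 ∈ H x.1) (ηm : ℝ) (h0 : 0 ≤ ηm) (h1 : ηm ≤ 1)
    (hm : ∀ x ∈ K, ηm ≤ η x.1) :
    (ηm / 2) ^ K.card ≤ EX p H fun S => if ∀ x ∈ K, (x.2 ∈ S x.1 ↔ s x = true) then 1 else 0 := by
  let Kr : ι → Finset Λ := fun r => (K.filter fun y => y.1 = r).image Prod.snd
  have hKr : ∀ r l, l ∈ Kr r ↔ (r, l) ∈ K := by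
    intro r l
    simp only [Kr, Finset.mem_image, Finset.mem_filter]
    constructor
    · rintro ⟨⟨a, b⟩, ⟨h1, h2⟩, h3⟩
      simp only at h2 h3
      subst h2
      subst h3
      exact h1
    · intro h
      exact ⟨(r, l), ⟨h, rfl⟩, rfl⟩
  let Q : ι → Finset Λ → Prop := fun r T => ∀ l ∈ Kr r, (l ∈ T ↔ s (r, l) = true)
  have hQ : ∀ S : ι → Finset Λ, (∀ y ∈ K, (y.2 ∈ S y.1 ↔ s y = true)) ↔ ∀ r, Q r (S r) := by
    intro S
    constructor
    · intro h r l hl
      exact h (r, l) ((hKr r l).1 hl)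
    · rintro h ⟨r, l⟩ hy
      exact h r l ((hKr r l).2 hy)
  have e2 : EX p H (fun S => if ∀ x ∈ K, (x.2 ∈ S x.1 ↔ s x = true) then 1 else 0) =
      ∏ r, ∑ T ∈ (H r).powerset.filter (Q r), p r T := by
    have h := p4a_prod p H Q
    have h' : EX p H (fun S => if ∀ x ∈ K, (x.2 ∈ S x.1 ↔ s x = true) then 1 else 0) =
        EX p H (fun S => if ∀ r, Q r (S r) then 1 else 0) := by
      congr 1
      funext S
      exact if_congr (hQ S) rfl rfl
    rw [h']
    convert h
  rw [e2]
  have hcard : K.card = ∑ r, (Kr r).card := by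
    have h2 : ∀ r, (Kr r).card = (K.filter fun y => y.1 = r).card := by
      intro r
      refine Finset.card_image_of_injOn ?_
      rintro ⟨a, b⟩ hab ⟨a', b'⟩ hab' h
      simp only [Finset.coe_filter, Set.mem_ofPred_eq] at hab hab'
      simp only at h
      rw [Prod.mk.injEq]
      exact ⟨hab.2.trans hab'.2.symm, h⟩
    simp_rw [h2]
    exact Finset.card_eq_sum_card_fiberwise fun x _ => Finset.mem_coe.2 (Finset.mem_univ x.1)
  rw [hcard, ← Finset.prod_pow_eq_pow_sum]
  refine Finset.prod_le_prod (fun r _ => pow_nonneg (by linarith) _) fun r _ => ?_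
  have hlow := (hp r).low (Kr r) (fun l => s (r, l)) fun l hl hsl => hs (r, l) ((hKr r l).1 hl) hsl
  refine le_trans ?_ (hlow.trans (le_of_eq ?_))
  · rcases (Kr r).eq_empty_or_nonempty with h | ⟨l, hl⟩
    · rw [h]
      simp
    · have h3 : ηm ≤ η r := hm (r, l) ((hKr r l).1 hl)
      exact pow_le_pow_left₀ (by linarith) (by linarith) _
  · congr 2

end prob


end Pool.Agent.ABI
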