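import Pool.Agent.Lib_helper27.ABIF.Defs2
import Pool.Agent.Lib_helper27.ABIF.B.P2

/-!
-/

set_option autoImplicit false

namespace Pool.Agent.ABI

open Pool.Agent.CK
open Pool.Agent.NPC (Lit St lw tw Cert Term Rst Comp res Stuck RS wt pw GoodRoot HBig te hx NC labs
  rv rq)

section prob

variable {ι Λ : Type} [Fintype ι] [DecidableEq ι] [DecidableEq Λ]

open Classical in
theorem p4b_prod (p : ι → Finset Λ → ℝ) (H : ι → Finset Λ) (Q : ι → Finset Λ → Prop) :
    EX p H (fun S => if ∀ r, Q r (S r) then 1 else 0) =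
      ∏ r, ∑ T ∈ (H r).powerset.filter (Q r), p r T := by
  unfold EX
  have h1 : ∀ r, ∑ T ∈ (H r).powerset.filter (Q r), p r T =
      ∑ T ∈ (H r).powerset, p r T * (if Q r T then 1 else 0) := by
    intro r
    rw [Finset.sum_filter]
    refine Finset.sum_congr rfl fun T _ => ?_
    split_ifs <;> simp
  simp_rw [h1]
  rw [Finset.prod_univ_sum]
  refine Finset.sum_congr rfl fun S _ => ?_
  rw [Finset.prod_mul_distrib]
  congr 1
  rw [Finset.prod_ite_zero]
  simp

open Classical in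
/-- P4: product, with `Law.up` for the component `x.1` -/
theorem EX_up {p : ι → Finset Λ → ℝ} {H : ι → Finset Λ} {η : ι → ℝ}
    (hp : ∀ r, Law (p r) (H r) (η r)) (K : Finset (ι × Λ)) (s : ι × Λ → Bool) (x : ι × Λ)
    (hx : x ∉ K) :
    EX p H (fun S => if (∀ x ∈ K, (x.2 ∈ S x.1 ↔ s x = true)) ∧ x.2 ∈ S x.1 then 1 else 0) ≤
      η x.1 * EX p H fun S => if ∀ x ∈ K, (x.2 ∈ S x.1 ↔ s x = true) then 1 else 0 := by
  -- the literals of one component
  let Kr : ι → Finset Λ := fun r => (K.filter fun y => y.1 = r).image Prod.snd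
  have hKr : ∀ r l, l ∈ Kr r ↔ (r, l) ∈ K := by
    intro r l
    simp only [Kr, Finset.mem_image, Finset.mem_filter]
    constructor
    · rintro ⟨⟨a, b⟩, ⟨h1, h2⟩, h3⟩
      simp only at h2 h3
      subst h2
      subst h3
      exact h1
    · intro h
      exact ⟨(r, l), ⟨h, rfl⟩, rfl⟩
  let Q : ι → Finset Λ → Prop := fun r T => ∀ l ∈ Kr r, (l ∈ T ↔ s (r, l) = true)
  have hQ : ∀ S : ι → Finset Λ, (∀ y ∈ K, (y.2 ∈ S y.1 ↔ s y = true)) ↔ ∀ r, Q r (S r) := by
    intro S
    constructor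
    · intro h r l hl
      exact h (r, l) ((hKr r l).1 hl)
    · rintro h ⟨r, l⟩ hy
      exact h r l ((hKr r l).2 hy)
  let Q' : ι → Finset Λ → Prop := fun r T => Q r T ∧ (r = x.1 → x.2 ∈ T)
  have hQ' : ∀ S : ι → Finset Λ, ((∀ y ∈ K, (y.2 ∈ S y.1 ↔ s y = true)) ∧ x.2 ∈ S x.1) ↔
      ∀ r, Q' r (S r) := by
    intro S
    rw [hQ]
    constructor
    · rintro ⟨h1, h2⟩ r
      refine ⟨h1 r, ?_⟩
      rintro rfl
      exact h2
    · intro h
      exact ⟨fun r => (h r).1, (h x.1).2 rfl⟩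
  have e1 : EX p H (fun S => if (∀ x ∈ K, (x.2 ∈ S x.1 ↔ s x = true)) ∧ x.2 ∈ S x.1
      then 1 else 0) = ∏ r, ∑ T ∈ (H r).powerset.filter (Q' r), p r T := by
    have h := p4b_prod p H Q'
    have h' : EX p H (fun S => if (∀ x ∈ K, (x.2 ∈ S x.1 ↔ s x = true)) ∧ x.2 ∈ S x.1
        then 1 else 0) = EX p H (fun S => if ∀ r, Q' r (S r) then 1 else 0) := by
      congr 1
      funext S
      exact if_congr (hQ' S) rfl rfl
    rw [h']
    convert h
  have e2 : EX p H (fun S => if ∀ x ∈ K, (x.2 ∈ S x.1 ↔ s x = true) then 1 else 0) =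
      ∏ r, ∑ T ∈ (H r).powerset.filter (Q r), p r T := by
    have h := p4b_prod p H Q
    have h' : EX p H (fun S => if ∀ x ∈ K, (x.2 ∈ S x.1 ↔ s x = true) then 1 else 0) =
        EX p H (fun S => if ∀ r, Q r (S r) then 1 else 0) := by
      congr 1
      funext S
      exact if_congr (hQ S) rfl rfl
    rw [h']
    convert h
  rw [e1, e2]
  rw [← Finset.mul_prod_erase Finset.univ _ (Finset.mem_univ x.1),
    ← Finset.mul_prod_erase Finset.univ (fun r => ∑ T ∈ (H r).powerset.filter (Q r), p r T)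
      (Finset.mem_univ x.1)]
  have e3 : ∏ r ∈ Finset.univ.erase x.1, ∑ T ∈ (H r).powerset.filter (Q' r), p r T =
      ∏ r ∈ Finset.univ.erase x.1, ∑ T ∈ (H r).powerset.filter (Q r), p r T := by
    refine Finset.prod_congr rfl fun r hr => ?_
    have hne : r ≠ x.1 := (Finset.mem_erase.1 hr).1
    congr 1
    refine Finset.filter_congr fun T _ => ?_
    simp only [Q']
    constructor
    · exact fun h => h.1
    · exact fun h => ⟨h, fun h' => absurd h' hne⟩
  have e4 : ∑ T ∈ (H x.1).powerset.filter (Q' x.1), p x.1 T ≤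
      η x.1 * ∑ T ∈ (H x.1).powerset.filter (Q x.1), p x.1 T := by
    have h1 := (hp x.1).up (Kr x.1) (fun l => s (x.1, l)) x.2 (fun h => hx ((hKr x.1 x.2).1 h))
    refine le_trans (le_of_eq ?_) (h1.trans (le_of_eq ?_))
    · congr 1
      refine Finset.filter_congr fun T _ => ?_
      simp only [Q', Q, true_implies]
    · congr 2
  rw [e3, ← mul_assoc]
  refine mul_le_mul_of_nonneg_right e4 ?_
  exact Finset.prod_nonneg fun r _ => Finset.sum_nonneg fun T _ => (hp r).nonneg T

open Classical in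
/-- P4: from `EX_up`, by induction on `Y` (`K` = the literals before, all with value `true`) -/
theorem EX_sub {p : ι → Finset Λ → ℝ} {H : ι → Finset Λ} {η : ι → ℝ}
    (hp : ∀ r, Law (p r) (H r) (η r)) (δ : ℝ) (h0 : 0 ≤ δ) (Y : Finset (ι × Λ))
    (hY : ∀ x ∈ Y, η x.1 ≤ δ) :
    EX p H (fun S => if ∀ x ∈ Y, x.2 ∈ S x.1 then 1 else 0) ≤ δ ^ Y.card := by
  induction Y using Finset.induction_on with
  | empty =>
    have h1 := EX_one (p := p) (H := H) fun r => (hp r).sum
    simpa using h1.le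
  | insert x Y hx ih =>
    have h1 := ih fun y hy => hY y (Finset.mem_insert_of_mem hy)
    have h2 := EX_up hp Y (fun _ => true) x hx
    have e1 : EX p H (fun S => if ∀ y ∈ insert x Y, y.2 ∈ S y.1 then 1 else 0) =
        EX p H (fun S => if (∀ y ∈ Y, (y.2 ∈ S y.1 ↔ (fun _ => true) y = true)) ∧ x.2 ∈ S x.1
          then 1 else 0) := by
      congr 1
      funext S
      refine if_congr ?_ rfl rfl
      simp only [Finset.mem_insert, forall_eq_or_imp, iff_true]
      tauto
    have e2 : EX p H (fun S => if ∀ y ∈ Y, (y.2 ∈ S y.1 ↔ (fun _ => true) y = true)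
        then 1 else 0) = EX p H (fun S => if ∀ y ∈ Y, y.2 ∈ S y.1 then 1 else 0) := by
      congr 1
      funext S
      refine if_congr ?_ rfl rfl
      simp only [iff_true]
    have h3 : 0 ≤ EX p H (fun S => if ∀ y ∈ Y, y.2 ∈ S y.1 then 1 else 0) := by
      unfold EX
      refine Finset.sum_nonneg fun S _ => mul_nonneg ?_ ?_
      · exact Finset.prod_nonneg fun r _ => (hp r).nonneg _
      · dsimp only
        split_ifs <;> norm_num
    rw [e1, Finset.card_insert_of_notMem hx, pow_succ]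
    refine h2.trans ?_
    rw [e2]
    calc η x.1 * EX p H (fun S => if ∀ y ∈ Y, y.2 ∈ S y.1 then 1 else 0)
        ≤ δ * EX p H (fun S => if ∀ y ∈ Y, y.2 ∈ S y.1 then 1 else 0) :=
          mul_le_mul_of_nonneg_right (hY x (Finset.mem_insert_self _ _)) h3
      _ ≤ δ * δ ^ Y.card := mul_le_mul_of_nonneg_left h1 h0
      _ = δ ^ Y.card * δ := mul_comm _ _

end prob


end Pool.Agent.ABI
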