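import Pool.Agent.Lib_helper27.ABIF.Defs2
import Pool.Agent.Lib_helper27.ABIF.B.P2
import Pool.Agent.Lib_helper27.ABIF.B.P4a
import Pool.Agent.Lib_helper27.ABIF.B.P4b

/-!
-/

set_option autoImplicit false

namespace Pool.Agent.ABI

open Pool.Agent.CK
open Pool.Agent.NPC (Lit St lw tw Cert Term Rst Comp res Stuck RS wt pw GoodRoot HBig te hx NC labs
  rv rq)

section prob

variable {ι Λ : Type} [Fintype ι] [DecidableEq ι] [DecidableEq Λ]

open Classical in
theorem core {p : ι → Finset Λ → ℝ} {H : ι → Finset Λ} {η : ι → ℝ}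
    (hp : ∀ r, Law (p r) (H r) (η r)) {Ω : Type} [Fintype Ω]
    (win : (ι → Finset Λ) → Ω → Bool) (cert : (ι → Finset Λ) → Ω → Finset (ι × Λ))
    (hcert : ∀ S ω S', (∀ x ∈ cert S ω, (x.2 ∈ S' x.1 ↔ x.2 ∈ S x.1)) → win S' ω = win S ω)
    (q : ℕ) (hq : ∀ S ω, (cert S ω).card ≤ q) (δ ηm : ℝ) (hδ0 : 0 ≤ δ) (hm0 : 0 < ηm)
    (hm1 : ηm ≤ 1) (U : Finset ι) (K : Finset (ι × Λ)) (hKU : ∀ x ∈ K, x.1 ∈ U)
    (hK : ∀ x ∈ K, ηm ≤ η x.1)
    (hδ : ∀ S ω, ∀ x ∈ cert S ω, x.1 ∈ U → x ∈ K ∨ η x.1 ≤ δ) (s : ι × Λ → Bool)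
    (hs : ∀ x ∈ K, s x = true → x.2 ∈ H x.1) (S : ι → Finset Λ) (w : ℝ)
    (hw : w + 2 * q * δ * Fintype.card Ω ≤
      ((Finset.univ.filter fun ω => win (pat U S (K.filter fun x => s x = true)) ω = true).card
        : ℝ)) :
    1 / 2 * (ηm / 2) ^ K.card ≤ EX p H fun T =>
      if w ≤ ((Finset.univ.filter fun ω =>
        win (fun r => if r ∈ U then T r else S r) ω = true).card : ℝ) then 1 else 0 := by
  set P : ι → Finset Λ := pat U S (K.filter fun x => s x = true) with hP
  set a : (ι → Finset Λ) → ℝ := fun T =>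
    if ∀ x ∈ K, (x.2 ∈ T x.1 ↔ s x = true) then 1 else 0 with ha
  set b : ι × Λ → (ι → Finset Λ) → ℝ := fun x T =>
    if (∀ x ∈ K, (x.2 ∈ T x.1 ↔ s x = true)) ∧ x.2 ∈ T x.1 then 1 else 0 with hb
  set D : Ω → Finset (ι × Λ) := fun ω => (cert P ω).filter fun x => x.1 ∈ U ∧ x ∉ K with hD
  set nb : (ι → Finset Λ) → ℝ := fun T => ∑ ω ∈ (Finset.univ : Finset Ω), ∑ x ∈ D ω, b x T
    with hnb
  have hp0 : ∀ r S, 0 ≤ p r S := fun r => (hp r).nonneg
  set c : ℝ := q * δ * Fintype.card Ω with hc
  have hc0 : 0 ≤ c := by positivity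
  -- expectations
  have hEa : (ηm / 2) ^ K.card ≤ EX p H a := EX_low hp K s hs ηm hm0.le hm1 hK
  have hEa0 : 0 ≤ EX p H a := le_trans (by positivity) hEa
  have hEb : ∀ ω, ∀ x ∈ D ω, EX p H (b x) ≤ δ * EX p H a := by
    intro ω x hx
    simp only [hD, Finset.mem_filter] at hx
    have h1 : EX p H (b x) ≤ η x.1 * EX p H a := EX_up hp K s x hx.2.2
    have h2 : η x.1 ≤ δ := (hδ P ω x hx.1 hx.2.1).resolve_left hx.2.2
    exact h1.trans (mul_le_mul_of_nonneg_right h2 hEa0)
  have hEn : EX p H nb ≤ c * EX p H a := by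
    have h1 : EX p H nb = ∑ ω ∈ (Finset.univ : Finset Ω), ∑ x ∈ D ω, EX p H (b x) := by
      rw [hnb, EX_sum]
      exact Finset.sum_congr rfl fun ω _ => EX_sum _ _ _ _
    rw [h1]
    calc ∑ ω ∈ (Finset.univ : Finset Ω), ∑ x ∈ D ω, EX p H (b x)
        ≤ ∑ ω ∈ (Finset.univ : Finset Ω), q * (δ * EX p H a) := by
          refine Finset.sum_le_sum fun ω _ => ?_
          calc ∑ x ∈ D ω, EX p H (b x) ≤ ∑ x ∈ D ω, δ * EX p H a :=
                Finset.sum_le_sum fun x hx => hEb ω x hx
            _ = (D ω).card * (δ * EX p H a) := by rw [Finset.sum_const, nsmul_eq_mul]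
            _ ≤ q * (δ * EX p H a) := by
                refine mul_le_mul_of_nonneg_right ?_ (mul_nonneg hδ0 hEa0)
                exact_mod_cast (Finset.card_filter_le _ _).trans (hq P ω)
      _ = c * EX p H a := by
          rw [Finset.sum_const, nsmul_eq_mul, Finset.card_univ, hc]; ring
  -- the pointwise estimate
  set t : ℝ := if 0 < c then 1 / (2 * c) else 1 with ht
  have ht0 : 0 ≤ t := by
    rw [ht]; split_ifs
    · positivity
    · norm_num
  have htc : t * c ≤ 1 / 2 := by
    rw [ht]; split_ifs with h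
    · apply le_of_eq
      field_simp
    · have : c = 0 := le_antisymm (not_lt.1 h) hc0
      rw [this]; norm_num
  have hb0 : ∀ x T, 0 ≤ b x T := by
    intro x T; simp only [hb]; split_ifs <;> norm_num
  have hnb0 : ∀ T, 0 ≤ nb T := fun T =>
    Finset.sum_nonneg fun ω _ => Finset.sum_nonneg fun x _ => hb0 x T
  set g : (ι → Finset Λ) → ℝ := fun T => if w ≤ ((Finset.univ.filter fun ω =>
        win (fun r => if r ∈ U then T r else S r) ω = true).card : ℝ) then 1 else 0 with hg
  have hg0 : ∀ T, 0 ≤ g T := by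
    intro T; simp only [hg]; split_ifs <;> norm_num
  have hpt : ∀ T, a T ≤ t * nb T + g T := by
    intro T
    by_cases hA : ∀ x ∈ K, (x.2 ∈ T x.1 ↔ s x = true)
    swap
    · have : a T = 0 := if_neg hA
      rw [this]
      exact add_nonneg (mul_nonneg ht0 (hnb0 T)) (hg0 T)
    have haT : a T = 1 := if_pos hA
    rw [haT]
    by_cases hW : w ≤ ((Finset.univ.filter fun ω =>
        win (fun r => if r ∈ U then T r else S r) ω = true).card : ℝ)
    · have : g T = 1 := if_pos hW
      rw [this]
      linarith [mul_nonneg ht0 (hnb0 T)]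
    rw [not_le] at hW
    -- number of bad indices
    set Bd : Finset Ω := Finset.univ.filter fun ω => ∃ x ∈ D ω, x.2 ∈ T x.1 with hBd
    have h1 : (Finset.univ.filter fun ω => win P ω = true) ⊆
        (Finset.univ.filter fun ω => win (fun r => if r ∈ U then T r else S r) ω = true) ∪ Bd := by
      intro ω hω
      rw [Finset.mem_filter] at hω
      rw [Finset.mem_union]
      by_cases hbad : ∃ x ∈ D ω, x.2 ∈ T x.1
      · exact Or.inr (Finset.mem_filter.2 ⟨Finset.mem_univ _, hbad⟩)
      · left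
        rw [Finset.mem_filter]
        refine ⟨Finset.mem_univ _, ?_⟩
        rw [← hω.2]
        refine hcert P ω _ fun x hx => ?_
        by_cases hxU : x.1 ∈ U
        · rw [if_pos hxU, hP, pat, if_pos hxU]
          have hmem : x.2 ∈ ((K.filter fun x => s x = true).filter
              fun y => y.1 = x.1).image Prod.snd ↔ x ∈ K ∧ s x = true := by
            rw [Finset.mem_image]
            constructor
            · rintro ⟨y, hy, hyx⟩
              rw [Finset.mem_filter, Finset.mem_filter] at hy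
              have : y = x := Prod.ext hy.2 hyx
              rw [← this]; exact hy.1
            · rintro ⟨h1, h2⟩
              exact ⟨x, Finset.mem_filter.2 ⟨Finset.mem_filter.2 ⟨h1, h2⟩, rfl⟩, rfl⟩
          rw [hmem]
          by_cases hxK : x ∈ K
          · rw [hA x hxK]; simp [hxK]
          · constructor
            · intro h
              exact absurd ⟨x, Finset.mem_filter.2 ⟨hx, hxU, hxK⟩, h⟩ hbad
            · intro h; exact absurd h.1 hxK
        · rw [if_neg hxU, hP, pat, if_neg hxU]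
    have h2 : ((Finset.univ.filter fun ω => win P ω = true).card : ℝ) ≤
        ((Finset.univ.filter fun ω =>
          win (fun r => if r ∈ U then T r else S r) ω = true).card : ℝ) + Bd.card := by
      exact_mod_cast (Finset.card_le_card h1).trans (Finset.card_union_le _ _)
    have h3 : 2 * c < Bd.card := by
      have : w + 2 * c ≤ ((Finset.univ.filter fun ω => win P ω = true).card : ℝ) := by
        have h := hw
        rw [hc]
        linarith
      linarith
    have h4 : (Bd.card : ℝ) ≤ nb T := by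
      have h5 : (Bd.card : ℝ) = ∑ ω ∈ (Finset.univ : Finset Ω),
          (if ∃ x ∈ D ω, x.2 ∈ T x.1 then (1 : ℝ) else 0) := by
        rw [hBd, Finset.card_filter]; push_cast; rfl
      rw [h5]
      refine Finset.sum_le_sum fun ω _ => ?_
      split_ifs with h
      · obtain ⟨x, hx, hxT⟩ := h
        have : b x T = 1 := if_pos ⟨hA, hxT⟩
        rw [← this]
        exact Finset.single_le_sum (f := fun x => b x T) (fun x _ => hb0 x T) hx
      · exact Finset.sum_nonneg fun x _ => hb0 x T
    have h6 : 1 ≤ t * nb T := by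
      rw [ht]; split_ifs with h
      · rw [div_mul_eq_mul_div, one_mul, le_div_iff₀ (by positivity)]
        linarith
      · have hc' : c = 0 := le_antisymm (not_lt.1 h) hc0
        rw [hc'] at h3
        have h7 : 0 < Bd.card := by
          have : (0 : ℝ) < Bd.card := by linarith
          exact_mod_cast this
        have h8 : (1 : ℝ) ≤ Bd.card := by exact_mod_cast h7
        linarith
    linarith [hg0 T]
  have hfin : EX p H a ≤ t * EX p H nb + EX p H g := by
    rw [← EX_lin]
    exact EX_mono hp0 fun T _ => hpt T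
  have h9 : t * EX p H nb ≤ 1 / 2 * EX p H a := by
    calc t * EX p H nb ≤ t * (c * EX p H a) := mul_le_mul_of_nonneg_left hEn ht0
      _ = (t * c) * EX p H a := by ring
      _ ≤ 1 / 2 * EX p H a := mul_le_mul_of_nonneg_right htc hEa0
  linarith


end prob

end Pool.Agent.ABI
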