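import Pool.Agent.Lib_helper27.ABIF.Defs2
import Pool.Agent.Lib_helper27.ABIF.B.P2
import Pool.Agent.Lib_helper27.ABIF.B.P3
import Pool.Agent.Lib_helper27.ABIF.B.P5

/-!
-/

set_option autoImplicit false

namespace Pool.Agent.ABI

open Pool.Agent.CK
open Pool.Agent.NPC (Lit St lw tw Cert Term Rst Comp res Stuck RS wt pw GoodRoot HBig te hx NC labs
  rv rq)

section prob

variable {ι Λ : Type} [Fintype ι] [DecidableEq ι] [DecidableEq Λ]

open Classical in
/-- P7: no random set, the new state on `U` consists of literals in `K` -/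
theorem replD {p : ι → Finset Λ → ℝ} {H : ι → Finset Λ} {η : ι → ℝ}
    (hp : ∀ r, Law (p r) (H r) (η r)) {Ω : Type} [Fintype Ω]
    (win : (ι → Finset Λ) → Ω → Bool) (cert : (ι → Finset Λ) → Ω → Finset (ι × Λ))
    (hcert : ∀ S ω S', (∀ x ∈ cert S ω, (x.2 ∈ S' x.1 ↔ x.2 ∈ S x.1)) → win S' ω = win S ω)
    (q : ℕ) (hq : ∀ S ω, (cert S ω).card ≤ q) (δ ηm : ℝ) (hδ0 : 0 ≤ δ) (hm0 : 0 < ηm)
    (hm1 : ηm ≤ 1) (U : Finset ι) (K : Finset (ι × Λ)) (hKU : ∀ x ∈ K, x.1 ∈ U)
    (hK : ∀ x ∈ K, ηm ≤ η x.1)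
    (hδ : ∀ S ω, ∀ x ∈ cert S ω, x.1 ∈ U → x ∈ K ∨ η x.1 ≤ δ)
    (h : (ι → Finset Λ) → Finset (ι × Λ))
    (hh : ∀ S, h S ⊆ K ∧ ∀ y ∈ h S, y.2 ∈ H y.1) (w : ℝ) :
    EX p H (fun S => if w + 2 * q * δ * Fintype.card Ω ≤ ((Finset.univ.filter fun ω =>
          win (pat U S (h S)) ω = true).card : ℝ) then 1 else 0) ≤
      2 * (2 / ηm) ^ K.card *
        EX p H (fun S => if w ≤ ((Finset.univ.filter fun ω => win S ω = true).card : ℝ)
          then 1 else 0) := by
  have hp0 : ∀ r S, 0 ≤ p r S := fun r => (hp r).nonneg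
  set C : ℝ := 2 * (2 / ηm) ^ K.card with hC
  have hC0 : 0 ≤ C := by positivity
  set g : (ι → Finset Λ) → ℝ := fun S =>
    if w ≤ ((Finset.univ.filter fun ω => win S ω = true).card : ℝ) then 1 else 0 with hg
  have hg0 : ∀ S, 0 ≤ g S := by
    intro S
    simp only [hg]
    split_ifs <;> norm_num
  have hE0 : ∀ f : (ι → Finset Λ) → ℝ, (∀ S, 0 ≤ f S) → 0 ≤ EX p H f := by
    intro f hf
    unfold EX
    exact Finset.sum_nonneg fun S _ => mul_nonneg (Finset.prod_nonneg fun r _ => hp0 r _) (hf S)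
  have hlin : ∀ f : (ι → Finset Λ) → ℝ, EX p H (fun S => C * f S) = C * EX p H f := by
    intro f
    unfold EX
    rw [Finset.mul_sum]
    exact Finset.sum_congr rfl fun S _ => by ring
  rw [EX_resample (fun r => (hp r).sum) U g, ← hlin]
  refine EX_mono hp0 fun S _ => ?_
  split_ifs with hw
  · have hfil : (K.filter fun x => decide (x ∈ h S) = true) = h S := by
      ext x
      simp only [Finset.mem_filter, decide_eq_true_eq]
      exact ⟨fun h' => h'.2, fun h' => ⟨(hh S).1 h', h'⟩⟩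
    have hcore := core hp win cert hcert q hq δ ηm hδ0 hm0 hm1 U K hKU hK hδ
      (fun x => decide (x ∈ h S)) (fun x _ hx => (hh S).2 x (by simpa using hx)) S w
      (by rw [hfil]; exact hw)
    have hprod : C * (1 / 2 * (ηm / 2) ^ K.card) = 1 := by
      rw [hC]
      have : (2 / ηm) ^ K.card * (ηm / 2) ^ K.card = 1 := by
        rw [← mul_pow]
        have : 2 / ηm * (ηm / 2) = 1 := by field_simp
        rw [this, one_pow]
      calc 2 * (2 / ηm) ^ K.card * (1 / 2 * (ηm / 2) ^ K.card)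
          = (2 / ηm) ^ K.card * (ηm / 2) ^ K.card := by ring
        _ = 1 := this
    calc (1 : ℝ) = C * (1 / 2 * (ηm / 2) ^ K.card) := hprod.symm
      _ ≤ C * EX p H (fun T => g fun r => if r ∈ U then T r else S r) :=
        mul_le_mul_of_nonneg_left hcore hC0
  · exact mul_nonneg hC0 (hE0 _ fun T => hg0 _)

end prob


end Pool.Agent.ABI
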