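import Pool.Agent.Lib_helper27.ABIF.Defs2
import Pool.Agent.Lib_helper27.ABIF.B.G0
import Pool.Agent.Lib_helper27.ABIF.B.G2
import Pool.Agent.Lib_helper27.ABIF.B.P7b

/-!
-/

set_option autoImplicit false

namespace Pool.Agent.ABI

open Pool.Agent.CK
open Pool.Agent.NPC (Lit St lw tw Cert Term Rst Comp res Stuck RS wt pw GoodRoot HBig te hx NC labs
  rv rq)
open Pool.Agent.ABO (Par Lvl lev CircF hits Fml Gate Circuit Game Hard Desc cst cTree gsz)
open Pool.Agent.TD.IS (PosI Stg patchI simI)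
open Pool.Agent.TD (Lam dd)

open Classical in
/-- the literals of `K` -/
noncomputable def g3_K (J N n : ℕ) (A : Fam) (D : Finset Str) (T : Str → Finset Str) :
    Finset ({r // r ∈ Us J N} × Str) :=
  Finset.univ.biUnion fun r => ((A.H r.1).filter fun l =>
    r.1 ∈ D ∧ 2 * r.1.length + 2 ≤ dd n ∧ (16 * r.1.length < n ∨ l ∈ T r.1)).image
      fun l => (r, l)

theorem g3_mem (J N n : ℕ) (A : Fam) (D : Finset Str) (T : Str → Finset Str)
    (x : {r // r ∈ Us J N} × Str) : x ∈ g3_K J N n A D T ↔ x.2 ∈ A.H x.1.1 ∧ x.1.1 ∈ D ∧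
      2 * x.1.1.length + 2 ≤ dd n ∧ (16 * x.1.1.length < n ∨ x.2 ∈ T x.1.1) := by
  classical
  obtain ⟨r, l⟩ := x
  unfold g3_K
  simp only [Finset.mem_biUnion, Finset.mem_univ, true_and, Finset.mem_image, Finset.mem_filter]
  constructor
  · rintro ⟨r', l', h, he⟩
    cases he
    exact h
  · intro h
    exact ⟨r, l, h, rfl⟩

theorem g3_card (J N n M : ℕ) (A : Fam) (D : Finset Str) (T : Str → Finset Str)
    (hT : ∀ r, (T r).card ≤ 1)
    (hM : (D.filter fun r => (T r).Nonempty).card ≤ M) :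
    (g3_K J N n A D T).card ≤ kap0 n + M := by
  classical
  -- two parts
  have hsub : (g3_K J N n A D T).image (fun x : {r // r ∈ Us J N} × Str =>
      (⟨x.1.1, x.2⟩ : (_ : Str) × Str)) ⊆
      ((D.filter fun r => 16 * r.length < n).sigma fun r => A.H r) ∪
        ((D.filter fun r => (T r).Nonempty).sigma fun r => T r) := by
    intro y hy
    obtain ⟨x, hx, rfl⟩ := Finset.mem_image.1 hy
    obtain ⟨h1, h2, h3, h4⟩ := (g3_mem J N n A D T x).1 hx
    rcases h4 with h4 | h4
    · exact Finset.mem_union_left _ (Finset.mem_sigma.2 ⟨Finset.mem_filter.2 ⟨h2, h4⟩, h1⟩)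
    · exact Finset.mem_union_right _
        (Finset.mem_sigma.2 ⟨Finset.mem_filter.2 ⟨h2, ⟨_, h4⟩⟩, h4⟩)
  have hinj : Function.Injective (fun x : {r // r ∈ Us J N} × Str =>
      (⟨x.1.1, x.2⟩ : (_ : Str) × Str)) := by
    rintro ⟨⟨r, hr⟩, l⟩ ⟨⟨r', hr'⟩, l'⟩ h
    simp only [Sigma.mk.injEq] at h
    obtain ⟨h1, h2⟩ := h
    subst h1
    rw [heq_eq_eq] at h2
    subst h2
    rfl
  have hc := Finset.card_le_card hsub
  rw [Finset.card_image_of_injective _ hinj] at hc
  refine hc.trans ((Finset.card_union_le _ _).trans (Nat.add_le_add ?_ ?_))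
  · exact small_card n D A.H A.hH
  · rw [Finset.card_sigma]
    calc ∑ r ∈ D.filter (fun r => (T r).Nonempty), (T r).card
        ≤ ∑ r ∈ D.filter (fun r => (T r).Nonempty), 1 := Finset.sum_le_sum fun r _ => hT r
      _ = (D.filter fun r => (T r).Nonempty).card := by simp
      _ ≤ M := hM

/-- the state with the values `T` on `D` -/
def g3_S {J N : ℕ} (D : Finset Str) (T : Str → Finset Str)
    (S : {r // r ∈ Us J N} → Finset Str) : {r // r ∈ Us J N} → Finset Str :=
  fun r => if r.1 ∈ D then T r.1 else S r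

open Classical in
theorem g3_stf {J N : ℕ} (D : Finset Str) (hD : D ⊆ Us J N) (T : Str → Finset Str)
    (S : {r // r ∈ Us J N} → Finset Str) :
    (fun p : Lit => if p.1 ∈ D then decide (p.2 ∈ T p.1) else stf S p) =
      stf (g3_S D T S) := by
  funext p
  unfold stf g3_S
  by_cases hp : p.1 ∈ D
  · have hU := hD hp
    simp [hp, hU]
  · by_cases hU : p.1 ∈ Us J N
    · simp [hp, hU]
    · simp [hp, hU]

theorem g3_pow (d k m : ℕ) (hk : k ≤ m) :
    (2 : ℝ) * (2 / (1 / 2) ^ d) ^ k ≤ 2 ^ ((d + 1) * m + 1) := by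
  have h1 : (2 : ℝ) / (1 / 2) ^ d = 2 ^ (d + 1) := by
    rw [one_div, inv_pow, div_inv_eq_mul, pow_succ]
    ring
  rw [h1, ← pow_mul, pow_succ, mul_comm]
  refine mul_le_mul_of_nonneg_right ?_ (by norm_num)
  exact pow_le_pow_right₀ (by norm_num) (Nat.mul_le_mul_left _ hk)

theorem risk_fixed {J N j n M : ℕ} (hJ : 16 ≤ J) (hN : N = 2 ^ 2 ^ J) (hn : NumL n)
    (hc : N ≤ dd n) (A B : Fam) (hR : A.R ⊆ Us J N) (D : Finset Str) (hD : D ⊆ A.R)
    (T : Str → Finset Str) (hT : ∀ r, (T r).card ≤ 1)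
    (hM : (D.filter fun r => (T r).Nonempty).card ≤ M) (hTH : ∀ r ∈ D, T r ⊆ A.H r)
    (hBH : B.H = A.H)
    (hBF : ∀ ω, B.F ω = A.F (fun p => if p.1 ∈ D then decide (p.2 ∈ T p.1) else ω p))
    {s : ℕ} (Adv : X s → DT Str)
    (hA : ∀ x, (Adv x).depth ≤ dd n ∧ (Adv x).AllQ fun w => w.length ≤ dd n) (w : ℝ) :
    Risk J N j B Adv (w + 2 * (dd n) ^ 2 * del n * 2 ^ s) ≤
      2 ^ ((dd n + 1) * (kap0 n + M) + 1) * Risk J N j A Adv w := by
  classical
  obtain ⟨cert, hcert, hcc, hcv⟩ := cert_game J N A hR Adv (dd n) hA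
  have hDU : D ⊆ Us J N := hD.trans hR
  have hp : ∀ r : {r // r ∈ Us J N}, Law (lawA J N j A r) (A.H r.1) (et J r.1.length) :=
    fun r => law_lawA hJ hN j A r
  have hEX0 : ∀ S, 0 ≤ (if w ≤ (hits (fun _ => [true]) Adv (A.F (stf S)) : ℝ) then (1 : ℝ) else 0 : ℝ) :=
    fun S : {r // r ∈ Us J N} → Finset Str => by split_ifs <;> norm_num
  have key := replD (ι := {r // r ∈ Us J N}) (Λ := Str) (p := lawA J N j A)
    (H := fun r => A.H r.1) (η := fun r => et J r.1.length) hp (Ω := X s)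
    (winA J N A Adv) cert hcert ((dd n) ^ 2) hcc (del n) ((1 / 2) ^ dd n)
    (by unfold del; positivity) (by positivity) (pow_le_one₀ (by norm_num) (by norm_num))
    (Finset.univ.filter fun r => r.1 ∈ D) (g3_K J N n A D T)
    (fun x hx => by
      have := (g3_mem J N n A D T x).1 hx
      simpa using this.2.1)
    (fun x hx => by
      have := (g3_mem J N n A D T x).1 hx
      exact (et_bounds hJ hN hn hc x.1.1 x.1.2).1 this.2.2.1)
    (fun S ω x hx hxU => by
      obtain ⟨h1, h2, h3⟩ := hcv S ω x hx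
      have hxD : x.1.1 ∈ D := by simpa using hxU
      by_cases hs : 16 * x.1.1.length < n
      · exact Or.inl ((g3_mem J N n A D T x).2 ⟨h2, hxD, h3, Or.inl hs⟩)
      · exact Or.inr ((et_bounds hJ hN hn hc x.1.1 x.1.2).2 (by omega)))
    (fun _ => (g3_K J N n A D T).filter fun y => y.2 ∈ T y.1.1)
    (fun S => ⟨Finset.filter_subset _ _, fun y hy =>
      ((g3_mem J N n A D T y).1 (Finset.mem_filter.1 hy).1).1⟩) w
  -- the wins with the pattern are those of `B`
  have hwin : ∀ (S : {r // r ∈ Us J N} → Finset Str) (ω : X s),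
      winA J N A Adv (pat (Finset.univ.filter fun r => r.1 ∈ D) S
        ((g3_K J N n A D T).filter fun y => y.2 ∈ T y.1.1)) ω = winA J N B Adv S ω := by
    intro S ω
    have h1 : winA J N B Adv S ω = winA J N A Adv (g3_S D T S) ω := by
      unfold winA
      rw [hBF (stf S), g3_stf D hDU T S]
    rw [h1]
    apply hcert
    intro y hy
    obtain ⟨hy1, hy2, hy3⟩ := hcv (g3_S D T S) ω y hy
    unfold pat g3_S
    by_cases hyD : y.1.1 ∈ D
    · simp only [Finset.mem_filter, Finset.mem_univ, true_and, hyD, if_true, Finset.mem_image]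
      constructor
      · rintro ⟨z, ⟨⟨hz1, hz2⟩, hz3⟩, hz4⟩
        rw [hz3] at hz2
        rw [← hz4]
        exact hz2
      · intro hyT
        refine ⟨y, ⟨⟨(g3_mem J N n A D T y).2 ⟨hy2, hyD, hy3, Or.inr hyT⟩, hyT⟩, rfl⟩, rfl⟩
    · simp [hyD]
  have hL : Risk J N j B Adv (w + 2 * (dd n) ^ 2 * del n * 2 ^ s) =
      EX (lawA J N j A) (fun r => A.H r.1) (fun S =>
        if w + 2 * (((dd n) ^ 2 : ℕ) : ℝ) * del n * Fintype.card (X s) ≤
          ((Finset.univ.filter fun ω =>
            winA J N A Adv (pat (Finset.univ.filter fun r => r.1 ∈ D) S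
              ((g3_K J N n A D T).filter fun y => y.2 ∈ T y.1.1)) ω = true).card : ℝ)
          then 1 else 0) := by
    unfold Risk
    have hlaw : lawA J N j B = lawA J N j A := by
      funext r
      unfold lawA
      rw [hBH]
    rw [hlaw, hBH]
    congr 1
    funext S
    have hcard : (Fintype.card (X s) : ℝ) = 2 ^ s := by
      have : Fintype.card (X s) = 2 ^ s := by
        exact card_X s
      rw [this]; push_cast; rfl
    have h2 : (Finset.univ.filter fun ω =>
            winA J N A Adv (pat (Finset.univ.filter fun r => r.1 ∈ D) S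
              ((g3_K J N n A D T).filter fun y => y.2 ∈ T y.1.1)) ω = true).card =
        hits (fun _ => [true]) Adv (B.F (stf S)) := by
      rw [← winA_hits J N B Adv S]
      congr 1
      ext ω
      simp only [Finset.mem_filter, Finset.mem_univ, true_and]
      rw [hwin S ω]
    rw [h2, hcard]
    push_cast
    rfl
  have hRr : EX (lawA J N j A) (fun r => A.H r.1) (fun S =>
      if w ≤ ((Finset.univ.filter fun ω => winA J N A Adv S ω = true).card : ℝ)
        then (1 : ℝ) else 0) = Risk J N j A Adv w := by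
    unfold Risk
    congr 1
    funext S
    rw [winA_hits J N A Adv S]
  rw [hL]
  refine key.trans ?_
  rw [hRr]
  have h0 : 0 ≤ Risk J N j A Adv w := by
    unfold Risk EX
    refine Finset.sum_nonneg fun S _ => mul_nonneg (Finset.prod_nonneg fun r _ =>
      (hp r).nonneg _) (hEX0 S)
  exact mul_le_mul_of_nonneg_right
    (g3_pow (dd n) _ _ (g3_card J N n M A D T hT hM)) h0


end Pool.Agent.ABI
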