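import Pool.Agent.Lib_helper27.ABIF.Defs2
import Pool.Agent.Lib_helper27.ABIF.B.P2
import Pool.Agent.Lib_helper27.ABIF.B.P3
import Pool.Agent.Lib_helper27.ABIF.B.P5
import Pool.Agent.Lib_helper27.ABIF.B.P6

/-! # ABI, block P7a: the replacement lemma -/

set_option autoImplicit false

namespace Pool.Agent.ABI

open Pool.Agent.CK
open Pool.Agent.NPC (Lit St lw tw Cert Term Rst Comp res Stuck RS wt pw GoodRoot HBig te hx NC labs
  rv rq)

section prob

variable {ι Λ : Type} [Fintype ι] [DecidableEq ι] [DecidableEq Λ]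

theorem p7a_mem_pat (U : Finset ι) (S : ι → Finset Λ) (h : Finset (ι × Λ)) (y : ι × Λ) :
    y.2 ∈ pat U S h y.1 ↔ if y.1 ∈ U then y ∈ h else y.2 ∈ S y.1 := by
  unfold pat
  split_ifs with h1
  · rw [Finset.mem_image]
    constructor
    · rintro ⟨z, hz, hz2⟩
      rw [Finset.mem_filter] at hz
      have : z = y := Prod.ext hz.2 hz2
      rw [← this]
      exact hz.1
    · intro hy
      exact ⟨y, Finset.mem_filter.2 ⟨hy, rfl⟩, rfl⟩
  · exact Iff.rfl

open Classical in
/-- one state and one set -/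
theorem p7a_one {p : ι → Finset Λ → ℝ} {H : ι → Finset Λ} {η : ι → ℝ}
    (hp : ∀ r, Law (p r) (H r) (η r)) {Ω : Type} [Fintype Ω]
    (win : (ι → Finset Λ) → Ω → Bool) (cert : (ι → Finset Λ) → Ω → Finset (ι × Λ))
    (hcert : ∀ S ω S', (∀ x ∈ cert S ω, (x.2 ∈ S' x.1 ↔ x.2 ∈ S x.1)) → win S' ω = win S ω)
    (q : ℕ) (hq : ∀ S ω, (cert S ω).card ≤ q) (δ ηm : ℝ) (hδ0 : 0 ≤ δ) (hm0 : 0 < ηm)
    (hm1 : ηm ≤ 1) (U : Finset ι) (K0 : Finset (ι × Λ)) (hK0U : ∀ x ∈ K0, x.1 ∈ U)
    (hK0 : ∀ x ∈ K0, ηm ≤ η x.1)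
    (hδ : ∀ S ω, ∀ x ∈ cert S ω, x.1 ∈ U → x ∈ K0 ∨ η x.1 ≤ δ)
    (hvis : ∀ S ω, ∀ x ∈ cert S ω, ηm ≤ η x.1)
    (h : Finset (ι × Λ)) (hh : ∀ y ∈ h, y.1 ∈ U ∧ y.2 ∈ H y.1)
    (e : ℝ) (m : ℕ) (w : ℝ) (S : ι → Finset Λ) (val : ι × Λ → Bool)
    (hval : w + (e + 2 * q * δ) * Fintype.card Ω ≤ ((Finset.univ.filter fun ω =>
          win (pat U S (h.filter fun y => val y = true)) ω = true).card : ℝ))
    (hbad : ¬ ∃ val : ι × Λ → Bool, ∀ K : Finset (ι × Λ), K0 ⊆ K →
        K ⊆ K0 ∪ (h.filter fun y => ηm ≤ η y.1) → (K \ K0).card ≤ m →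
        e * Fintype.card Ω < ((Finset.univ.filter fun ω =>
          ¬ Disjoint (cert (pat U S (K.filter fun y => val y = true)) ω)
            ((h.filter fun y => ηm ≤ η y.1) \ K)).card : ℝ)) :
    1 ≤ 2 * (2 / ηm) ^ (m + K0.card) * EX p H fun T =>
      if w ≤ ((Finset.univ.filter fun ω =>
        win (fun r => if r ∈ U then T r else S r) ω = true).card : ℝ) then 1 else 0 := by
  push Not at hbad
  obtain ⟨K, hK1, hK2, hK3, hK4⟩ := hbad (fun y => val y && decide (y ∈ h))
  have hf : (h.filter fun y => val y = true) =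
      h.filter fun y => (val y && decide (y ∈ h)) = true := by
    refine Finset.filter_congr fun y hy => ?_
    rw [Bool.and_eq_true, decide_eq_true_eq]
    exact ⟨fun h1 => ⟨h1, hy⟩, fun h1 => h1.1⟩
  rw [hf] at hval
  set s : ι × Λ → Bool := fun y => val y && decide (y ∈ h) with hs
  have hsh : ∀ y, s y = true → y ∈ h := by
    intro y hy
    rw [hs] at hy
    simp only [Bool.and_eq_true, decide_eq_true_eq] at hy
    exact hy.2
  -- the two states agree on most certificates
  have h1 : (Finset.univ.filter fun ω =>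
          win (pat U S (h.filter fun y => s y = true)) ω = true) ⊆
      (Finset.univ.filter fun ω => win (pat U S (K.filter fun y => s y = true)) ω = true) ∪
      (Finset.univ.filter fun ω =>
          ¬ Disjoint (cert (pat U S (K.filter fun y => s y = true)) ω)
            ((h.filter fun y => ηm ≤ η y.1) \ K)) := by
    intro ω hω
    rw [Finset.mem_filter] at hω
    rw [Finset.mem_union, Finset.mem_filter, Finset.mem_filter]
    by_cases hd : Disjoint (cert (pat U S (K.filter fun y => s y = true)) ω)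
            ((h.filter fun y => ηm ≤ η y.1) \ K)
    · left
      refine ⟨Finset.mem_univ _, ?_⟩
      refine Eq.trans (hcert _ ω _ fun y hy => ?_).symm hω.2
      rw [p7a_mem_pat, p7a_mem_pat]
      split_ifs with hyU
      · rw [Finset.mem_filter, Finset.mem_filter]
        constructor
        · rintro ⟨hy1, hy2⟩
          refine ⟨?_, hy2⟩
          by_contra hyK
          exact Finset.disjoint_left.1 hd hy (Finset.mem_sdiff.2
            ⟨Finset.mem_filter.2 ⟨hy1, hvis _ _ y hy⟩, hyK⟩)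
        · rintro ⟨_, hy2⟩
          exact ⟨hsh y hy2, hy2⟩
      · exact Iff.rfl
    · right
      exact ⟨Finset.mem_univ _, hd⟩
  have h2 : w + 2 * q * δ * Fintype.card Ω ≤
      ((Finset.univ.filter fun ω => win (pat U S (K.filter fun x => s x = true)) ω = true).card
        : ℝ) := by
    have h3 := (Finset.card_le_card h1).trans (Finset.card_union_le _ _)
    have h4 : ((Finset.univ.filter fun ω =>
          win (pat U S (h.filter fun y => s y = true)) ω = true).card : ℝ) ≤
        ((Finset.univ.filter fun ω => win (pat U S (K.filter fun x => s x = true)) ω = true).card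
        : ℝ) + ((Finset.univ.filter fun ω =>
          ¬ Disjoint (cert (pat U S (K.filter fun y => s y = true)) ω)
            ((h.filter fun y => ηm ≤ η y.1) \ K)).card : ℝ) := by exact_mod_cast h3
    have h5 : (e + 2 * q * δ) * (Fintype.card Ω : ℝ) = e * Fintype.card Ω +
      2 * q * δ * Fintype.card Ω := by ring
    rw [h5] at hval
    linarith
  have hKmem : ∀ y ∈ K, y ∈ K0 ∨ (y ∈ h ∧ ηm ≤ η y.1) := by
    intro y hy
    rcases Finset.mem_union.1 (hK2 hy) with h6 | h6
    · exact Or.inl h6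
    · exact Or.inr (Finset.mem_filter.1 h6)
  have h7 := core hp win cert hcert q hq δ ηm hδ0 hm0 hm1 U K
    (fun y hy => (hKmem y hy).elim (hK0U y) fun h6 => (hh y h6.1).1)
    (fun y hy => (hKmem y hy).elim (hK0 y) fun h6 => h6.2)
    (fun S ω y hy hyU => (hδ S ω y hy hyU).imp (fun h6 => hK1 h6) id) s
    (fun y _ hy2 => (hh y (hsh y hy2)).2) S w h2
  set E : ℝ := EX p H fun T =>
      if w ≤ ((Finset.univ.filter fun ω =>
        win (fun r => if r ∈ U then T r else S r) ω = true).card : ℝ) then 1 else 0 with hE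
  have hKc : K.card ≤ m + K0.card := by
    have h8 : K.card = (K \ K0).card + K0.card := by
      rw [Finset.card_sdiff_add_card_eq_card hK1]
    rw [h8]
    exact Nat.add_le_add_right hK3 _
  have hη2 : ηm / 2 ≤ 1 := by linarith
  have hη2' : 0 < ηm / 2 := by positivity
  have h9 : (ηm / 2) ^ (m + K0.card) ≤ (ηm / 2) ^ K.card :=
    pow_le_pow_of_le_one hη2'.le hη2 hKc
  have h10 : 1 / 2 * (ηm / 2) ^ (m + K0.card) ≤ E := le_trans (by linarith) h7
  have h11 : (2 : ℝ) * (2 / ηm) ^ (m + K0.card) * (1 / 2 * (ηm / 2) ^ (m + K0.card)) = 1 := by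
    have h12 : (2 / ηm) ^ (m + K0.card) * (ηm / 2) ^ (m + K0.card) = 1 := by
      rw [← mul_pow]
      have : 2 / ηm * (ηm / 2) = 1 := by field_simp
      rw [this, one_pow]
    calc _ = (2 / ηm) ^ (m + K0.card) * (ηm / 2) ^ (m + K0.card) := by ring
      _ = 1 := h12
  calc (1 : ℝ) = 2 * (2 / ηm) ^ (m + K0.card) * (1 / 2 * (ηm / 2) ^ (m + K0.card)) := h11.symm
    _ ≤ 2 * (2 / ηm) ^ (m + K0.card) * E := mul_le_mul_of_nonneg_left h10 (by positivity)

open Classical in
/-- P7: from `lab` (for every fixed `S`; `c K s ω = cert (pat U S (K.filter s)) ω`, with `hid x`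
replaced by its part in `{y | ηm ≤ η y.1}`), `core` and `EX_resample`. -/
theorem repl {p : ι → Finset Λ → ℝ} {H : ι → Finset Λ} {η : ι → ℝ}
    (hp : ∀ r, Law (p r) (H r) (η r)) {Ω : Type} [Fintype Ω]
    (win : (ι → Finset Λ) → Ω → Bool) (cert : (ι → Finset Λ) → Ω → Finset (ι × Λ))
    (hcert : ∀ S ω S', (∀ x ∈ cert S ω, (x.2 ∈ S' x.1 ↔ x.2 ∈ S x.1)) → win S' ω = win S ω)
    (q : ℕ) (hq : ∀ S ω, (cert S ω).card ≤ q) (δ ηm : ℝ) (hδ0 : 0 ≤ δ) (hm0 : 0 < ηm)
    (hm1 : ηm ≤ 1) (U : Finset ι) (K0 : Finset (ι × Λ)) (hK0U : ∀ x ∈ K0, x.1 ∈ U)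
    (hK0 : ∀ x ∈ K0, ηm ≤ η x.1)
    (hδ : ∀ S ω, ∀ x ∈ cert S ω, x.1 ∈ U → x ∈ K0 ∨ η x.1 ≤ δ)
    (hvis : ∀ S ω, ∀ x ∈ cert S ω, ηm ≤ η x.1)
    {𝒳 : Type} (X : Finset 𝒳) (wX : 𝒳 → ℝ) (hX : ∀ x ∈ X, 0 ≤ wX x) (hX1 : ∑ x ∈ X, wX x = 1)
    (hid : 𝒳 → Finset (ι × Λ)) (hhid : ∀ x ∈ X, ∀ y ∈ hid x, y.1 ∈ U ∧ y.2 ∈ H y.1)
    (hXδ : ∀ Y : Finset (ι × Λ), Disjoint Y K0 → (∀ y ∈ Y, ηm ≤ η y.1) →
      ∑ x ∈ X.filter (fun x => Y ⊆ hid x), wX x ≤ δ ^ Y.card)
    (e : ℝ) (he : 0 < e) (m : ℕ) (w : ℝ) :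
    ∑ x ∈ X, wX x * EX p H (fun S => if ∃ val : ι × Λ → Bool, w + (e + 2 * q * δ) *
        Fintype.card Ω ≤ ((Finset.univ.filter fun ω =>
          win (pat U S ((hid x).filter fun y => val y = true)) ω = true).card : ℝ)
        then 1 else 0) ≤
      2 ^ K0.card * (2 * q * δ / e) ^ m + 2 * (2 / ηm) ^ (m + K0.card) *
        EX p H (fun S => if w ≤ ((Finset.univ.filter fun ω => win S ω = true).card : ℝ)
          then 1 else 0) := by
  have hp0 : ∀ r S, 0 ≤ p r S := fun r => (hp r).nonneg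
  have hp1 : ∀ r, ∑ S ∈ (H r).powerset, p r S = 1 := fun r => (hp r).sum
  set C : ℝ := 2 * (2 / ηm) ^ (m + K0.card) with hC
  set B : ℝ := 2 ^ K0.card * (2 * q * δ / e) ^ m with hB
  have hC0 : 0 ≤ C := by positivity
  -- exchange
  have e1 : ∑ x ∈ X, wX x * EX p H (fun S => if ∃ val : ι × Λ → Bool, w + (e + 2 * q * δ) *
        Fintype.card Ω ≤ ((Finset.univ.filter fun ω =>
          win (pat U S ((hid x).filter fun y => val y = true)) ω = true).card : ℝ)
        then 1 else 0) =
      EX p H (fun S => ∑ x ∈ X, wX x * if ∃ val : ι × Λ → Bool, w + (e + 2 * q * δ) *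
        Fintype.card Ω ≤ ((Finset.univ.filter fun ω =>
          win (pat U S ((hid x).filter fun y => val y = true)) ω = true).card : ℝ)
        then 1 else 0) := by
    unfold EX
    simp only [Finset.mul_sum]
    rw [Finset.sum_comm]
    refine Finset.sum_congr rfl fun S _ => Finset.sum_congr rfl fun x _ => ?_
    ring
  rw [e1]
  have e2 : C * EX p H (fun S => if w ≤ ((Finset.univ.filter fun ω => win S ω = true).card : ℝ)
          then 1 else 0) =
      C * EX p H (fun S => EX p H (fun T => if w ≤ ((Finset.univ.filter fun ω =>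
        win (fun r => if r ∈ U then T r else S r) ω = true).card : ℝ) then 1 else 0)) := by
    congr 1
    exact EX_resample hp1 U _
  have e3 : B = B * EX p H (fun _ => 1) := by
    rw [EX_one hp1, mul_one]
  have e4 : B + C * EX p H (fun S => EX p H (fun T => if w ≤ ((Finset.univ.filter fun ω =>
        win (fun r => if r ∈ U then T r else S r) ω = true).card : ℝ) then 1 else 0)) =
      EX p H (fun S => C * EX p H (fun T => if w ≤ ((Finset.univ.filter fun ω =>
        win (fun r => if r ∈ U then T r else S r) ω = true).card : ℝ) then 1 else 0) + B) := by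
    have h1 := EX_lin p H C (fun S => EX p H (fun T => if w ≤ ((Finset.univ.filter fun ω =>
        win (fun r => if r ∈ U then T r else S r) ω = true).card : ℝ) then 1 else 0)) (fun _ => B)
    rw [h1]
    have h2 := EX_lin p H B (fun _ => 1) (fun _ => 0)
    have h3 : EX p H (fun _ => (0 : ℝ)) = 0 := by
      unfold EX
      simp
    rw [h3, EX_one hp1] at h2
    simp only [mul_one, add_zero] at h2
    rw [h2]
    ring
  rw [e2, e4]
  refine EX_mono hp0 fun S hS => ?_
  set E : ℝ := EX p H fun T =>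
      if w ≤ ((Finset.univ.filter fun ω =>
        win (fun r => if r ∈ U then T r else S r) ω = true).card : ℝ) then 1 else 0 with hE
  have hE0 : 0 ≤ E := by
    rw [hE]
    unfold EX
    refine Finset.sum_nonneg fun T _ => mul_nonneg (Finset.prod_nonneg fun r _ => hp0 r _) ?_
    dsimp only
    split_ifs
    · exact zero_le_one
    · exact le_rfl
  -- the bad sets for `S`
  set hid' : 𝒳 → Finset (ι × Λ) := fun x => (hid x).filter fun y => ηm ≤ η y.1 with hhid'
  have hlab := lab X wX hX hid' δ hδ0 K0 (by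
      intro Y hY
      by_cases hYη : ∀ y ∈ Y, ηm ≤ η y.1
      · refine le_trans (le_of_eq ?_) (hXδ Y hY hYη)
        refine Finset.sum_congr (Finset.filter_congr fun x _ => ?_) fun _ _ => rfl
        constructor
        · intro h1 y hy
          exact (Finset.mem_filter.1 (h1 hy)).1
        · intro h1 y hy
          exact Finset.mem_filter.2 ⟨h1 hy, hYη y hy⟩
      · have h1 : X.filter (fun x => Y ⊆ hid' x) = ∅ := by
          rw [Finset.filter_eq_empty_iff]
          intro x _ h2
          exact hYη fun y hy => (Finset.mem_filter.1 (h2 hy)).2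
        rw [h1, Finset.sum_empty]
        positivity)
    (fun K s ω => cert (pat U S (K.filter fun y => s y = true)) ω)
    (fun K s s' hss => by
      have h1 : (K.filter fun y => s y = true) = K.filter fun y => s' y = true :=
        Finset.filter_congr fun y hy => by rw [hss y hy]
      funext ω
      rw [h1])
    q (fun K s ω => hq _ ω) e he m
  have hx : ∀ x ∈ X, wX x * (if ∃ val : ι × Λ → Bool, w + (e + 2 * q * δ) *
        Fintype.card Ω ≤ ((Finset.univ.filter fun ω =>
          win (pat U S ((hid x).filter fun y => val y = true)) ω = true).card : ℝ)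
        then (1 : ℝ) else 0) ≤ wX x * (C * E) +
        (if (∃ val : ι × Λ → Bool, ∀ K : Finset (ι × Λ), K0 ⊆ K →
        K ⊆ K0 ∪ hid' x → (K \ K0).card ≤ m →
        e * Fintype.card Ω < ((Finset.univ.filter fun ω =>
          ¬ Disjoint (cert (pat U S (K.filter fun y => val y = true)) ω) (hid' x \ K)).card : ℝ))
          then wX x else 0) := by
    intro x hxX
    have hwx := hX x hxX
    have hCE : 0 ≤ C * E := mul_nonneg hC0 hE0
    split_ifs with h1 h2 h2
    · have := mul_nonneg hwx hCE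
      linarith
    · obtain ⟨val, hval⟩ := h1
      have h3 := p7a_one hp win cert hcert q hq δ ηm hδ0 hm0 hm1 U K0 hK0U hK0 hδ hvis (hid x)
        (hhid x hxX) e m w S val hval h2
      have h4 := mul_le_mul_of_nonneg_left h3 hwx
      rw [add_zero]
      exact h4
    · have := mul_nonneg hwx hCE
      rw [mul_zero]
      linarith
    · have := mul_nonneg hwx hCE
      rw [mul_zero]
      linarith
  refine (Finset.sum_le_sum hx).trans ?_
  rw [Finset.sum_add_distrib, ← Finset.sum_mul, hX1, one_mul, ← Finset.sum_filter]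
  exact add_le_add le_rfl hlab

end prob


end Pool.Agent.ABI
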