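import Pool.Agent.Lib_helper27.ABIF.Defs2
import Pool.Agent.Lib_helper27.ABIF.B.G0
import Pool.Agent.Lib_helper27.ABIF.B.G2
import Pool.Agent.Lib_helper27.ABIF.B.P2
import Pool.Agent.Lib_helper27.ABIF.B.P7a

/-!
-/

set_option autoImplicit false

namespace Pool.Agent.ABI

open Pool.Agent.CK
open Pool.Agent.NPC (Lit St lw tw Cert Term Rst Comp res Stuck RS wt pw GoodRoot HBig te hx NC labs
  rv rq)
open Pool.Agent.ABO (Par Lvl lev CircF hits Fml Gate Circuit Game Hard Desc cst cTree gsz)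
open Pool.Agent.TD.IS (PosI Stg patchI simI)
open Pool.Agent.TD (Lam dd)

/-- literals of `W` as literals over the slots in `U` -/
def g4_up (U : Finset Str) (W : Finset Lit) : Finset ({r // r ∈ U} × Str) :=
  ((Finset.univ : Finset {r // r ∈ U}) ×ˢ W.image Prod.snd).filter fun y => (y.1.1, y.2) ∈ W

theorem g4_mem_up (U : Finset Str) (W : Finset Lit) (y : {r // r ∈ U} × Str) :
    y ∈ g4_up U W ↔ (y.1.1, y.2) ∈ W := by
  rw [g4_up, Finset.mem_filter]
  constructor
  · exact fun h => h.2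
  · intro h
    refine ⟨Finset.mem_product.2 ⟨Finset.mem_univ _, ?_⟩, h⟩
    exact Finset.mem_image.2 ⟨_, h, rfl⟩

/-- literals over `U` as literals -/
def g4_dn {U : Finset Str} (Y : Finset ({r // r ∈ U} × Str)) : Finset Lit :=
  Y.image fun y => (y.1.1, y.2)

theorem g4_card_dn {U : Finset Str} (Y : Finset ({r // r ∈ U} × Str)) :
    (g4_dn Y).card = Y.card := by
  refine Finset.card_image_of_injective _ fun y y' h => ?_
  rw [Prod.mk.injEq] at h
  exact Prod.ext (Subtype.ext h.1) h.2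

theorem g4_sub {U : Finset Str} (Y : Finset ({r // r ∈ U} × Str)) (W : Finset Lit) :
    Y ⊆ g4_up U W ↔ g4_dn Y ⊆ W := by
  constructor
  · intro h y hy
    obtain ⟨x, hx, rfl⟩ := Finset.mem_image.1 hy
    exact (g4_mem_up U W x).1 (h hx)
  · intro h y hy
    exact (g4_mem_up U W y).2 (h (Finset.mem_image.2 ⟨y, hy, rfl⟩))

theorem g4_dd {n : ℕ} (hn : NumL n) : n + 8 ≤ dd n := by
  have h := hn.hdd
  have h2 : n + 8 ≤ 64 * (n + 8) ^ 2 := by nlinarith
  exact h2.trans h

theorem g4_card {s : ℕ} (i : Fintype (X s)) : @Fintype.card (X s) i = 2 ^ s := by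
  rw [← card_X s]
  exact @Fintype.card_congr _ _ i (instFintypeX s) (Equiv.refl _)

open Classical in
theorem risk_repl {J N j n : ℕ} (hJ : 16 ≤ J) (hN : N = 2 ^ 2 ^ J) (hn : NumL n)
    (hc : N ≤ dd n) (A : Fam) (hR : A.R ⊆ Us J N) (D : Finset Str) (hD : D ⊆ Us J N)
    {𝒳 : Type} (X0 : Finset 𝒳) (wX : 𝒳 → ℝ) (hX : ∀ x ∈ X0, 0 ≤ wX x) (hX1 : ∑ x ∈ X0, wX x = 1)
    (hid : 𝒳 → Finset Lit) (hhid : ∀ x ∈ X0, ∀ y ∈ hid x, y.1 ∈ D ∧ y.2 ∈ A.H y.1)
    (hXδ : ∀ Y : Finset Lit, (∀ y ∈ Y, n ≤ 16 * y.1.length) →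
      ∑ x ∈ X0.filter (fun x => Y ⊆ hid x), wX x ≤ del n ^ Y.card)
    {s : ℕ} (Adv : X s → DT Str)
    (hA : ∀ x, (Adv x).depth ≤ dd n ∧ (Adv x).AllQ fun w => w.length ≤ dd n)
    (e : ℝ) (he : 0 < e) (m : ℕ) (w : ℝ) :
    ∑ x ∈ X0, wX x * EX (lawA J N j A) (fun r => A.H r.1) (fun S =>
      if ∃ ω' : St, (∀ p, p.1 ∉ D → ω' p = stf S p) ∧
        (∀ p, p.1 ∈ D → ω' p = true → p ∈ hid x) ∧
        w + (e + 2 * (dd n) ^ 2 * del n) * 2 ^ s ≤ (hits (fun _ => [true]) Adv (A.F ω') : ℝ)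
      then 1 else 0) ≤
      2 ^ kap0 n * (2 * (dd n) ^ 2 * del n / e) ^ m +
        2 ^ ((dd n + 1) * (m + kap0 n) + 1) * Risk J N j A Adv w := by
  obtain ⟨cert, hcert, hq, hcR⟩ := cert_game J N A hR Adv (dd n) hA
  have hlaw := law_lawA (J := J) (N := N) hJ hN j A
  have hdd := g4_dd hn
  have hdel : 0 ≤ del n := by unfold del; positivity
  set U : Finset {r // r ∈ Us J N} := Finset.univ.filter fun r => r.1 ∈ D with hU
  have hmU : ∀ r : {r // r ∈ Us J N}, r ∈ U ↔ r.1 ∈ D := by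
    intro r; rw [hU, Finset.mem_filter]; simp
  set W0 : Finset Lit := (D.filter fun r => 16 * r.length < n).biUnion fun r =>
    (A.H r).image fun l => (r, l) with hW0
  have hmW : ∀ y : Lit, y ∈ W0 ↔ y.1 ∈ D ∧ 16 * y.1.length < n ∧ y.2 ∈ A.H y.1 := by
    intro y
    rw [hW0, Finset.mem_biUnion]
    constructor
    · rintro ⟨r, hr, hy⟩
      obtain ⟨l, hl, rfl⟩ := Finset.mem_image.1 hy
      rw [Finset.mem_filter] at hr
      exact ⟨hr.1, hr.2, hl⟩
    · rintro ⟨h1, h2, h3⟩
      exact ⟨y.1, Finset.mem_filter.2 ⟨h1, h2⟩, Finset.mem_image.2 ⟨y.2, h3, rfl⟩⟩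
  have hW0c : W0.card ≤ kap0 n := by
    have h1 : W0.card ≤ ((D.filter fun r => 16 * r.length < n).sigma fun r => A.H r).card := by
      rw [hW0, Finset.card_sigma]
      refine Finset.card_biUnion_le.trans (Finset.sum_le_sum fun r _ => Finset.card_image_le)
    exact h1.trans (small_card n D A.H A.hH)
  set K0 : Finset ({r // r ∈ Us J N} × Str) := g4_up (Us J N) W0 with hK0
  have hK0c : K0.card ≤ kap0 n := by
    rw [← g4_card_dn]
    refine (Finset.card_le_card ?_).trans hW0c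
    exact (g4_sub K0 W0).1 (le_of_eq hK0)
  have hmK : ∀ y : {r // r ∈ Us J N} × Str, y ∈ K0 ↔
      y.1.1 ∈ D ∧ 16 * y.1.1.length < n ∧ y.2 ∈ A.H y.1.1 := by
    intro y; rw [hK0, g4_mem_up, hmW]
  have hbd : ∀ r ∈ Us J N, (2 * r.length + 2 ≤ dd n → (1 / 2 : ℝ) ^ dd n ≤ et J r.length) ∧
      (n ≤ 16 * r.length → et J r.length ≤ del n) := fun r hr => et_bounds hJ hN hn hc r hr
  have key := repl (p := lawA J N j A) (H := fun r => A.H r.1)
    (η := fun r => et J r.1.length) hlaw (winA J N A Adv) cert hcert ((dd n) ^ 2) hq (del n)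
    ((1 / 2 : ℝ) ^ dd n) hdel (by positivity)
    (pow_le_one₀ (by norm_num) (by norm_num)) U K0
    (fun x hx => (hmU x.1).2 ((hmK x).1 hx).1)
    (fun x hx => (hbd x.1.1 x.1.2).1 (by have := ((hmK x).1 hx).2.1; omega))
    (fun S ω x hx hxU => by
      obtain ⟨h1, h2, h3⟩ := hcR S ω x hx
      by_cases hs : 16 * x.1.1.length < n
      · exact Or.inl ((hmK x).2 ⟨(hmU x.1).1 hxU, hs, h2⟩)
      · exact Or.inr ((hbd x.1.1 x.1.2).2 (not_lt.1 hs)))
    (fun S ω x hx => (hbd x.1.1 x.1.2).1 (hcR S ω x hx).2.2)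
    X0 wX hX hX1 (fun x => g4_up (Us J N) (hid x))
    (fun x hx y hy => by
      have h := hhid x hx _ ((g4_mem_up _ _ y).1 hy)
      exact ⟨(hmU y.1).2 h.1, h.2⟩)
    (fun Y hYK hY => by
      by_cases hs : ∀ y ∈ Y, n ≤ 16 * y.1.1.length
      · have h := hXδ (g4_dn Y) (by
          intro y hy
          obtain ⟨x, hx, rfl⟩ := Finset.mem_image.1 hy
          exact hs x hx)
        rw [g4_card_dn] at h
        refine le_trans (le_of_eq ?_) h
        refine Finset.sum_congr ?_ fun _ _ => rfl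
        ext x
        simp only [Finset.mem_filter, g4_sub]
      · push Not at hs
        obtain ⟨y, hy, hyn⟩ := hs
        refine le_trans (le_of_eq ?_) (pow_nonneg hdel _)
        refine Finset.sum_eq_zero fun x hx => ?_
        exfalso
        rw [Finset.mem_filter] at hx
        have h1 := (g4_mem_up _ _ y).1 (hx.2 hy)
        have h2 := hhid x hx.1 _ h1
        exact (Finset.disjoint_left.1 hYK hy) ((hmK y).2 ⟨h2.1, hyn, h2.2⟩))
    e he m w
  refine le_trans (Finset.sum_le_sum fun x hx => mul_le_mul_of_nonneg_left ?_ (hX x hx))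
    (key.trans ?_)
  · refine EX_mono (fun r => (hlaw r).nonneg) fun S hS => ?_
    split_ifs with h1 h2
    · exact le_rfl
    · exfalso
      apply h2
      obtain ⟨ω', ho, hin, hw⟩ := h1
      refine ⟨fun y => ω' (y.1.1, y.2), ?_⟩
      have hF : A.F (stf (pat U S ((g4_up (Us J N) (hid x)).filter fun y =>
          ω' (y.1.1, y.2) = true))) = A.F ω' := by
        refine F_congr A fun r hr l hl => ?_
        have hrU : r ∈ Us J N := hR hr
        rw [stf, dif_pos hrU]
        by_cases hrD : r ∈ D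
        · rw [pat, if_pos ((hmU ⟨r, hrU⟩).2 hrD)]
          cases hv : ω' (r, l) with
          | true =>
            rw [decide_eq_true_iff]
            refine Finset.mem_image.2 ⟨(⟨r, hrU⟩, l), ?_, rfl⟩
            refine Finset.mem_filter.2 ⟨Finset.mem_filter.2 ⟨?_, hv⟩, rfl⟩
            exact (g4_mem_up _ _ _).2 (hin (r, l) hrD hv)
          | false =>
            rw [decide_eq_false_iff_not]
            intro h
            obtain ⟨y, hy, hyl⟩ := Finset.mem_image.1 h
            rw [Finset.mem_filter, Finset.mem_filter] at hy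
            have hy1 := hy.1.2
            rw [hy.2, hyl, hv] at hy1
            exact Bool.false_ne_true hy1
        · rw [pat, if_neg (fun h => hrD ((hmU ⟨r, hrU⟩).1 h)), ho (r, l) hrD, stf, dif_pos hrU]
      rw [winA_hits, hF, g4_card]
      push_cast
      exact hw
    · norm_num
    · exact le_rfl
  · have hrisk : EX (lawA J N j A) (fun r => A.H r.1) (fun S =>
        if w ≤ ((Finset.univ.filter fun ω => winA J N A Adv S ω = true).card : ℝ) then
          (1 : ℝ) else 0) = Risk J N j A Adv w := by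
      unfold Risk
      congr 1
      funext S
      rw [winA_hits]
    have hr0 : 0 ≤ Risk J N j A Adv w := by
      have h0 : EX (lawA J N j A) (fun r => A.H r.1) (fun _ => (0 : ℝ)) = 0 := by
        simp [EX]
      rw [← h0]
      unfold Risk
      refine EX_mono (fun r => (hlaw r).nonneg) fun S _ => ?_
      split_ifs <;> norm_num
    refine add_le_add ?_ ?_
    · push_cast
      refine mul_le_mul_of_nonneg_right ?_ (by positivity)
      exact pow_le_pow_right₀ (by norm_num) hK0c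
    · rw [hrisk]
      refine mul_le_mul_of_nonneg_right ?_ hr0
      have h1 : (2 : ℝ) / (1 / 2) ^ dd n = 2 ^ (dd n + 1) := by
        rw [one_div, inv_pow, div_inv_eq_mul, pow_succ]; ring
      rw [h1, ← pow_mul, pow_succ (2 : ℝ) ((dd n + 1) * (m + kap0 n)), mul_comm]
      refine mul_le_mul_of_nonneg_right ?_ (by norm_num)
      refine pow_le_pow_right₀ (by norm_num) ?_
      exact Nat.mul_le_mul_left _ (Nat.add_le_add_left hK0c _)


end Pool.Agent.ABI
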