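import Pool.Agent.Lib_helper27.ABIF.Defs2

/-! # ABI, block C1: hard-wired positions -/

set_option autoImplicit false

namespace Pool.Agent.ABI

open Pool.Agent.CK
open Pool.Agent.NPC (Lit St lw tw Cert Term Rst Comp res Stuck RS wt pw GoodRoot HBig te hx NC labs
  rv rq)
open Pool.Agent.ABO (Par Lvl lev CircF hits Fml Gate Circuit Game Hard Desc cst cTree gsz)
open Pool.Agent.TD.IS (PosI Stg patchI simI)
open Pool.Agent.TD (Lam dd)

/-- comparison of a question with the strings in `P` -/
noncomputable def c1_cmp (P : Finset Str) (vs : List ℕ) : Fml :=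
  Fml.any ((P.toList.filter fun w => decide (w.length = vs.length)).map fun w => Fml.eqC vs w)

theorem c1_cmp_eval (P : Finset Str) (vs : List ℕ) (W : List Bool) :
    (c1_cmp P vs).eval W = decide (ABO.sel W vs ∈ P) := by
  unfold c1_cmp
  rw [Fml.eval_any, Bool.eq_iff_iff, List.any_eq_true, decide_eq_true_eq]
  constructor
  · rintro ⟨φ, hφ, h1⟩
    rw [List.mem_map] at hφ
    obtain ⟨w, hw, rfl⟩ := hφ
    rw [List.mem_filter, decide_eq_true_eq, Finset.mem_toList] at hw
    have h2 := (Fml.eval_eqC W vs w hw.2.symm).1 h1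
    unfold ABO.sel
    rw [h2]
    exact hw.1
  · intro h1
    refine ⟨Fml.eqC vs (ABO.sel W vs), List.mem_map.2 ⟨ABO.sel W vs, ?_, rfl⟩, ?_⟩
    · rw [List.mem_filter, decide_eq_true_eq, Finset.mem_toList]
      refine ⟨h1, ?_⟩
      unfold ABO.sel
      rw [List.length_map]
    · refine (Fml.eval_eqC W vs _ ?_).2 rfl
      unfold ABO.sel
      rw [List.length_map]

theorem c1_cmp_size (P : Finset Str) (vs : List ℕ) :
    (c1_cmp P vs).size ≤ P.card * (6 * vs.length + 6) + 3 := by
  unfold c1_cmp
  refine (Fml.size_any _ (6 * vs.length + 1) ?_).trans ?_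
  · intro φ hφ
    rw [List.mem_map] at hφ
    obtain ⟨w, _, rfl⟩ := hφ
    exact Fml.size_eqC vs w
  · rw [List.length_map]
    have h1 : (P.toList.filter fun w => decide (w.length = vs.length)).length ≤ P.card := by
      rw [← Finset.length_toList]
      exact List.length_filter_le _ _
    exact Nat.add_le_add_right (Nat.mul_le_mul_right _ h1) 3

theorem c1_cmp_below (P : Finset Str) (vs : List ℕ) {t : ℕ} (h : ∀ i ∈ vs, i < t) :
    (c1_cmp P vs).Below t := by
  unfold c1_cmp
  refine Fml.below_any fun φ hφ => ?_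
  rw [List.mem_map] at hφ
  obtain ⟨w, _, rfl⟩ := hφ
  exact Fml.below_eqC vs w h

/-- the gates that replace a gate if `N` bits have been computed, and the number of the new bit -/
noncomputable def c1_gate (P : Finset Str) (π : List ℕ) (N : ℕ) : Gate → List Gate × ℕ
  | .fml φ => ([.fml (ABO.rm_fml π φ)], N)
  | .ask l => ([.ask (l.map (ABO.rm_pos π)),
      .fml (Fml.or (Fml.var N) (c1_cmp P (l.map (ABO.rm_pos π))))], N + 1)
  | .chal l => ([.chal (l.map (ABO.rm_pos π))], N)

/-- the gates that replace a list of gates, and the new numbers -/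
noncomputable def c1_tr (P : Finset Str) : List Gate → List ℕ → ℕ → List Gate × List ℕ
  | [], π, _ => ([], π)
  | g :: gs, π, N => ((c1_gate P π N g).1 ++
      (c1_tr P gs (π ++ [(c1_gate P π N g).2]) (N + (c1_gate P π N g).1.length)).1,
      (c1_tr P gs (π ++ [(c1_gate P π N g).2]) (N + (c1_gate P π N g).1.length)).2)

theorem c1_sel {π : List ℕ} {W W' : List Bool} (h : ABO.RmInv π W W') (U : List Bool)
    (l : List ℕ) : ABO.sel (W' ++ U) (l.map (ABO.rm_pos π)) = ABO.sel W l := by
  unfold ABO.sel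
  rw [List.map_map]
  refine List.map_congr_left fun i _ => ?_
  show (W' ++ U).getD (ABO.rm_pos π i) false = W.getD i false
  rw [List.getD_append _ _ _ _ (h.lt i)]
  exact (h.val i).symm

/-- one gate -/
theorem c1_one (P : Finset Str) (d : ℕ) (O O' : Lang)
    (hO : ∀ w : Str, w.length ≤ d → O' w = (O w || decide (w ∈ P)))
    (ch : List Str → Str → Bool) {π : List ℕ} {W W' : List Bool}
    (h : ABO.RmInv π W W') (qs : List Str) (g : Gate) (hg : ∀ l, g = Gate.ask l → l.length ≤ d) :
    ∃ (U : List Bool) (b : Bool) (qs' : List Str), U.length = (c1_gate P π W'.length g).1.length ∧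
      ABO.gstep O' ch (W, qs) g = (W ++ [b], qs') ∧
      (c1_gate P π W'.length g).1.foldl (ABO.gstep O ch) (W', qs) = (W' ++ U, qs') ∧
      ABO.RmInv (π ++ [(c1_gate P π W'.length g).2]) (W ++ [b]) (W' ++ U) := by
  match g with
  | .fml φ =>
    refine ⟨[φ.eval W], φ.eval W, qs, rfl, rfl, ?_,
      h.step (by simp [c1_gate]) (ABO.rm_last _ _)⟩
    simp only [c1_gate, List.foldl_cons, List.foldl_nil, ABO.gstep]
    rw [ABO.rm_fml_eval h]
  | .chal l =>
    refine ⟨[ch qs (ABO.sel W l)], ch qs (ABO.sel W l), qs ++ [ABO.sel W l], rfl, rfl, ?_,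
      h.step (by simp [c1_gate]) (ABO.rm_last _ _)⟩
    simp only [c1_gate, List.foldl_cons, List.foldl_nil, ABO.gstep]
    rw [ABO.rm_sel h]
  | .ask l =>
    have hl := hg l rfl
    have hlen : (ABO.sel W l).length ≤ d := by
      unfold ABO.sel
      rw [List.length_map]
      exact hl
    have h2 : (Fml.or (Fml.var W'.length) (c1_cmp P (l.map (ABO.rm_pos π)))).eval
        (W' ++ [O (ABO.sel W l)]) = O' (ABO.sel W l) := by
      rw [Fml.eval_or, c1_cmp_eval, c1_sel h, hO _ hlen]
      show ((W' ++ [O (ABO.sel W l)]).getD W'.length false || _) = _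
      rw [ABO.rm_last]
    refine ⟨[O (ABO.sel W l), O' (ABO.sel W l)], O' (ABO.sel W l), qs, rfl, rfl, ?_,
      h.step (by simp [c1_gate]) ?_⟩
    · simp only [c1_gate, List.foldl_cons, List.foldl_nil, ABO.gstep]
      rw [ABO.rm_sel h, h2, List.append_assoc]
      rfl
    · show (W' ++ [O (ABO.sel W l), O' (ABO.sel W l)]).getD (W'.length + 1) false = _
      rw [List.getD_append_right _ _ _ _ (Nat.le_succ _)]
      have e : W'.length.succ - W'.length = 1 := by omega
      rw [e]
      rfl

theorem c1_foldl (P : Finset Str) (d : ℕ) (O O' : Lang)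
    (hO : ∀ w : Str, w.length ≤ d → O' w = (O w || decide (w ∈ P)))
    (ch : List Str → Str → Bool) : ∀ (gs : List Gate) (π : List ℕ)
    (W W' : List Bool) (qs : List Str), ABO.Lens d gs → ABO.RmInv π W W' →
    ((c1_tr P gs π W'.length).1.foldl (ABO.gstep O ch) (W', qs)).2 =
        (gs.foldl (ABO.gstep O' ch) (W, qs)).2 ∧
      ABO.RmInv (c1_tr P gs π W'.length).2 (gs.foldl (ABO.gstep O' ch) (W, qs)).1
        ((c1_tr P gs π W'.length).1.foldl (ABO.gstep O ch) (W', qs)).1
  | [], _, _, _, _, _, h => ⟨rfl, h⟩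
  | g :: gs, π, W, W', qs, hd, h => by
    obtain ⟨U, b, qs', hU, h1, h2, h3⟩ := c1_one P d O O' hO ch h qs g
      (fun l hl => hd l (by rw [hl]; exact List.mem_cons_self))
    have h4 := c1_foldl P d O O' hO ch gs _ _ _ qs'
      (fun l hl => hd l (List.mem_cons_of_mem _ hl)) h3
    rw [List.length_append, hU] at h4
    simp only [c1_tr, List.foldl_append, List.foldl_cons]
    rw [h1, h2]
    exact h4

theorem c1_gate_size (P : Finset Str) (d : ℕ) (π : List ℕ) (N : ℕ) (g : Gate)
    (hg : ∀ l, g = Gate.ask l → l.length ≤ d) :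
    gsz (c1_gate P π N g).1 ≤
      g.size + (P.card * (6 * d + 6) + 10) * (if g.isAsk = true then 1 else 0) := by
  match g with
  | .fml φ =>
    simp only [c1_gate, ABO.gsz_cons, ABO.gsz_nil, ABO.Gate.size, ABO.rm_fml_size]
    omega
  | .chal l =>
    simp only [c1_gate, ABO.gsz_cons, ABO.gsz_nil, ABO.Gate.size, List.length_map]
    omega
  | .ask l =>
    have h1 := c1_cmp_size P (l.map (ABO.rm_pos π))
    have hl := hg l rfl
    rw [List.length_map] at h1
    have h2 : P.card * (6 * l.length + 6) ≤ P.card * (6 * d + 6) :=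
      Nat.mul_le_mul_left _ (by omega)
    simp only [c1_gate, ABO.gsz_cons, ABO.gsz_nil, ABO.Gate.size, ABO.Gate.isAsk, if_true,
      List.length_map, Fml.size_or, Fml.size]
    omega

theorem c1_tr_size (P : Finset Str) (d : ℕ) : ∀ (gs : List Gate) (π : List ℕ) (N : ℕ),
    ABO.Lens d gs →
    gsz (c1_tr P gs π N).1 ≤ gsz gs + (P.card * (6 * d + 6) + 10) * ABO.asks gs
  | [], _, _, _ => by simp [c1_tr]
  | g :: gs, π, N, hd => by
    have h1 := c1_gate_size P d π N g (fun l hl => hd l (by rw [hl]; exact List.mem_cons_self))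
    have h2 := c1_tr_size P d gs (π ++ [(c1_gate P π N g).2]) (N + (c1_gate P π N g).1.length)
      (fun l hl => hd l (List.mem_cons_of_mem _ hl))
    have h3 : ABO.asks (g :: gs) = ABO.asks gs + (if g.isAsk = true then 1 else 0) := by
      unfold ABO.asks
      rw [List.countP_cons]
    simp only [c1_tr, ABO.gsz_append, ABO.gsz_cons]
    rw [h3, Nat.mul_add]
    omega

theorem c1_gate_asks (P : Finset Str) (π : List ℕ) (N : ℕ) (g : Gate) :
    ABO.asks (c1_gate P π N g).1 = if g.isAsk = true then 1 else 0 := by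
  match g with
  | .fml φ => rfl
  | .chal l => rfl
  | .ask l => rfl

theorem c1_tr_asks (P : Finset Str) : ∀ (gs : List Gate) (π : List ℕ) (N : ℕ),
    ABO.asks (c1_tr P gs π N).1 = ABO.asks gs
  | [], _, _ => rfl
  | g :: gs, π, N => by
    have h2 := c1_tr_asks P gs (π ++ [(c1_gate P π N g).2]) (N + (c1_gate P π N g).1.length)
    have h3 : ABO.asks (g :: gs) = ABO.asks gs + (if g.isAsk = true then 1 else 0) := by
      unfold ABO.asks
      rw [List.countP_cons]
    have h4 : ∀ a b : List Gate, ABO.asks (a ++ b) = ABO.asks a + ABO.asks b := by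
      intro a b
      unfold ABO.asks
      rw [List.countP_append]
    simp only [c1_tr]
    rw [h4, c1_gate_asks, h2, h3, Nat.add_comm]

theorem c1_tr_lens (P : Finset Str) (d : ℕ) : ∀ (gs : List Gate) (π : List ℕ) (N : ℕ),
    ABO.Lens d gs → ABO.Lens d (c1_tr P gs π N).1
  | [], _, _, _ => fun l hl => by simp [c1_tr] at hl
  | g :: gs, π, N, hd => by
    have h2 := c1_tr_lens P d gs (π ++ [(c1_gate P π N g).2]) (N + (c1_gate P π N g).1.length)
      (fun l hl => hd l (List.mem_cons_of_mem _ hl))
    intro l hl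
    simp only [c1_tr, List.mem_append] at hl
    rcases hl with hl | hl
    · match g, hd, hl with
      | .fml φ, _, hl => simp [c1_gate] at hl
      | .chal l', _, hl => simp [c1_gate] at hl
      | .ask l', hd, hl =>
        simp only [c1_gate, List.mem_cons, Gate.ask.injEq, List.not_mem_nil, or_false,
          reduceCtorEq] at hl
        rw [hl, List.length_map]
        exact hd l' List.mem_cons_self
    · exact h2 l hl

theorem c1_fml_below (π : List ℕ) (t : ℕ) (h : ∀ i, ABO.rm_pos π i < t) :
    ∀ φ : Fml, (ABO.rm_fml π φ).Below t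
  | .tru => trivial
  | .var i => h i
  | .nand a b => ⟨c1_fml_below π t h a, c1_fml_below π t h b⟩

theorem c1_pos_lt {π : List ℕ} {p t : ℕ} (h : ∀ i, ABO.rm_pos π i < t) (hp : p < t) :
    ∀ i, ABO.rm_pos (π ++ [p]) i < t := by
  intro i
  rcases lt_trichotomy i π.length with h1 | h1 | h1
  · rw [ABO.rm_pos_lt h1]
    exact h i
  · rw [h1, ABO.rm_pos_eq]
    exact hp
  · rw [ABO.rm_pos_gt (by rw [List.length_append, List.length_singleton]; omega)]
    exact (Nat.zero_le _).trans_lt hp

theorem c1_gate_below (P : Finset Str) (π : List ℕ) (N t : ℕ) (h : ∀ i, ABO.rm_pos π i < N)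
    (g : Gate) (ht : N + (c1_gate P π N g).1.length ≤ t) :
    (∀ g' ∈ (c1_gate P π N g).1, g'.Below t) ∧
      (c1_gate P π N g).2 < N + (c1_gate P π N g).1.length := by
  have hπ : ∀ i, ABO.rm_pos π i < t := fun i => (h i).trans_le (le_trans (Nat.le_add_right _ _) ht)
  match g, ht with
  | .fml φ, ht =>
    refine ⟨fun g' hg' => ?_, by simp [c1_gate]⟩
    simp only [c1_gate, List.mem_singleton] at hg'
    rw [hg']
    exact c1_fml_below π t hπ φ
  | .chal l, ht =>
    refine ⟨fun g' hg' => ?_, by simp [c1_gate]⟩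
    simp only [c1_gate, List.mem_singleton] at hg'
    rw [hg']
    intro i hi
    rw [List.mem_map] at hi
    obtain ⟨j, _, rfl⟩ := hi
    exact hπ j
  | .ask l, ht =>
    have hl : ∀ i ∈ l.map (ABO.rm_pos π), i < t := by
      intro i hi
      rw [List.mem_map] at hi
      obtain ⟨j, _, rfl⟩ := hi
      exact hπ j
    have ht2 : N + 2 ≤ t := ht
    refine ⟨fun g' hg' => ?_, by simp [c1_gate]⟩
    simp only [c1_gate, List.mem_cons, List.not_mem_nil, or_false] at hg'
    rcases hg' with hg' | hg'
    · rw [hg']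
      exact hl
    · rw [hg']
      refine Fml.below_or ?_ (c1_cmp_below P _ hl)
      show N < t
      omega

theorem c1_tr_below (P : Finset Str) (t : ℕ) : ∀ (gs : List Gate) (π : List ℕ) (N : ℕ),
    (∀ i, ABO.rm_pos π i < N) → N + (c1_tr P gs π N).1.length ≤ t →
    (∀ g ∈ (c1_tr P gs π N).1, g.Below t) ∧ ∀ i, ABO.rm_pos (c1_tr P gs π N).2 i < t
  | [], π, N, h, ht => ⟨fun g hg => by simp [c1_tr] at hg,
      fun i => (h i).trans_le (le_trans (Nat.le_add_right _ _) ht)⟩
  | g :: gs, π, N, h, ht => by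
    simp only [c1_tr, List.length_append] at ht
    have h1 := c1_gate_below P π N t h g (by omega)
    have h2 := c1_tr_below P t gs (π ++ [(c1_gate P π N g).2]) (N + (c1_gate P π N g).1.length)
      (c1_pos_lt (fun i => (h i).trans_le (Nat.le_add_right _ _)) h1.2) (by omega)
    simp only [c1_tr]
    refine ⟨fun g' hg' => ?_, h2.2⟩
    rw [List.mem_append] at hg'
    rcases hg' with hg' | hg'
    · exact h1.1 g' hg'
    · exact h2.1 g' hg'

/-- C1: after every question `ask l`, `l.length ≤ d`, the question is compared with the strings in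
`P` of the same length: `⋁_{w ∈ P} [sel W l = w]`; the answer is the disjunction.  Size of the
formula: about `8 (d + 1)` per element of `P`.  Induction on the gates with renumbering as in
`ABO/B/LC.lean` and `ABO/B/RM.lean`. -/
theorem hardwire (C : Circuit) (s d : ℕ) (hC : C.Within s d) (P : Finset Str) :
    ∃ C' : Circuit, C'.Within (s + (d + 1) * (64 * (d + 1) * (P.card + 1))) d ∧
      ∀ (G : Game) (O O' : Lang) (ω : Str),
        (∀ w : Str, w.length ≤ d → O' w = (O w || decide (w ∈ P))) →
        G.wins O C' ω = G.wins O' C ω := by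
  have h0 : ABO.RmInv [] [] [false] := by
    refine ⟨rfl, fun i => ?_, fun i => ?_⟩
    · simp [ABO.rm_pos]
    · simp [ABO.rm_pos]
  have hsize : 4 + (gsz C.gates + (P.card * (6 * d + 6) + 10) * ABO.asks C.gates) + C.out.length ≤
      s + (d + 1) * (64 * (d + 1) * (P.card + 1)) := by
    have h2 : gsz C.gates + C.out.length ≤ s := hC.size
    have h3 := hC.asks
    have h4 : (P.card * (6 * d + 6) + 10) * ABO.asks C.gates ≤
      (P.card * (6 * d + 6) + 10) * d := Nat.mul_le_mul_left _ h3
    have h5 : 4 + (P.card * (6 * d + 6) + 10) * d ≤ (d + 1) * (64 * (d + 1) * (P.card + 1)) := by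
      have e1 : (d + 1) * (64 * (d + 1) * (P.card + 1)) =
        4 + (P.card * (6 * d + 6) + 10) * d + (58 * P.card * (d * d) + 122 * P.card * d +
          64 * P.card + 64 * (d * d) + 118 * d + 60) := by ring
      rw [e1]
      exact Nat.le_add_right _ _
    omega
  have h1 := c1_tr_size P d C.gates [] 1 hC.lens
  have h4 := Fml.size_con false
  have hsz : Circuit.size ⟨Gate.fml (Fml.con false) :: (c1_tr P C.gates [] 1).1,
      C.out.map (ABO.rm_pos (c1_tr P C.gates [] 1).2)⟩ ≤
      s + (d + 1) * (64 * (d + 1) * (P.card + 1)) := by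
    show (((Gate.fml (Fml.con false) :: (c1_tr P C.gates [] 1).1).map ABO.Gate.size).sum +
      (C.out.map (ABO.rm_pos (c1_tr P C.gates [] 1).2)).length) ≤ _
    rw [List.map_cons, List.sum_cons, List.length_map]
    have h6 : ((c1_tr P C.gates [] 1).1.map ABO.Gate.size).sum ≤
      gsz C.gates + (P.card * (6 * d + 6) + 10) * ABO.asks C.gates := h1
    have h7 : (Gate.fml (Fml.con false)).size = (Fml.con false).size + 1 := rfl
    rw [h7]
    omega
  have hlen : 1 + (c1_tr P C.gates [] 1).1.length ≤
      s + (d + 1) * (64 * (d + 1) * (P.card + 1)) := by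
    have h8 := ABO.length_le_gsz (c1_tr P C.gates [] 1).1
    have h9 : ABO.asks C.gates = ABO.asks C.gates := rfl
    omega
  have hbel := c1_tr_below P _ C.gates [] 1 (fun i => by simp [ABO.rm_pos]) hlen
  refine ⟨⟨Gate.fml (Fml.con false) :: (c1_tr P C.gates [] 1).1,
    C.out.map (ABO.rm_pos (c1_tr P C.gates [] 1).2)⟩, ⟨hsz, ?_, ?_, ?_, ?_⟩, ?_⟩
  · have h5 : ABO.asks (Gate.fml (Fml.con false) :: (c1_tr P C.gates [] 1).1) =
        ABO.asks (c1_tr P C.gates [] 1).1 := by
      unfold ABO.asks
      rw [List.countP_cons]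
      rfl
    show ABO.asks (Gate.fml (Fml.con false) :: (c1_tr P C.gates [] 1).1) ≤ d
    rw [h5, c1_tr_asks]
    exact hC.asks
  · intro l hl
    rw [List.mem_cons] at hl
    rcases hl with hl | hl
    · cases hl
    · exact c1_tr_lens P d C.gates [] 1 hC.lens l hl
  · intro g hg
    rw [List.mem_cons] at hg
    rcases hg with hg | hg
    · rw [hg]
      exact Fml.below_con _ _
    · exact hbel.1 g hg
  · intro i hi
    rw [List.mem_map] at hi
    obtain ⟨j, _, rfl⟩ := hi
    exact hbel.2 j
  · intro G O O' ω hO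
    have key := c1_foldl P d O O' hO (G.ch ω) C.gates [] [] [false] [] hC.lens h0
    unfold ABO.Game.wins ABO.Circuit.play
    simp only [List.foldl_cons]
    have e : ABO.gstep O (G.ch ω) ([], []) (Gate.fml (Fml.con false)) = ([false], []) := by
      simp [ABO.gstep]
    rw [e]
    have h1 := key.1
    have h2 := ABO.rm_sel key.2 C.out
    simp only [List.length_singleton] at h1 h2
    rw [h1, h2]


end Pool.Agent.ABI
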