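import Pool.Agent.Lib_helper27.ABIF.Defs2
import Pool.Agent.Lib_helper27.ABIF.B.P4b
import Pool.Agent.Lib_helper27.ABIF.B.P6

set_option autoImplicit false

namespace Pool.Agent.ABI

open Pool.Agent.CK
open Pool.Agent.NPC (Lit St lw tw Cert Term Rst Comp res Stuck RS wt pw GoodRoot HBig te hx NC labs
  rv rq)

section prob

variable {ι Λ : Type} [Fintype ι] [DecidableEq ι] [DecidableEq Λ]

/-- the literals of a state -/
def p8_hid (S : ι → Finset Λ) : Finset (ι × Λ) :=
  Finset.univ.biUnion fun r => (S r).image fun l => (r, l)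

theorem p8_mem {S : ι → Finset Λ} {y : ι × Λ} : y ∈ p8_hid S ↔ y.2 ∈ S y.1 := by
  unfold p8_hid
  rw [Finset.mem_biUnion]
  constructor
  · rintro ⟨r, -, hr⟩
    rw [Finset.mem_image] at hr
    obtain ⟨l, hl, rfl⟩ := hr
    exact hl
  · intro h
    exact ⟨y.1, Finset.mem_univ _, Finset.mem_image.2 ⟨y.2, h, rfl⟩⟩

theorem p8_pat {T : Finset (ι × Λ)} {y : ι × Λ} :
    y.2 ∈ pat Finset.univ (fun _ => ∅) T y.1 ↔ y ∈ T := by
  unfold pat
  rw [if_pos (Finset.mem_univ _), Finset.mem_image]
  constructor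
  · rintro ⟨a, ha, hay⟩
    rw [Finset.mem_filter] at ha
    have : a = y := Prod.ext ha.2 hay
    rw [← this]
    exact ha.1
  · intro h
    exact ⟨y, Finset.mem_filter.2 ⟨h, rfl⟩, rfl⟩

theorem p8_EX (p : ι → Finset Λ → ℝ) (H : ι → Finset Λ) (Q : (ι → Finset Λ) → Prop)
    [DecidablePred Q] :
    EX p H (fun S => if Q S then 1 else 0) =
      ∑ S ∈ (Fintype.piFinset fun r => (H r).powerset).filter Q, ∏ r, p r (S r) := by
  unfold EX
  rw [Finset.sum_filter]
  refine Finset.sum_congr rfl fun S _ => ?_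
  rw [mul_ite, mul_one, mul_zero]

open Classical in
theorem start_abs {p : ι → Finset Λ → ℝ} {H : ι → Finset Λ} {η : ι → ℝ}
    (hp : ∀ r, Law (p r) (H r) (η r)) {Ω : Type} [Fintype Ω]
    (win : (ι → Finset Λ) → Ω → Bool) (cert : (ι → Finset Λ) → Ω → Finset (ι × Λ))
    (hcert : ∀ S ω S', (∀ x ∈ cert S ω, (x.2 ∈ S' x.1 ↔ x.2 ∈ S x.1)) → win S' ω = win S ω)
    (q : ℕ) (hq : ∀ S ω, (cert S ω).card ≤ q) (δ : ℝ) (hδ0 : 0 ≤ δ) (K0 : Finset (ι × Λ))
    (hδ : ∀ r, ∀ l ∈ H r, (r, l) ∉ K0 → η r ≤ δ) (e : ℝ) (he : 0 < e) (m : ℕ) (w : ℝ)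
    (hw : ∀ T : Finset (ι × Λ), (∀ x ∈ T, x.2 ∈ H x.1) → (T \ K0).card ≤ m →
      ((Finset.univ.filter fun ω => win (pat Finset.univ (fun _ => ∅) T) ω = true).card : ℝ) < w) :
    EX p H (fun S => if w + e * Fintype.card Ω ≤
        ((Finset.univ.filter fun ω => win S ω = true).card : ℝ) then 1 else 0) ≤
      2 ^ K0.card * (2 * q * δ / e) ^ m := by
  set X : Finset (ι → Finset Λ) := Fintype.piFinset fun r => (H r).powerset with hX
  have hXH : ∀ S ∈ X, ∀ r, S r ⊆ H r := fun S hS r =>
    Finset.mem_powerset.1 (Fintype.mem_piFinset.1 hS r)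
  have hw0 : ∀ S : ι → Finset Λ, 0 ≤ ∏ r, p r (S r) := fun S =>
    Finset.prod_nonneg fun r _ => (hp r).nonneg _
  have hlab := lab X (fun S => ∏ r, p r (S r)) (fun S _ => hw0 S) p8_hid δ hδ0 K0
    (by
      intro Y hY
      by_cases hYH : ∀ y ∈ Y, y.2 ∈ H y.1
      · have h1 := EX_sub hp δ hδ0 Y fun x hx =>
          hδ x.1 x.2 (hYH x hx) (Finset.disjoint_left.1 hY hx)
        refine le_trans (le_of_eq ?_) h1
        rw [p8_EX, ← hX]
        refine Finset.sum_congr (Finset.filter_congr fun S _ => ?_) fun _ _ => rfl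
        constructor
        · intro h x hx
          exact p8_mem.1 (h hx)
        · intro h x hx
          exact p8_mem.2 (h x hx)
      · have h0 : X.filter (fun S => Y ⊆ p8_hid S) = ∅ := by
          rw [Finset.filter_eq_empty_iff]
          intro S hS hYS
          apply hYH
          intro y hy
          exact hXH S hS y.1 (p8_mem.1 (hYS hy))
        rw [h0, Finset.sum_empty]
        positivity)
    (fun K s ω => cert (pat Finset.univ (fun _ => ∅) (K.filter fun x => s x = true)) ω)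
    (by
      intro K s s' h
      have e1 : (K.filter fun x => s x = true) = K.filter fun x => s' x = true :=
        Finset.filter_congr fun x hx => by rw [h x hx]
      simp only [e1])
    q (fun K s ω => hq _ _) e he m
  refine le_trans ?_ hlab
  rw [p8_EX, ← hX]
  refine Finset.sum_le_sum_of_subset_of_nonneg ?_ fun S _ _ => hw0 S
  intro S hS
  rw [Finset.mem_filter] at hS ⊢
  refine ⟨hS.1, fun y => decide (y.2 ∈ S y.1), ?_⟩
  intro K hK0 hKS hKm
  set T : Finset (ι × Λ) := K.filter fun y => decide (y.2 ∈ S y.1) = true with hT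
  have hTm : ∀ y, y ∈ T ↔ y ∈ K ∧ y.2 ∈ S y.1 := by
    intro y
    rw [hT, Finset.mem_filter, decide_eq_true_eq]
  have h1 := hw T (fun x hx => hXH S hS.1 x.1 ((hTm x).1 hx).2)
    ((Finset.card_le_card (Finset.sdiff_subset_sdiff (Finset.filter_subset _ _)
      (Finset.Subset.refl _))).trans hKm)
  set T' : ι → Finset Λ := pat Finset.univ (fun _ => ∅) T with hT'
  have h2 : (Finset.univ.filter fun ω => win S ω = true) ⊆
      (Finset.univ.filter fun ω => win T' ω = true) ∪
        (Finset.univ.filter fun ω => ¬ Disjoint (cert T' ω) (p8_hid S \ K)) := by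
    intro ω hω
    rw [Finset.mem_filter] at hω
    rw [Finset.mem_union, Finset.mem_filter, Finset.mem_filter]
    by_cases hd : Disjoint (cert T' ω) (p8_hid S \ K)
    · left
      refine ⟨Finset.mem_univ _, ?_⟩
      rw [← hω.2]
      symm
      refine hcert T' ω S fun x hx => ?_
      rw [hT', p8_pat, hTm]
      constructor
      · intro h
        refine ⟨?_, h⟩
        by_contra hK
        exact Finset.disjoint_left.1 hd hx (Finset.mem_sdiff.2 ⟨p8_mem.2 h, hK⟩)
      · intro h
        exact h.2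
    · exact Or.inr ⟨Finset.mem_univ _, hd⟩
  have h3 : ((Finset.univ.filter fun ω => win S ω = true).card : ℝ) ≤
      ((Finset.univ.filter fun ω => win T' ω = true).card : ℝ) +
        ((Finset.univ.filter fun ω => ¬ Disjoint (cert T' ω) (p8_hid S \ K)).card : ℝ) := by
    exact_mod_cast (Finset.card_le_card h2).trans (Finset.card_union_le _ _)
  have h4 := hS.2
  linarith


end prob

end Pool.Agent.ABI
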