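import Pool.Agent.Lib_helper27.ABIF.Defs2
import Pool.Agent.Lib_helper27.ABIF.B.C1
import Pool.Agent.Lib_helper27.ABIF.B.G0
import Pool.Agent.Lib_helper27.ABIF.B.G2
import Pool.Agent.Lib_helper27.ABIF.B.P8

/-!
-/

set_option autoImplicit false

namespace Pool.Agent.ABI

open Pool.Agent.CK
open Pool.Agent.NPC (Lit St lw tw Cert Term Rst Comp res Stuck RS wt pw GoodRoot HBig te hx NC labs
  rv rq)
open Pool.Agent.ABO (Par Lvl lev CircF hits Fml Gate Circuit Game Hard Desc cst cTree gsz)
open Pool.Agent.TD.IS (PosI Stg patchI simI)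
open Pool.Agent.TD (Lam dd)

open Classical in
/-- the small literals -/
noncomputable def g5_K (J N n : ℕ) (A : Fam) : Finset ({r // r ∈ Us J N} × Str) :=
  Finset.univ.biUnion fun r => ((A.H r.1).filter fun _ => 16 * r.1.length < n).image
    fun l => (r, l)

theorem g5_mem (J N n : ℕ) (A : Fam) (x : {r // r ∈ Us J N} × Str) :
    x ∈ g5_K J N n A ↔ x.2 ∈ A.H x.1.1 ∧ 16 * x.1.1.length < n := by
  classical
  obtain ⟨r, l⟩ := x
  unfold g5_K
  simp only [Finset.mem_biUnion, Finset.mem_univ, true_and, Finset.mem_image, Finset.mem_filter]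
  constructor
  · rintro ⟨r', l', h, he⟩
    cases he
    exact h
  · intro h
    exact ⟨r, l, h, rfl⟩

theorem g5_card (J N n : ℕ) (A : Fam) : (g5_K J N n A).card ≤ kap0 n := by
  classical
  have hsub : (g5_K J N n A).image (fun x : {r // r ∈ Us J N} × Str =>
      (⟨x.1.1, x.2⟩ : (_ : Str) × Str)) ⊆
      (((Us J N).filter fun r => 16 * r.length < n).sigma fun r => A.H r) := by
    intro y hy
    obtain ⟨x, hx, rfl⟩ := Finset.mem_image.1 hy
    obtain ⟨h1, h2⟩ := (g5_mem J N n A x).1 hx
    exact Finset.mem_sigma.2 ⟨Finset.mem_filter.2 ⟨x.1.2, h2⟩, h1⟩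
  have hinj : Function.Injective (fun x : {r // r ∈ Us J N} × Str =>
      (⟨x.1.1, x.2⟩ : (_ : Str) × Str)) := by
    rintro ⟨⟨r, hr⟩, l⟩ ⟨⟨r', hr'⟩, l'⟩ h
    simp only [Sigma.mk.injEq] at h
    obtain ⟨h1, h2⟩ := h
    subst h1
    rw [heq_eq_eq] at h2
    subst h2
    rfl
  have hc := Finset.card_le_card hsub
  rw [Finset.card_image_of_injective _ hinj] at hc
  exact hc.trans (small_card n (Us J N) A.H A.hH)

open Classical in
/-- the positions of the literals in `T` -/
noncomputable def g5_P {J N : ℕ} (T : Finset ({r // r ∈ Us J N} × Str)) : Finset Str :=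
  T.image fun x => saddr x.1.1 x.2 true

theorem g5_start {J N : ℕ} (O : Lang) (hO : ∀ r ∈ Us J N, ∀ l b, l.length = r.length →
      O (saddr r l b) = false) (T : Finset ({r // r ∈ Us J N} × Str))
    (hT : ∀ x ∈ T, x.2.length = x.1.1.length) (w : Str) :
    startF O (Us J N) (stf (pat Finset.univ (fun _ => ∅) T)) w =
      (O w || decide (w ∈ g5_P T)) := by
  classical
  have hP : ∀ w, w ∈ g5_P T ↔ ∃ x ∈ T, saddr x.1.1 x.2 true = w := by
    intro w
    unfold g5_P
    rw [Finset.mem_image]
  unfold startF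
  cases hs : sdec w with
  | none =>
    have h1 : w ∉ g5_P T := by
      rw [hP]
      rintro ⟨x, hx, rfl⟩
      rw [sdec_saddr _ _ _ (hT x hx).symm] at hs
      exact absurd hs (by simp)
    simp [h1]
  | some p =>
    obtain ⟨hl, hw⟩ := sdec_eq hs
    by_cases hU : p.1 ∈ Us J N
    · have h0 : O w = false := by
        rw [hw]
        exact hO p.1 hU _ _ hl.symm
      simp only [hU, if_true]
      rw [h0, Bool.false_or]
      have h1 : stf (pat Finset.univ (fun _ => ∅) T) (p.1, p.2.1) =
          decide (∃ x ∈ T, x.1 = ⟨p.1, hU⟩ ∧ x.2 = p.2.1) := by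
        unfold stf pat
        simp [hU, and_comm]
      rw [h1]
      rw [Bool.eq_iff_iff]
      simp only [Bool.and_eq_true, decide_eq_true_eq]
      rw [hP]
      constructor
      · rintro ⟨hb, x, hx, hx1, hx2⟩
        refine ⟨x, hx, ?_⟩
        rw [hw, hb, hx1, hx2]
      · rintro ⟨x, hx, hx1⟩
        rw [← hx1, sdec_saddr _ _ _ (hT x hx).symm] at hs
        have := Option.some.inj hs
        subst this
        exact ⟨rfl, x, hx, rfl, rfl⟩
    · have h1 : w ∉ g5_P T := by
        rw [hP]
        rintro ⟨x, hx, hx1⟩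
        rw [← hx1, sdec_saddr _ _ _ (hT x hx).symm] at hs
        have := Option.some.inj hs
        subst this
        exact hU x.1.2
      simp [hU, h1]

theorem risk_start {J N n : ℕ} (hJ : 16 ≤ J) (hN : N = 2 ^ 2 ^ J) (hn : NumL n)
    (hc : N ≤ dd n) (O : Lang) (hO : ∀ r ∈ Us J N, ∀ l b, l.length = r.length →
      O (saddr r l b) = false) (A : Fam) (hR : A.R = Us J N)
    (hH : ∀ r, A.H r = labs r.length) (hF : A.F = startF O (Us J N)) (G : Game)
    (u u' m : ℕ)
    (hu : 2 ^ u' + (dd n + 1) * (64 * (dd n + 1) * (kap0 n + m + 1)) ≤ 2 ^ u)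
    (w e : ℝ) (he : 0 < e)
    (hDB : ∀ C ∈ CircF G (2 ^ u) (dd n), (hits (fun _ => [true]) C O : ℝ) < w)
    (Adv : X G.s → DT Str) (hA : Adv ∈ CircF G (2 ^ u') (dd n)) :
    Risk J N 0 A Adv (w + e * 2 ^ G.s) ≤ 2 ^ kap0 n * (2 * (dd n) ^ 2 * del n / e) ^ m := by
  classical
  have hAd : ∀ x, (Adv x).depth ≤ dd n ∧ (Adv x).AllQ fun w => w.length ≤ dd n :=
    fun x => ABO.circF_bounds hA x
  obtain ⟨cert, hcert, hcc, hcv⟩ := cert_game J N A hR.le Adv (dd n) hAd
  have hp : ∀ r : {r // r ∈ Us J N}, Law (lawA J N 0 A r) (A.H r.1) (et J r.1.length) :=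
    fun r => law_lawA hJ hN 0 A r
  have key := start_abs (ι := {r // r ∈ Us J N}) (Λ := Str) (p := lawA J N 0 A)
    (H := fun r => A.H r.1) (η := fun r => et J r.1.length) hp (Ω := X G.s)
    (winA J N A Adv) cert hcert ((dd n) ^ 2) hcc (del n)
    (by unfold del; positivity) (g5_K J N n A)
    (fun r l hl hx => by
      have h1 : ¬ 16 * r.1.length < n := fun h => hx ((g5_mem J N n A (r, l)).2 ⟨hl, h⟩)
      exact (et_bounds hJ hN hn hc r.1 r.2).2 (by omega))
    e he m w
    (fun T hT hTm => by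
      rw [winA_hits]
      have hTl : ∀ x ∈ T, x.2.length = x.1.1.length := fun x hx => A.hH _ _ (hT x hx)
      have hPc : (g5_P T).card ≤ kap0 n + m := by
        calc (g5_P T).card ≤ T.card := Finset.card_image_le
          _ ≤ (g5_K J N n A ∪ (T \ g5_K J N n A)).card := by
              refine Finset.card_le_card fun x hx => ?_
              by_cases h : x ∈ g5_K J N n A
              · exact Finset.mem_union_left _ h
              · exact Finset.mem_union_right _ (Finset.mem_sdiff.2 ⟨hx, h⟩)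
          _ ≤ (g5_K J N n A).card + (T \ g5_K J N n A).card := Finset.card_union_le _ _
          _ ≤ kap0 n + m := Nat.add_le_add (g5_card J N n A) hTm
      obtain ⟨C, hC, hAC⟩ := hA
      obtain ⟨C', hC', hw'⟩ := hardwire C (2 ^ u') (dd n) hC (g5_P T)
      have hm : C'.Within (2 ^ u) (dd n) := by
        refine ABO.within_mono hC' ((Nat.add_le_add_left ?_ _).trans hu) le_rfl
        exact Nat.mul_le_mul_left _ (Nat.mul_le_mul_left _ (by omega))
      have hh := hDB (fun ω => cTree G C' ω.1) ⟨C', hm, rfl⟩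
      have he : hits (fun _ => [true]) Adv
          (A.F (stf (pat Finset.univ (fun _ => ∅) T))) =
          hits (fun _ => [true]) (fun ω : X G.s => cTree G C' ω.1) O := by
        unfold hits
        congr 1
        ext ω
        simp only [Finset.mem_filter, Finset.mem_univ, true_and]
        rw [hAC]
        simp only [ABO.cTree_eval]
        rw [hw' G O (A.F (stf (pat Finset.univ (fun _ => ∅) T))) ω.1 (fun v _ => by
          rw [hF, g5_start O hO T hTl v])]
      rw [he]
      exact hh)
  have hcard : (Fintype.card (X G.s) : ℝ) = 2 ^ G.s := by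
    have : Fintype.card (X G.s) = 2 ^ G.s := by
      exact card_X G.s
    rw [this]; push_cast; rfl
  have hL : Risk J N 0 A Adv (w + e * 2 ^ G.s) =
      EX (lawA J N 0 A) (fun r => A.H r.1) (fun S =>
        if w + e * Fintype.card (X G.s) ≤
          ((Finset.univ.filter fun ω => winA J N A Adv S ω = true).card : ℝ) then 1 else 0) := by
    unfold Risk
    congr 1
    funext S
    rw [winA_hits J N A Adv S, hcard]
  rw [hL]
  refine key.trans ?_
  have h0 : (0 : ℝ) ≤ (2 * (dd n) ^ 2 * del n / e) ^ m := by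
    unfold del
    positivity
  have h1 : (2 : ℝ) ^ (g5_K J N n A).card ≤ 2 ^ kap0 n :=
    pow_le_pow_right₀ (by norm_num) (g5_card J N n A)
  push_cast
  exact mul_le_mul_of_nonneg_right h1 h0


end Pool.Agent.ABI
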