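import Pool.Agent.Lib_helper27.ABIF.Defs2
import Pool.Agent.Lib_helper64.TDF.CDA

/-! # Block G6a -/

set_option autoImplicit false

namespace Pool.Agent.ABI

open Pool.Agent.CK
open Pool.Agent.NPC (Lit St lw tw Cert Term Rst Comp res Stuck RS wt pw GoodRoot HBig te hx NC labs
  rv rq)
open Pool.Agent.ABO (Par Lvl lev CircF hits Fml Gate Circuit Game Hard Desc cst cTree gsz)
open Pool.Agent.TD.IS (PosI Stg patchI simI)
open Pool.Agent.TD (Lam dd)

theorem g6a_num (N : ℕ) (hN : 2 ^ 16 ≤ N) : N ≤ 2 ^ (N / 4) := by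
  have h : ∀ k : ℕ, 5 ≤ k → 4 * k + 4 ≤ 2 ^ k := by
    intro k hk
    induction k, hk using Nat.le_induction with
    | base => norm_num
    | succ k hk ih => rw [pow_succ]; omega
  have := h (N / 4) (by omega)
  omega

theorem g6a_str (m : ℕ) : ({w : Str | w.length ≤ m}).Finite ∧
    ({w : Str | w.length ≤ m}).ncard ≤ 2 ^ (m + 1) := Pool.Agent.TD.card_str m

theorem posBd_card (N : ℕ) (hN : 2 ^ 16 ≤ N) :
    (PosBd N).Finite ∧ (PosBd N).ncard ≤ 2 ^ (N + 1) := by
  set S1 : Set Str := {w | w.length ≤ N - 1} with hS1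
  set T : Set (ℕ × Str × ℕ × Bool) :=
    (Finset.range N : Set ℕ) ×ˢ ({z : Str | z.length ≤ N / 8} ×ˢ ((Finset.range N : Set ℕ) ×ˢ
      (Set.univ : Set Bool))) with hT
  set S2 : Set Str := (fun p : ℕ × Str × ℕ × Bool => taddr p.1 p.2.1 p.2.2.1 p.2.2.2) '' T with hS2
  have hTf : T.Finite := (Finset.finite_toSet _).prod
    ((g6a_str (N / 8)).1.prod ((Finset.finite_toSet _).prod Set.finite_univ))
  have hTc : T.ncard ≤ 2 ^ N := by
    rw [hT, Set.ncard_prod, Set.ncard_prod, Set.ncard_prod, Set.ncard_coe_finset, Finset.card_range,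
      Set.ncard_univ, Nat.card_eq_fintype_card, Fintype.card_bool]
    have h1 := (g6a_str (N / 8)).2
    have h2 := g6a_num N hN
    calc N * (({z : Str | z.length ≤ N / 8}).ncard * (N * 2))
        ≤ 2 ^ (N / 4) * (2 ^ (N / 8 + 1) * (2 ^ (N / 4) * 2)) := by gcongr
      _ = 2 ^ (N / 4 + (N / 8 + 1) + N / 4 + 1) := by ring
      _ ≤ 2 ^ N := Nat.pow_le_pow_right (by norm_num) (by omega)
  have hS1c : S1.ncard ≤ 2 ^ N := by
    have := (g6a_str (N - 1)).2
    rwa [Nat.sub_add_cancel (by omega)] at this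
  have hS1f : S1.Finite := (g6a_str (N - 1)).1
  have hS2f : S2.Finite := hTf.image _
  have hS2c : S2.ncard ≤ 2 ^ N := (Set.ncard_image_le hTf).trans hTc
  have hsub : PosBd N ⊆ S1 ∪ S2 := by
    rintro w (⟨r, l, h1, h2, rfl⟩ | ⟨e, z, b, c, h1, h2, h3, rfl⟩)
    · left
      show (saddr r l true).length ≤ N - 1
      have := saddr_length h1 true
      omega
    · right
      refine ⟨(e, z, b, c), ⟨?_, ?_, ?_, Set.mem_univ _⟩, rfl⟩
      · rw [Finset.mem_coe, Finset.mem_range]
        have h4 : e < 2 ^ e := Nat.lt_two_pow_self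
        have h5 : 2 ^ e ≤ (z.length + 2) ^ (2 * e) :=
          (Nat.pow_le_pow_right (by norm_num) (by omega)).trans
            (Nat.pow_le_pow_left (by omega) (2 * e))
        show e < N
        omega
      · show z.length ≤ N / 8
        have h4 : (z.length + 2) ^ 4 ≤ (z.length + 2) ^ (2 * e) :=
          Nat.pow_le_pow_right (by omega) (by omega)
        have h5 : 8 * (z.length + 2) ≤ (z.length + 2) ^ 4 := by
          have h6 : 2 ^ 3 ≤ (z.length + 2) ^ 3 := Nat.pow_le_pow_left (by omega) 3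
          calc 8 * (z.length + 2) ≤ (z.length + 2) ^ 3 * (z.length + 2) := by
                gcongr; omega
            _ = (z.length + 2) ^ 4 := by ring
        omega
      · rw [Finset.mem_coe, Finset.mem_range]
        exact h3
  refine ⟨(hS1f.union hS2f).subset hsub, ?_⟩
  have h1 := Set.ncard_le_ncard hsub (hS1f.union hS2f)
  have h2 := Set.ncard_union_le S1 S2
  have h3 : (2 : ℕ) ^ (N + 1) = 2 ^ N + 2 ^ N := by ring
  omega


end Pool.Agent.ABI
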