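import Pool.Agent.Lib_helper27.ABIF.Defs2
import Pool.Agent.Lib_helper27.ABIF.B.C1
import Pool.Agent.Lib_helper27.ABIF.B.C2a
import Pool.Agent.Lib_helper27.ABIF.B.C2b
import Pool.Agent.Lib_helper27.ABIF.B.G6a

set_option autoImplicit false

namespace Pool.Agent.ABI

open Pool.Agent.CK
open Pool.Agent.NPC (Lit St lw tw Cert Term Rst Comp res Stuck RS wt pw GoodRoot HBig te hx NC labs
  rv rq)
open Pool.Agent.ABO (Par Lvl lev CircF hits Fml Gate Circuit Game Hard Desc cst cTree gsz)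
open Pool.Agent.TD.IS (PosI Stg patchI simI)
open Pool.Agent.TD (Lam dd)

theorem num_few {n : ℕ} (hn : NumL n) (k : ℕ) :
    2 ^ uu k n + (dd n + 1) * (64 * (dd n + 1) * (kap0 n + 1)) + (dd n + 1) * (64 * (dd n + 1)) ≤
      2 ^ (n - 2) := by
  have h1 := hn.huu
  have h2 : uu k n ≤ uu 0 n := by
    unfold uu
    have : 64 * Lb n * (Kn n - k) ≤ 64 * Lb n * (Kn n - 0) :=
      Nat.mul_le_mul_left _ (Nat.sub_le_sub_left (Nat.zero_le _) _)
    omega
  have h3 : n / 4 + 20 * Lb n ≤ uu 0 n := by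
    unfold uu; omega
  have h4 : Lam n + 64 ≤ Lb n := by
    unfold Lb; omega
  have hd : dd n + 1 ≤ 2 ^ (Lam n + 1) := by
    have : 1 ≤ 2 ^ Lam n := Nat.one_le_two_pow
    unfold dd
    rw [pow_succ]; omega
  have hk : kap0 n + 1 ≤ 2 ^ (n / 8 + 2) := by
    have : 1 ≤ 2 ^ (n / 8 + 1) := Nat.one_le_two_pow
    unfold kap0
    rw [pow_succ 2 (n / 8 + 1)]; omega
  have e1 : (dd n + 1) * (64 * (dd n + 1) * (kap0 n + 1)) ≤ 2 ^ (n - 8) := by
    calc (dd n + 1) * (64 * (dd n + 1) * (kap0 n + 1))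
        ≤ 2 ^ (Lam n + 1) * (2 ^ 6 * 2 ^ (Lam n + 1) * 2 ^ (n / 8 + 2)) :=
          Nat.mul_le_mul hd (Nat.mul_le_mul (Nat.mul_le_mul (by norm_num) hd) hk)
      _ = 2 ^ (Lam n + 1 + (6 + (Lam n + 1) + (n / 8 + 2))) := by rw [← pow_add, ← pow_add, ← pow_add]
      _ ≤ 2 ^ (n - 8) := Nat.pow_le_pow_right (by norm_num) (by omega)
  have e2 : (dd n + 1) * (64 * (dd n + 1)) ≤ 2 ^ (n - 8) := by
    calc (dd n + 1) * (64 * (dd n + 1))
        ≤ 2 ^ (Lam n + 1) * (2 ^ 6 * 2 ^ (Lam n + 1)) :=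
          Nat.mul_le_mul hd (Nat.mul_le_mul (by norm_num) hd)
      _ = 2 ^ (Lam n + 1 + (6 + (Lam n + 1))) := by rw [← pow_add, ← pow_add]
      _ ≤ 2 ^ (n - 8) := Nat.pow_le_pow_right (by norm_num) (by omega)
  have e3 : 2 ^ uu k n ≤ 2 ^ (n - 8) := Nat.pow_le_pow_right (by norm_num) (by omega)
  have e4 : 2 ^ (n - 2) = 2 ^ (n - 8) * 64 := by
    rw [show n - 2 = n - 8 + 6 by omega, pow_add]; norm_num
  omega

/-- positions that may be changed are not codes of positions of `R` -/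
theorem g6b_code {R : Lang} {N : ℕ} {w : Str} (hw : w ∈ PosBd N) : codeR R w = false := by
  obtain ⟨h1, h2, -⟩ := codeR_pos R
  rcases hw with ⟨r, l, hrl, -, rfl⟩ | ⟨e, z, b, c, -, -, -, rfl⟩
  · exact h1 _ ⟨_, sdec_saddr r l true hrl⟩
  · exact h2 _ ⟨_, tdec_taddr e z b c⟩

theorem few_ones (P : Par) (hP : P.OK) (g : ℕ) (hn : NumL (lv P g)) (N : ℕ) (hN : 2 ^ 16 ≤ N)
    (h8 : 8 * N ≤ lv P g) (O : Lang) (hO : ∀ w, O w ≠ codeR P.R w → w ∈ PosBd N) (k : ℕ)
    (x : ℝ) (hx : 0 < x) (Adv : X (P.G g).s → DT Str)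
    (hA : Adv ∈ CircF (P.G g) (2 ^ uu k (lv P g)) (dd (lv P g))) :
    (hits (fun _ => [true]) Adv O : ℝ) < thr P g x := by
  classical
  obtain ⟨C, hC, rfl⟩ := hA
  obtain ⟨hfin, hcard⟩ := posBd_card N hN
  set Pt : Finset Str := hfin.toFinset.filter fun w => O w = true with hPt
  have hPcard : Pt.card ≤ kap0 (lv P g) := by
    calc Pt.card ≤ hfin.toFinset.card := Finset.card_filter_le _ _
      _ = (PosBd N).ncard := (Set.ncard_eq_toFinset_card _ hfin).symm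
      _ ≤ 2 ^ (N + 1) := hcard
      _ ≤ kap0 (lv P g) := by
          unfold kap0
          exact Nat.pow_le_pow_right (by norm_num) (by omega)
  obtain ⟨C', hC', hC1⟩ := hardwire C _ _ hC Pt
  obtain ⟨C'', hC2, hC3⟩ := rm_code P.R C' _ _ hC'
  have hval : ∀ w : Str, O w = (codeR P.R w || decide (w ∈ Pt)) := by
    intro w
    by_cases hw : w ∈ PosBd N
    · rw [g6b_code hw, Bool.false_or]
      cases h : O w <;> simp [hPt, hw, h]
    · have h1 : w ∉ Pt := fun h => hw (by simpa using (Finset.mem_filter.mp h).1)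
      have h2 : O w = codeR P.R w := by
        by_contra h
        exact hw (hO w h)
      simp [h1, h2]
  have hwin : ∀ ω : Str, (P.G g).wins P.R C'' ω = (P.G g).wins O C ω := fun ω => by
    rw [hC3, hC1 (P.G g) (codeR P.R) O ω fun w _ => hval w]
  have hcount : (P.G g).count P.R C'' = (P.G g).count O C := by
    unfold Pool.Agent.ABO.Game.count
    simp only [hwin]
  have hsize : C''.size ≤ 2 ^ (Pool.Agent.ABO.nn (P.t g) - 2) := by
    refine hC2.trans ?_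
    have h1 := num_few hn k
    have h2 : (dd (lv P g) + 1) * (64 * (dd (lv P g) + 1) * (Pt.card + 1)) ≤
        (dd (lv P g) + 1) * (64 * (dd (lv P g) + 1) * (kap0 (lv P g) + 1)) :=
      Nat.mul_le_mul_left _ (Nat.mul_le_mul_left _ (Nat.add_le_add_right hPcard 1))
    change _ ≤ 2 ^ (lv P g - 2)
    omega
  have h := hP.hard g C'' hsize
  rw [hcount, Pool.Agent.ABO.count_eq] at h
  refine lt_of_le_of_lt h ?_
  unfold thr
  have : (0 : ℝ) < 2 ^ (P.G g).s := by positivity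
  nlinarith


end Pool.Agent.ABI
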