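import Pool.Agent.Lib_helper27.ABIF.Defs2

/-!
-/

set_option autoImplicit false

namespace Pool.Agent.ABI

open Pool.Agent.CK
open Pool.Agent.NPC (Lit St lw tw Cert Term Rst Comp res Stuck RS wt pw GoodRoot HBig te hx NC labs
  rv rq)
open Pool.Agent.ABO (Par Lvl lev CircF hits Fml Gate Circuit Game Hard Desc cst cTree gsz)
open Pool.Agent.TD.IS (PosI Stg patchI simI)
open Pool.Agent.TD (Lam dd)

theorem n1_pow (L : ℕ) (h : 200 ≤ L) : 1000000 * L ^ 4 ≤ 2 ^ L := by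
  induction L, h using Nat.le_induction with
  | base => norm_num
  | succ L hL ih =>
    have h1 : (L + 1) ^ 4 ≤ 2 * L ^ 4 := by
      have h3 : 15 * L ^ 3 ≤ L * L ^ 3 := Nat.mul_le_mul_right _ (by omega)
      have h4 : L ^ 2 ≤ L ^ 3 := Nat.pow_le_pow_right (by omega) (by norm_num)
      have h5 : L ≤ L ^ 3 := Nat.le_self_pow (by norm_num) L
      have h6 : 1 ≤ L ^ 3 := Nat.one_le_pow _ _ (by omega)
      nlinarith
    calc 1000000 * (L + 1) ^ 4 ≤ 1000000 * (2 * L ^ 4) := Nat.mul_le_mul_left _ h1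
      _ = 2 * (1000000 * L ^ 4) := by ring
      _ ≤ 2 * 2 ^ L := Nat.mul_le_mul_left _ ih
      _ = 2 ^ (L + 1) := by ring

theorem exists_numL : ∃ n0 : ℕ, ∀ n, n0 ≤ n → NumL n := by
  refine ⟨2 ^ 400, fun n hn => ?_⟩
  obtain ⟨L, hL⟩ : ∃ L, L = Nat.log 2 n := ⟨_, rfl⟩
  have hn0 : n ≠ 0 := (lt_of_lt_of_le (Nat.pow_pos Nat.two_pos) hn).ne'
  have hL400 : 400 ≤ L := by
    rw [hL]
    exact Nat.le_log_of_pow_le Nat.one_lt_two hn
  have h1 : 2 ^ L ≤ n := by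
    rw [hL]; exact Nat.pow_log_le_self 2 hn0
  have h2 : n < 2 ^ (L + 1) := by
    rw [hL]; exact Nat.lt_pow_succ_log_self (by norm_num) n
  have hp := n1_pow L (by omega)
  obtain ⟨q, hq⟩ : ∃ q, q = 2 ^ (L + 1) / L ^ 3 := ⟨_, rfl⟩
  have hLam : Lam n = q + 1 := by rw [Lam, ← hL, hq]
  have hL3 : 0 < L ^ 3 := by positivity
  have hq1 : q * L ^ 3 ≤ 2 ^ (L + 1) := by
    rw [hq]; exact Nat.div_mul_le_self _ _
  have h2L : 2 ^ (L + 1) = 2 * 2 ^ L := by ring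
  have hq2 : q * L ^ 3 ≤ 2 * n := by omega
  have hL2 : 160000 ≤ L ^ 2 := by nlinarith
  -- `L q ≤ n / 80000`
  have hq3 : 80000 * (L * q) ≤ n := by
    have h3 : 160000 * (L * q) ≤ L ^ 2 * (L * q) := Nat.mul_le_mul_right _ hL2
    have h4 : L ^ 2 * (L * q) = q * L ^ 3 := by ring
    omega
  have hL4 : 160000 * L ^ 2 ≤ L ^ 4 := by
    have h3 : 160000 * L ^ 2 ≤ L ^ 2 * L ^ 2 := Nat.mul_le_mul_right _ hL2
    have h4 : L ^ 2 * L ^ 2 = L ^ 4 := by ring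
    omega
  have hLn : 1000000 * L ^ 4 ≤ n := by omega
  have hLL : 400 * L ≤ L ^ 2 := by nlinarith
  have hqL : q ≤ L * q := Nat.le_mul_of_pos_left _ (by omega)
  -- lower bound for `q`
  have hq4 : 2 * L + 9 ≤ q := by
    rw [hq, Nat.le_div_iff_mul_le hL3]
    have h3 : (2 * L + 9) * L ^ 3 = 2 * L ^ 4 + 9 * L ^ 3 := by ring
    have h4 : 9 * L ^ 3 ≤ L * L ^ 3 := Nat.mul_le_mul_right _ (by omega)
    have h5 : L * L ^ 3 = L ^ 4 := by ring
    omega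
  -- the logarithm of `Lam n`
  have hlog : Nat.log 2 (Lam n) ≤ L := by
    rw [hLam]
    have h4 : q + 1 ≤ n := by omega
    rw [hL]
    exact Nat.log_mono_right h4
  have hK : Kn n ≤ 2 * L + 2 := by
    rw [Kn]
    omega
  have hB : Lb n ≤ q + 64 * L + 129 := by
    rw [Lb, hLam]
    omega
  have hLB : L * Lb n ≤ L * q + 64 * L ^ 2 + 129 * L := by
    calc L * Lb n ≤ L * (q + 64 * L + 129) := Nat.mul_le_mul_left _ hB
      _ = L * q + 64 * L ^ 2 + 129 * L := by ring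
  have hln : L ≤ n := by omega
  refine ⟨?_, ?_, ?_, ?_, ?_, ?_⟩
  · omega
  · rw [hLam]
    omega
  · have h3 : n + 8 ≤ 2 ^ (L + 2) := by
      have e : 2 ^ (L + 2) = 2 * 2 ^ (L + 1) := by ring
      have e2 : 2 ^ (L + 1) = 2 * 2 ^ L := by ring
      omega
    have h4 : (n + 8) ^ 2 ≤ (2 ^ (L + 2)) ^ 2 := Nat.pow_le_pow_left h3 2
    calc 64 * (n + 8) ^ 2 ≤ 64 * (2 ^ (L + 2)) ^ 2 := Nat.mul_le_mul_left _ h4
      _ = 2 ^ (2 * L + 10) := by
        rw [← pow_mul, show (64 : ℕ) = 2 ^ 6 by norm_num, ← pow_add]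
        congr 1
        ring
      _ ≤ 2 ^ Lam n := by
        rw [hLam]
        exact Nat.pow_le_pow_right (by norm_num) (by omega)
  · have h3 : Lb n * (Kn n - 0) ≤ 2 * (L * Lb n) + 2 * Lb n := by
      rw [Nat.sub_zero]
      calc Lb n * Kn n ≤ Lb n * (2 * L + 2) := Nat.mul_le_mul_left _ hK
        _ = 2 * (L * Lb n) + 2 * Lb n := by ring
    have h4 : uu 0 n = n / 4 + 20 * Lb n + 64 * (Lb n * (Kn n - 0)) := by
      rw [uu, mul_assoc]
    rw [h4]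
    omega
  · exact hlog.trans hln
  · intro J hJ hJ2 b hb
    have hJL : J ≤ L := by
      refine le_trans ?_ hlog
      exact Nat.le_log_of_pow_le (by norm_num) hJ2
    rw [te, hh]
    have h3 : (8 * Lb n + 2) * (4 * J) ≤ b := by
      have h4 : (8 * Lb n + 2) * (4 * J) ≤ (8 * Lb n + 2) * (4 * L) :=
        Nat.mul_le_mul_left _ (by omega)
      have h5 : (8 * Lb n + 2) * (4 * L) = 32 * (L * Lb n) + 8 * L := by ring
      omega
    have h6 : 8 * Lb n + 2 ≤ b / (4 * J) := (Nat.le_div_iff_mul_le (by omega)).2 h3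
    omega


end Pool.Agent.ABI
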