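import Pool.Agent.Lib_helper27.ABIF.Defs2

/-!
-/

set_option autoImplicit false

namespace Pool.Agent.ABI

open Pool.Agent.CK
open Pool.Agent.NPC (Lit St lw tw Cert Term Rst Comp res Stuck RS wt pw GoodRoot HBig te hx NC labs
  rv rq)
open Pool.Agent.ABO (Par Lvl lev CircF hits Fml Gate Circuit Game Hard Desc cst cTree gsz)
open Pool.Agent.TD.IS (PosI Stg patchI simI)
open Pool.Agent.TD (Lam dd)

theorem n4_lj (N j : ℕ) : Lj N (j + 1) = Lj N j ^ 2 := by
  unfold Lj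
  rw [← pow_mul, pow_succ 2 j]

theorem n4_adq {e : ℕ} (h : Adq e) :
    8 * (2 * iN e + 3) * ((iM e + 2) * (iC e + 2)) ≤ e ∧ 24 * ((iM e + 2) * (iC e + 2)) ≤ e ∧
      iN e + 2 ≤ e ∧ 2 ≤ e := by
  have h1 := h.1
  have h2 : (2 * iN e + 3) * ((iM e + 2) * (iC e + 2)) ≤
      (2 * iN e + 3) * (iC e + 3) * (iM e + 3) := by
    calc (2 * iN e + 3) * ((iM e + 2) * (iC e + 2))
        = (2 * iN e + 3) * (iC e + 2) * (iM e + 2) := by ring
      _ ≤ _ := by gcongr <;> omega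
  have h3 : 3 * ((iM e + 2) * (iC e + 2)) ≤ (2 * iN e + 3) * ((iM e + 2) * (iC e + 2)) :=
    Nat.mul_le_mul_right _ (by omega)
  have h4 : (2 * iN e + 3) * 4 ≤ (2 * iN e + 3) * ((iM e + 2) * (iC e + 2)) := by
    apply Nat.mul_le_mul_left
    calc 4 = 2 * 2 := by norm_num
      _ ≤ _ := by gcongr <;> omega
  have h5 : 8 * (2 * iN e + 3) * ((iM e + 2) * (iC e + 2)) =
      8 * ((2 * iN e + 3) * ((iM e + 2) * (iC e + 2))) := by ring
  refine ⟨?_, ?_, ?_, ?_⟩ <;> omega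

/-- the `e`-th power is below the bound -/
theorem n4_base {J N j e : ℕ} {z : Str} (h : InBatch J N j e z) :
    (z.length + 2) ^ e < Lj N j := by
  obtain ⟨hA, -, -, h2e, -, hlast⟩ := h
  have he := (n4_adq hA).2.2.2
  have hu : 1 ≤ z.length + 2 := by omega
  have h3 : ((z.length + 2) ^ e) ^ 2 < Lj N j ^ 2 := by
    rw [← pow_mul]
    rcases hlast with h4 | h4
    · rw [n4_lj] at h4
      refine lt_of_le_of_lt ?_ h4
      unfold alen
      exact Nat.pow_le_pow_right hu (by nlinarith)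
    · rw [← h4, n4_lj] at h2e
      rw [mul_comm e 2]
      exact h2e
  exact lt_of_pow_lt_pow_left₀ 2 (Nat.zero_le _) h3

theorem n4_N {J N j e : ℕ} {z : Str} (hJ : 16 ≤ J) (hN : N = 2 ^ 2 ^ J)
    (h : InBatch J N j e z) : N ^ (2 * ((iM e + 2) * (iC e + 2))) ≤ Lj N j := by
  obtain ⟨hA, hP, hN2, h2e, -, hlast⟩ := h
  have h24 := (n4_adq hA).2.1
  have hN2' : 2 ≤ N := by
    rw [hN]
    calc 2 = 2 ^ 1 := by norm_num
      _ ≤ 2 ^ 2 ^ J := Nat.pow_le_pow_right (by norm_num) Nat.one_le_two_pow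
  have hu : 1 ≤ z.length + 2 := by omega
  unfold Lj
  apply Nat.pow_le_pow_right (by omega)
  rcases hlast with h4 | h4
  · -- `e < 2 ^ (j + 2)`
    have h5 : N ^ e < N ^ (2 ^ (j + 2)) := by
      calc N ^ e ≤ ((z.length + 2) ^ (2 * e)) ^ e := Nat.pow_le_pow_left hN2 e
        _ = alen e z ^ 2 := by
          unfold alen
          rw [← pow_mul, ← pow_mul]
          congr 1
          ring
        _ < (Lj N (j + 1)) ^ 2 := Nat.pow_lt_pow_left h4 (by norm_num)
        _ = N ^ (2 ^ (j + 2)) := by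
          unfold Lj
          rw [← pow_mul]
          congr 1
    have h6 : e < 2 ^ (j + 2) := (Nat.pow_lt_pow_iff_right (by omega)).mp h5
    have h7 : 2 ^ (j + 2) = 4 * 2 ^ j := by ring
    omega
  · have hP' : 4 * ((iC e + 2) * (iM e + 2)) ≤ J := hP
    have h5 : (iC e + 2) * (iM e + 2) = (iM e + 2) * (iC e + 2) := by ring
    have h6 : j < 2 ^ j := Nat.lt_two_pow_self
    omega

/-- N4: as in the paper, section 1 (CHECK) -/
theorem item_range {J N j e : ℕ} {z : Str} (hJ : 16 ≤ J) (hN : N = 2 ^ 2 ^ J) (hj : j < J)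
    (h : InBatch J N j e z) :
    (sz N e z + 2) ^ ((iM e + 2) * (iC e + 2)) ≤ Lj N j ∧
    (z.length + 2) ^ (iN e + 2) ≤ Lj N j ∧ (z.length + 2) ^ (iN e + 2) ≤ sz N e z ∧
    NPC.sl e z ≤ sz N e z ∧ N ≤ sz N e z ∧ 2 * sz N e z + 2 < Lj N j ∧ Lj N j ≤ alen e z ∧
    2 ≤ e := by
  have hA := h.1
  obtain ⟨h8, h24, hiN, he⟩ := n4_adq hA
  have hb := n4_base h
  have hNN := n4_N hJ hN h
  have hu : 1 ≤ z.length + 2 := by omega
  have hN2' : 2 ≤ N := by
    rw [hN]
    calc 2 = 2 ^ 1 := by norm_num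
      _ ≤ 2 ^ 2 ^ J := Nat.pow_le_pow_right (by norm_num) Nat.one_le_two_pow
  have hP4 : 2 ≤ (iM e + 2) * (iC e + 2) := by nlinarith
  have ha : (sz N e z + 2) ^ ((iM e + 2) * (iC e + 2)) ≤ Lj N j := by
    unfold sz
    rcases le_total N (NPC.sl e z) with h1 | h1
    · rw [max_eq_right h1]
      have h0 : NPC.sl e z + 2 ≤ (z.length + 2) ^ (2 * iN e + 3) := by
        unfold NPC.sl
        have h4 : 2 ≤ (z.length + 2) ^ (2 * iN e + 2) := by
          calc 2 ≤ z.length + 2 := by omega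
            _ = (z.length + 2) ^ 1 := by ring
            _ ≤ (z.length + 2) ^ (2 * iN e + 2) := Nat.pow_le_pow_right (by omega) (by omega)
        calc (z.length + 2) ^ (2 * iN e + 2) + 2
            ≤ (z.length + 2) ^ (2 * iN e + 2) * 2 := by omega
          _ ≤ (z.length + 2) ^ (2 * iN e + 2) * (z.length + 2) :=
            Nat.mul_le_mul_left _ (by omega)
          _ = (z.length + 2) ^ (2 * iN e + 3) := by ring
      calc (NPC.sl e z + 2) ^ ((iM e + 2) * (iC e + 2))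
          ≤ ((z.length + 2) ^ (2 * iN e + 3)) ^ ((iM e + 2) * (iC e + 2)) :=
            Nat.pow_le_pow_left h0 _
        _ = (z.length + 2) ^ ((2 * iN e + 3) * ((iM e + 2) * (iC e + 2))) := by rw [← pow_mul]
        _ ≤ (z.length + 2) ^ e := by
            apply Nat.pow_le_pow_right hu
            have : 8 * (2 * iN e + 3) * ((iM e + 2) * (iC e + 2)) =
              8 * ((2 * iN e + 3) * ((iM e + 2) * (iC e + 2))) := by ring
            omega
        _ ≤ Lj N j := hb.le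
    · rw [max_eq_left h1]
      calc (N + 2) ^ ((iM e + 2) * (iC e + 2)) ≤ (N ^ 2) ^ ((iM e + 2) * (iC e + 2)) := by
            apply Nat.pow_le_pow_left
            nlinarith
        _ = N ^ (2 * ((iM e + 2) * (iC e + 2))) := by rw [← pow_mul]
        _ ≤ Lj N j := hNN
  have hsl : (z.length + 2) ^ (iN e + 2) ≤ NPC.sl e z := by
    unfold NPC.sl
    exact Nat.pow_le_pow_right hu (by omega)
  have hsz : NPC.sl e z ≤ sz N e z := le_max_right _ _
  refine ⟨ha, ?_, hsl.trans hsz, hsz, le_max_left _ _, ?_, h.2.2.2.2.1, he⟩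
  · exact (Nat.pow_le_pow_right hu hiN).trans hb.le
  · calc 2 * sz N e z + 2 < (sz N e z + 2) ^ 2 := by nlinarith
      _ ≤ (sz N e z + 2) ^ ((iM e + 2) * (iC e + 2)) := Nat.pow_le_pow_right (by omega) hP4
      _ ≤ Lj N j := ha

/-- N4 -/
theorem done_succ {J N j e : ℕ} {z : Str} (hj : j < J) (h : Done J N (j + 1) e z) :
    Done J N j e z ∨ InBatch J N j e z := by
  obtain ⟨h1, h2, h3, h4, h5⟩ := h
  rcases Nat.lt_or_ge (alen e z) (Lj N j) with h6 | h6
  · exact Or.inl ⟨h1, h2, h3, h4, Or.inl h6⟩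
  · refine Or.inr ⟨h1, h2, h3, h4, h6, ?_⟩
    rcases h5 with h7 | h7
    · exact Or.inl h7
    · exact Or.inr (by omega)

/-- N4 -/
theorem done_zero {J N e : ℕ} {z : Str} (hJ : 16 ≤ J) (hN : N = 2 ^ 2 ^ J) :
    ¬ Done J N 0 e z := by
  rintro ⟨h1, -, h3, -, h5⟩
  have he := n4_adq h1
  rcases h5 with h6 | h6
  · have h7 : Lj N 0 = N := by
      unfold Lj
      simp
    rw [h7] at h6
    have h8 : (z.length + 2) ^ (e ^ 2) < (z.length + 2) ^ (2 * e) := lt_of_lt_of_le h6 h3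
    have h9 : e ^ 2 < 2 * e := (Nat.pow_lt_pow_iff_right (by omega)).mp h8
    nlinarith [he.2.2.2]
  · omega


end Pool.Agent.ABI
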