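import Pool.Agent.Lib_helper27.ABIF.Defs2
import Pool.Agent.Lib_helper27.ABIF.B.N2
import Pool.Agent.Lib_helper27.ABIF.B.N4

set_option autoImplicit false

namespace Pool.Agent.ABI

open Pool.Agent.CK
open Pool.Agent.NPC (Lit St lw tw Cert Term Rst Comp res Stuck RS wt pw GoodRoot HBig te hx NC labs
  rv rq)
open Pool.Agent.ABO (Par Lvl lev CircF hits Fml Gate Circuit Game Hard Desc cst cTree gsz)
open Pool.Agent.TD.IS (PosI Stg patchI simI)
open Pool.Agent.TD (Lam dd)

/-- the strings of length at most `m` -/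
def n5_S : ℕ → Finset Str
  | 0 => {[]}
  | m + 1 => insert [] ((n5_S m).image (List.cons true) ∪ (n5_S m).image (List.cons false))

theorem n5_mem (m : ℕ) (z : Str) : z ∈ n5_S m ↔ z.length ≤ m := by
  induction m generalizing z with
  | zero => simp [n5_S]
  | succ m ih =>
    rw [n5_S, Finset.mem_insert, Finset.mem_union, Finset.mem_image, Finset.mem_image]
    constructor
    · rintro (rfl | ⟨a, ha, rfl⟩ | ⟨a, ha, rfl⟩)
      · simp
      · rw [ih] at ha; simp [ha]
      · rw [ih] at ha; simp [ha]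
    · intro hz
      match z, hz with
      | [], _ => exact Or.inl rfl
      | true :: u, hz =>
        exact Or.inr (Or.inl ⟨u, (ih u).mpr (by simpa using hz), rfl⟩)
      | false :: u, hz =>
        exact Or.inr (Or.inr ⟨u, (ih u).mpr (by simpa using hz), rfl⟩)

theorem n5_card (m : ℕ) : (n5_S m).card + 1 ≤ 2 ^ (m + 1) := by
  induction m with
  | zero => simp [n5_S]
  | succ m ih =>
    rw [n5_S]
    have h1 := Finset.card_insert_le ([] : Str)
      ((n5_S m).image (List.cons true) ∪ (n5_S m).image (List.cons false))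
    have h2 := Finset.card_union_le ((n5_S m).image (List.cons true))
      ((n5_S m).image (List.cons false))
    have h3 := Finset.card_image_le (s := n5_S m) (f := List.cons true)
    have h4 := Finset.card_image_le (s := n5_S m) (f := List.cons false)
    rw [pow_succ 2 (m + 1)]
    omega

/-- the pairs with index below `E` and length at most `m` -/
def n5_P (E m : ℕ) : Finset (ℕ × Str) := Finset.range E ×ˢ n5_S m

theorem n5_P_mem {E m : ℕ} {it : ℕ × Str} : it ∈ n5_P E m ↔ it.1 < E ∧ it.2.length ≤ m := by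
  rw [n5_P, Finset.mem_product, Finset.mem_range, n5_mem]

theorem n5_P_card (E m : ℕ) : (n5_P E m).card ≤ E * 2 ^ (m + 1) := by
  rw [n5_P, Finset.card_product, Finset.card_range]
  exact Nat.mul_le_mul_left _ (by have := n5_card m; omega)

theorem n5_e {J N j e : ℕ} {z : Str} (hN : N = 2 ^ 2 ^ J) (h : InBatch J N j e z) :
    e < 4 ^ J := by
  obtain ⟨-, -, -, h4, -, -⟩ := h
  rw [hN, lj_last] at h4
  have h5 : 2 ^ (2 * e) ≤ (z.length + 2) ^ (2 * e) := Nat.pow_le_pow_left (by omega) _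
  have h6 : 2 ^ (2 * e) < 2 ^ 2 ^ (2 * J) := lt_of_le_of_lt h5 h4
  have h7 : 2 * e < 2 ^ (2 * J) := (Nat.pow_lt_pow_iff_right (by norm_num)).mp h6
  rw [pow_mul] at h7
  norm_num at h7
  omega

theorem n5_z {J N j e : ℕ} {z : Str} (hJ : 16 ≤ J) (hN : N = 2 ^ 2 ^ J) (hj : j < J)
    (h : InBatch J N j e z) : (z.length + 2) ^ 2 ≤ sz N e z := by
  obtain ⟨-, -, h3, -⟩ := item_range hJ hN hj h
  exact (Nat.pow_le_pow_right (by omega) (by omega)).trans h3

/-- N5 -/
theorem batch_finite {J N j : ℕ} (hJ : 16 ≤ J) (hN : N = 2 ^ 2 ^ J) (hj : j < J) :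
    {it : ℕ × Str | InBatch J N j it.1 it.2}.Finite ∧
    {it : ℕ × Str | InBatch J N j it.1 it.2}.ncard ≤ 2 ^ Lj N j := by
  set m := Nat.sqrt (Lj N j) with hm
  have hsub : {it : ℕ × Str | InBatch J N j it.1 it.2} ⊆ (n5_P (4 ^ J) m : Set (ℕ × Str)) := by
    intro it h
    have h1 := n5_e hN h
    have h2 := n5_z hJ hN hj h
    obtain ⟨-, -, -, -, -, h6, -, -⟩ := item_range hJ hN hj h
    rw [Finset.mem_coe, n5_P_mem]
    refine ⟨h1, ?_⟩
    rw [hm, Nat.le_sqrt']
    have h3 : it.2.length ^ 2 ≤ (it.2.length + 2) ^ 2 := Nat.pow_le_pow_left (by omega) _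
    omega
  refine ⟨(Finset.finite_toSet _).subset hsub, ?_⟩
  refine (Set.ncard_le_ncard hsub (Finset.finite_toSet _)).trans ?_
  rw [Set.ncard_coe_finset]
  refine (n5_P_card _ _).trans ?_
  obtain ⟨hs1, hs2, hs3⟩ := ep_small hJ hN
  have hNL : N ≤ Lj N j := by
    unfold Lj
    exact Nat.le_self_pow (by positivity) N
  -- sqrt
  have hmL : m * m ≤ Lj N j := Nat.sqrt_le _
  have h256 : 256 ≤ m := by
    rw [hm, Nat.le_sqrt]
    omega
  have h4J : 4 ^ J ≤ 2 ^ (2 * J) := by rw [pow_mul]; norm_num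
  calc 4 ^ J * 2 ^ (m + 1) ≤ 2 ^ (2 * J) * 2 ^ (m + 1) := Nat.mul_le_mul_right _ h4J
    _ = 2 ^ (2 * J + (m + 1)) := (pow_add 2 (2 * J) (m + 1)).symm
    _ ≤ 2 ^ Lj N j := by
        apply Nat.pow_le_pow_right (by norm_num)
        nlinarith

/-- N5: few entries of one size: `it.1 < 4 ^ J`, `|it.2| + 2 ≤ √b` -/
theorem items_count {J N j : ℕ} (hJ : 16 ≤ J) (hN : N = 2 ^ 2 ^ J) (hj : j < J)
    (items : Finset (ℕ × Str)) (hi : ∀ it ∈ items, InBatch J N j it.1 it.2) {b : ℕ}
    (hb : N ≤ 2 * b + 2) :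
    32 * Lj N j ^ 28 * (items.filter fun it => sz N it.1 it.2 = b).card ^ 2 * 2 ^ (b / 4) ≤
      2 ^ b := by
  obtain ⟨hs1, hs2, hs3⟩ := ep_small hJ hN
  set m := Nat.sqrt b with hm
  have hc : (items.filter fun it => sz N it.1 it.2 = b).card ≤ 4 ^ J * 2 ^ (m + 1) := by
    refine le_trans (Finset.card_le_card ?_) (n5_P_card (4 ^ J) m)
    intro it hit
    rw [Finset.mem_filter] at hit
    have h := hi it hit.1
    have h1 := n5_e hN h
    have h2 := n5_z hJ hN hj h
    rw [hit.2] at h2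
    rw [n5_P_mem]
    refine ⟨h1, ?_⟩
    rw [hm, Nat.le_sqrt']
    have h3 : it.2.length ^ 2 ≤ (it.2.length + 2) ^ 2 := Nat.pow_le_pow_left (by omega) _
    omega
  -- the size of `L`
  have hL : Lj N j ≤ 2 ^ 4 ^ J := by
    have h1 : Lj N j ≤ Lj N J := lj_mono (by omega) hj.le
    have h2 : Lj N J = 2 ^ 2 ^ (2 * J) := by rw [hN, lj_last]
    rw [h2, pow_mul] at h1
    norm_num at h1
    exact h1
  -- `4 ^ J` is small against `N`
  have h8 : 1000 * 4 ^ J ≤ N := by
    rw [hN]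
    have h9 : 2 * J + 10 ≤ 2 ^ J := by
      have : ∀ k, 16 ≤ k → 2 * k + 10 ≤ 2 ^ k := by
        intro k hk
        induction k, hk using Nat.le_induction with
        | base => norm_num
        | succ k hk ih => rw [pow_succ]; omega
      exact this J hJ
    calc 1000 * 4 ^ J ≤ 2 ^ 10 * 2 ^ (2 * J) := by
          rw [pow_mul]; norm_num
      _ = 2 ^ (2 * J + 10) := by rw [← pow_add]; ring_nf
      _ ≤ 2 ^ 2 ^ J := Nat.pow_le_pow_right (by norm_num) h9
  have hmb : m * m ≤ b := Nat.sqrt_le _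
  have h128 : 128 ≤ m := by
    rw [hm, Nat.le_sqrt]
    omega
  have hJ4 : J ≤ 4 ^ J := (Nat.lt_pow_self (by norm_num : 1 < 4)).le
  calc 32 * Lj N j ^ 28 * (items.filter fun it => sz N it.1 it.2 = b).card ^ 2 * 2 ^ (b / 4)
      ≤ 2 ^ 5 * (2 ^ 4 ^ J) ^ 28 * (2 ^ (2 * J) * 2 ^ (m + 1)) ^ 2 * 2 ^ (b / 4) := by
        apply Nat.mul_le_mul_right
        apply Nat.mul_le_mul
        · exact Nat.mul_le_mul (by norm_num) (Nat.pow_le_pow_left hL _)
        · apply Nat.pow_le_pow_left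
          rw [pow_mul]
          norm_num
          exact hc
    _ = 2 ^ (5 + 4 ^ J * 28 + (2 * J + (m + 1)) * 2 + b / 4) := by
        rw [← pow_add 2 (2 * J), ← pow_mul, ← pow_mul, ← pow_add, ← pow_add, ← pow_add]
    _ ≤ 2 ^ b := by
        apply Nat.pow_le_pow_right (by norm_num)
        have h9 : b / 4 * 4 ≤ b := Nat.div_mul_le_self b 4
        have h10 : 128 * m ≤ b := by nlinarith
        omega


end Pool.Agent.ABI
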