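import Pool.Agent.Lib_helper27.ABIF.Defs2
import Pool.Agent.Lib_helper64.NPC.Blk.F9a1
import Pool.Agent.Lib_helper27.ABIF.B.N2
import Pool.Agent.Lib_helper27.ABIF.B.N4

/-! # Block N6 of ABI: numbers of the slots (helper56) -/

set_option autoImplicit false

namespace Pool.Agent.ABI

open Pool.Agent.CK
open Pool.Agent.NPC (Lit St lw tw Cert Term Rst Comp res Stuck RS wt pw GoodRoot HBig te hx NC labs
  rv rq)
open Pool.Agent.ABO (Par Lvl lev CircF hits Fml Gate Circuit Game Hard Desc cst cTree gsz)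
open Pool.Agent.TD.IS (PosI Stg patchI simI)
open Pool.Agent.TD (Lam dd)

/-- the basic facts -/
theorem n6_basic {J N j b : ℕ} (hJ : 16 ≤ J) (hN : N = 2 ^ 2 ^ J) (hj : j < J)
    (hb : N ≤ 2 * b + 2) :
    16 ≤ Lj N j ∧ 64 * J ^ 2 ≤ Lj N j ∧ Lj N j ^ 100 ≤ 2 ^ (b / 4) ∧ 1600 ≤ b := by
  have hnc := nc_ep hJ hN hj.le
  obtain ⟨h1, h2⟩ := NPC.F9a1_nc hnc hb
  obtain ⟨h3, h4, -⟩ := ep_small hJ hN
  have hNL : N ≤ Lj N j := by
    have h5 := lj_mono (N := N) (i := 0) (j := j) (by omega) (Nat.zero_le _)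
    simpa [Lj] using h5
  exact ⟨hnc.1, h4.trans hNL, h1, h2⟩

theorem count_good {J N j b g : ℕ} (hJ : 16 ≤ J) (hN : N = 2 ^ 2 ^ J) (hj : j < J)
    (hb : N ≤ 2 * b + 2) (h1 : 2 ^ b ≤ 8 * Lj N j ^ 28 * (g + J ^ 2)) :
    2 ^ b ≤ 16 * Lj N j ^ 28 * g := by
  obtain ⟨h16, h64, h100, h1600⟩ := n6_basic hJ hN hj hb
  generalize Lj N j = L at *
  have hb4 : 2 ^ (b / 4) ≤ 2 ^ b := Nat.pow_le_pow_right (by norm_num) (by omega)
  have h2 : 16 * L ^ 28 * J ^ 2 ≤ 2 ^ b := by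
    calc 16 * L ^ 28 * J ^ 2 ≤ L ^ 28 * (64 * J ^ 2) := by nlinarith [Nat.zero_le (L ^ 28 * J ^ 2)]
      _ ≤ L ^ 28 * L := Nat.mul_le_mul_left _ h64
      _ = L ^ 29 := by ring
      _ ≤ L ^ 100 := Nat.pow_le_pow_right (by omega) (by norm_num)
      _ ≤ 2 ^ b := h100.trans hb4
  have h3 : 8 * L ^ 28 * (g + J ^ 2) = 8 * L ^ 28 * g + 8 * L ^ 28 * J ^ 2 := by ring
  have h4 : 16 * L ^ 28 * J ^ 2 = 2 * (8 * L ^ 28 * J ^ 2) := by ring
  have h5 : 16 * L ^ 28 * g = 2 * (8 * L ^ 28 * g) := by ring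
  omega

theorem count_next {J N j b g c : ℕ} (hJ : 16 ≤ J) (hN : N = 2 ^ 2 ^ J) (hj : j < J)
    (hb : N ≤ 2 * b + 2) (h1 : 2 ^ b ≤ 8 * Lj N j ^ 28 * (g + J ^ 2 + c))
    (h2 : 32 * Lj N j ^ 28 * c ^ 2 * 2 ^ (b / 4) ≤ 2 ^ b) :
    2 ^ b ≤ Lj N (j + 1) ^ 20 * g := by
  obtain ⟨h16, h64, h100, h1600⟩ := n6_basic hJ hN hj hb
  rw [lj_succ]
  generalize Lj N j = L at *
  have hb4 : 2 ^ (b / 4) ≤ 2 ^ b := Nat.pow_le_pow_right (by norm_num) (by omega)
  have h3 : 32 * L ^ 28 * J ^ 2 ≤ 2 ^ b := by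
    calc 32 * L ^ 28 * J ^ 2 ≤ L ^ 28 * (64 * J ^ 2) := by nlinarith [Nat.zero_le (L ^ 28 * J ^ 2)]
      _ ≤ L ^ 28 * L := Nat.mul_le_mul_left _ h64
      _ = L ^ 29 := by ring
      _ ≤ L ^ 100 := Nat.pow_le_pow_right (by omega) (by norm_num)
      _ ≤ 2 ^ b := h100.trans hb4
  have h4 : 32 * L ^ 28 * c ≤ 2 ^ b := by
    refine le_trans ?_ h2
    have h5 : c ≤ c ^ 2 * 2 ^ (b / 4) := by
      have h6 : c ≤ c ^ 2 := by nlinarith [Nat.zero_le c, sq_nonneg c, Nat.le_self_pow (n := 2) (by norm_num) c]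
      have h7 : 1 ≤ 2 ^ (b / 4) := Nat.one_le_pow _ _ (by norm_num)
      calc c ≤ c ^ 2 := h6
        _ = c ^ 2 * 1 := by ring
        _ ≤ c ^ 2 * 2 ^ (b / 4) := Nat.mul_le_mul_left _ h7
    calc 32 * L ^ 28 * c ≤ 32 * L ^ 28 * (c ^ 2 * 2 ^ (b / 4)) := Nat.mul_le_mul_left _ h5
      _ = 32 * L ^ 28 * c ^ 2 * 2 ^ (b / 4) := by ring
  have h5 : 8 * L ^ 28 * (g + J ^ 2 + c) = 8 * L ^ 28 * g + 8 * L ^ 28 * J ^ 2 + 8 * L ^ 28 * c := by
    ring
  have h6 : 32 * L ^ 28 * J ^ 2 = 4 * (8 * L ^ 28 * J ^ 2) := by ring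
  have h7 : 32 * L ^ 28 * c = 4 * (8 * L ^ 28 * c) := by ring
  have h8 : 2 ^ b ≤ 16 * L ^ 28 * g := by
    have h9 : 16 * L ^ 28 * g = 2 * (8 * L ^ 28 * g) := by ring
    omega
  refine h8.trans (Nat.mul_le_mul_right _ ?_)
  calc 16 * L ^ 28 ≤ L * L ^ 28 := Nat.mul_le_mul_right _ h16
    _ = L ^ 29 := by ring
    _ ≤ L ^ 40 := Nat.pow_le_pow_right (by omega) (by norm_num)
    _ = (L ^ 2) ^ 20 := by ring

/-- disjoint blocks inside a large set -/
theorem n6_blocks {α β : Type} (Y : Finset α) (S : Finset β) (k : ℕ) (h : Y.card * k ≤ S.card) :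
    ∃ blk : α → Finset β, (∀ y ∈ Y, blk y ⊆ S ∧ k ≤ (blk y).card) ∧
      ∀ y y', y ≠ y' → Disjoint (blk y) (blk y') := by
  classical
  have h1 : Fintype.card {p : α × ℕ // p ∈ Y ×ˢ Finset.range k} ≤ Fintype.card {x : β // x ∈ S} := by
    rw [Fintype.card_coe, Fintype.card_coe, Finset.card_product, Finset.card_range]
    exact h
  obtain ⟨f⟩ := Function.Embedding.nonempty_of_card_le h1
  refine ⟨fun y => if hy : y ∈ Y then
    (Finset.range k).attach.image fun i => (f ⟨(y, i.1), Finset.mem_product.2 ⟨hy, i.2⟩⟩).1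
    else ∅, ?_, ?_⟩
  · intro y hy
    simp only [dif_pos hy]
    refine ⟨?_, ?_⟩
    · intro x hx
      obtain ⟨i, -, rfl⟩ := Finset.mem_image.1 hx
      exact (f _).2
    · rw [Finset.card_image_of_injective]
      · simp
      · intro i i' hii
        have h2 := f.injective (Subtype.ext hii)
        have h3 : i.1 = i'.1 := congrArg (fun q => q.1.2) h2
        exact Subtype.ext h3
  · intro y y' hyy
    by_cases hy : y ∈ Y
    · by_cases hy' : y' ∈ Y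
      · simp only [dif_pos hy, dif_pos hy']
        rw [Finset.disjoint_left]
        intro x hx hx'
        obtain ⟨i, -, rfl⟩ := Finset.mem_image.1 hx
        obtain ⟨i', -, hi'⟩ := Finset.mem_image.1 hx'
        have h2 := f.injective (Subtype.ext hi')
        have h3 : y' = y := congrArg (fun q => q.1.1) h2
        exact hyy h3.symm
      · simp only [dif_neg hy']
        exact Finset.disjoint_empty_right _
    · simp only [dif_neg hy]
      exact Finset.disjoint_empty_left _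

theorem enc_blocks {J N j e b : ℕ} {z : Str} (hJ : 16 ≤ J) (hN : N = 2 ^ 2 ^ J) (hj : j < J)
    (h : InBatch J N j e z) (hb : b = sz N e z) (S : Finset Str)
    (hS : 2 ^ (b / 2) ≤ Lj N j ^ 4 * S.card) :
    ∃ blk : Str → Finset Str, (∀ y : Str, y.length ≤ (z.length + 2) ^ ex (iN e) →
      blk y ⊆ S ∧ 2 ^ (b / 4) ≤ (blk y).card) ∧ ∀ y y', y ≠ y' → Disjoint (blk y) (blk y') := by
  obtain ⟨-, -, -, hsl, hNs, -, -, -⟩ := item_range hJ hN hj h
  rw [← hb] at hsl hNs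
  obtain ⟨h16, -, h100, h1600⟩ := n6_basic (b := b) hJ hN hj (by omega)
  have hm : 4 * (z.length + 2) ^ ex (iN e) * (z.length + 2) ^ ex (iN e) ≤ b := by
    have h1 : (z.length + 2) ^ ex (iN e) ≤ (z.length + 2) ^ iN e :=
      Nat.pow_le_pow_right (by omega) (Nat.unpair_right_le _)
    have h2 : 4 ≤ (z.length + 2) ^ 2 := by
      have h3 : 2 ^ 2 ≤ (z.length + 2) ^ 2 := Nat.pow_le_pow_left (by omega) 2
      omega
    calc 4 * (z.length + 2) ^ ex (iN e) * (z.length + 2) ^ ex (iN e)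
        ≤ (z.length + 2) ^ 2 * (z.length + 2) ^ iN e * (z.length + 2) ^ iN e := by gcongr
      _ = (z.length + 2) ^ (2 * iN e + 2) := by ring
      _ = NPC.sl e z := rfl
      _ ≤ b := hsl
  generalize (z.length + 2) ^ ex (iN e) = m at *
  have hm16 : 16 * m ≤ b := by
    rcases Nat.lt_or_ge m 4 with h7 | h7
    · omega
    · nlinarith
  generalize Lj N j = L at *
  have h5 : L ^ 4 ≤ 2 ^ (b / 8) := by
    by_contra hc
    push Not at hc
    have h6 : (2 ^ (b / 8)) ^ 25 < (L ^ 4) ^ 25 := Nat.pow_lt_pow_left hc (by norm_num)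
    rw [← pow_mul, ← pow_mul] at h6
    have h7 : 2 ^ (b / 4) ≤ 2 ^ (b / 8 * 25) := Nat.pow_le_pow_right (by norm_num) (by omega)
    have h8 : L ^ (4 * 25) = L ^ 100 := by norm_num
    omega
  have h9 : 2 ^ (b / 2) ≤ 2 ^ (b / 8) * S.card := hS.trans (Nat.mul_le_mul_right _ h5)
  have h10 : 2 ^ (b / 2) = 2 ^ (b / 8) * 2 ^ (b / 2 - b / 8) := by
    rw [← pow_add]
    congr 1
    omega
  rw [h10] at h9
  have h11 : 2 ^ (b / 2 - b / 8) ≤ S.card := Nat.le_of_mul_le_mul_left h9 (by positivity)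
  have hfin : {y : List Bool | y.length ≤ m}.Finite := List.finite_length_le Bool m
  have hcard : hfin.toFinset.card ≤ 2 ^ (m + 1) := by
    have hF : Finite {q : List Bool // q.length ≤ m} := hfin.to_subtype
    let _ : Fintype {q : List Bool // q.length ≤ m} := Fintype.ofFinite _
    have h3 := multi_card_le m
    have h4 : hfin.toFinset.card = Fintype.card {q : List Bool // q.length ≤ m} := by
      rw [← Fintype.card_coe]
      exact Fintype.card_congr (Equiv.subtypeEquivRight (by simp))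
    omega
  have h12 : hfin.toFinset.card * 2 ^ (b / 4) ≤ S.card := by
    calc hfin.toFinset.card * 2 ^ (b / 4) ≤ 2 ^ (m + 1) * 2 ^ (b / 4) :=
          Nat.mul_le_mul_right _ hcard
      _ = 2 ^ (m + 1 + b / 4) := by rw [← pow_add]
      _ ≤ 2 ^ (b / 2 - b / 8) := Nat.pow_le_pow_right (by norm_num) (by omega)
      _ ≤ S.card := h11
  obtain ⟨blk, h13, h14⟩ := n6_blocks hfin.toFinset S (2 ^ (b / 4)) h12
  exact ⟨blk, fun y hy => h13 y (by rw [Set.Finite.mem_toFinset]; exact hy), h14⟩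


end Pool.Agent.ABI
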