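import Pool.Agent.Lib_helper27.ABIF.Defs2
import Pool.Agent.Lib_helper64.NPC.Blk.F8n
import Pool.Agent.Lib_helper27.ABIF.B.N2

/-!
-/

set_option autoImplicit false

namespace Pool.Agent.ABI

open Pool.Agent.CK
open Pool.Agent.NPC (Lit St lw tw Cert Term Rst Comp res Stuck RS wt pw GoodRoot HBig te hx NC labs
  rv rq)
open Pool.Agent.ABO (Par Lvl lev CircF hits Fml Gate Circuit Game Hard Desc cst cTree gsz)
open Pool.Agent.TD.IS (PosI Stg patchI simI)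
open Pool.Agent.TD (Lam dd)

theorem n7_two (c : ℕ) (hc : 10 ≤ c) : 8 * c + 110 ≤ 2 ^ c := by
  induction c, hc using Nat.le_induction with
  | base => norm_num
  | succ n hn ih =>
    rw [pow_succ]
    omega

theorem n7_exp (m : ℕ) : (2 : ℝ) ^ m ≤ Real.exp m := by
  have h1 : (2 : ℝ) ≤ Real.exp 1 := by
    have := Real.add_one_le_exp (1 : ℝ)
    linarith
  calc (2 : ℝ) ^ m ≤ Real.exp 1 ^ m := pow_le_pow_left₀ (by norm_num) h1 m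
    _ = Real.exp m := by rw [← Real.exp_nat_mul, mul_one]

theorem n7_b {J N : ℕ} (hJ : 16 ≤ J) (hN : N = 2 ^ 2 ^ J) {b : ℕ} (hb : N ≤ 2 * b + 2) :
    32767 ≤ b ∧ (J ^ 2 + 1) * Lj N J ≤ 2 ^ (3 * b + 2) := by
  obtain ⟨h1, h2, h3⟩ := ep_small hJ hN
  have h0 : 32767 ≤ b := by
    have : (65536 : ℕ) ≤ N := by
      calc (65536 : ℕ) = 2 ^ 16 := by norm_num
        _ ≤ N := h1
    omega
  refine ⟨h0, ?_⟩
  have h4 : Lj N J = 2 ^ 4 ^ J := by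
    unfold Lj
    rw [hN, ← pow_mul]
    congr 1
    rw [← mul_pow]
    norm_num
  have h5 : J ^ 2 + 1 ≤ 2 * b + 2 := by
    have : 1 ≤ J ^ 2 := Nat.one_le_pow _ _ (by omega)
    omega
  have h6 : 2 * b + 2 ≤ 2 ^ b := by
    have h7 : b < 2 ^ b := Nat.lt_two_pow_self
    have h8 := n7_two b (by omega)
    omega
  rw [h4]
  calc (J ^ 2 + 1) * 2 ^ 4 ^ J ≤ 2 ^ b * 2 ^ (2 * b + 2) :=
        Nat.mul_le_mul (h5.trans h6) (Nat.pow_le_pow_right (by norm_num) (h3.trans hb))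
    _ = 2 ^ (3 * b + 2) := by
        rw [← pow_add]
        congr 1
        ring

/-- N7: as `num_h1` -/
theorem num_h1' {J N j : ℕ} (hJ : 16 ≤ J) (hN : N = 2 ^ 2 ^ J) (hj : j < J) {k : ℕ}
    (hk : k ≤ J ^ 2 * Lj N j) :
    4608 * (k : ℝ) * (Lj N j : ℕ) * ((Lj N j) ^ 2 : ℕ) * (1 / (Lj N j : ℝ) ^ 8) ≤ 1 := by
  obtain ⟨h1, h2, h3⟩ := ep_small hJ hN
  obtain ⟨hL16, hNL, -⟩ := nc_ep hJ hN hj.le
  set L := Lj N j with hLdef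
  have hL : (65536 : ℝ) ≤ L := by
    have : (65536 : ℕ) ≤ L := by
      calc (65536 : ℕ) = 2 ^ 16 := by norm_num
        _ ≤ L := h1.trans hNL
    exact_mod_cast this
  have hL0 : (0 : ℝ) < L := by linarith
  have hJL : (J : ℝ) ^ 2 ≤ L := by
    have : J ^ 2 ≤ L := by omega
    exact_mod_cast this
  have hk' : (k : ℝ) ≤ (L : ℝ) ^ 2 := by
    have h4 : (k : ℝ) ≤ (J : ℝ) ^ 2 * L := by exact_mod_cast hk
    nlinarith
  have h5 : 4608 * (k : ℝ) * (L : ℕ) * (L ^ 2 : ℕ) * (1 / (L : ℝ) ^ 8) ≤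
      4608 * (L : ℝ) ^ 2 * (L : ℕ) * (L ^ 2 : ℕ) * (1 / (L : ℝ) ^ 8) := by
    gcongr
  refine h5.trans ?_
  have h6 : 4608 * (L : ℝ) ^ 2 * (L : ℕ) * (L ^ 2 : ℕ) * (1 / (L : ℝ) ^ 8) =
      4608 / (L : ℝ) ^ 3 := by
    push_cast
    field_simp
  rw [h6, div_le_one (by positivity)]
  calc (4608 : ℝ) ≤ 65536 ^ 3 := by norm_num
    _ ≤ (L : ℝ) ^ 3 := pow_le_pow_left₀ (by norm_num) hL 3

theorem n7_fin {b : ℕ} (hb : 32767 ≤ b) {k : ℝ} (hk : k ≤ 2 ^ (3 * b + 2)) {X : ℝ}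
    (hX : (2 : ℝ) ^ (b / 2) ≤ X) : 128 * k * ((2 : ℝ) ^ (b / 4) + 1) * Real.exp (-X) ≤ 1 := by
  have h1 : (1 : ℝ) ≤ 2 ^ (b / 4) := one_le_pow₀ (by norm_num)
  have h2 := n7_two (b / 2) (by omega)
  have h3 : (2 : ℝ) ^ (2 ^ (b / 2)) ≤ Real.exp X := by
    refine (n7_exp _).trans (Real.exp_le_exp.2 ?_)
    push_cast
    exact hX
  rw [Real.exp_neg, ← div_eq_mul_inv, div_le_one (Real.exp_pos _)]
  refine le_trans ?_ h3
  calc 128 * k * ((2 : ℝ) ^ (b / 4) + 1) ≤ 2 ^ 7 * 2 ^ (3 * b + 2) * (2 ^ (b / 4) + 2 ^ (b / 4)) := by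
        have : (128 : ℝ) = 2 ^ 7 := by norm_num
        rw [this]
        gcongr
    _ = 2 ^ (7 + (3 * b + 2) + (b / 4 + 1)) := by
        rw [pow_add _ (7 + (3 * b + 2)), pow_add _ 7, pow_succ]
        ring
    _ ≤ 2 ^ (2 ^ (b / 2)) := pow_le_pow_right₀ (by norm_num) (by omega)

/-- N7: as `num_h2` -/
theorem num_h2' {J N j : ℕ} (hJ : 16 ≤ J) (hN : N = 2 ^ 2 ^ J) (hj : j < J) {k : ℕ}
    (hk : k ≤ (J ^ 2 + 1) * Lj N J) {b R : ℕ} (hb : N ≤ 2 * b + 2)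
    (hR : 2 ^ b ≤ (Lj N j) ^ 20 * R) :
    8 * (k : ℝ) * Real.exp (-(1 / (Lj N j : ℝ) ^ 8 * R / 4)) ≤ 1 := by
  obtain ⟨hb0, hkb⟩ := n7_b hJ hN hb
  have hnc := nc_ep hJ hN hj.le
  obtain ⟨-, -, h3⟩ := Pool.Agent.NPC.nc_big (by omega) hnc hb
  set L := Lj N j with hLdef
  have hL : (16 : ℝ) ≤ L := by exact_mod_cast hnc.1
  have hL0 : (0 : ℝ) < L := by linarith
  have hk' : (k : ℝ) ≤ 2 ^ (3 * b + 2) := by exact_mod_cast hk.trans hkb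
  have h4 : (L : ℝ) ^ 28 * 4 ≤ 2 ^ (b / 4) := by
    have h5 : (L : ℝ) ^ 100 ≤ 2 ^ (b / 4) := by exact_mod_cast h3
    refine le_trans ?_ h5
    calc (L : ℝ) ^ 28 * 4 ≤ (L : ℝ) ^ 28 * L := by gcongr; linarith
      _ = (L : ℝ) ^ 29 := by ring
      _ ≤ (L : ℝ) ^ 100 := pow_le_pow_right₀ (by linarith) (by norm_num)
  have hX : (2 : ℝ) ^ (b / 2) ≤ 1 / (L : ℝ) ^ 8 * R / 4 := by
    have h5 : (2 : ℝ) ^ b ≤ (L : ℝ) ^ 20 * R := by exact_mod_cast hR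
    have h6 : (2 : ℝ) ^ (b / 2) * 2 ^ (b / 4) ≤ 2 ^ b := by
      rw [← pow_add]
      exact pow_le_pow_right₀ (by norm_num) (by omega)
    have h7 : (2 : ℝ) ^ (b / 2) * ((L : ℝ) ^ 28 * 4) ≤ (L : ℝ) ^ 20 * R := by
      refine le_trans ?_ (h6.trans h5)
      gcongr
    have h8 : (1 : ℝ) / (L : ℝ) ^ 8 * R / 4 = ((L : ℝ) ^ 20 * R) / ((L : ℝ) ^ 28 * 4) := by
      field_simp
    rw [h8, le_div_iff₀ (by positivity)]
    exact h7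
  have h9 := n7_fin hb0 hk' hX
  refine le_trans ?_ h9
  have h10 : (1 : ℝ) ≤ 2 ^ (b / 4) := one_le_pow₀ (by norm_num)
  have h11 : 8 * (k : ℝ) ≤ 128 * k * ((2 : ℝ) ^ (b / 4) + 1) := by
    have : (0 : ℝ) ≤ k := Nat.cast_nonneg k
    nlinarith
  exact mul_le_mul_of_nonneg_right h11 (Real.exp_pos _).le

/-- N7: as `num_h3` -/
theorem num_h3' {J N j : ℕ} (hJ : 16 ≤ J) (hN : N = 2 ^ 2 ^ J) (hj : j < J) {k : ℕ}
    (hk : k ≤ (J ^ 2 + 1) * Lj N J) {b : ℕ} (hb : N ≤ 2 * b + 2) {α : Type} (s : Finset α)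
    (P : α → ℕ) (hs : s.card ≤ 2 ^ (b / 4) + 1) (hP : ∀ a ∈ s, 2 ^ hx J j b ≤ P a) :
    128 * (k : ℝ) * ∑ a ∈ s, Real.exp (-(et J b * P a / 4)) ≤ 1 := by
  obtain ⟨hb0, hkb⟩ := n7_b hJ hN hb
  have hnc := nc_ep hJ hN hj.le
  obtain ⟨h4, h5⟩ := Pool.Agent.NPC.hx_step (by omega) hj hnc hb
  have hk' : (k : ℝ) ≤ 2 ^ (3 * b + 2) := by exact_mod_cast hk.trans hkb
  have h6 : ∀ a ∈ s, Real.exp (-(et J b * P a / 4)) ≤ Real.exp (-((2 : ℝ) ^ (b / 2))) := by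
    intro a ha
    apply Real.exp_le_exp.2
    apply neg_le_neg
    have h7 : (2 : ℝ) ^ hx J j b ≤ P a := by exact_mod_cast hP a ha
    have h8 : (2 : ℝ) ^ (b / 2) ≤ (2 : ℝ) ^ hx J (j + 1) b := pow_le_pow_right₀ (by norm_num) h5
    have h9 : (2 : ℝ) ^ hx J (j + 1) b = (1 / 2 : ℝ) ^ te J b * (2 : ℝ) ^ hx J j b / 4 := by
      rw [h4, pow_add, pow_add, one_div, inv_pow]
      field_simp
      norm_num
    unfold et
    calc (2 : ℝ) ^ (b / 2) ≤ (2 : ℝ) ^ hx J (j + 1) b := h8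
      _ = (1 / 2 : ℝ) ^ te J b * (2 : ℝ) ^ hx J j b / 4 := h9
      _ ≤ _ := by gcongr
  have h7 : ∑ a ∈ s, Real.exp (-(et J b * P a / 4)) ≤
      (2 ^ (b / 4) + 1) * Real.exp (-((2 : ℝ) ^ (b / 2))) := by
    calc ∑ a ∈ s, Real.exp (-(et J b * P a / 4)) ≤ ∑ _a ∈ s, Real.exp (-((2 : ℝ) ^ (b / 2))) :=
          Finset.sum_le_sum h6
      _ = (s.card : ℝ) * Real.exp (-((2 : ℝ) ^ (b / 2))) := by rw [Finset.sum_const, nsmul_eq_mul]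
      _ ≤ (2 ^ (b / 4) + 1) * Real.exp (-((2 : ℝ) ^ (b / 2))) := by
          apply mul_le_mul_of_nonneg_right _ (Real.exp_pos _).le
          exact_mod_cast hs
  have h8 := n7_fin hb0 hk' (le_refl ((2 : ℝ) ^ (b / 2)))
  calc 128 * (k : ℝ) * ∑ a ∈ s, Real.exp (-(et J b * P a / 4))
      ≤ 128 * (k : ℝ) * ((2 ^ (b / 4) + 1) * Real.exp (-((2 : ℝ) ^ (b / 2)))) := by gcongr
    _ = 128 * (k : ℝ) * (2 ^ (b / 4) + 1) * Real.exp (-((2 : ℝ) ^ (b / 2))) := by ring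
    _ ≤ 1 := h8


end Pool.Agent.ABI
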