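import Pool.Agent.Lib_helper27.ABIF.Defs2

/-! # ABI, block P10: choice -/

set_option autoImplicit false

namespace Pool.Agent.ABI

open Pool.Agent.CK
open Pool.Agent.NPC (Lit St lw tw Cert Term Rst Comp res Stuck RS wt pw GoodRoot HBig te hx NC labs
  rv rq)

theorem choice {𝒳 : Type} (X : Finset 𝒳) (w : 𝒳 → ℝ) (hw : ∀ x ∈ X, 0 ≤ w x)
    (I : Finset ℕ) {T : ℕ → Type} (C : ∀ g, Set (T g)) (risk : ∀ g, T g → 𝒳 → ℝ)
    (h0 : ∀ g A x, 0 ≤ risk g A x) (a B c : ℕ → ℕ) (hC : ∀ g ∈ I, CardBd (C g) (a g))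
    (hE : ∀ g ∈ I, ∀ A ∈ C g, ∑ x ∈ X, w x * risk g A x ≤ (1 / 2) ^ (B g + a g + c g))
    (hc : ∑ g ∈ I, (1 / 2 : ℝ) ^ c g < 1 / 2)
    (bad : 𝒳 → Prop) [DecidablePred bad] (hbad : ∑ x ∈ X.filter bad, w x + 1 / 2 ≤ ∑ x ∈ X, w x) :
    ∃ x ∈ X, w x ≠ 0 ∧ ¬ bad x ∧ ∀ g ∈ I, ∀ A ∈ C g, risk g A x ≤ (1 / 2) ^ B g := by
  classical
  let s : ∀ g, Finset (T g) := fun g => if h : (C g).Finite then h.toFinset else ∅
  have hs : ∀ g ∈ I, ∀ A, A ∈ s g ↔ A ∈ C g := by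
    intro g hg A
    have hf := (hC g hg).1
    simp only [s, dif_pos hf, Set.Finite.mem_toFinset]
  have hsc : ∀ g ∈ I, (s g).card ≤ 2 ^ a g := by
    intro g hg
    have hf := (hC g hg).1
    have h := (hC g hg).2
    rw [Set.ncard_eq_toFinset_card (C g) hf] at h
    simpa only [s, dif_pos hf] using h
  by_contra hcon
  push Not at hcon
  have hpos : ∀ x ∈ X, ∀ g, ∀ A, 0 ≤ (2 : ℝ) ^ B g * (w x * risk g A x) := fun x hx g A =>
    mul_nonneg (by positivity) (mul_nonneg (hw x hx) (h0 g A x))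
  have h1 : ∀ x ∈ X, w x ≤ (if bad x then w x else 0) +
      ∑ g ∈ I, ∑ A ∈ s g, (2 : ℝ) ^ B g * (w x * risk g A x) := by
    intro x hx
    have hnn : 0 ≤ ∑ g ∈ I, ∑ A ∈ s g, (2 : ℝ) ^ B g * (w x * risk g A x) :=
      Finset.sum_nonneg fun g _ => Finset.sum_nonneg fun A _ => hpos x hx g A
    by_cases hb : bad x
    · rw [if_pos hb]
      linarith
    rw [if_neg hb, zero_add]
    by_cases hw0 : w x = 0
    · rw [hw0] at hnn ⊢
      exact hnn
    obtain ⟨g, hg, A, hA, hr⟩ := hcon x hx hw0 hb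
    have h2 : 1 ≤ (2 : ℝ) ^ B g * risk g A x := by
      have h3 : (2 : ℝ) ^ B g * (1 / 2) ^ B g = 1 := by
        rw [← mul_pow]
        norm_num
      rw [← h3]
      exact mul_le_mul_of_nonneg_left hr.le (by positivity)
    calc w x = w x * 1 := (mul_one _).symm
      _ ≤ w x * ((2 : ℝ) ^ B g * risk g A x) := mul_le_mul_of_nonneg_left h2 (hw x hx)
      _ = (2 : ℝ) ^ B g * (w x * risk g A x) := by ring
      _ ≤ ∑ A ∈ s g, (2 : ℝ) ^ B g * (w x * risk g A x) :=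
          Finset.single_le_sum (f := fun A => (2 : ℝ) ^ B g * (w x * risk g A x))
            (fun A _ => hpos x hx g A) ((hs g hg A).2 hA)
      _ ≤ ∑ g ∈ I, ∑ A ∈ s g, (2 : ℝ) ^ B g * (w x * risk g A x) :=
          Finset.single_le_sum
            (f := fun g => ∑ A ∈ s g, (2 : ℝ) ^ B g * (w x * risk g A x))
            (fun g _ => Finset.sum_nonneg fun A _ => hpos x hx g A) hg
  have h2 : ∑ x ∈ X, w x ≤ ∑ x ∈ X.filter bad, w x +
      ∑ g ∈ I, ∑ A ∈ s g, (2 : ℝ) ^ B g * ∑ x ∈ X, w x * risk g A x := by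
    calc ∑ x ∈ X, w x ≤ ∑ x ∈ X, ((if bad x then w x else 0) +
          ∑ g ∈ I, ∑ A ∈ s g, (2 : ℝ) ^ B g * (w x * risk g A x)) := Finset.sum_le_sum h1
      _ = _ := by
        rw [Finset.sum_add_distrib, Finset.sum_filter]
        congr 1
        rw [Finset.sum_comm]
        refine Finset.sum_congr rfl fun g _ => ?_
        rw [Finset.sum_comm]
        refine Finset.sum_congr rfl fun A _ => ?_
        rw [Finset.mul_sum]
  have h3 : ∑ g ∈ I, ∑ A ∈ s g, (2 : ℝ) ^ B g * ∑ x ∈ X, w x * risk g A x ≤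
      ∑ g ∈ I, (1 / 2 : ℝ) ^ c g := by
    refine Finset.sum_le_sum fun g hg => ?_
    calc ∑ A ∈ s g, (2 : ℝ) ^ B g * ∑ x ∈ X, w x * risk g A x
        ≤ ∑ A ∈ s g, (2 : ℝ) ^ B g * (1 / 2) ^ (B g + a g + c g) :=
          Finset.sum_le_sum fun A hA =>
            mul_le_mul_of_nonneg_left (hE g hg A ((hs g hg A).1 hA)) (by positivity)
      _ = (s g).card * ((2 : ℝ) ^ B g * (1 / 2) ^ (B g + a g + c g)) := by
          rw [Finset.sum_const, nsmul_eq_mul]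
      _ ≤ (2 : ℝ) ^ a g * ((2 : ℝ) ^ B g * (1 / 2) ^ (B g + a g + c g)) := by
          apply mul_le_mul_of_nonneg_right _ (by positivity)
          exact_mod_cast hsc g hg
      _ = (1 / 2 : ℝ) ^ c g := by
          rw [pow_add, pow_add]
          have e1 : (2 : ℝ) ^ B g * (1 / 2) ^ B g = 1 := by
            rw [← mul_pow]
            norm_num
          have e2 : (2 : ℝ) ^ a g * (1 / 2) ^ a g = 1 := by
            rw [← mul_pow]
            norm_num
          calc (2 : ℝ) ^ a g * ((2 : ℝ) ^ B g * ((1 / 2) ^ B g * (1 / 2) ^ a g * (1 / 2) ^ c g))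
              = ((2 : ℝ) ^ B g * (1 / 2) ^ B g) * ((2 : ℝ) ^ a g * (1 / 2) ^ a g) *
                (1 / 2) ^ c g := by ring
            _ = (1 / 2 : ℝ) ^ c g := by rw [e1, e2, one_mul, one_mul]
  linarith

end Pool.Agent.ABI

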