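import Pool.Agent.Lib_helper27.ABIF.Defs2

/-! # ABI, block P12: the random restriction makes many roots good, with one more function -/

set_option autoImplicit false

namespace Pool.Agent.ABI

open Pool.Agent.CK
open Pool.Agent.NPC (Lit St lw tw Cert Term Rst Comp res Stuck RS wt pw GoodRoot HBig te hx NC labs
  rv rq)

section prob

variable {ι Λ : Type} [Fintype ι] [DecidableEq ι] [DecidableEq Λ]

theorem p12_swap {α β : Type} (S : Finset α) (R : Finset β) (w : α → ℝ) (Q : α → β → Prop)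
    [∀ a, DecidablePred (Q a)] [∀ b, DecidablePred fun a => Q a b] :
    ∑ a ∈ S, w a * ((R.filter (Q a)).card : ℝ) =
      ∑ b ∈ R, ∑ a ∈ S.filter (fun a => Q a b), w a := by
  have h1 : ∀ a ∈ S, w a * ((R.filter (Q a)).card : ℝ) =
      ∑ b ∈ R, if Q a b then w a else 0 := by
    intro a _
    rw [Finset.card_filter, Nat.cast_sum, Finset.mul_sum]
    refine Finset.sum_congr rfl fun b _ => ?_
    split_ifs <;> simp
  rw [Finset.sum_congr rfl h1, Finset.sum_comm]
  refine Finset.sum_congr rfl fun b _ => ?_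
  rw [Finset.sum_filter]

open Classical in
/-- P12: as `NPC.prob_main` (`Blk/A10.lean`), with twice the constants and one more function `Φ` of
small expectation; only the indices in `Kt` have computations (`h1` only for these). -/
theorem prob_main2 {K : Type} [Fintype K] [DecidableEq K] (Kt : Finset K) (H : ι → Finset Λ)
    (cls : ι → Finset (Finset Λ)) (hcls : ∀ r, H r ∈ cls r) (hcls' : ∀ r, ∀ P ∈ cls r, P ⊆ H r)
    (θ : ℝ) (hθ : 0 < θ) (hθ' : θ ≤ 1 / 2) (η : ι → ℝ) (hη : ∀ r, 0 < η r) (hη' : ∀ r, η r ≤ 1 / 2)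
    (Rk : K → Finset ι) (t : K → ι → DT Bool)
    (qs : K → ι → Str → List (Term ι Λ × Bool))
    (m W : ℕ) (ht : ∀ k ∈ Kt, ∀ r ∈ Rk k, (t k r).depth ≤ m)
    (hW : ∀ k ∈ Kt, ∀ r w, ∀ a ∈ qs k r w, a.1.size ≤ W)
    (x : ℝ) (hηx : ∀ r, 2 * η r ≤ x) (hx : (1 + x) ^ W ≤ 2)
    (h1 : 4608 * (Kt.card : ℝ) * m * W * θ ≤ 1)
    (h2 : ∀ k, 8 * (Fintype.card K : ℝ) * Real.exp (-(θ * (Rk k).card / 4)) ≤ 1)
    (h3 : ∀ k, ∀ r ∈ Rk k,
      128 * (Fintype.card K : ℝ) * ∑ P ∈ cls r, Real.exp (-(η r * P.card / 4)) ≤ 1)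
    (Φ : Rst ι Λ → ℝ) (hΦ : ∀ ρ, 0 ≤ Φ ρ) (hΦ1 : ∑ ρ ∈ RS H, wt (pw θ η H) ρ * Φ ρ ≤ 1 / 2) :
    ∃ ρ ∈ RS H, Φ ρ < 1 ∧
      (∀ k, θ * (Rk k).card ≤ 8 * ((Rk k).filter fun r =>
        (ρ r).1 = true ∧ HBig η cls ρ r).card) ∧
      ∀ k ∈ Kt, θ * (Rk k).card ≤ 8 * ((Rk k).filter fun r =>
        (ρ r).1 = true ∧ HBig η cls ρ r ∧ GoodRoot ρ r (t k r) (qs k r)).card := by
  have hη0 : ∀ r, 0 ≤ η r := fun r => (hη r).le
  have hη1 : ∀ r, η r ≤ 1 := fun r => (hη' r).trans (by norm_num)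
  have hθ1 : θ ≤ 1 := hθ'.trans (by norm_num)
  set w : Rst ι Λ → ℝ := wt (pw θ η H) with hw
  have hw0 : ∀ ρ, 0 ≤ w ρ := fun ρ =>
    Finset.prod_nonneg fun r _ => Pool.Agent.NPC.pw_nonneg θ hθ.le hθ1 η hη0 hη1 H r _
  have hw1 : ∑ ρ ∈ RS H, w ρ = 1 :=
    Pool.Agent.NPC.wt_sum_one H _ fun r => Pool.Agent.NPC.pw_sum_one θ η H r
  have hN : ∀ k, (0 : ℝ) < (Rk k).card := by
    intro k
    haveI : Nonempty K := ⟨k⟩
    have hKc : (1 : ℝ) ≤ Fintype.card K := by exact_mod_cast Fintype.card_pos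
    rcases Nat.eq_zero_or_pos (Rk k).card with h | h
    · exfalso
      have h4 := h2 k
      rw [h] at h4
      simp only [Nat.cast_zero, mul_zero, zero_div, neg_zero, Real.exp_zero, mul_one] at h4
      linarith
    · exact_mod_cast h
  by_contra hcon
  push Not at hcon
  -- the three counts
  let F1 : K → Rst ι Λ → ℝ := fun k ρ =>
    (if 4 * (((Rk k).filter fun r => (ρ r).1 = true).card : ℝ) < θ * (Rk k).card then 1 else 0)
  let F2 : K → Rst ι Λ → ℝ := fun k ρ => (16 / (θ * (Rk k).card)) *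
      (((Rk k).filter fun r => (ρ r).1 = true ∧ ¬ HBig η cls ρ r).card : ℝ)
  let F3 : K → Rst ι Λ → ℝ := fun k ρ => (16 / (θ * (Rk k).card)) *
      (((Rk k).filter fun r => (ρ r).1 = true ∧ HBig η cls ρ r ∧
        ¬ GoodRoot ρ r (t k r) (qs k r)).card : ℝ)
  have h16 : ∀ k, 0 ≤ 16 / (θ * (Rk k).card) := by
    intro k
    have := hN k
    positivity
  have hF1 : ∀ k ρ, 0 ≤ F1 k ρ := by
    intro k ρ
    show 0 ≤ (if 4 * (((Rk k).filter fun r => (ρ r).1 = true).card : ℝ) < θ * (Rk k).card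
      then (1 : ℝ) else 0)
    split_ifs
    · exact zero_le_one
    · exact le_rfl
  have hF2 : ∀ k ρ, 0 ≤ F2 k ρ := fun k ρ => mul_nonneg (h16 k) (Nat.cast_nonneg _)
  have hF3 : ∀ k ρ, 0 ≤ F3 k ρ := fun k ρ => mul_nonneg (h16 k) (Nat.cast_nonneg _)
  have hge1 : ∀ ρ ∈ RS H, 1 ≤ Φ ρ + (∑ k, (F1 k ρ + F2 k ρ) + ∑ k ∈ Kt, F3 k ρ) := by
    intro ρ hρ
    have hs12 : ∀ k, F1 k ρ + F2 k ρ ≤ ∑ k, (F1 k ρ + F2 k ρ) := fun k =>
      Finset.single_le_sum (f := fun k => F1 k ρ + F2 k ρ)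
        (fun k _ => add_nonneg (hF1 k ρ) (hF2 k ρ)) (Finset.mem_univ k)
    have hs3' : 0 ≤ ∑ k ∈ Kt, F3 k ρ := Finset.sum_nonneg fun k _ => hF3 k ρ
    have hs12' : 0 ≤ ∑ k, (F1 k ρ + F2 k ρ) := Finset.sum_nonneg fun k _ =>
      add_nonneg (hF1 k ρ) (hF2 k ρ)
    by_cases hΦρ : 1 ≤ Φ ρ
    · linarith
    · push Not at hΦρ
      by_cases hc2 : ∀ k, θ * (Rk k).card ≤ 8 * (((Rk k).filter fun r =>
        (ρ r).1 = true ∧ HBig η cls ρ r).card : ℝ)
      · obtain ⟨k, hkt, hk⟩ := hcon ρ hρ hΦρ hc2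
        have hs3 : F3 k ρ ≤ ∑ k ∈ Kt, F3 k ρ :=
          Finset.single_le_sum (f := fun k => F3 k ρ) (fun k _ => hF3 k ρ) hkt
        have hmain : 1 ≤ F1 k ρ + F2 k ρ + F3 k ρ := by
          set N : ℝ := ((Rk k).card : ℝ) with hNd
          have hNp : 0 < N := hN k
          set a := ((Rk k).filter fun r => (ρ r).1 = true) with ha
          set b := ((Rk k).filter fun r => (ρ r).1 = true ∧ ¬ HBig η cls ρ r) with hb
          set c := ((Rk k).filter fun r => (ρ r).1 = true ∧ HBig η cls ρ r ∧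
              ¬ GoodRoot ρ r (t k r) (qs k r)) with hc
          set d := ((Rk k).filter fun r => (ρ r).1 = true ∧ HBig η cls ρ r ∧
              GoodRoot ρ r (t k r) (qs k r)) with hd
          have hsub : a ⊆ b ∪ (c ∪ d) := by
            intro r hr
            rw [ha, Finset.mem_filter] at hr
            rw [Finset.mem_union, Finset.mem_union, hb, hc, hd, Finset.mem_filter,
              Finset.mem_filter, Finset.mem_filter]
            by_cases h5 : HBig η cls ρ r
            · by_cases h6 : GoodRoot ρ r (t k r) (qs k r)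
              · exact Or.inr (Or.inr ⟨hr.1, hr.2, h5, h6⟩)
              · exact Or.inr (Or.inl ⟨hr.1, hr.2, h5, h6⟩)
            · exact Or.inl ⟨hr.1, hr.2, h5⟩
          have hcard : (a.card : ℝ) ≤ b.card + (c.card + d.card) := by
            have h5 := (Finset.card_le_card hsub).trans (Finset.card_union_le _ _)
            have h6 := Finset.card_union_le c d
            exact_mod_cast h5.trans (Nat.add_le_add_left h6 _)
          show 1 ≤ (if 4 * (a.card : ℝ) < θ * N then (1 : ℝ) else 0) +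
            (16 / (θ * N)) * (b.card : ℝ) + (16 / (θ * N)) * (c.card : ℝ)
          have hb0 : (0 : ℝ) ≤ b.card := Nat.cast_nonneg _
          have hc0 : (0 : ℝ) ≤ c.card := Nat.cast_nonneg _
          have hθN : 0 < θ * N := mul_pos hθ hNp
          have h16 : 0 ≤ 16 / (θ * N) := by positivity
          split_ifs with h5
          · have := mul_nonneg h16 hb0
            have := mul_nonneg h16 hc0
            linarith
          · push Not at h5
            have h6 : θ * N / 16 ≤ b.card + c.card := by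
              have h7 : 8 * (d.card : ℝ) < θ * N := hk
              linarith
            rw [zero_add, ← mul_add]
            calc (1 : ℝ) = 16 / (θ * N) * (θ * N / 16) := by field_simp
              _ ≤ 16 / (θ * N) * (b.card + c.card) := mul_le_mul_of_nonneg_left h6 h16
        have := hs12 k
        have := hΦ ρ
        linarith
      · push Not at hc2
        obtain ⟨k, hk⟩ := hc2
        have hmain : 1 ≤ F1 k ρ + F2 k ρ := by
          set N : ℝ := ((Rk k).card : ℝ) with hNd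
          have hNp : 0 < N := hN k
          set a := ((Rk k).filter fun r => (ρ r).1 = true) with ha
          set b := ((Rk k).filter fun r => (ρ r).1 = true ∧ ¬ HBig η cls ρ r) with hb
          set d := ((Rk k).filter fun r => (ρ r).1 = true ∧ HBig η cls ρ r) with hd
          have hsub : a ⊆ b ∪ d := by
            intro r hr
            rw [ha, Finset.mem_filter] at hr
            rw [Finset.mem_union, hb, hd, Finset.mem_filter, Finset.mem_filter]
            by_cases h5 : HBig η cls ρ r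
            · exact Or.inr ⟨hr.1, hr.2, h5⟩
            · exact Or.inl ⟨hr.1, hr.2, h5⟩
          have hcard : (a.card : ℝ) ≤ b.card + d.card := by
            exact_mod_cast (Finset.card_le_card hsub).trans (Finset.card_union_le _ _)
          show 1 ≤ (if 4 * (a.card : ℝ) < θ * N then (1 : ℝ) else 0) +
            (16 / (θ * N)) * (b.card : ℝ)
          have hb0 : (0 : ℝ) ≤ b.card := Nat.cast_nonneg _
          have hθN : 0 < θ * N := mul_pos hθ hNp
          have h16 : 0 ≤ 16 / (θ * N) := by positivity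
          split_ifs with h5
          · have := mul_nonneg h16 hb0
            linarith
          · push Not at h5
            have h6 : θ * N / 16 ≤ b.card := by
              have h7 : 8 * (d.card : ℝ) < θ * N := hk
              linarith
            rw [zero_add]
            calc (1 : ℝ) = 16 / (θ * N) * (θ * N / 16) := by field_simp
              _ ≤ 16 / (θ * N) * b.card := mul_le_mul_of_nonneg_left h6 h16
        have := hs12 k
        have := hΦ ρ
        linarith
  -- expectations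
  have e1 : ∀ k, ∑ ρ ∈ RS H, w ρ * F1 k ρ ≤ 1 / (8 * Fintype.card K) := by
    intro k
    haveI : Nonempty K := ⟨k⟩
    have hKc : (1 : ℝ) ≤ Fintype.card K := by exact_mod_cast Fintype.card_pos
    have h4 := Pool.Agent.NPC.alive_tail H θ hθ.le hθ1 η hη0 hη1 (Rk k)
    have h5 : Real.exp (-(θ * (Rk k).card / 4)) ≤ 1 / (8 * Fintype.card K) := by
      rw [le_div_iff₀ (by positivity)]
      have := h2 k
      linarith
    refine le_trans (le_of_eq ?_) (h4.trans h5)
    rw [Finset.sum_filter]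
    refine Finset.sum_congr rfl fun ρ _ => ?_
    show w ρ * (if 4 * (((Rk k).filter fun r => (ρ r).1 = true).card : ℝ) < θ * (Rk k).card
      then (1 : ℝ) else 0) = _
    rw [mul_ite, mul_one, mul_zero]
  have e2 : ∀ k, ∑ ρ ∈ RS H, w ρ * F2 k ρ ≤ 1 / (8 * Fintype.card K) := by
    intro k
    haveI : Nonempty K := ⟨k⟩
    have hKc : (1 : ℝ) ≤ Fintype.card K := by exact_mod_cast Fintype.card_pos
    set N : ℝ := ((Rk k).card : ℝ) with hNd
    have hNp : 0 < N := hN k
    have hθN : 0 < θ * N := mul_pos hθ hNp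
    have e2 : ∑ ρ ∈ RS H, w ρ *
        (((Rk k).filter fun r => (ρ r).1 = true ∧ ¬ HBig η cls ρ r).card : ℝ) ≤
        N * (θ * (1 / (128 * Fintype.card K))) := by
      rw [p12_swap]
      have h4 : ∀ r ∈ Rk k, ∑ ρ ∈ (RS H).filter (fun ρ => (ρ r).1 = true ∧ ¬ HBig η cls ρ r),
          w ρ ≤ θ * (1 / (128 * Fintype.card K)) := by
        intro r hr
        refine (Pool.Agent.NPC.hbig_tail H cls hcls' θ hθ.le hθ1 η hη0 hη1 r).trans ?_
        refine mul_le_mul_of_nonneg_left ?_ hθ.le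
        rw [le_div_iff₀ (by positivity)]
        have := h3 k r hr
        linarith
      refine (Finset.sum_le_sum h4).trans (le_of_eq ?_)
      rw [Finset.sum_const, nsmul_eq_mul]
    have e2' := mul_le_mul_of_nonneg_left e2 (h16 k)
    have g2 : 16 / (θ * N) * (N * (θ * (1 / (128 * Fintype.card K)))) =
        1 / (8 * Fintype.card K) := by
      field_simp
      norm_num
    rw [g2, Finset.mul_sum] at e2'
    refine le_trans (le_of_eq ?_) e2'
    refine Finset.sum_congr rfl fun ρ _ => ?_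
    show w ρ * (16 / (θ * (Rk k).card) * _) = _
    ring
  have e3 : ∀ k ∈ Kt, ∑ ρ ∈ RS H, w ρ * F3 k ρ ≤ 1 / (8 * Kt.card) := by
    intro k hk
    have hKc : (1 : ℝ) ≤ Kt.card := by exact_mod_cast Finset.card_pos.2 ⟨k, hk⟩
    set N : ℝ := ((Rk k).card : ℝ) with hNd
    have hNp : 0 < N := hN k
    have hθN : 0 < θ * N := mul_pos hθ hNp
    have e3 : ∑ ρ ∈ RS H, w ρ *
        (((Rk k).filter fun r => (ρ r).1 = true ∧ HBig η cls ρ r ∧
          ¬ GoodRoot ρ r (t k r) (qs k r)).card : ℝ) ≤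
        N * (36 * m * W * θ ^ 2) := by
      rw [p12_swap]
      have h4 : ∀ r ∈ Rk k, ∑ ρ ∈ (RS H).filter (fun ρ => (ρ r).1 = true ∧ HBig η cls ρ r ∧
          ¬ GoodRoot ρ r (t k r) (qs k r)), w ρ ≤ 36 * m * W * θ ^ 2 := by
        intro r hr
        refine le_trans ?_ (Pool.Agent.NPC.bad_bound H θ hθ.le hθ' η hη hη' x hηx W hx (t k r) m
          (ht k hk r hr) (qs k r) (hW k hk r) r)
        refine Finset.sum_le_sum_of_subset_of_nonneg ?_ fun ρ _ _ => hw0 ρ
        intro ρ hρ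
        rw [Finset.mem_filter] at hρ ⊢
        obtain ⟨hρ1, hρ2, hρ3, hρ4⟩ := hρ
        refine ⟨hρ1, hρ2, ?_, hρ4⟩
        refine (hρ3 (H r) (hcls r)).trans ?_
        have h5 : ((ρ r).2 ∩ H r).card ≤ ((ρ r).2).card := Finset.card_le_card
          Finset.inter_subset_left
        have h6 : ((((ρ r).2 ∩ H r).card : ℕ) : ℝ) ≤ (((ρ r).2).card : ℝ) := by exact_mod_cast h5
        linarith
      refine (Finset.sum_le_sum h4).trans (le_of_eq ?_)
      rw [Finset.sum_const, nsmul_eq_mul]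
    have e3' := mul_le_mul_of_nonneg_left e3 (h16 k)
    have g3 : 16 / (θ * N) * (N * (36 * m * W * θ ^ 2)) ≤ 1 / (8 * Kt.card) := by
      have g4 : 16 / (θ * N) * (N * (36 * m * W * θ ^ 2)) = 576 * m * W * θ := by
        rw [div_mul_eq_mul_div, div_eq_iff hθN.ne']
        ring
      rw [g4, le_div_iff₀ (by positivity)]
      calc 576 * (m : ℝ) * W * θ * (8 * Kt.card) =
          4608 * (Kt.card : ℝ) * m * W * θ := by ring
        _ ≤ 1 := h1
    refine le_trans (le_of_eq ?_) (e3'.trans g3)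
    rw [Finset.mul_sum]
    refine Finset.sum_congr rfl fun ρ _ => ?_
    show w ρ * (16 / (θ * (Rk k).card) * _) = _
    ring
  have hsum : ∑ ρ ∈ RS H, w ρ * (Φ ρ + (∑ k, (F1 k ρ + F2 k ρ) + ∑ k ∈ Kt, F3 k ρ)) ≤ 7 / 8 := by
    have h4 : ∑ ρ ∈ RS H, w ρ * (Φ ρ + (∑ k, (F1 k ρ + F2 k ρ) + ∑ k ∈ Kt, F3 k ρ)) =
        ∑ ρ ∈ RS H, w ρ * Φ ρ + (∑ k, (∑ ρ ∈ RS H, w ρ * F1 k ρ + ∑ ρ ∈ RS H, w ρ * F2 k ρ) +
          ∑ k ∈ Kt, ∑ ρ ∈ RS H, w ρ * F3 k ρ) := by
      have h5 : ∑ k, (∑ ρ ∈ RS H, w ρ * F1 k ρ + ∑ ρ ∈ RS H, w ρ * F2 k ρ) =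
          ∑ ρ ∈ RS H, w ρ * ∑ k, (F1 k ρ + F2 k ρ) := by
        simp only [← Finset.sum_add_distrib, Finset.mul_sum]
        rw [Finset.sum_comm]
        refine Finset.sum_congr rfl fun ρ _ => Finset.sum_congr rfl fun k _ => ?_
        ring
      have h6 : ∑ k ∈ Kt, ∑ ρ ∈ RS H, w ρ * F3 k ρ = ∑ ρ ∈ RS H, w ρ * ∑ k ∈ Kt, F3 k ρ := by
        simp only [Finset.mul_sum]
        rw [Finset.sum_comm]
      rw [h5, h6, ← Finset.sum_add_distrib, ← Finset.sum_add_distrib]
      refine Finset.sum_congr rfl fun ρ _ => ?_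
      ring
    rw [h4]
    have h7 : ∑ k : K, (∑ ρ ∈ RS H, w ρ * F1 k ρ + ∑ ρ ∈ RS H, w ρ * F2 k ρ) ≤ 1 / 4 := by
      rcases isEmpty_or_nonempty K with hK | hK
      · rw [Finset.univ_eq_empty, Finset.sum_empty]
        norm_num
      · have hKc : (1 : ℝ) ≤ Fintype.card K := by exact_mod_cast Fintype.card_pos
        refine (Finset.sum_le_sum fun k _ => add_le_add (e1 k) (e2 k)).trans (le_of_eq ?_)
        rw [Finset.sum_const, nsmul_eq_mul, Finset.card_univ]
        field_simp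
        norm_num
    have h8 : ∑ k ∈ Kt, ∑ ρ ∈ RS H, w ρ * F3 k ρ ≤ 1 / 8 := by
      rcases Kt.eq_empty_or_nonempty with hK | hK
      · rw [hK, Finset.sum_empty]
        norm_num
      · have hKc : (1 : ℝ) ≤ Kt.card := by exact_mod_cast Finset.card_pos.2 hK
        refine (Finset.sum_le_sum e3).trans (le_of_eq ?_)
        rw [Finset.sum_const, nsmul_eq_mul]
        field_simp
    linarith
  have hge : 1 ≤ ∑ ρ ∈ RS H, w ρ * (Φ ρ + (∑ k, (F1 k ρ + F2 k ρ) + ∑ k ∈ Kt, F3 k ρ)) := by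
    rw [← hw1]
    refine Finset.sum_le_sum fun ρ hρ => ?_
    calc w ρ = w ρ * 1 := (mul_one _).symm
      _ ≤ w ρ * (Φ ρ + (∑ k, (F1 k ρ + F2 k ρ) + ∑ k ∈ Kt, F3 k ρ)) :=
        mul_le_mul_of_nonneg_left (hge1 ρ hρ) (hw0 ρ)
  linarith

end prob


end Pool.Agent.ABI
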