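import Pool.Agent.Lib_helper27.ABIF.Defs2

/-!
-/

set_option autoImplicit false

namespace Pool.Agent.ABI

open Pool.Agent.CK
open Pool.Agent.NPC (Lit St lw tw Cert Term Rst Comp res Stuck RS wt pw GoodRoot HBig te hx NC labs
  rv rq)

section prob

variable {ι Λ : Type} [Fintype ι] [DecidableEq ι] [DecidableEq Λ]

/-- The extension of a choice function by a default value. -/
noncomputable def p9e {α : Type} [DecidableEq α] (d0 : ι × Λ) (I : Finset α)
    (g : ∀ a ∈ I, ι × Λ) : α → ι × Λ := fun a => if h : a ∈ I then g a h else d0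

omit [Fintype ι] [DecidableEq ι] [DecidableEq Λ] in
theorem p9e_inj {α : Type} [DecidableEq α] (d0 : ι × Λ) (I : Finset α) :
    Function.Injective (p9e d0 I) := by
  intro g g' h
  funext a ha
  have := congrFun h a
  simpa [p9e, ha] using this

/-- P9: `X` = `Fintype.piFinset` of the blocks (or `Finset.pi`), uniform weights.  For given `Y`
with `Y ⊆ image` every `y ∈ Y` is in exactly one block, different `y` in different blocks. -/
theorem transversal {α : Type} [DecidableEq α] (d0 : ι × Λ) (I : Finset α)
    (blk : α → Finset (ι × Λ))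
    (hne : ∀ a ∈ I, (blk a).Nonempty)
    (hdis : ∀ a ∈ I, ∀ b ∈ I, a ≠ b → Disjoint (blk a) (blk b)) :
    ∃ (X : Finset (α → ι × Λ)) (w : (α → ι × Λ) → ℝ), (∀ f, 0 ≤ w f) ∧ ∑ f ∈ X, w f = 1 ∧
      (∀ f ∈ X, ∀ a ∈ I, f a ∈ blk a) ∧
      ∀ (c : ℝ) (Y : Finset (ι × Λ)), 0 < c →
        (∀ y ∈ Y, ∀ a ∈ I, y ∈ blk a → c ≤ ((blk a).card : ℝ)) →
        ∑ f ∈ X.filter (fun f => Y ⊆ I.image f), w f ≤ (1 / c) ^ Y.card := by
  classical
  set X : Finset (α → ι × Λ) := (Finset.pi I (fun a => blk a)).image (p9e d0 I) with hX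
  have hcard : X.card = ∏ a ∈ I, (blk a).card := by
    rw [hX, Finset.card_image_of_injective _ (p9e_inj d0 I), Finset.card_pi]
  have hmem : ∀ f ∈ X, ∀ a ∈ I, f a ∈ blk a := by
    intro f hf a ha
    rw [hX, Finset.mem_image] at hf
    obtain ⟨g, hg, rfl⟩ := hf
    rw [Finset.mem_pi] at hg
    simpa [p9e, ha] using hg a ha
  have hpos : 0 < X.card := by
    rw [hcard]
    exact Finset.prod_pos fun a ha => Finset.card_pos.2 (hne a ha)
  have hposR : (0 : ℝ) < (X.card : ℝ) := by exact_mod_cast hpos
  refine ⟨X, fun _ => 1 / (X.card : ℝ), fun f => by positivity, ?_, hmem, ?_⟩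
  · rw [Finset.sum_const, nsmul_eq_mul]
    field_simp
  · intro c Y hc hcY
    rw [Finset.sum_const, nsmul_eq_mul]
    rcases (X.filter (fun f => Y ⊆ I.image f)).eq_empty_or_nonempty with hemp | ⟨f0, hf0⟩
    · rw [hemp]
      simp only [Finset.card_empty, Nat.cast_zero, zero_mul]
      positivity
    · rw [Finset.mem_filter] at hf0
      obtain ⟨hf0X, hf0Y⟩ := hf0
      -- every element of `Y` in a block is the value of `f` on it
      have huniq : ∀ f ∈ X, Y ⊆ I.image f → ∀ a ∈ I, ∀ y ∈ Y, y ∈ blk a → f a = y := by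
        intro f hf hfY a ha y hy hya
        obtain ⟨b, hb, hby⟩ := Finset.mem_image.1 (hfY hy)
        by_cases hab : a = b
        · rw [hab]; exact hby
        · exfalso
          have h1 : y ∈ blk b := by rw [← hby]; exact hmem f hf b hb
          exact (Finset.disjoint_left.1 (hdis a ha b hb hab)) hya h1
      set J : Finset α := I.filter (fun a => f0 a ∈ Y) with hJ
      have hJY : J.card = Y.card := by
        have e1 : J.image f0 = Y := by
          apply Finset.Subset.antisymm
          · intro y hy
            obtain ⟨a, ha, rfl⟩ := Finset.mem_image.1 hy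
            exact (Finset.mem_filter.1 ha).2
          · intro y hy
            obtain ⟨a, ha, rfl⟩ := Finset.mem_image.1 (hf0Y hy)
            exact Finset.mem_image.2 ⟨a, Finset.mem_filter.2 ⟨ha, hy⟩, rfl⟩
        rw [← e1, Finset.card_image_of_injOn]
        intro a ha b hb hab
        have ha' := Finset.mem_filter.1 (Finset.mem_coe.1 ha)
        have hb' := Finset.mem_filter.1 (Finset.mem_coe.1 hb)
        by_contra hne'
        have h1 := hmem f0 hf0X a ha'.1
        have h2 := hmem f0 hf0X b hb'.1
        have hab' : f0 a = f0 b := hab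
        rw [← hab'] at h2
        exact (Finset.disjoint_left.1 (hdis a ha'.1 b hb'.1 hne')) h1 h2
      set blk' : α → Finset (ι × Λ) := fun a => if f0 a ∈ Y then {f0 a} else blk a with hblk'
      have hsub : X.filter (fun f => Y ⊆ I.image f) ⊆
          (Finset.pi I (fun a => blk' a)).image (p9e d0 I) := by
        intro f hf
        obtain ⟨hfX, hfY⟩ := Finset.mem_filter.1 hf
        have hfX' := hfX
        rw [hX, Finset.mem_image] at hfX'
        obtain ⟨g, hg, hgf⟩ := hfX'
        refine Finset.mem_image.2 ⟨g, ?_, hgf⟩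
        rw [Finset.mem_pi]
        intro a ha
        have hga : g a ha = f a := by
          rw [← hgf]; simp [p9e, ha]
        rw [hga]
        simp only [hblk']
        split_ifs with h
        · rw [Finset.mem_singleton]
          exact huniq f hfX hfY a ha (f0 a) h (hmem f0 hf0X a ha)
        · exact hmem f hfX a ha
      have hle : (X.filter (fun f => Y ⊆ I.image f)).card ≤ ∏ a ∈ I, (blk' a).card := by
        refine (Finset.card_le_card hsub).trans ?_
        rw [Finset.card_image_of_injective _ (p9e_inj d0 I), Finset.card_pi]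
      have hprod : (∏ a ∈ I, ((blk' a).card : ℝ)) * ∏ a ∈ J, ((blk a).card : ℝ) =
          (X.card : ℝ) := by
        rw [hcard, hJ, Finset.prod_filter, ← Finset.prod_mul_distrib, Nat.cast_prod]
        apply Finset.prod_congr rfl
        intro a ha
        simp only [hblk']
        split_ifs with h
        · simp
        · simp
      have hcJ : c ^ Y.card ≤ ∏ a ∈ J, ((blk a).card : ℝ) := by
        rw [← hJY, ← Finset.prod_const]
        apply Finset.prod_le_prod (fun _ _ => hc.le)
        intro a ha
        have ha' := Finset.mem_filter.1 ha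
        exact hcY (f0 a) ha'.2 a ha'.1 (hmem f0 hf0X a ha'.1)
      have hle' : ((X.filter (fun f => Y ⊆ I.image f)).card : ℝ) ≤
          ∏ a ∈ I, ((blk' a).card : ℝ) := by
        exact_mod_cast hle
      have h0 : (0 : ℝ) ≤ ∏ a ∈ I, ((blk' a).card : ℝ) :=
        Finset.prod_nonneg fun _ _ => Nat.cast_nonneg _
      have hmain : ((X.filter (fun f => Y ⊆ I.image f)).card : ℝ) * c ^ Y.card ≤ (X.card : ℝ) := by
        rw [← hprod]
        exact mul_le_mul hle' hcJ (by positivity) h0
      rw [mul_one_div, one_div, inv_pow, div_le_iff₀ hposR, inv_mul_eq_div,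
        le_div_iff₀ (pow_pos hc _)]
      exact hmain

end prob


end Pool.Agent.ABI
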