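import Pool.Agent.Lib_helper27.ABIF.Defs2
import Pool.Agent.Lib_helper64.NPC.Blk.A13
import Pool.Agent.Lib_helper64.NPC.Blk.F5c
import Pool.Agent.Lib_helper64.NPC.Blk.F8
import Pool.Agent.Lib_helper27.ABIF.B.F1
import Pool.Agent.Lib_helper27.ABIF.B.F7

/-!
-/

set_option autoImplicit false

namespace Pool.Agent.ABI

open Pool.Agent.CK
open Pool.Agent.NPC (Lit St lw tw Cert Term Rst Comp res Stuck RS wt pw GoodRoot HBig te hx NC labs
  rv rq)
open Pool.Agent.ABO (Par Lvl lev CircF hits)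
open Pool.Agent.TD.IS (PosI Stg patchI simI)
open Pool.Agent.TD (Lam dd)

/-- the state of the abstract layer -/
noncomputable def f8_st {U : Finset Str} (ρ : Rst {r // r ∈ U} Str) (ω : St) :
    {r // r ∈ U} × Str → Bool := fun p => rst ρ ω (p.1.1, p.2)

theorem f8_est {U : Finset Str} (ρ : Rst {r // r ∈ U} Str) (ω : St) :
    est (f8_st ρ ω) = rst ρ ω := by
  funext p
  unfold est
  split_ifs with h
  · rfl
  · unfold rst
    rw [dif_neg h]

theorem f8_comp {U : Finset Str} (ρ : Rst {r // r ∈ U} Str) (ω : St) : Comp ρ (f8_st ρ ω) := by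
  intro r l
  refine ⟨fun hl => ?_, fun hr hl => ?_⟩
  · unfold f8_st rst
    rw [dif_pos r.2]
    split_ifs
    · simp [hl]
    · simp [hl]
  · unfold f8_st rst
    rw [dif_pos r.2, hr]
    simp [hl]

theorem f8_alive {U : Finset Str} (ρ : Rst {r // r ∈ U} Str) (ω : St) (u : {r // r ∈ U})
    (hu : (ρ u).1 = true) (l : Str) :
    f8_st ρ ω (u, l) = (ω (u.1, l) && decide (l ∈ (ρ u).2)) := by
  unfold f8_st rst
  rw [dif_pos u.2, if_pos hu]

theorem good_restr (A B : Fam) (U : Finset Str) (hU : A.R ⊆ U) (L : ℕ) (hL : 16 ≤ L)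
    (ρ : Rst {r // r ∈ U} Str) (hρ : ∀ r, (ρ r).2 ⊆ A.H r.1)
    (hBR : ∀ r : {r // r ∈ U}, r.1 ∈ B.R ↔ r.1 ∈ A.R ∧ (ρ r).1 = true)
    (hBH : ∀ r : {r // r ∈ U}, B.H r.1 = (ρ r).2) (hBF : ∀ ω, B.F ω = A.F (rst ρ ω))
    (m : ℕ × ℕ) (b : ℕ) (hb : (b + 2) ^ ((m.2 + 2) * (m.1 + 2)) ≤ L)
    (qs : Str → List (Term {r // r ∈ U} Str × Bool))
    (hq1 : ∀ w, ∀ t ∈ qs w, t.1.size ≤ L ^ 2)
    (hq2 : ∀ w, ∀ t ∈ qs w, ∀ ω, t.1.Holds ω → nf A U m.1 w ω = t.2)
    (hq3 : ∀ w : Str, w.length ≤ b + (b + 2) ^ ex m.2 → ∀ ω, nf A U m.1 w ω = true →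
      ∃ t ∈ qs w, t.1.Holds ω)
    (hq4 : ∀ w : Str, w.length ≤ b + (b + 2) ^ ex m.2 → (¬ ∃ q, w = true :: q) →
      ∀ ω, ∃ t ∈ qs w, t.1.Holds ω)
    (u : {r // r ∈ U}) (hub : u.1.length = b) (huk : u.1 ∈ B.R)
    (hg : GoodRoot ρ u (PT m.2 u.1) qs) (hbig : 4 * L * L ^ 2 < (ρ u).2.card) :
    (∃ T : Finset Str, (T = ∅ ∨ ∃ l ∈ B.H u.1, T = {l}) ∧ WrongAt B m u.1 T) ∨
    ∃ (q : Str) (S : Finset Str),
      (q.length + 2) ^ (m.1 + 2) ≤ (b + 2) ^ ((m.2 + 2) * (m.1 + 2)) ∧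
      (ρ u).2.card ≤ L ^ 4 * S.card ∧ HGood B m.1 u.1 q S := by
  have hnum := NPC.F8_a_lt hb
  have hall : (PT m.2 u.1).AllQ (fun w => w.length ≤ b + (b + 2) ^ ex m.2) := by
    have := allQ_PT m.2 u.1
    rwa [hub] at this
  have hdep : (PT m.2 u.1).depth ≤ L := by
    have := depth_PT m.2 u.1
    rw [hub] at this
    exact this.trans hnum.2.2.2
  obtain ⟨huA, hua⟩ := (hBR u).1 huk
  -- the computation of the family `B`
  have hev : ∀ ω : St, (PT m.2 u.1).eval (fun w => nf A U m.1 w (f8_st ρ ω)) =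
      PL m.2 (join (B.F ω) (NL m.1 (B.F ω))) u.1 := by
    intro ω
    have e2 : (fun w => nf A U m.1 w (f8_st ρ ω)) = join (B.F ω) (NL m.1 (B.F ω)) := by
      funext w
      unfold nf
      rw [f8_est, ← hBF]
    rw [e2, eval_PT]
  have hV : ∀ ω : St, (V (B.F ω) u.1 = true ↔ ∃ l, f8_st ρ ω (u, l) = true) := by
    intro ω
    rw [V_free B huk]
    constructor
    · rintro ⟨l, hl, hl'⟩
      refine ⟨l, ?_⟩
      rw [f8_alive ρ ω u hua, hl']
      rw [hBH] at hl
      simp [hl]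
    · rintro ⟨l, hl⟩
      rw [f8_alive ρ ω u hua, Bool.and_eq_true, decide_eq_true_iff] at hl
      refine ⟨l, ?_, hl.1⟩
      rw [hBH]
      exact hl.2
  rcases good_slot2 ρ u (PT m.2 u.1) qs (nf A U m.1)
    (fun w => w.length ≤ b + (b + 2) ^ ex m.2) hall L (L ^ 2) hdep (fun w _ => hq1 w)
    (fun w _ => hq2 w) hq3 hq4 hg hbig with ⟨T, hT, hbad⟩ | ⟨q, hqP, S, hS, hcard, hgood⟩
  · left
    refine ⟨T, ?_, ?_⟩
    · rcases hT with rfl | ⟨l, hl, rfl⟩
      · exact Or.inl rfl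
      · refine Or.inr ⟨l, ?_, rfl⟩
        rw [hBH]
        exact hl
    · intro ω hω heq
      have hTsub : ∀ l ∈ T, l ∈ (ρ u).2 := by
        rcases hT with rfl | ⟨l, hl, rfl⟩
        · intro l hl
          simp at hl
        · intro l' hl'
          rw [Finset.mem_singleton] at hl'
          rw [hl']
          exact hl
      refine hbad (f8_st ρ ω) (f8_comp ρ ω) ?_ ?_
      · intro l
        rw [f8_alive ρ ω u hua, Bool.and_eq_true, decide_eq_true_iff]
        constructor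
        · rintro ⟨h1, h2⟩
          have h3 := hω l (by rw [hBH]; exact h2)
          rw [h1] at h3
          exact of_decide_eq_true h3.symm
        · intro h
          have h2 := hTsub l h
          refine ⟨?_, h2⟩
          rw [hω l (by rw [hBH]; exact h2)]
          exact decide_eq_true h
      · rw [hev, heq, hV]
  · right
    refine ⟨q, S, ?_, ?_, ?_, ?_⟩
    · have h1 : q.length + 2 ≤ (b + 2) ^ (m.2 + 2) := by
        have := NPC.F8_a b m.2
        simp only [List.length_cons] at hqP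
        omega
      rw [pow_mul]
      exact Nat.pow_le_pow_left h1 _
    · refine hcard.trans ?_
      rw [mul_comm]
      exact Nat.mul_le_mul_right _ (NPC.F8_num1 hL)
    · rw [hBH u]
      exact hS
    · intro ω hω
      have e2 := hgood (f8_st ρ ω) (f8_comp ρ ω) (by
        intro l hl
        rw [f8_alive ρ ω u hua, Bool.and_eq_true, decide_eq_true_iff] at hl
        refine hω l ?_ hl.1
        rw [hBH u]
        exact hl.2)
      have e3 : nf A U m.1 (true :: q) (f8_st ρ ω) = NL m.1 (B.F ω) q := by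
        unfold nf
        rw [f8_est, ← hBF]
        rfl
      rw [e3] at e2
      rw [e2]
      constructor
      · rintro ⟨l, hl⟩
        rw [f8_alive ρ ω u hua, Bool.and_eq_true, decide_eq_true_iff] at hl
        refine ⟨l, hω l ?_ hl.1, hl.1⟩
        rw [hBH u]
        exact hl.2
      · rintro ⟨l, hl, hl'⟩
        refine ⟨l, ?_⟩
        rw [f8_alive ρ ω u hua, hl']
        simp [hS hl]


end Pool.Agent.ABI
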