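import Pool.Agent.Lib_helper27.ABIF.Defs2

/-!
-/

set_option autoImplicit false

namespace Pool.Agent.ABI

open Pool.Agent.CK
open Pool.Agent.NPC (Lit St lw tw Cert Term Rst Comp res Stuck RS wt pw GoodRoot HBig te hx NC labs
  rv rq)
open Pool.Agent.ABO (Par Lvl lev CircF hits Fml Gate Circuit Game Hard Desc cst cTree gsz)
open Pool.Agent.TD.IS (PosI Stg patchI simI)
open Pool.Agent.TD (Lam dd)

theorem n3_pw {a b : ℕ} (h : a ≤ b) : 2 ^ a ≤ 2 ^ b := Nat.pow_le_pow_right (by norm_num) h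

theorem n3_add {x y a b c : ℕ} (hx : x ≤ 2 ^ a) (hy : y ≤ 2 ^ b) (ha : a + 1 ≤ c)
    (hb : b + 1 ≤ c) : x + y ≤ 2 ^ c := by
  obtain ⟨d, rfl⟩ : ∃ d, c = d + 1 := ⟨c - 1, by omega⟩
  have h2 : 2 ^ d + 2 ^ d = 2 ^ (d + 1) := by ring
  rw [← h2]
  exact add_le_add (hx.trans (n3_pw (by omega))) (hy.trans (n3_pw (by omega)))

theorem n3_mul {x y a b c : ℕ} (hx : x ≤ 2 ^ a) (hy : y ≤ 2 ^ b) (h : a + b ≤ c) :
    x * y ≤ 2 ^ c := by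
  calc x * y ≤ 2 ^ a * 2 ^ b := Nat.mul_le_mul hx hy
    _ = 2 ^ (a + b) := (pow_add 2 a b).symm
    _ ≤ 2 ^ c := n3_pw h

/-- N3 -/
theorem stage_le {J N n : ℕ} (hJ : 16 ≤ J) (hN : N = 2 ^ 2 ^ J) (hc : N ≤ dd n) :
    2 ^ J ≤ Lam n ∧ 2 * J + 2 ≤ Kn n := by
  have h1 : 2 ^ J ≤ Lam n := by
    rw [hN] at hc
    unfold dd at hc
    exact (Nat.pow_le_pow_iff_right (by norm_num)).mp hc
  refine ⟨h1, ?_⟩
  have h2 : J ≤ Nat.log 2 (Lam n) := by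
    have h3 : Lam n ≠ 0 := by
      have : 0 < 2 ^ J := by positivity
      omega
    exact (Nat.le_log_iff_pow_le (by norm_num) h3).mpr h1
  unfold Kn
  omega

/-- N3 -/
theorem uu_step {k n : ℕ} (h : k + 1 ≤ Kn n) : uu k n = uu (k + 1) n + 64 * Lb n := by
  unfold uu
  obtain ⟨r, hr⟩ : ∃ r, Kn n - k = r + 1 := ⟨Kn n - k - 1, by omega⟩
  have hr' : Kn n - (k + 1) = r := by omega
  rw [hr, hr']
  ring

/-- N3 -/
theorem uu_anti (k n : ℕ) : uu (k + 1) n ≤ uu k n := by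
  unfold uu
  exact Nat.add_le_add_left (Nat.mul_le_mul_left _ (by omega)) _

theorem n3_uu0 (k n : ℕ) : uu k n ≤ uu 0 n := by
  unfold uu
  exact Nat.add_le_add_left (Nat.mul_le_mul_left _ (by omega)) _

theorem n3_low (k n : ℕ) : n / 4 + 20 * Lb n ≤ uu k n := by
  unfold uu
  exact Nat.le_add_right _ _

/-- N3 -/
theorem eta_step {k n : ℕ} (h : k + 1 ≤ Kn n) : eta (k + 1) n = 32 * eta k n := by
  unfold eta
  obtain ⟨r, hr⟩ : ∃ r, Kn n - k = r + 1 := ⟨Kn n - k - 1, by omega⟩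
  have hr' : Kn n - (k + 1) = r := by omega
  rw [hr, hr']
  have h1 : Lam n + 2 + 5 * (r + 1) = (Lam n + 2 + 5 * r) + 5 := by ring
  rw [h1, pow_add ((1 : ℝ) / 2) (Lam n + 2 + 5 * r) 5]
  norm_num
  ring

/-- N3 -/
theorem eta_mono (k n : ℕ) : 0 < eta k n ∧ eta k n ≤ eta (k + 1) n ∧ eta k n ≤ 1 / 4 := by
  unfold eta
  refine ⟨by positivity, ?_, ?_⟩
  · exact pow_le_pow_of_le_one (by norm_num) (by norm_num) (by omega)
  · calc ((1 : ℝ) / 2) ^ (Lam n + 2 + 5 * (Kn n - k)) ≤ (1 / 2) ^ 2 :=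
        pow_le_pow_of_le_one (by norm_num) (by norm_num) (by omega)
      _ = 1 / 4 := by norm_num

theorem n3_Lb (n : ℕ) : Lam n + 32 * Kn n + 64 = Lb n := rfl

/-- N3: number of circuits, sum over the games -/
theorem num_circ2 {n u : ℕ} (hn : NumL n) (h1 : n / 4 ≤ u) (h2 : u ≤ n) :
    (u + 4) * (2 ^ u + 4) + (dd n + n + 4) ≤ 2 ^ (u + Lb n) := by
  have hL := hn.hLam
  have hd := hn.hdd
  have h16 := hn.h16
  have hLb := n3_Lb n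
  have hu : u + 4 ≤ 2 ^ Lam n := by nlinarith
  have hu4 : 2 ^ u + 4 ≤ 2 ^ (u + 1) := by
    have h3 : 2 ^ 2 ≤ 2 ^ u := n3_pw (by omega)
    rw [pow_succ]
    omega
  have hA : (u + 4) * (2 ^ u + 4) ≤ 2 ^ (Lam n + u + 1) := n3_mul hu hu4 (by omega)
  have hB : dd n + n + 4 ≤ 2 ^ (Lam n + 1) := by
    unfold dd
    have h4 : n + 4 ≤ 2 ^ Lam n := by nlinarith
    rw [pow_succ]
    omega
  exact n3_add hA hB (by omega) (by omega)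

/-- N3: the density is small: `2 (dd n)² del n ≤ eta k n / 16` -/
theorem del_small {n : ℕ} (hn : NumL n) (k : ℕ) :
    16 * (2 * (dd n : ℝ) ^ 2 * del n) ≤ eta k n := by
  have hLb := n3_Lb n
  unfold dd del eta hh
  push_cast
  have h1 : (16 : ℝ) * (2 * (2 ^ Lam n) ^ 2 * (1 / 2) ^ (8 * Lb n)) =
      2 ^ (5 + 2 * Lam n) * (1 / 2) ^ (8 * Lb n) := by
    rw [pow_add, ← pow_mul (2 : ℝ) (Lam n) 2, mul_comm (Lam n) 2]
    ring
  rw [h1]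
  obtain ⟨d, hd⟩ : ∃ d, 8 * Lb n = (5 + 2 * Lam n) + (Lam n + 2 + 5 * (Kn n - k)) + d :=
    ⟨8 * Lb n - ((5 + 2 * Lam n) + (Lam n + 2 + 5 * (Kn n - k))), by omega⟩
  rw [hd, pow_add ((1 : ℝ) / 2) _ d, pow_add ((1 : ℝ) / 2) (5 + 2 * Lam n)]
  have h2 : (2 : ℝ) ^ (5 + 2 * Lam n) * (1 / 2) ^ (5 + 2 * Lam n) = 1 := by
    rw [← mul_pow]
    norm_num
  have h3 : ((1 : ℝ) / 2) ^ d ≤ 1 := pow_le_one₀ (by norm_num) (by norm_num)
  have h4 : (0 : ℝ) ≤ (1 / 2) ^ (Lam n + 2 + 5 * (Kn n - k)) := by positivity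
  calc (2 : ℝ) ^ (5 + 2 * Lam n) * ((1 / 2) ^ (5 + 2 * Lam n) *
        (1 / 2) ^ (Lam n + 2 + 5 * (Kn n - k)) * (1 / 2) ^ d)
      = ((2 : ℝ) ^ (5 + 2 * Lam n) * (1 / 2) ^ (5 + 2 * Lam n)) *
        ((1 / 2) ^ (Lam n + 2 + 5 * (Kn n - k)) * (1 / 2) ^ d) := by ring
    _ = (1 / 2) ^ (Lam n + 2 + 5 * (Kn n - k)) * (1 / 2) ^ d := by rw [h2, one_mul]
    _ ≤ (1 / 2) ^ (Lam n + 2 + 5 * (Kn n - k)) * 1 := mul_le_mul_of_nonneg_left h3 h4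
    _ = _ := mul_one _

/-- N3: costs of hard-wired literals -/
theorem num_kap {n : ℕ} (hn : NumL n) (k : ℕ) :
    (dd n + 1) * (kap0 n + dd n) + 1 ≤ 2 ^ uu k n ∧ kap0 n ≤ 2 ^ uu k n := by
  have hL := hn.hLam
  have hLb := n3_Lb n
  have hlow := n3_low k n
  unfold kap0 dd
  have hone : 1 ≤ 2 ^ Lam n := Nat.one_le_two_pow
  have h1 : 2 ^ Lam n + 1 ≤ 2 ^ (Lam n + 1) := by
    rw [pow_succ]
    omega
  have h2 : 2 ^ (n / 8 + 1) + 2 ^ Lam n ≤ 2 ^ (n / 8 + 1 + Lam n + 1) :=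
    n3_add (le_refl _) (le_refl _) (by omega) (by omega)
  refine ⟨?_, n3_pw (by omega)⟩
  have h3 := n3_mul h1 h2 (le_refl _)
  exact n3_add h3 (b := 0) (by norm_num) (by omega) (by omega)

/-- N3 -/
theorem uu_ge {n : ℕ} (hn : NumL n) (k : ℕ) : n / 4 ≤ uu k n ∧ uu k n + 16 * Lb n + 64 ≤ n ∧
    dd n + 1 ≤ 2 ^ uu k n ∧ Lam n + 64 ≤ Lb n := by
  have hL := hn.hLam
  have hLb := n3_Lb n
  have hlow := n3_low k n
  have h0 := n3_uu0 k n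
  have hu := hn.huu
  refine ⟨by omega, by omega, ?_, by omega⟩
  unfold dd
  have hone : 1 ≤ 2 ^ Lam n := Nat.one_le_two_pow
  calc 2 ^ Lam n + 1 ≤ 2 ^ (Lam n + 1) := by
        rw [pow_succ]
        omega
    _ ≤ 2 ^ uu k n := n3_pw (by omega)


end Pool.Agent.ABI
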