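import Pool.Agent.Lib_helper27.ABIF.Defs2
import Pool.Agent.Lib_helper27.ABO.B.LV1
import Pool.Agent.Lib_helper27.ABO.B.LV2
import Pool.Agent.Lib_helper27.ABO.B.CB
import Pool.Agent.Lib_helper27.ABIF.B.P10

set_option autoImplicit false

namespace Pool.Agent.ABI

open Pool.Agent.CK
open Pool.Agent.NPC (Lit St lw tw Cert Term Rst Comp res Stuck RS wt pw GoodRoot HBig te hx NC labs
  rv rq)
open Pool.Agent.ABO (Par Lvl lev CircF hits Fml Gate Circuit Game Hard Desc cst cTree gsz)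
open Pool.Agent.TD.IS (PosI Stg patchI simI)
open Pool.Agent.TD (Lam dd)

theorem conc_finite {P : Par} (hP : P.OK) (n0 J N : ℕ) : {g | Conc P n0 J N g}.Finite := by
  refine ((Set.finite_lt_nat (8 * Lj N J)).biUnion fun n _ => hP.fin (dd n)).subset ?_
  intro g hg
  obtain ⟨-, -, h3⟩ := hg
  rw [Set.mem_iUnion₂]
  exact ⟨lv P g, h3, (ABO.nn_spec (P.t g)).2⟩

open Classical in
theorem rb_choice {P : Par} (hP : P.OK) (n0 J N : ℕ) {𝒳 : Type} (X0 : Finset 𝒳) (w : 𝒳 → ℝ)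
    (hw : ∀ x ∈ X0, 0 ≤ w x) (hw1 : ∑ x ∈ X0, w x = 1) (bad : 𝒳 → Prop)
    (hbad : ∑ x ∈ X0.filter bad, w x ≤ 1 / 2)
    (rk : ∀ g, (X (P.G g).s → DT Str) → 𝒳 → ℝ) (h0 : ∀ g A x, 0 ≤ rk g A x) (u b : ℕ → ℕ)
    (hu : ∀ g, Conc P n0 J N g → 1 ≤ u (lv P g))
    (hE : ∀ g, Conc P n0 J N g → ∀ A ∈ CircF (P.G g) (2 ^ u (lv P g)) (dd (lv P g)),
      ∑ x ∈ X0, w x * rk g A x ≤ (1 / 2) ^ (b (lv P g) + ((u (lv P g) + 4) *
        (2 ^ u (lv P g) + 4) + (dd (lv P g) + lv P g + 4)))) :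
    ∃ x ∈ X0, w x ≠ 0 ∧ ¬ bad x ∧ ∀ g, Conc P n0 J N g →
      ∀ A ∈ CircF (P.G g) (2 ^ u (lv P g)) (dd (lv P g)), rk g A x ≤ (1 / 2) ^ b (lv P g) := by
  have hfin := conc_finite hP n0 J N
  have hc : ∑ g ∈ hfin.toFinset, (1 / 2 : ℝ) ^ (dd (lv P g) + lv P g + 4) < 1 / 2 := by
    have h := ABO.lev_sum hP (hfin.toFinset.map ⟨Sum.inr, Sum.inr_injective⟩)
    rw [Finset.sum_map] at h
    exact h
  obtain ⟨x, hx, hx1, hx2, hx3⟩ := choice X0 w hw hfin.toFinset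
    (T := fun g => X (P.G g).s → DT Str)
    (fun g => CircF (P.G g) (2 ^ u (lv P g)) (dd (lv P g))) rk h0
    (fun g => (u (lv P g) + 4) * (2 ^ u (lv P g) + 4)) (fun g => b (lv P g))
    (fun g => dd (lv P g) + lv P g + 4)
    (fun g hg => ABO.card_circ (P.G g) (u (lv P g)) (dd (lv P g))
      (hu g (hfin.mem_toFinset.1 hg)))
    (fun g hg A hA => by
      have h := hE g (hfin.mem_toFinset.1 hg) A hA
      rw [← add_assoc] at h
      exact h)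
    hc bad (by rw [hw1]; linarith)
  exact ⟨x, hx, hx1, hx2, fun g hg A hA => hx3 g (hfin.mem_toFinset.2 hg) A hA⟩

end Pool.Agent.ABI

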