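import Pool.Agent.Lib_helper27.ABIF.Defs2
import Pool.Agent.Lib_helper64.NPC.Blk.F8
import Pool.Agent.Lib_helper27.ABIF.B.F5
import Pool.Agent.Lib_helper27.ABIF.B.F6
import Pool.Agent.Lib_helper27.ABIF.B.F8
import Pool.Agent.Lib_helper27.ABIF.B.G1
import Pool.Agent.Lib_helper27.ABIF.B.N2
import Pool.Agent.Lib_helper27.ABIF.B.N3
import Pool.Agent.Lib_helper27.ABIF.B.N7
import Pool.Agent.Lib_helper27.ABIF.B.P12
import Pool.Agent.Lib_helper27.ABIF.B.U1
import Pool.Agent.Lib_helper27.ABIF.B.U2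

set_option autoImplicit false

namespace Pool.Agent.ABI

open Pool.Agent.CK
open Pool.Agent.NPC (Lit St lw tw Cert Term Rst Comp res Stuck RS wt pw GoodRoot HBig te hx NC labs
  rv rq)
open Pool.Agent.ABO (Par Lvl lev CircF hits Fml Gate Circuit Game Hard Desc cst cTree gsz)
open Pool.Agent.TD.IS (PosI Stg patchI simI)
open Pool.Agent.TD (Lam dd)

/-! ### Numbers -/

theorem s1_pow {a b c e : ℕ} (h : c + e + b ≤ a) :
    (2 : ℝ) ^ c * ((2 : ℝ) ^ b * (1 / 2) ^ a) ≤ (1 / 2) ^ e := by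
  have h1 : (1 / 2 : ℝ) ^ a ≤ (1 / 2) ^ (c + e + b) :=
    pow_le_pow_of_le_one (by norm_num) (by norm_num) h
  have h2 : (1 / 2 : ℝ) ^ (c + e + b) = (1 / 2) ^ c * (1 / 2) ^ e * (1 / 2) ^ b := by
    rw [pow_add, pow_add]
  have h3 : (2 : ℝ) ^ c * (1 / 2) ^ c = 1 := by rw [← mul_pow]; norm_num
  have h4 : (2 : ℝ) ^ b * (1 / 2) ^ b = 1 := by rw [← mul_pow]; norm_num
  calc (2 : ℝ) ^ c * ((2 : ℝ) ^ b * (1 / 2) ^ a)
      ≤ (2 : ℝ) ^ c * ((2 : ℝ) ^ b * ((1 / 2) ^ c * (1 / 2) ^ e * (1 / 2) ^ b)) := by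
        rw [← h2]
        exact mul_le_mul_of_nonneg_left (mul_le_mul_of_nonneg_left h1 (by positivity))
          (by positivity)
    _ = ((2 : ℝ) ^ c * (1 / 2) ^ c) * ((2 : ℝ) ^ b * (1 / 2) ^ b) * (1 / 2) ^ e := by ring
    _ = (1 / 2) ^ e := by rw [h3, h4]; ring

theorem s1_ux_pos (k c n : ℕ) (hc : 1 ≤ c) : 1 ≤ ux k c n := by
  unfold ux Lb
  have : 1 * 64 ≤ c * (Lam n + 32 * Kn n + 64) := Nat.mul_le_mul hc (by omega)
  omega

theorem s1_num {n k : ℕ} (hn : NumL n) (hk : k + 1 ≤ Kn n) :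
    (ux k 44 n + 4) * (2 ^ ux k 44 n + 4) + (dd n + n + 4) + 2 ^ ux k 53 n ≤ 2 ^ ux k 54 n := by
  have h1 := (uu_ge hn (k + 1)).1
  have h2 := (uu_ge hn k).2.1
  have h3 := uu_step hk
  have h4 : n / 4 ≤ ux k 44 n := by unfold ux; omega
  have h5 : ux k 44 n ≤ n := by unfold ux; omega
  have h6 := num_circ2 hn h4 h5
  have h7 : 64 ≤ Lb n := by unfold Lb; omega
  have h8 : ux k 44 n + Lb n ≤ ux k 53 n := by unfold ux; omega
  have h9 : ux k 53 n + 1 ≤ ux k 54 n := by unfold ux; omega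
  have h10 : 2 ^ (ux k 44 n + Lb n) ≤ 2 ^ ux k 53 n := Nat.pow_le_pow_right (by norm_num) h8
  have h11 : 2 ^ (ux k 53 n + 1) ≤ 2 ^ ux k 54 n := Nat.pow_le_pow_right (by norm_num) h9
  have h12 : 2 ^ (ux k 53 n + 1) = 2 ^ ux k 53 n + 2 ^ ux k 53 n := by rw [pow_succ]; ring
  omega

theorem s1_mem_RS {ι Λ : Type} [Fintype ι] [DecidableEq ι] {H : ι → Finset Λ} {ρ : Rst ι Λ}
    (h : ρ ∈ RS H) (r : ι) : (ρ r).2 ⊆ H r := by
  have h1 := Fintype.mem_piFinset.1 h r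
  exact Finset.mem_powerset.1 (Finset.mem_product.1 h1).2

/-- the slots of the epoch -/
theorem s1_mem_Us {J N : ℕ} {r : Str} (h : r ∈ Us J N) : N ≤ 2 * r.length + 2 ∧
    2 * r.length + 2 < Lj N J := by
  unfold Us at h
  exact (Finset.mem_filter.1 h).2

/-- The cost function. -/
noncomputable def s1_C (P : Par) (k : ℕ) (g : ℕ) : Finset (X (P.G g).s → DT Str) :=
  (ABO.card_circ (P.G g) (ux k 44 (lv P g)) (dd (lv P g)) (s1_ux_pos _ _ _ (by norm_num))).1.toFinset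

theorem s1_mem_C {P : Par} {k g : ℕ} {A : X (P.G g).s → DT Str} :
    A ∈ s1_C P k g ↔ A ∈ CircF (P.G g) (2 ^ ux k 44 (lv P g)) (dd (lv P g)) := by
  unfold s1_C
  rw [Set.Finite.mem_toFinset]

theorem s1_card_C (P : Par) (k g : ℕ) :
    ((s1_C P k g).card : ℝ) ≤ 2 ^ ((ux k 44 (lv P g) + 4) * (2 ^ ux k 44 (lv P g) + 4)) := by
  have h := (ABO.card_circ (P.G g) (ux k 44 (lv P g)) (dd (lv P g))
    (s1_ux_pos _ _ _ (by norm_num))).2
  rw [Set.ncard_eq_toFinset_card _ (ABO.card_circ (P.G g) (ux k 44 (lv P g)) (dd (lv P g))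
    (s1_ux_pos _ _ _ (by norm_num))).1] at h
  exact_mod_cast h

/-- The cost function. -/
noncomputable def s1_Phi {P : Par} (hP : P.OK) (n0 J N j : ℕ) (B : Fam) : ℝ :=
  ∑ g ∈ (conc_finite hP n0 J N).toFinset, ∑ Adv ∈ s1_C P (J + j) g,
    2 ^ 2 ^ ux (J + j) 53 (lv P g) *
      Risk J N (j + 1) B Adv (thr P g (2 * eta (J + j) (lv P g)))

theorem s1_Phi_nonneg {P : Par} (hP : P.OK) (n0 J N j : ℕ) (hN : 2 ≤ N) (B : Fam) :
    0 ≤ s1_Phi hP n0 J N j B := by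
  unfold s1_Phi
  refine Finset.sum_nonneg fun g _ => Finset.sum_nonneg fun Adv _ => ?_
  exact mul_nonneg (by positivity) (risk_nonneg J N (j + 1) B Adv _ hN)

theorem s1_Phi_rb {P : Par} (hP : P.OK) (n0 J N j : ℕ) (hN : 2 ≤ N) (B : Fam)
    (h : s1_Phi hP n0 J N j B < 1) :
    RB P n0 J N (j + 1) B (ux (J + j) 44) (fun n => 2 * eta (J + j) n)
      (fun n => 2 ^ ux (J + j) 53 n) := by
  intro g hg Adv hAdv
  have h1 : ∑ Adv ∈ s1_C P (J + j) g, (2 : ℝ) ^ 2 ^ ux (J + j) 53 (lv P g) *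
      Risk J N (j + 1) B Adv (thr P g (2 * eta (J + j) (lv P g))) ≤ s1_Phi hP n0 J N j B := by
    unfold s1_Phi
    refine Finset.single_le_sum (f := fun g => ∑ Adv ∈ s1_C P (J + j) g,
      (2 : ℝ) ^ 2 ^ ux (J + j) 53 (lv P g) *
      Risk J N (j + 1) B Adv (thr P g (2 * eta (J + j) (lv P g)))) ?_ ?_
    · intro g' _
      refine Finset.sum_nonneg fun Adv _ => ?_
      exact mul_nonneg (by positivity) (risk_nonneg J N (j + 1) B Adv _ hN)
    · rw [Set.Finite.mem_toFinset]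
      exact hg
  have h2 : (2 : ℝ) ^ 2 ^ ux (J + j) 53 (lv P g) *
      Risk J N (j + 1) B Adv (thr P g (2 * eta (J + j) (lv P g))) ≤
      ∑ Adv ∈ s1_C P (J + j) g, (2 : ℝ) ^ 2 ^ ux (J + j) 53 (lv P g) *
        Risk J N (j + 1) B Adv (thr P g (2 * eta (J + j) (lv P g))) := by
    refine Finset.single_le_sum (f := fun Adv => (2 : ℝ) ^ 2 ^ ux (J + j) 53 (lv P g) *
      Risk J N (j + 1) B Adv (thr P g (2 * eta (J + j) (lv P g)))) ?_ (s1_mem_C.2 hAdv)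
    intro Adv _
    exact mul_nonneg (by positivity) (risk_nonneg J N (j + 1) B Adv _ hN)
  have h3 : (2 : ℝ) ^ 2 ^ ux (J + j) 53 (lv P g) *
      Risk J N (j + 1) B Adv (thr P g (2 * eta (J + j) (lv P g))) < 1 :=
    (h2.trans h1).trans_lt h
  have h4 : (2 : ℝ) ^ 2 ^ ux (J + j) 53 (lv P g) * (1 / 2) ^ 2 ^ ux (J + j) 53 (lv P g) = 1 := by
    rw [← mul_pow]; norm_num
  have h5 : (0 : ℝ) < 2 ^ 2 ^ ux (J + j) 53 (lv P g) := by positivity
  show Risk J N (j + 1) B Adv (thr P g (2 * eta (J + j) (lv P g))) ≤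
    (1 / 2) ^ 2 ^ ux (J + j) 53 (lv P g)
  rw [← h4] at h3
  exact (lt_of_mul_lt_mul_left h3 h5.le).le

/-- the expectation of the cost -/
theorem s1_Phi_exp {P : Par} (hP : P.OK) {n0 : ℕ} (hn0 : ∀ n, n0 ≤ n → NumL n) {J N j : ℕ}
    (hJ : 16 ≤ J) (hN : N = 2 ^ 2 ^ J) (hj : j < J) (A : Fam) (hU : A.R ⊆ Us J N)
    (hRB : RB P n0 J N j A (ux (J + j) 44) (fun n => 2 * eta (J + j) n)
      (fun n => 2 ^ ux (J + j) 54 n)) (B : Rst {r // r ∈ Us J N} Str → Fam)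
    (hBH : ∀ ρ ∈ RS (fun r : {r // r ∈ Us J N} => A.H r.1), ∀ r : {r // r ∈ Us J N},
      (B ρ).H r.1 = (ρ r).2)
    (hBF : ∀ ρ ∈ RS (fun r : {r // r ∈ Us J N} => A.H r.1), ∀ ω, (B ρ).F ω = A.F (rst ρ ω)) :
    ∑ ρ ∈ RS (fun r : {r // r ∈ Us J N} => A.H r.1),
      wt (pw (1 / (Lj N j : ℝ) ^ 8) (fun r : {r // r ∈ Us J N} => et J r.1.length)
        (fun r => A.H r.1)) ρ * s1_Phi hP n0 J N j (B ρ) ≤ 1 / 2 := by
  have h1 : ∑ ρ ∈ RS (fun r : {r // r ∈ Us J N} => A.H r.1),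
      wt (pw (1 / (Lj N j : ℝ) ^ 8) (fun r : {r // r ∈ Us J N} => et J r.1.length)
        (fun r => A.H r.1)) ρ * s1_Phi hP n0 J N j (B ρ) =
      ∑ g ∈ (conc_finite hP n0 J N).toFinset, ∑ Adv ∈ s1_C P (J + j) g,
        2 ^ 2 ^ ux (J + j) 53 (lv P g) *
          Risk J N j A Adv (thr P g (2 * eta (J + j) (lv P g))) := by
    unfold s1_Phi
    simp_rw [Finset.mul_sum]
    rw [Finset.sum_comm]
    refine Finset.sum_congr rfl fun g _ => ?_
    rw [Finset.sum_comm]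
    refine Finset.sum_congr rfl fun Adv _ => ?_
    rw [risk_restrict hJ hN hj A hU B hBH hBF Adv, Finset.mul_sum]
    refine Finset.sum_congr rfl fun ρ _ => ?_
    ring
  rw [h1]
  have h2 : ∀ g ∈ (conc_finite hP n0 J N).toFinset, ∑ Adv ∈ s1_C P (J + j) g,
        (2 : ℝ) ^ 2 ^ ux (J + j) 53 (lv P g) *
          Risk J N j A Adv (thr P g (2 * eta (J + j) (lv P g))) ≤
      (1 / 2) ^ (dd (lv P g) + lv P g + 4) := by
    intro g hg
    rw [Set.Finite.mem_toFinset] at hg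
    have hg' : Conc P n0 J N g := hg
    have hn := hn0 _ hg'.1
    have hk : J + j + 1 ≤ Kn (lv P g) := by
      have := (stage_le hJ hN hg'.2.1).2
      omega
    have h3 := s1_num hn hk
    calc ∑ Adv ∈ s1_C P (J + j) g, (2 : ℝ) ^ 2 ^ ux (J + j) 53 (lv P g) *
          Risk J N j A Adv (thr P g (2 * eta (J + j) (lv P g)))
        ≤ ∑ Adv ∈ s1_C P (J + j) g, (2 : ℝ) ^ 2 ^ ux (J + j) 53 (lv P g) *
          (1 / 2) ^ 2 ^ ux (J + j) 54 (lv P g) := by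
          refine Finset.sum_le_sum fun Adv hAdv => ?_
          exact mul_le_mul_of_nonneg_left (hRB g hg' Adv (s1_mem_C.1 hAdv)) (by positivity)
      _ = ((s1_C P (J + j) g).card : ℝ) * ((2 : ℝ) ^ 2 ^ ux (J + j) 53 (lv P g) *
          (1 / 2) ^ 2 ^ ux (J + j) 54 (lv P g)) := by
          rw [Finset.sum_const, nsmul_eq_mul]
      _ ≤ 2 ^ ((ux (J + j) 44 (lv P g) + 4) * (2 ^ ux (J + j) 44 (lv P g) + 4)) *
          ((2 : ℝ) ^ 2 ^ ux (J + j) 53 (lv P g) *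
          (1 / 2) ^ 2 ^ ux (J + j) 54 (lv P g)) :=
          mul_le_mul_of_nonneg_right (s1_card_C P (J + j) g) (by positivity)
      _ ≤ (1 / 2) ^ (dd (lv P g) + lv P g + 4) := s1_pow h3
  refine (Finset.sum_le_sum h2).trans ?_
  have h3 := ABO.lev_sum hP ((conc_finite hP n0 J N).toFinset.map ⟨Sum.inr, Sum.inr_injective⟩)
  rw [Finset.sum_map] at h3
  exact h3.le

/-! ### The random restriction -/

/-- the computations that are considered -/
def s1_V {M : Finset (ℕ × ℕ)} (N L : ℕ) (k : Option {m // m ∈ M} × Fin L) : Prop :=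
  N ≤ 2 * k.2.1 + 2 ∧ 2 * k.2.1 + 2 < L

/-- the classes of labels of a slot -/
noncomputable def s1_cls (A : Fam) (r : Str) : Finset (Finset Str) :=
  insert (A.H r) ((labs (r.length / 4)).image fun κ => cl r.length κ (A.H r))

theorem s1_cls_card (A : Fam) (r : Str) : (s1_cls A r).card ≤ 2 ^ (r.length / 4) + 1 := by
  unfold s1_cls
  refine (Finset.card_insert_le _ _).trans (Nat.add_le_add_right (Finset.card_image_le.trans ?_) 1)
  rw [NPC.card_labs]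

theorem s1_mem_cls (A : Fam) (r : Str) (Q : Finset Str) : Q ∈ s1_cls A r ↔
    Q = A.H r ∨ ∃ κ : Str, κ.length = r.length / 4 ∧ Q = cl r.length κ (A.H r) := by
  unfold s1_cls
  rw [Finset.mem_insert, Finset.mem_image]
  constructor
  · rintro (h | ⟨κ, hκ, rfl⟩)
    · exact Or.inl h
    · exact Or.inr ⟨κ, NPC.mem_labs.1 hκ, rfl⟩
  · rintro (h | ⟨κ, hκ, rfl⟩)
    · exact Or.inl h
    · exact Or.inr ⟨κ, NPC.mem_labs.2 hκ, rfl⟩

open Classical in
theorem step_restr {P : Par} (hP : P.OK) {n0 : ℕ} (hn0 : ∀ n, n0 ≤ n → NumL n) {J N j : ℕ}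
    (hJ : 16 ≤ J) (hN : N = 2 ^ 2 ^ J) (hj : j < J) (A : Fam) (hU : A.R ⊆ Us J N)
    (hcnt : ∀ b, N ≤ 2 * b + 2 → 2 * b + 2 < Lj N J →
      2 ^ b ≤ (Lj N j) ^ 20 * (A.R.filter fun r => r.length = b).card)
    (hcls : ∀ r ∈ A.R, Big J j A r)
    (hRB : RB P n0 J N j A (ux (J + j) 44) (fun n => 2 * eta (J + j) n)
      (fun n => 2 ^ ux (J + j) 54 n)) :
    ∃ B : Fam, Sub ∅ B A ∧
      RB P n0 J N (j + 1) B (ux (J + j) 44) (fun n => 2 * eta (J + j) n)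
        (fun n => 2 ^ ux (J + j) 53 n) ∧
      (∀ b, N ≤ 2 * b + 2 → 2 * b + 2 < Lj N J → 2 ^ b ≤ 8 * Lj N j ^ 28 *
        (B.R.filter fun r => r.length = b ∧ Big J (j + 1) B r).card) ∧
      ∀ m, PairIn J m → ∀ b, N ≤ 2 * b + 2 → (b + 2) ^ ((m.2 + 2) * (m.1 + 2)) ≤ Lj N j →
        2 ^ b ≤ 8 * Lj N j ^ 28 * (B.R.filter fun r => r.length = b ∧ Big J (j + 1) B r ∧
          (BadSlot B m r ∨ GoodSlot (Lj N j) B m r)).card := by
  have hJ1 : 1 ≤ J := by omega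
  have hNC : NC J N (Lj N j) := nc_ep hJ hN hj.le
  obtain ⟨hL, hnL, hbig⟩ := id hNC
  have hN2 : 2 ≤ N := by
    have := (ep_small hJ hN).1
    omega
  have hN1 : 1 ≤ N := by omega
  have hLJ : Lj N j ≤ Lj N J := lj_mono hN1 hj.le
  have hLr : (16 : ℝ) ≤ (Lj N j : ℝ) := by exact_mod_cast hL
  have hL8 : (16 : ℝ) ≤ (Lj N j : ℝ) ^ 8 :=
    hLr.trans (le_self_pow₀ (by linarith) (by norm_num))
  -- the pairs
  obtain ⟨M, hM⟩ : ∃ M : Finset (ℕ × ℕ), M = (pairIn_card J).1.toFinset := ⟨_, rfl⟩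
  have hMmem : ∀ m, m ∈ M ↔ PairIn J m := by
    intro m
    rw [hM, Set.Finite.mem_toFinset]
    rfl
  have hMcard : M.card ≤ J ^ 2 := by
    have := (pairIn_card J).2
    rw [Set.ncard_eq_toFinset_card _ (pairIn_card J).1] at this
    rw [hM]
    exact this
  -- the index type
  let K : Type := {k : Option {m // m ∈ M} × Fin (Lj N J) // s1_V N (Lj N J) k}
  have hKcard : Fintype.card K ≤ (J ^ 2 + 1) * Lj N J := by
    have h1 : Fintype.card K ≤ Fintype.card (Option {m // m ∈ M} × Fin (Lj N J)) :=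
      Fintype.card_subtype_le _
    have h2 : Fintype.card (Option {m // m ∈ M} × Fin (Lj N J)) = (M.card + 1) * Lj N J := by
      simp
    rw [h2] at h1
    refine h1.trans ?_
    exact Nat.mul_le_mul_right _ (by omega)
  let Kt : Finset K := Finset.univ.filter fun k => ∃ m, k.1.1 = some m ∧
    (k.1.2.1 + 2) ^ ((m.1.2 + 2) * (m.1.1 + 2)) ≤ Lj N j
  have hKt : ∀ k : K, k ∈ Kt ↔ ∃ m, k.1.1 = some m ∧
    (k.1.2.1 + 2) ^ ((m.1.2 + 2) * (m.1.1 + 2)) ≤ Lj N j := by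
    intro k
    simp only [Kt, Finset.mem_filter, Finset.mem_univ, true_and]
  have hKtcard : Kt.card ≤ J ^ 2 * Lj N j := by
    have h1 : Kt.card ≤ ((M : Finset (ℕ × ℕ)) ×ˢ Finset.range (Lj N j)).card := by
      refine Finset.card_le_card_of_injOn (fun k : K =>
        ((match k.1.1 with
          | none => ((0, 0) : ℕ × ℕ)
          | some m => m.1), k.1.2.1)) ?_ ?_
      · intro k hk
        obtain ⟨m, hm, hb⟩ := (hKt k).1 (Finset.mem_coe.1 hk)
        rw [Finset.mem_coe, Finset.mem_product, Finset.mem_range]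
        have h2 := (NPC.F8_a_lt hb).2.2.1
        simp only [hm]
        exact ⟨m.2, by omega⟩
      · intro k hk k' hk' he
        obtain ⟨m, hm, hb⟩ := (hKt k).1 (Finset.mem_coe.1 hk)
        obtain ⟨m', hm', hb'⟩ := (hKt k').1 (Finset.mem_coe.1 hk')
        simp only [hm, hm', Prod.mk.injEq] at he
        have h2 : m = m' := Subtype.ext he.1
        have h3 : k.1.2 = k'.1.2 := Fin.ext he.2
        apply Subtype.ext
        apply Prod.ext
        · rw [hm, hm', h2]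
        · exact h3
    refine h1.trans ?_
    rw [Finset.card_product, Finset.card_range]
    exact Nat.mul_le_mul_right _ hMcard
  -- queries
  have hqex : ∀ k : K, ∃ qs : Str → List (Term {r // r ∈ Us J N} Str × Bool),
      (∀ w, ∀ t ∈ qs w, t.1.size ≤ Lj N j ^ 2) ∧ ∀ m, k.1.1 = some m →
      (k.1.2.1 + 2) ^ ((m.1.2 + 2) * (m.1.1 + 2)) ≤ Lj N j →
      (∀ w, ∀ t ∈ qs w, ∀ ω, t.1.Holds ω → nf A (Us J N) m.1.1 w ω = t.2) ∧
      (∀ w : Str, w.length ≤ k.1.2.1 + (k.1.2.1 + 2) ^ ex m.1.2 →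
        ∀ ω, nf A (Us J N) m.1.1 w ω = true → ∃ t ∈ qs w, t.1.Holds ω) ∧
      (∀ w : Str, w.length ≤ k.1.2.1 + (k.1.2.1 + 2) ^ ex m.1.2 →
        (¬ ∃ q, w = true :: q) → ∀ ω, ∃ t ∈ qs w, t.1.Holds ω) := by
    intro k
    by_cases hk : ∃ m, k.1.1 = some m ∧
      (k.1.2.1 + 2) ^ ((m.1.2 + 2) * (m.1.1 + 2)) ≤ Lj N j
    · obtain ⟨m, hm, hb⟩ := hk
      have hnum := NPC.F8_a_lt hb
      obtain ⟨qs, h1, h2, h3, h4⟩ := queries A (Us J N) hU (Lj N j) m.1.1 _ hnum.1 hnum.2.1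
      refine ⟨qs, h1, ?_⟩
      intro m' hm' _
      rw [hm] at hm'
      simp only [Option.some.injEq] at hm'
      subst hm'
      exact ⟨h2, h3, h4⟩
    · exact ⟨fun _ => [], by simp, fun m hm hb => absurd ⟨m, hm, hb⟩ hk⟩
  choose qs hqs1 hqs2 using hqex
  -- the families
  have hBex : ∀ ρ : Rst {r // r ∈ Us J N} Str, ∃ B : Fam, (∀ r, (ρ r).2 ⊆ A.H r.1) →
      Sub ∅ B A ∧ (∀ r : {r // r ∈ Us J N}, r.1 ∈ B.R ↔ r.1 ∈ A.R ∧ (ρ r).1 = true) ∧
      (∀ r : {r // r ∈ Us J N}, B.H r.1 = (ρ r).2) ∧ ∀ ω, B.F ω = A.F (rst ρ ω) := by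
    intro ρ
    by_cases hρ : ∀ r, (ρ r).2 ⊆ A.H r.1
    · obtain ⟨B, hB⟩ := restrict A (Us J N) hU ρ hρ
      exact ⟨B, fun _ => hB⟩
    · exact ⟨A, fun h => absurd h hρ⟩
  choose Bf hBf using hBex
  -- the data of the random restriction
  let H : {r // r ∈ Us J N} → Finset Str := fun r => A.H r.1
  let cls : {r // r ∈ Us J N} → Finset (Finset Str) := fun r => s1_cls A r.1
  let θ : ℝ := 1 / (Lj N j : ℝ) ^ 8
  let η : {r // r ∈ Us J N} → ℝ := fun r => et J r.1.length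
  let Rk : K → Finset {r // r ∈ Us J N} := fun k =>
    Finset.univ.filter fun r => r.1 ∈ A.R ∧ r.1.length = k.1.2.1
  let t : K → {r // r ∈ Us J N} → DT Bool := fun k r =>
    match k.1.1 with
    | none => DT.leaf false
    | some m => PT m.1.2 r.1
  have hmemRk : ∀ (k : K) (r : {r // r ∈ Us J N}), r ∈ Rk k ↔
      r.1 ∈ A.R ∧ r.1.length = k.1.2.1 := by
    intro k r
    simp only [Rk, Finset.mem_filter, Finset.mem_univ, true_and]
  have hRk : ∀ k : K, (Rk k).card = (A.R.filter fun r => r.length = k.1.2.1).card := by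
    intro k
    have h1 : A.R.filter (fun r => r.length = k.1.2.1) = (Rk k).image Subtype.val := by
      ext r
      rw [Finset.mem_filter, Finset.mem_image]
      constructor
      · rintro ⟨h, h'⟩
        exact ⟨⟨r, hU h⟩, (hmemRk k _).2 ⟨h, h'⟩, rfl⟩
      · rintro ⟨r', h, rfl⟩
        exact (hmemRk k _).1 h
    rw [h1, Finset.card_image_of_injective _ Subtype.val_injective]
  have hclass : ∀ r : {r // r ∈ Us J N}, r.1 ∈ A.R → ∀ Q ∈ cls r,
      2 ^ hx J j r.1.length ≤ Q.card := by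
    intro r hr Q hQ
    have h0 := hcls r.1 hr
    have hex : ∃ κ : Str, κ.length = r.1.length / 4 :=
      ⟨List.replicate _ false, List.length_replicate⟩
    obtain ⟨κ, hκ⟩ := hex
    rcases (s1_mem_cls A r.1 Q).1 hQ with h1 | ⟨κ', hκ', rfl⟩
    · rw [h1]
      exact (h0 κ hκ).trans (Finset.card_le_card (Finset.filter_subset _ _))
    · exact h0 κ' hκ'
  have hclscard : ∀ r : {r // r ∈ Us J N}, (cls r).card ≤ 2 ^ (r.1.length / 4) + 1 :=
    fun r => s1_cls_card A r.1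
  have hη1 : ∀ r : {r // r ∈ Us J N}, η r ≤ 1 / 2 := by
    intro r
    have h1 := (NPC.nc_big hJ1 hNC (s1_mem_Us r.2).1).1
    have h2 : 1 ≤ te J r.1.length := by
      unfold te
      omega
    calc η r ≤ (1 / 2 : ℝ) ^ 1 := pow_le_pow_of_le_one (by norm_num) (by norm_num) h2
      _ = 1 / 2 := pow_one _
  have hη0 : ∀ r : {r // r ∈ Us J N}, 0 < η r := by
    intro r
    show (0 : ℝ) < (1 / 2) ^ te J r.1.length
    positivity
  have hθ0 : 0 < θ := by positivity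
  have hθ1 : θ ≤ 1 / 2 := by
    show 1 / (Lj N j : ℝ) ^ 8 ≤ 1 / 2
    rw [div_le_div_iff₀ (by positivity) (by norm_num)]
    linarith
  obtain ⟨ρ, hρ, hΦ, hmain1, hmain2⟩ := prob_main2 (K := K) Kt H cls
    (fun r => (s1_mem_cls A r.1 _).2 (Or.inl rfl))
    (by
      intro r Q hQ
      rcases (s1_mem_cls A r.1 Q).1 hQ with h1 | ⟨κ, -, rfl⟩
      · rw [h1]
      · exact Finset.filter_subset _ _)
    θ hθ0 hθ1 η hη0 hη1 Rk t (fun k _ => qs k) (Lj N j) (Lj N j ^ 2)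
    (by
      intro k hk r hr
      obtain ⟨m, hm, hb⟩ := (hKt k).1 hk
      have hr' : r.1.length = k.1.2.1 := ((hmemRk k r).1 hr).2
      have h0 : t k r = PT m.1.2 r.1 := by
        show (match k.1.1 with
          | none => DT.leaf false
          | some m => PT m.1.2 r.1) = PT m.1.2 r.1
        rw [hm]
      rw [h0]
      have h1 := depth_PT m.1.2 r.1
      rw [hr'] at h1
      exact h1.trans (NPC.F8_a_lt hb).2.2.2)
    (fun k _ _ => hqs1 k) (8 / (Lj N j : ℝ) ^ 100)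
    (fun r => NPC.num_x hJ1 hNC (s1_mem_Us r.2).1) (NPC.num_W hL)
    (num_h1' hJ hN hj hKtcard)
    (by
      intro k
      refine num_h2' hJ hN hj hKcard k.2.1 ?_
      rw [hRk]
      exact hcnt _ k.2.1 k.2.2)
    (by
      intro k r hr
      exact num_h3' hJ hN hj hKcard (s1_mem_Us r.2).1 (cls r) Finset.card (hclscard r)
        (hclass r ((hmemRk k r).1 hr).1))
    (fun ρ => s1_Phi hP n0 J N j (Bf ρ)) (fun ρ => s1_Phi_nonneg hP n0 J N j hN2 _)
    (s1_Phi_exp hP hn0 hJ hN hj A hU hRB Bf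
      (fun ρ hρ r => (hBf ρ (s1_mem_RS hρ)).2.2.1 r)
      (fun ρ hρ ω => (hBf ρ (s1_mem_RS hρ)).2.2.2 ω))
  have hρH : ∀ r, (ρ r).2 ⊆ A.H r.1 := s1_mem_RS hρ
  obtain ⟨hBsub, hBR, hBH, hBF⟩ := hBf ρ hρH
  -- the classes
  have hBig2 : ∀ r : {r // r ∈ Us J N}, r.1 ∈ A.R → HBig η cls ρ r →
      Big J (j + 1) (Bf ρ) r.1 := by
    intro r hr hb κ hκ
    rw [hBH r]
    have h1 := hb (cl r.1.length κ (A.H r.1))
      ((s1_mem_cls A r.1 _).2 (Or.inr ⟨κ, hκ, rfl⟩))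
    have h2 : (ρ r).2 ∩ cl r.1.length κ (A.H r.1) = cl r.1.length κ (ρ r).2 := by
      ext l
      simp only [cl, Finset.mem_inter, Finset.mem_filter]
      constructor
      · rintro ⟨h3, -, h4⟩
        exact ⟨h3, h4⟩
      · rintro ⟨h3, h4⟩
        exact ⟨h3, hρH r h3, h4⟩
    have h2' : (((ρ r).2 ∩ cl r.1.length κ (A.H r.1)).card : ℝ) =
        ((cl r.1.length κ (ρ r).2).card : ℝ) := by
      exact_mod_cast congrArg Finset.card h2
    refine NPC.F8_class hJ1 hj hNC (s1_mem_Us r.2).1 (hcls r.1 hr κ hκ) ?_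
    calc (1 / 2 : ℝ) ^ te J r.1.length * ((cl r.1.length κ (A.H r.1)).card : ℝ)
        ≤ 4 * (((ρ r).2 ∩ cl r.1.length κ (A.H r.1)).card : ℝ) := by
          convert h1 using 3
          rfl
      _ = 4 * ((cl r.1.length κ (ρ r).2).card : ℝ) := by rw [h2']
  refine ⟨Bf ρ, hBsub, s1_Phi_rb hP n0 J N j hN2 _ hΦ, ?_, ?_⟩
  · intro b hb1 hb2
    have hbL : b < Lj N J := by omega
    let k : K := ⟨(none, ⟨b, hbL⟩), hb1, hb2⟩
    have h1 := hmain1 k
    refine (NPC.F8_count hL (hcnt b hb1 hb2) ((le_of_eq ?_).trans h1)).trans ?_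
    · rw [hRk k]
    · refine Nat.mul_le_mul_left _ ?_
      refine Finset.card_le_card_of_injOn Subtype.val ?_ Subtype.val_injective.injOn
      intro r hr
      have hr' := Finset.mem_filter.1 (Finset.mem_coe.1 hr)
      have hr2 := (hmemRk k r).1 hr'.1
      refine Finset.mem_coe.2 (Finset.mem_filter.2 ⟨?_, hr2.2, hBig2 r hr2.1 hr'.2.2⟩)
      rw [hBR]
      exact ⟨hr2.1, hr'.2.1⟩
  · intro m hm b hb1 hb2
    have hnum := NPC.F8_a_lt hb2
    have hbL : b < Lj N J := by omega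
    have hbL2 : 2 * b + 2 < Lj N J := by omega
    let k : K := ⟨(some ⟨m, (hMmem m).2 hm⟩, ⟨b, hbL⟩), hb1, hbL2⟩
    have hkt : k ∈ Kt := (hKt k).2 ⟨⟨m, (hMmem m).2 hm⟩, rfl, hb2⟩
    have h1 := hmain2 k hkt
    obtain ⟨hq2, hq3, hq4⟩ := hqs2 k ⟨m, (hMmem m).2 hm⟩ rfl hb2
    refine (NPC.F8_count hL (hcnt b hb1 hbL2) ((le_of_eq ?_).trans h1)).trans ?_
    · rw [hRk k]
    · refine Nat.mul_le_mul_left _ ?_
      refine Finset.card_le_card_of_injOn Subtype.val ?_ Subtype.val_injective.injOn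
      intro u hu
      obtain ⟨hu1, hu2, hu3, hu4⟩ := Finset.mem_filter.1 (Finset.mem_coe.1 hu)
      obtain ⟨huA, hub⟩ := (hmemRk k u).1 hu1
      have hub' : u.1.length = b := hub
      have huk : u.1 ∈ (Bf ρ).R := (hBR u).2 ⟨huA, hu2⟩
      have hbg := hBig2 u huA hu3
      have hcard : 2 ^ (b / 2) ≤ (ρ u).2.card := by
        have h3 := hbg (List.replicate (u.1.length / 4) false) List.length_replicate
        rw [hBH u, hub'] at h3
        have h4 := (NPC.hx_step hJ1 hj hNC hb1).2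
        calc 2 ^ (b / 2) ≤ 2 ^ hx J (j + 1) b := Nat.pow_le_pow_right (by norm_num) h4
          _ ≤ _ := h3
          _ ≤ _ := Finset.card_le_card (Finset.filter_subset _ _)
      have hbig2 : 4 * Lj N j * Lj N j ^ 2 < (ρ u).2.card := by
        have h3 := (NPC.nc_big hJ1 hNC hb1).2.2
        have h4 : 2 ^ (b / 4) ≤ 2 ^ (b / 2) := Nat.pow_le_pow_right (by norm_num) (by omega)
        exact (NPC.F8_num2 hL).trans_le (h3.trans (h4.trans hcard))
      refine Finset.mem_coe.2 (Finset.mem_filter.2 ⟨huk, hub', hbg, ?_⟩)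
      rcases good_restr A (Bf ρ) (Us J N) hU (Lj N j) hL ρ hρH hBR hBH hBF m b hb2 (qs k)
        (hqs1 k) hq2 hq3 hq4 u hub' huk (by convert hu4 using 1) hbig2 with h2 | h2
      · left
        exact h2
      · right
        obtain ⟨q, S, h3, h4, h5⟩ := h2
        refine ⟨q, S, ?_, ?_, h5⟩
        · rw [hub']
          exact h3
        · rw [hub']
          exact hcard.trans h4


end Pool.Agent.ABI
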