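import Pool.Agent.Lib_helper27.ABIF.Defs2
import Pool.Agent.Lib_helper27.ABIF.B.P1a

/-! ABI, block U2: monotonicity of the risk -/

set_option autoImplicit false

namespace Pool.Agent.ABI

open Pool.Agent.CK
open Pool.Agent.NPC (Lit St lw tw Cert Term Rst Comp res Stuck RS wt pw GoodRoot HBig te hx NC labs
  rv rq)
open Pool.Agent.ABO (Par Lvl lev CircF hits Fml Gate Circuit Game Hard Desc cst cTree gsz)
open Pool.Agent.TD.IS (PosI Stg patchI simI)
open Pool.Agent.TD (Lam dd)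

theorem u2_law (J N j : ℕ) (hN : 2 ≤ N) (F : Fam) (r : {r // r ∈ Us J N}) (S : Finset Str) :
    0 ≤ lawA J N j F r S := by
  unfold lawA
  refine (gl_basic _ ?_ ?_ _ ?_ _).1 S
  · unfold et
    positivity
  · unfold et
    exact pow_le_one₀ (by norm_num) (by norm_num)
  · intro θ hθ
    unfold ths at hθ
    rw [List.mem_map] at hθ
    obtain ⟨i, -, rfl⟩ := hθ
    have h1 : 1 ≤ Lj N (j + i) := by
      unfold Lj
      exact Nat.one_le_pow _ _ (by omega)
    have h2 : (1 : ℝ) ≤ (Lj N (j + i) : ℝ) ^ 8 := one_le_pow₀ (by exact_mod_cast h1)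
    constructor
    · positivity
    · rw [div_le_one (by linarith)]
      exact h2

theorem u2_circF_mono {G : Game} {s s' d d' : ℕ} (hs : s ≤ s') (hd : d ≤ d') :
    CircF G s d ⊆ CircF G s' d' := by
  rintro A ⟨C, hC, rfl⟩
  exact ⟨C, ABO.within_mono hC hs hd, rfl⟩

theorem risk_nonneg (J N j : ℕ) (F : Fam) {s : ℕ} (A : X s → DT Str) (w : ℝ) (hN : 2 ≤ N) :
    0 ≤ Risk J N j F A w := by
  unfold Risk EX
  apply Finset.sum_nonneg
  intro S _
  apply mul_nonneg
  · exact Finset.prod_nonneg fun r _ => u2_law J N j hN F r (S r)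
  · beta_reduce
    split_ifs <;> norm_num

theorem risk_anti {J N j : ℕ} (hN : 2 ≤ N) (F : Fam) {s : ℕ} (A : X s → DT Str) {w w' : ℝ}
    (h : w ≤ w') : Risk J N j F A w' ≤ Risk J N j F A w := by
  unfold Risk EX
  apply Finset.sum_le_sum
  intro S _
  apply mul_le_mul_of_nonneg_left
  · beta_reduce
    by_cases h1 : w' ≤ (hits (fun _ => [true]) A (F.F (stf S)) : ℝ)
    · rw [if_pos h1, if_pos (h.trans h1)]
    · rw [if_neg h1]
      split_ifs <;> norm_num
  · exact Finset.prod_nonneg fun r _ => u2_law J N j hN F r (S r)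

theorem rb_mono {P : Par} {n0 J N j : ℕ} (hN : 2 ≤ N) {F : Fam} {u u' : ℕ → ℕ} {x x' : ℕ → ℝ}
    {b b' : ℕ → ℕ} (hu : ∀ g, Conc P n0 J N g → u' (lv P g) ≤ u (lv P g))
    (hx : ∀ g, Conc P n0 J N g → x (lv P g) ≤ x' (lv P g))
    (hb : ∀ g, Conc P n0 J N g → b' (lv P g) ≤ b (lv P g))
    (h : RB P n0 J N j F u x (fun n => 2 ^ b n)) :
    RB P n0 J N j F u' x' (fun n => 2 ^ b' n) := by
  intro g hg A hA
  have hA' : A ∈ CircF (P.G g) (2 ^ u (lv P g)) (dd (lv P g)) :=
    u2_circF_mono (Nat.pow_le_pow_right (by norm_num) (hu g hg)) le_rfl hA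
  have h1 := h g hg A hA'
  have h2 : thr P g (x (lv P g)) ≤ thr P g (x' (lv P g)) := by
    unfold thr
    apply mul_le_mul_of_nonneg_right
    · have := hx g hg
      linarith
    · positivity
  refine (risk_anti hN F A h2).trans (h1.trans ?_)
  exact pow_le_pow_of_le_one (by norm_num) (by norm_num)
    (Nat.pow_le_pow_right (by norm_num) (hb g hg))


end Pool.Agent.ABI
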