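import Pool.Agent.Lib_helper27.ABIF.Defs2
import Pool.Agent.Lib_helper27.ABIF.B.F1
import Pool.Agent.Lib_helper27.ABIF.B.F5
import Pool.Agent.Lib_helper27.ABIF.B.G3
import Pool.Agent.Lib_helper27.ABIF.B.N2
import Pool.Agent.Lib_helper27.ABIF.B.N3
import Pool.Agent.Lib_helper27.ABIF.B.U2

/-!
-/

set_option autoImplicit false

namespace Pool.Agent.ABI

open Pool.Agent.CK
open Pool.Agent.NPC (Lit St lw tw Cert Term Rst Comp res Stuck RS wt pw GoodRoot HBig te hx NC labs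
  rv rq)
open Pool.Agent.ABO (Par Lvl lev CircF hits Fml Gate Circuit Game Hard Desc cst cTree gsz)
open Pool.Agent.TD.IS (PosI Stg patchI simI)
open Pool.Agent.TD (Lam dd)

/-- a slot that can be used for the pair `m` -/
def s2_ok (J N j : ℕ) (B : Fam) (m : ℕ × ℕ) (r : Str) : Prop :=
  r ∈ B.R ∧ Big J (j + 1) B r ∧ BadSlot B m r ∧
    (r.length + 2) ^ ((m.2 + 2) * (m.1 + 2)) ≤ Lj N j

/-- a maximal set of pairs with an injective choice of slots -/
theorem s2_maximal (J N j : ℕ) (B : Fam) (Act : Finset (ℕ × ℕ)) :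
    ∃ (Q : Finset (ℕ × ℕ)) (f : ℕ × ℕ → Str), Q ⊆ Act ∧ Set.InjOn f ↑Q ∧
      (∀ m ∈ Q, s2_ok J N j B m (f m)) ∧
      ∀ m ∈ Act, m ∉ Q → ∀ r, r ∉ Q.image f → ¬ s2_ok J N j B m r := by
  classical
  set 𝒬 : Finset (Finset (ℕ × ℕ)) := Act.powerset.filter fun Q =>
    ∃ f : ℕ × ℕ → Str, Set.InjOn f ↑Q ∧ ∀ m ∈ Q, s2_ok J N j B m (f m) with h𝒬
  have hne : 𝒬.Nonempty := by
    refine ⟨∅, Finset.mem_filter.2 ⟨Finset.empty_mem_powerset _, fun _ => [], ?_, ?_⟩⟩
    · simp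
    · simp
  obtain ⟨Q, hQ, hmax⟩ := Finset.exists_max_image 𝒬 Finset.card hne
  obtain ⟨hQA, f, hf, hok⟩ := Finset.mem_filter.1 hQ
  rw [Finset.mem_powerset] at hQA
  refine ⟨Q, f, hQA, hf, hok, ?_⟩
  intro m hm hmQ r hr hokr
  set f' : ℕ × ℕ → Str := Function.update f m r with hf'
  have hne' : ∀ x ∈ Q, x ≠ m := fun x hx h => hmQ (h ▸ hx)
  have h1 : insert m Q ∈ 𝒬 := by
    refine Finset.mem_filter.2 ⟨Finset.mem_powerset.2 (Finset.insert_subset hm hQA), f', ?_, ?_⟩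
    · intro x hx y hy hxy
      rw [Finset.coe_insert, Set.mem_insert_iff] at hx hy
      rcases hx with rfl | hx <;> rcases hy with rfl | hy
      · rfl
      · exfalso
        rw [hf', Function.update_self, Function.update_of_ne (hne' y hy)] at hxy
        exact hr (Finset.mem_image.2 ⟨y, hy, hxy.symm⟩)
      · exfalso
        rw [hf', Function.update_self, Function.update_of_ne (hne' x hx)] at hxy
        exact hr (Finset.mem_image.2 ⟨x, hx, hxy⟩)
      · rw [hf', Function.update_of_ne (hne' x hx), Function.update_of_ne (hne' y hy)] at hxy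
        exact hf hx hy hxy
    · intro x hx
      rw [Finset.mem_insert] at hx
      rcases hx with rfl | hx
      · rw [hf', Function.update_self]; exact hokr
      · rw [hf', Function.update_of_ne (hne' x hx)]; exact hok x hx
  have h2 := hmax _ h1
  rw [Finset.card_insert_of_notMem hmQ] at h2
  omega

theorem s2_thr (P : Par) (g : ℕ) (x y : ℝ) : thr P g (x + y) = thr P g x + y * 2 ^ (P.G g).s := by
  unfold thr
  ring

/-- the risk after fixing states -/
theorem s2_risk {P : Par} {n0 : ℕ} (hn0 : ∀ n, n0 ≤ n → NumL n) {J N j : ℕ}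
    (hJ : 16 ≤ J) (hN : N = 2 ^ 2 ^ J) (B C : Fam) (hU : B.R ⊆ Us J N)
    (hRB : RB P n0 J N (j + 1) B (ux (J + j) 44) (fun n => 2 * eta (J + j) n)
        (fun n => 2 ^ ux (J + j) 53 n))
    (D : Finset Str) (hD : D ⊆ B.R) (T : Str → Finset Str) (hT : ∀ r, (T r).card ≤ 1)
    (hM : (D.filter fun r => (T r).Nonempty).card ≤ J ^ 2) (hTH : ∀ r ∈ D, T r ⊆ B.H r)
    (hCH : C.H = B.H)
    (hCF : ∀ ω, C.F ω = B.F (fun p => if p.1 ∈ D then decide (p.2 ∈ T p.1) else ω p)) :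
    RB P n0 J N (j + 1) C (ux (J + j) 44) (fun n => 3 * eta (J + j) n)
        (fun n => 2 ^ ux (J + j) 52 n) := by
  intro g hg Adv hA
  obtain ⟨n, hn⟩ : ∃ n, n = lv P g := ⟨_, rfl⟩
  have hnum : NumL n := hn0 n (hn ▸ hg.1)
  have hc : N ≤ dd n := hn ▸ hg.2.1
  have hsm := ep_small hJ hN
  have hN2 : 2 ≤ N := by
    have := hsm.1
    have h2 : (2 : ℕ) ≤ 2 ^ 16 := by norm_num
    omega
  have h1 := hRB g hg Adv hA
  rw [← hn] at h1 hA ⊢
  have hbd := fun x => ABO.circF_bounds hA x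
  have hMd : J ^ 2 ≤ dd n := by
    have := hsm.2.1
    omega
  have h2 := risk_fixed (j := j + 1) hJ hN hnum hc B C hU D hD T hT hM hTH hCH hCF Adv hbd
    (thr P g (2 * eta (J + j) n))
  have h3 : thr P g (2 * eta (J + j) n) + 2 * (dd n : ℝ) ^ 2 * del n * 2 ^ (P.G g).s ≤
      thr P g (3 * eta (J + j) n) := by
    have h4 : (3 : ℝ) * eta (J + j) n = 2 * eta (J + j) n + eta (J + j) n := by ring
    rw [h4, s2_thr]
    have h5 := del_small hnum (J + j)
    have hδ : (0 : ℝ) ≤ del n := pow_nonneg (by norm_num) (hh n)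
    have h6 : (0 : ℝ) ≤ 2 * (dd n : ℝ) ^ 2 * del n :=
      mul_nonneg (mul_nonneg (by norm_num) (sq_nonneg _)) hδ
    have h7 : 2 * (dd n : ℝ) ^ 2 * del n ≤ eta (J + j) n := by linarith
    have h8 : (0 : ℝ) ≤ 2 ^ (P.G g).s := pow_nonneg (by norm_num) _
    have h9 := mul_le_mul_of_nonneg_right h7 h8
    linarith
  refine (risk_anti hN2 C Adv h3).trans (h2.trans ?_)
  -- the numbers
  have h9 := num_kap hnum (J + j + 1)
  have hLb : 64 ≤ Lb n := by unfold Lb; omega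
  have e52 : uu (J + j + 1) n ≤ ux (J + j) 52 n := by unfold ux; omega
  have e53 : ux (J + j) 52 n + 1 ≤ ux (J + j) 53 n := by unfold ux; omega
  have h10 : (dd n + 1) * (kap0 n + J ^ 2) + 1 ≤ 2 ^ ux (J + j) 52 n := by
    have h11 : (dd n + 1) * (kap0 n + J ^ 2) ≤ (dd n + 1) * (kap0 n + dd n) :=
      Nat.mul_le_mul_left _ (by omega)
    have h12 : 2 ^ uu (J + j + 1) n ≤ 2 ^ ux (J + j) 52 n := Nat.pow_le_pow_right (by omega) e52
    omega
  have h13 : 2 ^ ux (J + j) 52 n + 2 ^ ux (J + j) 52 n ≤ 2 ^ ux (J + j) 53 n := by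
    have h14 : 2 ^ (ux (J + j) 52 n + 1) ≤ 2 ^ ux (J + j) 53 n :=
      Nat.pow_le_pow_right (by omega) e53
    rw [pow_succ] at h14
    omega
  calc (2 : ℝ) ^ ((dd n + 1) * (kap0 n + J ^ 2) + 1) *
        Risk J N (j + 1) B Adv (thr P g (2 * eta (J + j) n))
      ≤ (2 : ℝ) ^ ((dd n + 1) * (kap0 n + J ^ 2) + 1) * (1 / 2) ^ 2 ^ ux (J + j) 53 n := by
        apply mul_le_mul_of_nonneg_left h1 (by positivity)
    _ ≤ (2 : ℝ) ^ 2 ^ ux (J + j) 52 n *
          (1 / 2) ^ (2 ^ ux (J + j) 52 n + 2 ^ ux (J + j) 52 n) := by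
        apply mul_le_mul
        · exact pow_le_pow_right₀ (by norm_num) h10
        · exact pow_le_pow_of_le_one (by norm_num) (by norm_num) h13
        · positivity
        · positivity
    _ = (1 / 2) ^ 2 ^ ux (J + j) 52 n := by
        rw [pow_add, ← mul_assoc, ← mul_pow]
        norm_num

open Classical in
theorem step_clean {P : Par} {n0 : ℕ} (hn0 : ∀ n, n0 ≤ n → NumL n) {J N j : ℕ}
    (hJ : 16 ≤ J) (hN : N = 2 ^ 2 ^ J) (hj : j < J) (B : Fam) (hU : B.R ⊆ Us J N)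
    (Act : Finset (ℕ × ℕ)) (hAct : ∀ m ∈ Act, PairIn J m)
    (hRB : RB P n0 J N (j + 1) B (ux (J + j) 44) (fun n => 2 * eta (J + j) n)
        (fun n => 2 ^ ux (J + j) 53 n))
    (hcnt : ∀ b, N ≤ 2 * b + 2 → 2 * b + 2 < Lj N J → 2 ^ b ≤ 8 * Lj N j ^ 28 *
        (B.R.filter fun r => r.length = b ∧ Big J (j + 1) B r).card)
    (hgood : ∀ m, PairIn J m → ∀ b, N ≤ 2 * b + 2 →
      (b + 2) ^ ((m.2 + 2) * (m.1 + 2)) ≤ Lj N j →
        2 ^ b ≤ 8 * Lj N j ^ 28 * (B.R.filter fun r => r.length = b ∧ Big J (j + 1) B r ∧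
          (BadSlot B m r ∨ GoodSlot (Lj N j) B m r)).card) :
    ∃ (C : Fam) (Q : Finset (ℕ × ℕ)), Sub ∅ C B ∧ Q ⊆ Act ∧
      (∀ r ∈ C.R, Big J (j + 1) C r) ∧
      RB P n0 J N (j + 1) C (ux (J + j) 44) (fun n => 3 * eta (J + j) n)
        (fun n => 2 ^ ux (J + j) 52 n) ∧
      (∀ m ∈ Q, ∃ x : Str, (x.length + 2) ^ ((m.2 + 2) * (m.1 + 2)) ≤ Lj N j ∧ Wrong C m x) ∧
      (∀ b, N ≤ 2 * b + 2 → 2 * b + 2 < Lj N J → 2 ^ b ≤ 8 * Lj N j ^ 28 *
        ((C.R.filter fun r => r.length = b).card + J ^ 2)) ∧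
      ∀ m ∈ Act \ Q, ∀ b, N ≤ 2 * b + 2 → (b + 2) ^ ((m.2 + 2) * (m.1 + 2)) ≤ Lj N j →
        2 ^ b ≤ 8 * Lj N j ^ 28 *
          ((C.R.filter fun r => r.length = b ∧ GoodSlot (Lj N j) C m r).card + J ^ 2) := by
  obtain ⟨Q, f, hQA, hf, hok, hmax⟩ := s2_maximal J N j B Act
  -- number of kills
  have hQc : Q.card ≤ J ^ 2 := by
    have h := pairIn_card J
    have h1 : (↑Q : Set (ℕ × ℕ)) ⊆ {m | PairIn J m} := fun m hm => hAct m (hQA hm)
    have h2 := Set.ncard_le_ncard h1 h.1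
    rw [Set.ncard_coe_finset] at h2
    exact h2.trans h.2
  -- states
  have hTex : ∀ r : Str, ∃ T : Finset Str, (T = ∅ ∨ ∃ l ∈ B.H r, T = {l}) ∧
      (∀ m ∈ Q, f m = r → WrongAt B m r T) ∧ (r ∉ Q.image f → T = ∅) := by
    intro r
    by_cases hr : r ∈ Q.image f
    · obtain ⟨m, hm, rfl⟩ := Finset.mem_image.1 hr
      obtain ⟨T, hT1, hT2⟩ := (hok m hm).2.2.1
      refine ⟨T, hT1, ?_, fun h => absurd hr h⟩
      intro m' hm' he
      have : m' = m := hf hm' hm he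
      subst this
      exact hT2
    · refine ⟨∅, Or.inl rfl, ?_, fun _ => rfl⟩
      intro m hm he
      exact absurd (Finset.mem_image.2 ⟨m, hm, he⟩) hr
  choose T hT1 hT2 hT3 using hTex
  set D : Finset Str := Q.image f ∪ B.R.filter (fun r => ¬ Big J (j + 1) B r) with hDdef
  have hD : D ⊆ B.R := by
    intro r hr
    rw [hDdef, Finset.mem_union] at hr
    rcases hr with hr | hr
    · obtain ⟨m, hm, rfl⟩ := Finset.mem_image.1 hr
      exact (hok m hm).1
    · exact (Finset.mem_filter.1 hr).1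
  obtain ⟨C, hCs, hCR, hCH, hCF⟩ := fixed B D T
  have hTcard : ∀ r, (T r).card ≤ 1 := by
    intro r
    rcases hT1 r with h | ⟨l, -, h⟩
    · rw [h]; simp
    · rw [h]; simp
  have hTH : ∀ r ∈ D, T r ⊆ B.H r := by
    intro r _
    rcases hT1 r with h | ⟨l, hl, h⟩
    · rw [h]; exact Finset.empty_subset _
    · rw [h]; exact Finset.singleton_subset_iff.2 hl
  have himg : (Q.image f).card ≤ J ^ 2 := Finset.card_image_le.trans hQc
  have hM : (D.filter fun r => (T r).Nonempty).card ≤ J ^ 2 := by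
    refine (Finset.card_le_card ?_).trans himg
    intro r hr
    by_contra h
    rw [Finset.mem_filter, hT3 r h] at hr
    exact Finset.not_nonempty_empty hr.2
  -- survivors
  have hsurv : ∀ r ∈ B.R, Big J (j + 1) B r → r ∉ Q.image f → r ∈ C.R := by
    intro r hr hb hi
    rw [hCR, Finset.mem_sdiff]
    refine ⟨hr, fun h => ?_⟩
    rw [hDdef, Finset.mem_union] at h
    rcases h with h | h
    · exact hi h
    · exact (Finset.mem_filter.1 h).2 hb
  refine ⟨C, Q, hCs, hQA, ?_, ?_, ?_, ?_, ?_⟩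
  · intro r hr κ hκ
    rw [hCR, Finset.mem_sdiff] at hr
    have hb : Big J (j + 1) B r := by
      by_contra h
      exact hr.2 (Finset.mem_union_right _ (Finset.mem_filter.2 ⟨hr.1, h⟩))
    rw [hCH]
    exact hb κ hκ
  · exact s2_risk hn0 hJ hN B C hU hRB D hD T hTcard hM hTH hCH hCF
  · intro m hm
    refine ⟨f m, (hok m hm).2.2.2, ?_⟩
    intro ω
    have hDm : f m ∈ D := Finset.mem_union_left _ (Finset.mem_image_of_mem f hm)
    rw [hCF ω]
    apply hT2 (f m) m hm rfl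
    intro l _
    simp [hDm]
  · intro b hb1 hb2
    refine (hcnt b hb1 hb2).trans (Nat.mul_le_mul_left _ ?_)
    refine le_trans (Finset.card_le_card (t := (C.R.filter fun r => r.length = b) ∪ Q.image f) ?_)
      ((Finset.card_union_le _ _).trans (Nat.add_le_add_left himg _))
    intro r hr
    rw [Finset.mem_filter] at hr
    rw [Finset.mem_union, Finset.mem_filter]
    by_cases h : r ∈ Q.image f
    · exact Or.inr h
    · exact Or.inl ⟨hsurv r hr.1 hr.2.2 h, hr.2.1⟩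
  · intro m hm b hb1 hb2
    rw [Finset.mem_sdiff] at hm
    refine (hgood m (hAct m hm.1) b hb1 hb2).trans (Nat.mul_le_mul_left _ ?_)
    refine le_trans (Finset.card_le_card
      (t := (C.R.filter fun r => r.length = b ∧ GoodSlot (Lj N j) C m r) ∪ Q.image f) ?_)
      ((Finset.card_union_le _ _).trans (Nat.add_le_add_left himg _))
    intro r hr
    rw [Finset.mem_filter] at hr
    rw [Finset.mem_union, Finset.mem_filter]
    by_cases h : r ∈ Q.image f
    · exact Or.inr h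
    · have hrC := hsurv r hr.1 hr.2.2.1 h
      refine Or.inl ⟨hrC, hr.2.1, ?_⟩
      rcases hr.2.2.2 with hbad | hgd
      · exfalso
        exact hmax m hm.1 hm.2 r h ⟨hr.1, hr.2.2.1, hbad, by rw [hr.2.1]; exact hb2⟩
      · obtain ⟨q, S, h1, h2, h3⟩ := hgd
        refine ⟨q, S, h1, h2, sub_hGood hCs (by simp) hrC ?_ h3⟩
        rw [hCH]
        exact h3.1


end Pool.Agent.ABI
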