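import Pool.Agent.Lib_helper27.ABIF.Defs2
import Pool.Agent.Lib_helper27.ABIF.B.N3
import Pool.Agent.Lib_helper27.ABIF.B.N6
import Pool.Agent.Lib_helper27.ABIF.B.P9

set_option autoImplicit false

namespace Pool.Agent.ABI

open Pool.Agent.CK
open Pool.Agent.NPC (Lit St lw tw Cert Term Rst Comp res Stuck RS wt pw GoodRoot HBig te hx NC labs
  rv rq)
open Pool.Agent.ABO (Par Lvl lev CircF hits Fml Gate Circuit Game Hard Desc cst cTree gsz)
open Pool.Agent.TD.IS (PosI Stg patchI simI)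
open Pool.Agent.TD (Lam dd)

theorem s3a_te (J b : ℕ) (hJ : 1 ≤ J) : te J b ≤ b / 4 := by
  unfold te
  have : b / (4 * J) ≤ b / 4 := Nat.div_le_div_left (by omega) (by norm_num)
  omega

/-- the transversal for literals -/
theorem s3a_trans {α : Type} [DecidableEq α] (I : Finset α) (blk : α → Finset Lit)
    (hne : ∀ a ∈ I, (blk a).Nonempty)
    (hdis : ∀ a ∈ I, ∀ b ∈ I, a ≠ b → Disjoint (blk a) (blk b)) :
    ∃ (X : Finset (α → Unit × Lit)) (w : (α → Unit × Lit) → ℝ), (∀ f, 0 ≤ w f) ∧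
      ∑ f ∈ X, w f = 1 ∧ (∀ f ∈ X, ∀ a ∈ I, (f a).2 ∈ blk a) ∧
      ∀ (c : ℝ) (Y : Finset Lit), 0 < c →
        (∀ y ∈ Y, ∀ a ∈ I, y ∈ blk a → c ≤ ((blk a).card : ℝ)) →
        ∑ f ∈ X.filter (fun f => Y ⊆ I.image fun a => (f a).2), w f ≤ (1 / c) ^ Y.card := by
  obtain ⟨X, w, h1, h2, h3, h4⟩ := transversal (ι := Unit) (Λ := Lit) ((), (([], []) : Lit)) I
    (fun a => (blk a).map ⟨fun p => ((), p), fun p q h => by simpa using h⟩)
    (fun a ha => by simpa using hne a ha)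
    (fun a ha b hb hab => by
      rw [Finset.disjoint_map]
      exact hdis a ha b hb hab)
  refine ⟨X, w, h1, h2, fun f hf a ha => ?_, fun c Y hc hY => ?_⟩
  · have := h3 f hf a ha
    rw [Finset.mem_map] at this
    obtain ⟨p, hp, he⟩ := this
    rw [← he]
    exact hp
  · have h5 := h4 c (Y.map ⟨fun p => ((), p), fun p q h => by simpa using h⟩) hc ?_
    · rw [Finset.card_map] at h5
      refine le_trans ?_ h5
      refine Finset.sum_le_sum_of_subset_of_nonneg ?_ (fun f _ _ => h1 f)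
      intro f hf
      rw [Finset.mem_filter] at hf ⊢
      refine ⟨hf.1, ?_⟩
      intro p hp
      rw [Finset.mem_map] at hp
      obtain ⟨y, hy, rfl⟩ := hp
      have := hf.2 hy
      rw [Finset.mem_image] at this ⊢
      obtain ⟨a, ha, hfa⟩ := this
      exact ⟨a, ha, Prod.ext rfl hfa⟩
    · intro y hy a ha hya
      rw [Finset.mem_map] at hy hya
      obtain ⟨p, hp, rfl⟩ := hy
      obtain ⟨p', hp', he⟩ := hya
      rw [Finset.card_map]
      refine hY p hp a ha ?_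
      have : p' = p := by simpa using he
      rw [← this]
      exact hp'

theorem exists_enc {J N j : ℕ} (hJ : 16 ≤ J) (hN : N = 2 ^ 2 ^ J) (hj : j < J)
    (items : Finset (ℕ × Str)) (hi : ∀ it ∈ items, InBatch J N j it.1 it.2)
    (slot : ℕ × Str → Str) (SS : ℕ × Str → Finset Str) (hinj : Set.InjOn slot items)
    (hsl : ∀ it ∈ items, (slot it).length = sz N it.1 it.2)
    (hS : ∀ it ∈ items, 2 ^ (sz N it.1 it.2 / 2) ≤ Lj N j ^ 4 * (SS it).card) :
    ∃ (𝒳 : Type) (X0 : Finset 𝒳) (wX : 𝒳 → ℝ) (Enc : 𝒳 → ℕ × Str → Str → Str)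
      (hid : 𝒳 → Finset Lit), (∀ x ∈ X0, 0 ≤ wX x) ∧ ∑ x ∈ X0, wX x = 1 ∧
      (∀ x ∈ X0, ∀ it ∈ items, ∀ y : Str, y.length ≤ (it.2.length + 2) ^ ex (iN it.1) →
        Enc x it y ∈ SS it ∧ (slot it, Enc x it y) ∈ hid x ∧
        ∀ y' : Str, y'.length ≤ (it.2.length + 2) ^ ex (iN it.1) →
          Enc x it y = Enc x it y' → y = y') ∧
      (∀ x ∈ X0, ∀ p ∈ hid x, ∃ it ∈ items, p.1 = slot it ∧ p.2 ∈ SS it) ∧
      ∀ n, NumL n → N ≤ dd n → ∀ Y : Finset Lit, (∀ p ∈ Y, n ≤ 16 * p.1.length) →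
        ∑ x ∈ X0.filter (fun x => Y ⊆ hid x), wX x ≤ del n ^ Y.card := by
  have hb : ∀ it : ℕ × Str, ∃ blk : Str → Finset Str, it ∈ items →
      (∀ y : Str, y.length ≤ (it.2.length + 2) ^ ex (iN it.1) →
        blk y ⊆ SS it ∧ 2 ^ (sz N it.1 it.2 / 4) ≤ (blk y).card) ∧
      ∀ y y', y ≠ y' → Disjoint (blk y) (blk y') := by
    intro it
    by_cases h : it ∈ items
    · obtain ⟨blk, h1, h2⟩ := enc_blocks hJ hN hj (hi it h) rfl (SS it) (hS it h)
      exact ⟨blk, fun _ => ⟨h1, h2⟩⟩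
    · exact ⟨fun _ => ∅, fun h' => absurd h' h⟩
  choose blk hblk using hb
  set I : Finset ((ℕ × Str) × Str) := items.biUnion fun it =>
    ((List.finite_length_le Bool ((it.2.length + 2) ^ ex (iN it.1))).toFinset).image
      fun y => (it, y) with hI
  have hmem : ∀ a : (ℕ × Str) × Str, a ∈ I ↔ a.1 ∈ items ∧
      a.2.length ≤ (a.1.2.length + 2) ^ ex (iN a.1.1) := by
    intro a
    rw [hI, Finset.mem_biUnion]
    constructor
    · rintro ⟨it, hit, ha⟩
      rw [Finset.mem_image] at ha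
      obtain ⟨y, hy, rfl⟩ := ha
      rw [Set.Finite.mem_toFinset] at hy
      exact ⟨hit, hy⟩
    · rintro ⟨h1, h2⟩
      refine ⟨a.1, h1, ?_⟩
      rw [Finset.mem_image]
      exact ⟨a.2, by rw [Set.Finite.mem_toFinset]; exact h2, rfl⟩
  set B : (ℕ × Str) × Str → Finset Lit := fun a =>
    ({slot a.1} : Finset Str) ×ˢ blk a.1 a.2 with hB
  have hBcard : ∀ a, (B a).card = (blk a.1 a.2).card := by
    intro a
    rw [hB]
    simp
  obtain ⟨X, w, h1, h2, h3, h4⟩ := s3a_trans I B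
    (fun a ha => by
      obtain ⟨ha1, ha2⟩ := (hmem a).1 ha
      rw [← Finset.card_pos, hBcard]
      have := ((hblk a.1 ha1).1 a.2 ha2).2
      have h0 : 0 < 2 ^ (sz N a.1.1 a.1.2 / 4) := by positivity
      omega)
    (fun a ha b hb hab => by
      obtain ⟨ha1, ha2⟩ := (hmem a).1 ha
      obtain ⟨hb1, hb2⟩ := (hmem b).1 hb
      rw [Finset.disjoint_left]
      intro p hp hp'
      rw [hB] at hp hp'
      simp only [Finset.mem_product, Finset.mem_singleton] at hp hp'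
      have hit : a.1 = b.1 := hinj ha1 hb1 (by rw [← hp.1, ← hp'.1])
      have hy : a.2 ≠ b.2 := fun h => hab (Prod.ext hit h)
      rw [← hit] at hp'
      exact Finset.disjoint_left.1 ((hblk a.1 ha1).2 a.2 b.2 hy) hp.2 hp'.2)
  refine ⟨(ℕ × Str) × Str → Unit × Lit, X, w, fun f it y => (f (it, y)).2.2,
    fun f => I.image fun a => (f a).2, fun f _ => h1 f, h2, ?_, ?_, ?_⟩
  · intro f hf it hit y hy
    have ha : ((it, y) : (ℕ × Str) × Str) ∈ I := (hmem _).2 ⟨hit, hy⟩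
    have hfa := h3 f hf (it, y) ha
    rw [hB] at hfa
    simp only [Finset.mem_product, Finset.mem_singleton] at hfa
    refine ⟨((hblk it hit).1 y hy).1 hfa.2, ?_, ?_⟩
    · rw [Finset.mem_image]
      exact ⟨(it, y), ha, Prod.ext hfa.1 rfl⟩
    · intro y' hy' he
      by_contra hne
      have ha' : ((it, y') : (ℕ × Str) × Str) ∈ I := (hmem _).2 ⟨hit, hy'⟩
      have hfa' := h3 f hf (it, y') ha'
      rw [hB] at hfa'
      simp only [Finset.mem_product, Finset.mem_singleton] at hfa'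
      have he' : (f (it, y)).2.2 = (f (it, y')).2.2 := he
      rw [he'] at hfa
      exact Finset.disjoint_left.1 ((hblk it hit).2 y y' hne) hfa.2 hfa'.2
  · intro f hf p hp
    rw [Finset.mem_image] at hp
    obtain ⟨a, ha, rfl⟩ := hp
    obtain ⟨ha1, ha2⟩ := (hmem a).1 ha
    have hfa := h3 f hf a ha
    rw [hB] at hfa
    simp only [Finset.mem_product, Finset.mem_singleton] at hfa
    exact ⟨a.1, ha1, hfa.1, ((hblk a.1 ha1).1 a.2 ha2).1 hfa.2⟩
  · intro n hn hc Y hY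
    obtain ⟨hLam, -⟩ := stage_le hJ hN hc
    have h5 := h4 ((2 : ℝ) ^ hh n) Y (by positivity) ?_
    · have : del n = 1 / (2 : ℝ) ^ hh n := by
        unfold del
        rw [one_div_pow]
      rw [this]
      exact h5
    · intro p hp a ha hpa
      obtain ⟨ha1, ha2⟩ := (hmem a).1 ha
      rw [hBcard]
      have hpa' := hpa
      rw [hB] at hpa'
      simp only [Finset.mem_product, Finset.mem_singleton] at hpa'
      have hlen : p.1.length = sz N a.1.1 a.1.2 := by rw [hpa'.1]; exact hsl a.1 ha1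
      have h6 := hn.hte J (by omega) hLam p.1.length (hY p hp)
      have h7 := s3a_te J p.1.length (by omega)
      have h8 := ((hblk a.1 ha1).1 a.2 ha2).2
      rw [← hlen] at h8
      have h9 : 2 ^ hh n ≤ (blk a.1 a.2).card :=
        le_trans (Nat.pow_le_pow_right (by norm_num) (h6.trans h7)) h8
      exact_mod_cast h9


end Pool.Agent.ABI
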