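import Pool.Agent.Lib_helper27.ABIF.Defs2
import Pool.Agent.Lib_helper27.ABIF.B.N3

/-!
-/

set_option autoImplicit false

namespace Pool.Agent.ABI

open Pool.Agent.TD (Lam dd)

theorem s3n_half {r : ℝ} (h0 : 0 ≤ r) (h1 : r ≤ 1 / 16) {K M T : ℕ} (h : T + K ≤ 4 * M) :
    (2 : ℝ) ^ K * r ^ M ≤ (1 / 2) ^ T := by
  have e1 : r ^ M ≤ (1 / 2 : ℝ) ^ (4 * M) := by
    rw [pow_mul]
    refine pow_le_pow_left₀ h0 (h1.trans ?_) M
    norm_num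
  have e2 : (1 / 2 : ℝ) ^ (4 * M) ≤ (1 / 2) ^ (T + K) :=
    pow_le_pow_of_le_one (by norm_num) (by norm_num) h
  calc (2 : ℝ) ^ K * r ^ M ≤ 2 ^ K * (1 / 2) ^ (T + K) :=
        mul_le_mul_of_nonneg_left (e1.trans e2) (by positivity)
    _ = (1 / 2) ^ T * (2 * (1 / 2)) ^ K := by rw [mul_pow, pow_add]; ring
    _ = (1 / 2) ^ T := by norm_num

theorem s3n_half2 {E C T : ℕ} (h : T + E ≤ C) :
    (2 : ℝ) ^ E * (1 / 2) ^ C ≤ (1 / 2) ^ T := by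
  have e2 : (1 / 2 : ℝ) ^ C ≤ (1 / 2) ^ (T + E) :=
    pow_le_pow_of_le_one (by norm_num) (by norm_num) h
  calc (2 : ℝ) ^ E * (1 / 2) ^ C ≤ 2 ^ E * (1 / 2) ^ (T + E) :=
        mul_le_mul_of_nonneg_left e2 (by positivity)
    _ = (1 / 2) ^ T * (2 * (1 / 2)) ^ E := by rw [mul_pow, pow_add]; ring
    _ = (1 / 2) ^ T := by norm_num

theorem s3n_two {r : ℝ} (h0 : 0 ≤ r) (h1 : r ≤ 1 / 16) {K M E C T : ℕ} (h : T + 1 + K ≤ 4 * M)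
    (h' : T + 1 + E ≤ C) :
    (2 : ℝ) ^ K * r ^ M + 2 ^ E * (1 / 2) ^ C ≤ (1 / 2) ^ T := by
  have a := s3n_half h0 h1 h
  have b := s3n_half2 h'
  have c : (1 / 2 : ℝ) ^ T = (1 / 2) ^ (T + 1) + (1 / 2) ^ (T + 1) := by
    rw [pow_succ]; ring
  rw [c]
  exact add_le_add a b

theorem s3n_ratio {n : ℕ} (hn : NumL n) (k : ℕ) :
    0 ≤ 2 * (dd n : ℝ) ^ 2 * del n / eta k n ∧
      2 * (dd n : ℝ) ^ 2 * del n / eta k n ≤ 1 / 16 := by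
  have he : 0 < eta k n := (eta_mono k n).1
  have hd : 0 ≤ del n := by unfold del; positivity
  have := del_small hn k
  refine ⟨by positivity, ?_⟩
  rw [div_le_iff₀ he]
  linarith

theorem s3n_ux (k c n : ℕ) : 2 ^ ux k c n = 2 ^ uu (k + 1) n * (2 ^ Lb n) ^ c := by
  unfold ux
  rw [pow_add, ← pow_mul, mul_comm (Lb n) c]

theorem s3n_dd {n : ℕ} (hn : NumL n) (k : ℕ) : (dd n + 1) * 2 ^ 63 ≤ 2 ^ Lb n := by
  have h := (uu_ge hn k).2.2.2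
  have h1 : dd n + 1 ≤ 2 ^ (Lam n + 1) := by
    unfold dd
    have : 1 ≤ 2 ^ Lam n := Nat.one_le_two_pow
    rw [pow_succ]
    omega
  calc (dd n + 1) * 2 ^ 63 ≤ 2 ^ (Lam n + 1) * 2 ^ 63 := Nat.mul_le_mul_right _ h1
    _ = 2 ^ (Lam n + 64) := by rw [← pow_add]
    _ ≤ 2 ^ Lb n := Nat.pow_le_pow_right (by norm_num) h

theorem s3n_circ {n : ℕ} (hn : NumL n) (k : ℕ) :
    (ux k 0 n + 4) * (2 ^ ux k 0 n + 4) + (dd n + n + 4) ≤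
      2 ^ uu (k + 1) n * 2 ^ Lb n := by
  have h := uu_ge hn (k + 1)
  have h2 : uu (k + 1) n ≤ n := by omega
  have h3 := num_circ2 hn h.1 h2
  have h4 : ux k 0 n = uu (k + 1) n := by simp [ux]
  rw [h4, ← pow_add]
  exact h3

/-- everything in units of `X = U * B ^ a` -/
theorem s3n_units {U B D1 K a : ℕ} (hU : 1 ≤ U) (hB : D1 * 2 ^ 63 ≤ B) (hD : 1 ≤ D1) (hK : K ≤ U) :
    ∃ X, X = U * B ^ a ∧ 1 ≤ X ∧ K ≤ X ∧ U ≤ X ∧ (∀ i ≤ a, U * B ^ i ≤ X) ∧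
      (4 + 2 * D1) * X ≤ U * B ^ (a + 2) ∧ (1 + 192 * D1 ^ 2) * X ≤ U * B ^ (a + 2) := by
  have hB1 : 1 ≤ B := by
    have : 1 * 1 ≤ D1 * 2 ^ 63 := Nat.mul_le_mul hD (by norm_num)
    omega
  have hi : ∀ i ≤ a, U * B ^ i ≤ U * B ^ a := fun i h =>
    Nat.mul_le_mul_left _ (Nat.pow_le_pow_right hB1 h)
  have h0 : U ≤ U * B ^ a := by simpa using hi 0 (Nat.zero_le _)
  refine ⟨U * B ^ a, rfl, hU.trans h0, hK.trans h0, h0, hi, ?_, ?_⟩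
  · have e : U * B ^ (a + 2) = (B ^ 2) * (U * B ^ a) := by ring
    rw [e]
    refine Nat.mul_le_mul_right _ ?_
    nlinarith
  · have e : U * B ^ (a + 2) = (B ^ 2) * (U * B ^ a) := by ring
    rw [e]
    refine Nat.mul_le_mul_right _ ?_
    have h1 : (D1 * 2 ^ 63) ^ 2 ≤ B ^ 2 := Nat.pow_le_pow_left hB 2
    have h2 : 1 ≤ D1 ^ 2 := Nat.one_le_pow _ _ hD
    have h3 : (D1 * 2 ^ 63) ^ 2 = D1 ^ 2 * 2 ^ 126 := by ring
    omega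

/-- S3: numbers for `risk_repl` with `m = 2 ^ ux k 12 n`, `e = eta k n` -/
theorem num_bind {n k : ℕ} (hn : NumL n) (hk : k + 1 ≤ Kn n) :
    (2 : ℝ) ^ kap0 n * (2 * (dd n) ^ 2 * del n / eta k n) ^ 2 ^ ux k 12 n +
      2 ^ ((dd n + 1) * (2 ^ ux k 12 n + kap0 n) + 1) * (1 / 2) ^ 2 ^ ux k 14 n ≤
      (1 / 2) ^ (2 ^ ux k 10 n + ((ux k 0 n + 4) * (2 ^ ux k 0 n + 4) + (dd n + n + 4))) := by
  have _ := hk
  obtain ⟨r0, r1⟩ := s3n_ratio hn k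
  have hc := s3n_circ hn k
  obtain ⟨X, hX, x1, xK, xU, xi, xD, -⟩ := s3n_units (U := 2 ^ uu (k + 1) n) (B := 2 ^ Lb n)
    (D1 := dd n + 1) (K := kap0 n) (a := 12) Nat.one_le_two_pow (s3n_dd hn k) (by omega)
    (num_kap hn (k + 1)).2
  have e12 := s3n_ux k 12 n
  have e14 := s3n_ux k 14 n
  have e10 := s3n_ux k 10 n
  have i10 := xi 10 (by norm_num)
  have i1 := xi 1 (by norm_num)
  rw [pow_one] at i1
  rw [show 12 + 2 = 14 from rfl] at xD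
  generalize (ux k 0 n + 4) * (2 ^ ux k 0 n + 4) + (dd n + n + 4) = W at *
  refine s3n_two r0 r1 ?_ ?_
  · rw [e12, e10, ← hX]; omega
  · rw [e12, e10, e14, ← hX]
    have h1 : (dd n + 1) * (X + kap0 n) ≤ (dd n + 1) * (2 * X) := Nat.mul_le_mul_left _ (by omega)
    have h2 : (4 + 2 * (dd n + 1)) * X = 4 * X + (dd n + 1) * (2 * X) := by ring
    omega

/-- S4: numbers for `risk_repl` with `m = 2 ^ ux k 8 n`, `e = eta k n` -/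
theorem num_end {n k : ℕ} (hn : NumL n) (hk : k + 1 ≤ Kn n) :
    (2 : ℝ) ^ kap0 n * (2 * (dd n) ^ 2 * del n / eta k n) ^ 2 ^ ux k 8 n +
      2 ^ ((dd n + 1) * (2 ^ ux k 8 n + kap0 n) + 1) * (1 / 2) ^ 2 ^ ux k 10 n ≤
      (1 / 2) ^ (1 + ((ux k 0 n + 4) * (2 ^ ux k 0 n + 4) + (dd n + n + 4))) := by
  have _ := hk
  obtain ⟨r0, r1⟩ := s3n_ratio hn k
  have hc := s3n_circ hn k
  obtain ⟨X, hX, x1, xK, xU, xi, xD, -⟩ := s3n_units (U := 2 ^ uu (k + 1) n) (B := 2 ^ Lb n)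
    (D1 := dd n + 1) (K := kap0 n) (a := 8) Nat.one_le_two_pow (s3n_dd hn k) (by omega)
    (num_kap hn (k + 1)).2
  have e8 := s3n_ux k 8 n
  have e10 := s3n_ux k 10 n
  have i1 := xi 1 (by norm_num)
  rw [pow_one] at i1
  rw [show 8 + 2 = 10 from rfl] at xD
  generalize (ux k 0 n + 4) * (2 ^ ux k 0 n + 4) + (dd n + n + 4) = W at *
  refine s3n_two r0 r1 ?_ ?_
  · rw [e8, ← hX]; omega
  · rw [e8, e10, ← hX]
    have h1 : (dd n + 1) * (X + kap0 n) ≤ (dd n + 1) * (2 * X) := Nat.mul_le_mul_left _ (by omega)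
    have h2 : (4 + 2 * (dd n + 1)) * X = 4 * X + (dd n + 1) * (2 * X) := by ring
    omega

/-- S5: numbers for `risk_start` with `m = 2 ^ ux k 56 n`, `e = eta k n` -/
theorem num_start {n k : ℕ} (hn : NumL n) (hk : k + 1 ≤ Kn n) :
    2 ^ ux k 44 n + (dd n + 1) * (64 * (dd n + 1) * (kap0 n + 2 ^ ux k 56 n + 1)) ≤
        2 ^ uu k n ∧
      (2 : ℝ) ^ kap0 n * (2 * (dd n) ^ 2 * del n / eta k n) ^ 2 ^ ux k 56 n ≤
        (1 / 2) ^ 2 ^ ux k 54 n := by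
  obtain ⟨r0, r1⟩ := s3n_ratio hn k
  obtain ⟨X, hX, x1, xK, xU, xi, -, xD⟩ := s3n_units (U := 2 ^ uu (k + 1) n) (B := 2 ^ Lb n)
    (D1 := dd n + 1) (K := kap0 n) (a := 56) Nat.one_le_two_pow (s3n_dd hn k) (by omega)
    (num_kap hn (k + 1)).2
  have e44 := s3n_ux k 44 n
  have e54 := s3n_ux k 54 n
  have e56 := s3n_ux k 56 n
  have i44 := xi 44 (by norm_num)
  have i54 := xi 54 (by norm_num)
  have e64 : 2 ^ uu k n = 2 ^ uu (k + 1) n * (2 ^ Lb n) ^ 64 := by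
    rw [uu_step hk, pow_add, ← pow_mul, mul_comm (Lb n) 64]
  constructor
  · have h58 : 2 ^ uu (k + 1) n * (2 ^ Lb n) ^ (56 + 2) ≤ 2 ^ uu (k + 1) n * (2 ^ Lb n) ^ 64 :=
      Nat.mul_le_mul_left _ (Nat.pow_le_pow_right Nat.one_le_two_pow (by norm_num))
    have h1 : (dd n + 1) * (64 * (dd n + 1) * (kap0 n + X + 1)) ≤
        (dd n + 1) * (64 * (dd n + 1) * (3 * X)) :=
      Nat.mul_le_mul_left _ (Nat.mul_le_mul_left _ (by omega))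
    have h2 : (1 + 192 * (dd n + 1) ^ 2) * X = X + (dd n + 1) * (64 * (dd n + 1) * (3 * X)) := by
      ring
    rw [e44, e56, e64, ← hX]
    omega
  · refine s3n_half r0 r1 ?_
    rw [e54, e56, ← hX]
    omega

end Pool.Agent.ABI
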