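import Pool.Agent.Lib_helper27.ABIF.Defs2
import Pool.Agent.Lib_helper27.ABO.B.CA1
import Pool.Agent.Lib_helper27.ABIF.B.F4
import Pool.Agent.Lib_helper27.ABIF.B.G0
import Pool.Agent.Lib_helper27.ABIF.B.G4
import Pool.Agent.Lib_helper27.ABIF.B.N3
import Pool.Agent.Lib_helper27.ABIF.B.N4
import Pool.Agent.Lib_helper27.ABIF.B.S3a
import Pool.Agent.Lib_helper27.ABIF.B.S3n
import Pool.Agent.Lib_helper27.ABIF.B.U1

/-!
-/

set_option autoImplicit false

namespace Pool.Agent.ABI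

open Pool.Agent.CK
open Pool.Agent.NPC (Lit St lw tw Cert Term Rst Comp res Stuck RS wt pw GoodRoot HBig te hx NC labs
  rv rq)
open Pool.Agent.ABO (Par Lvl lev CircF hits Fml Gate Circuit Game Hard Desc cst cTree gsz)
open Pool.Agent.TD.IS (PosI Stg patchI simI)
open Pool.Agent.TD (Lam dd)

/-- monotonicity of `EX` -/
private theorem s3_EX_mono {ι Λ : Type} [Fintype ι] [DecidableEq ι] [DecidableEq Λ]
    (p : ι → Finset Λ → ℝ) (hp : ∀ r S, 0 ≤ p r S) (H : ι → Finset Λ)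
    (f f' : (ι → Finset Λ) → ℝ) (h : ∀ S, f S ≤ f' S) : EX p H f ≤ EX p H f' := by
  unfold EX
  apply Finset.sum_le_sum
  intro S _
  exact mul_le_mul_of_nonneg_left (h S) (Finset.prod_nonneg fun r _ => hp r _)

private theorem s3_EX_nonneg {ι Λ : Type} [Fintype ι] [DecidableEq ι] [DecidableEq Λ]
    (p : ι → Finset Λ → ℝ) (hp : ∀ r S, 0 ≤ p r S) (H : ι → Finset Λ)
    (f : (ι → Finset Λ) → ℝ) (h : ∀ S, 0 ≤ f S) : 0 ≤ EX p H f := by
  unfold EX
  apply Finset.sum_nonneg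
  intro S _
  exact mul_nonneg (Finset.prod_nonneg fun r _ => hp r _) (h S)

theorem step_bind {P : Par} (hP : P.OK) {n0 : ℕ} (hn0 : ∀ n, n0 ≤ n → NumL n) {J N j : ℕ}
    (hJ : 16 ≤ J) (hN : N = 2 ^ 2 ^ J) (hj : j < J) (A : Fam) (hR : A.R ⊆ Us J N)
    (items : Finset (ℕ × Str)) (hi : ∀ it ∈ items, InBatch J N j it.1 it.2)
    (slot qq : ℕ × Str → Str) (SS : ℕ × Str → Finset Str) (hinj : Set.InjOn slot items)
    (hsl : ∀ it ∈ items, slot it ∈ A.R ∧ (slot it).length = sz N it.1 it.2)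
    (hg : ∀ it ∈ items, HGood A (iC it.1) (slot it) (qq it) (SS it))
    (hS : ∀ it ∈ items, 2 ^ (sz N it.1 it.2 / 2) ≤ Lj N j ^ 4 * (SS it).card)
    (hRB : RB P n0 J N (j + 1) A (ux (J + j) 0) (fun n => 16 * eta (J + j) n)
      (fun n => 2 ^ ux (J + j) 14 n)) :
    ∃ B : Fam, Sub ∅ B A ∧ B.R = A.R \ items.image slot ∧ B.H = A.H ∧
      (∀ it ∈ items, ∀ ω, NL (iC it.1) (B.F ω) (qq it) = NL (iN it.1) (B.F ω) it.2) ∧
      RB P n0 J N (j + 1) B (ux (J + j) 0) (fun n => 18 * eta (J + j) n)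
        (fun n => 2 ^ ux (J + j) 10 n) := by
  classical
  obtain ⟨𝒳, X0, wX, Enc, hid, hw0, hw1, hEnc, hhid, hdel⟩ :=
    exists_enc hJ hN hj items hi slot SS hinj (fun it hit => (hsl it hit).2) hS
  -- the families
  have hB : ∀ x ∈ X0, ∃ (B : Fam) (g : St → St), Sub ∅ B A ∧ B.R = A.R \ items.image slot ∧
      B.H = A.H ∧ (∀ ω, B.F ω = A.F (g ω)) ∧ (∀ ω p, p.1 ∉ items.image slot → g ω p = ω p) ∧
      (∀ ω, ∀ it ∈ items, ∀ l, g ω (slot it, l) = true →
        ∃ y : Str, y.length ≤ (it.2.length + 2) ^ ex (iN it.1) ∧ Enc x it y = l) ∧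
      ∀ it ∈ items, ∀ ω, NL (iC it.1) (B.F ω) (qq it) = NL (iN it.1) (B.F ω) it.2 := by
    intro x hx
    apply bind_all A items slot qq SS (Enc x) hinj (fun it hit => (hsl it hit).1) hg
    · intro it hit
      rw [(hsl it hit).2]
      exact (item_range hJ hN hj (hi it hit)).2.2.2.1
    · intro it hit y hy
      have h := hEnc x hx it hit y hy
      exact ⟨h.1, h.2.2⟩
  set D : Finset Str := items.image slot with hD
  have hDR : D ⊆ A.R := by
    intro r hr
    rw [hD, Finset.mem_image] at hr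
    obtain ⟨it, hit, rfl⟩ := hr
    exact (hsl it hit).1
  have hhid' : ∀ x ∈ X0, ∀ y ∈ hid x, y.1 ∈ D ∧ y.2 ∈ A.H y.1 := by
    intro x hx y hy
    obtain ⟨it, hit, h1, h2⟩ := hhid x hx y hy
    refine ⟨?_, ?_⟩
    · rw [h1]; exact Finset.mem_image_of_mem _ hit
    · rw [h1]; exact (hg it hit).1 h2
  have hlaw : ∀ (r : {r // r ∈ Us J N}) (S : Finset Str), 0 ≤ lawA J N (j + 1) A r S :=
    fun r S => (law_lawA hJ hN (j + 1) A r).nonneg S
  -- the numbers of a stage
  have hk : ∀ g, Conc P n0 J N g → J + j + 1 ≤ Kn (lv P g) := by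
    intro g hc
    have h := (stage_le hJ hN hc.2.1).2
    omega
  -- the risk
  let rk : ∀ g, (X (P.G g).s → DT Str) → 𝒳 → ℝ := fun g Adv x =>
    EX (lawA J N (j + 1) A) (fun r => A.H r.1) (fun S =>
      if ∃ ω' : St, (∀ p, p.1 ∉ D → ω' p = stf S p) ∧
        (∀ p, p.1 ∈ D → ω' p = true → p ∈ hid x) ∧
        thr P g (16 * eta (J + j) (lv P g)) + (eta (J + j) (lv P g) +
          2 * (dd (lv P g)) ^ 2 * del (lv P g)) * 2 ^ (P.G g).s ≤
            (hits (fun _ => [true]) Adv (A.F ω') : ℝ)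
      then 1 else 0)
  have hrk0 : ∀ g Adv x, 0 ≤ rk g Adv x := by
    intro g Adv x
    apply s3_EX_nonneg _ hlaw
    intro S
    split_ifs
    · exact zero_le_one
    · exact le_refl _
  obtain ⟨x, hx, -, -, hfin⟩ := rb_choice hP n0 J N X0 wX hw0 hw1 (fun _ => False)
    (by simp) rk hrk0 (ux (J + j) 0) (fun n => 2 ^ ux (J + j) 10 n)
    (by
      intro g hc
      have hn := hn0 _ hc.1
      have h1 := (uu_ge hn (J + j + 1)).1
      have h2 := hn.h16
      have h3 : ux (J + j) 0 (lv P g) = uu (J + j + 1) (lv P g) := by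
        unfold ux; rw [zero_mul, add_zero]
      rw [h3]
      omega)
    (by
      intro g hc Adv hAdv
      have hn := hn0 _ hc.1
      have h1 := risk_repl (j := j + 1) hJ hN hn hc.2.1 A hR D (hDR.trans hR) X0 wX hw0 hw1 hid hhid'
        (hdel _ hn hc.2.1) Adv (ABO.circF_bounds hAdv) (eta (J + j) (lv P g))
        (eta_mono (J + j) (lv P g)).1 (2 ^ ux (J + j) 12 (lv P g))
        (thr P g (16 * eta (J + j) (lv P g)))
      have h2 := hRB g hc Adv hAdv
      have h3 := num_bind hn (hk g hc)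
      have h4 : (0 : ℝ) ≤ 2 ^ ((dd (lv P g) + 1) * (2 ^ ux (J + j) 12 (lv P g) +
          kap0 (lv P g)) + 1) := by positivity
      have h5 := mul_le_mul_of_nonneg_left h2 h4
      calc _ ≤ _ := h1
        _ ≤ _ := add_le_add (le_refl _) h5
        _ ≤ _ := h3)
  obtain ⟨B, g, hsub, hBR, hBH, hBF, hgo, hgi, hNL⟩ := hB x hx
  refine ⟨B, hsub, hBR, hBH, hNL, ?_⟩
  intro gm hc Adv hAdv
  refine le_trans ?_ (hfin gm hc Adv hAdv)
  have hn := hn0 _ hc.1
  have hlB : lawA J N (j + 1) B = lawA J N (j + 1) A := by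
    unfold lawA
    rw [hBH]
  unfold Risk
  rw [hlB, hBH]
  apply s3_EX_mono _ hlaw
  intro S
  by_cases hcond : thr P gm (18 * eta (J + j) (lv P gm)) ≤
      (hits (fun _ => [true]) Adv (B.F (stf S)) : ℝ)
  · rw [if_pos hcond, if_pos]
    refine ⟨g (stf S), fun p hp => hgo _ _ hp, ?_, ?_⟩
    · rintro ⟨r, l⟩ hp hω
      rw [hD, Finset.mem_image] at hp
      obtain ⟨it, hit, hr⟩ := hp
      have hr' : slot it = r := hr
      subst hr'
      obtain ⟨y, hy1, hy2⟩ := hgi _ it hit l hω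
      have := (hEnc x hx it hit y hy1).2.1
      rw [hy2] at this
      exact this
    · rw [← hBF]
      refine le_trans ?_ hcond
      have hds := del_small hn (J + j)
      have he := (eta_mono (J + j) (lv P gm)).1
      have h2s : (0 : ℝ) ≤ 2 ^ (P.G gm).s := by positivity
      have hle : eta (J + j) (lv P gm) + 2 * (dd (lv P gm) : ℝ) ^ 2 * del (lv P gm) ≤
          2 * eta (J + j) (lv P gm) := by linarith
      have := mul_le_mul_of_nonneg_right hle h2s
      unfold thr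
      nlinarith
  · rw [if_neg hcond]
    split_ifs
    · exact zero_le_one
    · exact le_refl _


end Pool.Agent.ABI
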