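import Pool.Agent.Lib_helper27.ABIF.Defs2
import Pool.Agent.Lib_helper27.ABIF.B.N3
import Pool.Agent.Lib_helper27.ABIF.B.P6
import Pool.Agent.Lib_helper27.ABIF.B.P9

set_option autoImplicit false

namespace Pool.Agent.ABI

open Pool.Agent.CK
open Pool.Agent.NPC (Lit St lw tw Cert Term Rst Comp res Stuck RS wt pw GoodRoot HBig te hx NC labs
  rv rq)
open Pool.Agent.ABO (Par Lvl lev CircF hits Fml Gate Circuit Game Hard Desc cst cTree gsz)
open Pool.Agent.TD.IS (PosI Stg patchI simI)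
open Pool.Agent.TD (Lam dd)

theorem s4a_te (J b : ℕ) (hJ : 1 ≤ J) : te J b ≤ hx J J b := by
  unfold te hx
  have h1 : b / (4 * J) ≤ b / 4 := Nat.div_le_div_left (by omega) (by norm_num)
  have h2 : J * (b / (4 * J)) ≤ b / 4 := by
    rw [← Nat.div_div_eq_div_mul]
    exact Nat.mul_div_le _ _
  omega

/-- the transversal for literals -/
theorem s4a_trans {α : Type} [DecidableEq α] (I : Finset α) (blk : α → Finset Lit)
    (hne : ∀ a ∈ I, (blk a).Nonempty)
    (hdis : ∀ a ∈ I, ∀ b ∈ I, a ≠ b → Disjoint (blk a) (blk b)) :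
    ∃ (X : Finset (α → Unit × Lit)) (w : (α → Unit × Lit) → ℝ), (∀ f, 0 ≤ w f) ∧
      ∑ f ∈ X, w f = 1 ∧ (∀ f ∈ X, ∀ a ∈ I, (f a).2 ∈ blk a) ∧
      ∀ (c : ℝ) (Y : Finset Lit), 0 < c →
        (∀ y ∈ Y, ∀ a ∈ I, y ∈ blk a → c ≤ ((blk a).card : ℝ)) →
        ∑ f ∈ X.filter (fun f => Y ⊆ I.image fun a => (f a).2), w f ≤ (1 / c) ^ Y.card := by
  obtain ⟨X, w, h1, h2, h3, h4⟩ := transversal (ι := Unit) (Λ := Lit) ((), (([], []) : Lit)) I
    (fun a => (blk a).map ⟨fun p => ((), p), fun p q h => by simpa using h⟩)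
    (fun a ha => by simpa using hne a ha)
    (fun a ha b hb hab => by
      rw [Finset.disjoint_map]
      exact hdis a ha b hb hab)
  refine ⟨X, w, h1, h2, fun f hf a ha => ?_, fun c Y hc hY => ?_⟩
  · have := h3 f hf a ha
    rw [Finset.mem_map] at this
    obtain ⟨p, hp, he⟩ := this
    rw [← he]
    exact hp
  · have h5 := h4 c (Y.map ⟨fun p => ((), p), fun p q h => by simpa using h⟩) hc ?_
    · rw [Finset.card_map] at h5
      refine le_trans ?_ h5
      refine Finset.sum_le_sum_of_subset_of_nonneg ?_ (fun f _ _ => h1 f)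
      intro f hf
      rw [Finset.mem_filter] at hf ⊢
      refine ⟨hf.1, ?_⟩
      intro p hp
      rw [Finset.mem_map] at hp
      obtain ⟨y, hy, rfl⟩ := hp
      have := hf.2 hy
      rw [Finset.mem_image] at this ⊢
      obtain ⟨a, ha, hfa⟩ := this
      exact ⟨a, ha, Prod.ext rfl hfa⟩
    · intro y hy a ha hya
      rw [Finset.mem_map] at hy hya
      obtain ⟨p, hp, rfl⟩ := hy
      obtain ⟨p', hp', he⟩ := hya
      rw [Finset.card_map]
      refine hY p hp a ha ?_
      have : p' = p := by simpa using he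
      rw [← this]
      exact hp'

theorem exists_lab {J N : ℕ} (hJ : 16 ≤ J) (hN : N = 2 ^ 2 ^ J) (A : Fam) (x : Str)
    (hx : x ∈ Us J N) (hbig : Big J J A x) :
    ∃ (𝒳 : Type) (X0 : Finset 𝒳) (wX : 𝒳 → ℝ) (lab : 𝒳 → Str → Str) (hid : 𝒳 → Finset Lit),
      (∀ x ∈ X0, 0 ≤ wX x) ∧ ∑ x ∈ X0, wX x = 1 ∧
      (∀ a ∈ X0, ∀ κ : Str, κ.length = x.length / 4 →
        lab a κ ∈ A.H x ∧ (lab a κ).take κ.length = κ ∧ (x, lab a κ) ∈ hid a) ∧
      (∀ a ∈ X0, ∀ p ∈ hid a, p.1 = x ∧ p.2 ∈ A.H x) ∧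
      ∀ n, NumL n → N ≤ dd n → ∀ Y : Finset Lit, (∀ p ∈ Y, n ≤ 16 * p.1.length) →
        ∑ a ∈ X0.filter (fun a => Y ⊆ hid a), wX a ≤ del n ^ Y.card := by
  set I : Finset Str := (List.finite_length_eq Bool (x.length / 4)).toFinset with hI
  have hmem : ∀ κ : Str, κ ∈ I ↔ κ.length = x.length / 4 := by
    intro κ
    rw [hI, Set.Finite.mem_toFinset]
    rfl
  set B : Str → Finset Lit := fun κ => ({x} : Finset Str) ×ˢ cl x.length κ (A.H x) with hB
  have hBcard : ∀ κ, (B κ).card = (cl x.length κ (A.H x)).card := by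
    intro κ
    rw [hB]
    simp
  have hcl : ∀ κ l, l ∈ cl x.length κ (A.H x) ↔ l ∈ A.H x ∧ l.take (x.length / 4) = κ := by
    intro κ l
    unfold cl
    rw [Finset.mem_filter]
  obtain ⟨X, w, h1, h2, h3, h4⟩ := s4a_trans I B
    (fun κ hκ => by
      rw [← Finset.card_pos, hBcard]
      have := hbig κ ((hmem κ).1 hκ)
      have h0 : 0 < 2 ^ NPC.hx J J x.length := by positivity
      omega)
    (fun κ _ κ' _ hne => by
      rw [Finset.disjoint_left]
      intro p hp hp'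
      rw [hB] at hp hp'
      simp only [Finset.mem_product, Finset.mem_singleton] at hp hp'
      have e1 := ((hcl _ _).1 hp.2).2
      have e2 := ((hcl _ _).1 hp'.2).2
      exact hne (e1.symm.trans e2))
  refine ⟨Str → Unit × Lit, X, w, fun f κ => (f κ).2.2,
    fun f => I.image fun a => (f a).2, fun f _ => h1 f, h2, ?_, ?_, ?_⟩
  · intro f hf κ hκ
    have hfa := h3 f hf κ ((hmem κ).2 hκ)
    rw [hB] at hfa
    simp only [Finset.mem_product, Finset.mem_singleton] at hfa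
    have e1 := (hcl _ _).1 hfa.2
    refine ⟨e1.1, ?_, ?_⟩
    · rw [hκ]
      exact e1.2
    · rw [Finset.mem_image]
      exact ⟨κ, (hmem κ).2 hκ, Prod.ext hfa.1 rfl⟩
  · intro f hf p hp
    rw [Finset.mem_image] at hp
    obtain ⟨κ, hκ, rfl⟩ := hp
    have hfa := h3 f hf κ hκ
    rw [hB] at hfa
    simp only [Finset.mem_product, Finset.mem_singleton] at hfa
    exact ⟨hfa.1, ((hcl _ _).1 hfa.2).1⟩
  · intro n hn hc Y hY
    obtain ⟨hLam, -⟩ := stage_le hJ hN hc
    have h5 := h4 ((2 : ℝ) ^ hh n) Y (by positivity) ?_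
    · have : del n = 1 / (2 : ℝ) ^ hh n := by
        unfold del
        rw [one_div_pow]
      rw [this]
      exact h5
    · intro p hp κ hκ hpκ
      rw [hBcard]
      rw [hB] at hpκ
      simp only [Finset.mem_product, Finset.mem_singleton] at hpκ
      have h6 := hn.hte J (by omega) hLam p.1.length (hY p hp)
      rw [hpκ.1] at h6
      have h7 := s4a_te J x.length (by omega)
      have h8 := hbig κ ((hmem κ).1 hκ)
      have h9 : 2 ^ hh n ≤ (cl x.length κ (A.H x)).card :=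
        le_trans (Nat.pow_le_pow_right (by norm_num) (h6.trans h7)) h8
      exact_mod_cast h9


end Pool.Agent.ABI
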