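import Pool.Agent.Lib_helper27.ABIF.Defs2
import Pool.Agent.Lib_helper27.ABIF.B.G0
import Pool.Agent.Lib_helper27.ABIF.B.G4
import Pool.Agent.Lib_helper27.ABIF.B.N3
import Pool.Agent.Lib_helper27.ABIF.B.P6
import Pool.Agent.Lib_helper27.ABIF.B.S3n
import Pool.Agent.Lib_helper27.ABIF.B.S4a
import Pool.Agent.Lib_helper27.ABIF.B.U1

/-!
-/

set_option autoImplicit false

namespace Pool.Agent.ABI

open Pool.Agent.CK
open Pool.Agent.NPC (Lit St lw tw Cert Term Rst Comp res Stuck RS wt pw GoodRoot HBig te hx NC labs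
  rv rq)
open Pool.Agent.ABO (Par Lvl lev CircF hits Fml Gate Circuit Game Hard Desc cst cTree gsz)
open Pool.Agent.TD (Lam dd)

theorem s4_EX_const {ι Λ : Type} [Fintype ι] [DecidableEq ι] [DecidableEq Λ]
    (p : ι → Finset Λ → ℝ) (H : ι → Finset Λ)
    (hp : ∀ r, ∑ S ∈ (H r).powerset, p r S = 1) (c : ℝ) :
    EX p H (fun _ => c) = c := by
  unfold EX
  rw [← Finset.sum_mul]
  rw [← Finset.prod_univ_sum (t := fun r => (H r).powerset) (f := fun r S => p r S)]
  simp [hp]

theorem s4_EX_mono {ι Λ : Type} [Fintype ι] [DecidableEq ι] [DecidableEq Λ]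
    (p : ι → Finset Λ → ℝ) (H : ι → Finset Λ) (hp0 : ∀ r S, 0 ≤ p r S)
    {f g : (ι → Finset Λ) → ℝ} (h : ∀ S, f S ≤ g S) :
    EX p H f ≤ EX p H g := by
  unfold EX
  refine Finset.sum_le_sum fun S _ => mul_le_mul_of_nonneg_left (h S) ?_
  exact Finset.prod_nonneg fun r _ => hp0 r _

theorem s4_stf_out {U : Finset Str} (S : {r // r ∈ U} → Finset Str) (p : Lit) (h : p.1 ∉ U) :
    stf S p = false := by
  unfold stf
  rw [dif_neg h]

/-- S4: from `exists_lab`, `risk_repl` with `D = Us J N`,
`rb_choice` with `b = 1`: a probability `≤ 1 / 2` that is `0` or `1` is `0` -/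
theorem step_end {P : Par} (hP : P.OK) {n0 : ℕ} (hn0 : ∀ n, n0 ≤ n → NumL n) {J N j : ℕ}
    (hJ : 16 ≤ J) (hN : N = 2 ^ 2 ^ J) (hj : j + 1 = J) (A : Fam) (hR : A.R ⊆ Us J N)
    (x : Str) (hx : x ∈ A.R) (hbig : Big J J A x)
    (hRB : RB P n0 J N J A (ux (J + j) 0) (fun n => 18 * eta (J + j) n)
      (fun n => 2 ^ ux (J + j) 10 n)) :
    ∃ lab : Str → Str, (∀ κ : Str, κ.length = x.length / 4 →
        lab κ ∈ A.H x ∧ (lab κ).take κ.length = κ) ∧
      ∀ ω : St, (∀ p, ω p = true → p.1 = x ∧ ∃ κ : Str, κ.length = x.length / 4 ∧ lab κ = p.2) →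
        ∀ g, Conc P n0 J N g →
          ∀ Adv ∈ CircF (P.G g) (2 ^ ux (J + j) 0 (lv P g)) (dd (lv P g)),
            (hits (fun _ => [true]) Adv (A.F ω) : ℝ) < thr P g (20 * eta (J + j) (lv P g)) := by
  classical
  obtain ⟨𝒳, X0, wX, lab, hid, h0, h1, hlab, hhid, hδ⟩ := exists_lab hJ hN A x (hR hx) hbig
  have key := rb_choice hP n0 J N X0 wX h0 h1 (fun _ => False) (by simp)
    (fun g Adv a => if ∃ ω : St, (∀ p, ω p = true → p ∈ hid a) ∧
      thr P g (20 * eta (J + j) (lv P g)) ≤ (hits (fun _ => [true]) Adv (A.F ω) : ℝ)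
      then (1 : ℝ) else 0)
    (fun g Adv a => by split_ifs <;> norm_num)
    (ux (J + j) 0) (fun _ => 1)
    (fun g hg => by
      have hn := hn0 _ hg.1
      have h2 := (uu_ge hn (J + j + 1)).1
      have h3 := hn.h16
      have h4 : ux (J + j) 0 (lv P g) = uu (J + j + 1) (lv P g) := by simp [ux]
      rw [h4]
      omega)
    (fun g hg Adv hAdv => by
      have hn := hn0 _ hg.1
      have hc := hg.2.1
      have hk : J + j + 1 ≤ Kn (lv P g) := by
        have := (stage_le hJ hN hc).2
        omega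
      have heta := (eta_mono (J + j) (lv P g)).1
      have hds := del_small hn (J + j)
      have hR1 := risk_repl hJ hN (j := J) hn hc A hR (Us J N) (Finset.Subset.refl _) X0 wX h0 h1
        hid (fun a ha y hy => by
          obtain ⟨e1, e2⟩ := hhid a ha y hy
          rw [e1]
          exact ⟨hR hx, e2⟩)
        (fun Y hY => hδ _ hn hc Y hY) Adv (fun y => ABO.circF_bounds hAdv y)
        (eta (J + j) (lv P g)) heta (2 ^ ux (J + j) 8 (lv P g))
        (thr P g (18 * eta (J + j) (lv P g)))
      have hrisk := hRB g hg Adv hAdv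
      have hnum := num_end hn hk
      refine le_trans ?_ (hR1.trans (le_trans ?_ hnum))
      · refine Finset.sum_le_sum fun a ha => mul_le_mul_of_nonneg_left ?_ (h0 a ha)
        by_cases hcase : ∃ ω : St, (∀ p, ω p = true → p ∈ hid a) ∧
            thr P g (20 * eta (J + j) (lv P g)) ≤ (hits (fun _ => [true]) Adv (A.F ω) : ℝ)
        · rw [if_pos hcase]
          obtain ⟨ω, hω, hth⟩ := hcase
          refine le_trans (s4_EX_const (lawA J N J A) (fun r => A.H r.1)
            (fun r => (law_lawA hJ hN J A r).sum) 1).ge ?_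
          refine s4_EX_mono _ _ (fun r S => (law_lawA hJ hN J A r).nonneg S) fun S => ?_
          rw [if_pos]
          refine ⟨ω, fun p hp => ?_, fun p _ hp => hω p hp, le_trans ?_ hth⟩
          · rw [s4_stf_out S p hp]
            by_contra hcon
            have hpt : ω p = true := by
              cases h : ω p
              · exact absurd h hcon
              · rfl
            have hmem := hω p hpt
            have := (hhid a ha p hmem).1
            rw [this] at hp
            exact hp (hR hx)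
          · unfold thr
            have hs : (0 : ℝ) < 2 ^ (P.G g).s := by positivity
            have : (P.v g + 18 * eta (J + j) (lv P g)) * 2 ^ (P.G g).s +
                (eta (J + j) (lv P g) + 2 * (dd (lv P g)) ^ 2 * del (lv P g)) * 2 ^ (P.G g).s =
                (P.v g + (19 * eta (J + j) (lv P g) + 2 * (dd (lv P g)) ^ 2 * del (lv P g))) *
                  2 ^ (P.G g).s := by ring
            rw [this]
            refine mul_le_mul_of_nonneg_right ?_ hs.le
            generalize 2 * (dd (lv P g) : ℝ) ^ 2 * del (lv P g) = t at *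
            linarith
        · rw [if_neg hcase]
          unfold EX
          refine Finset.sum_nonneg fun S _ => mul_nonneg
            (Finset.prod_nonneg fun r _ => (law_lawA hJ hN J A r).nonneg _) ?_
          beta_reduce
          split_ifs <;> norm_num
      · refine add_le_add le_rfl (mul_le_mul_of_nonneg_left hrisk (by positivity)))
  obtain ⟨a, ha, -, -, hgood⟩ := key
  refine ⟨lab a, fun κ hκ => ⟨(hlab a ha κ hκ).1, (hlab a ha κ hκ).2.1⟩, ?_⟩
  intro ω hω g hg Adv hAdv
  by_contra hcon
  have hle := hgood g hg Adv hAdv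
  rw [if_pos] at hle
  · norm_num at hle
  · refine ⟨ω, fun p hp => ?_, not_lt.mp hcon⟩
    obtain ⟨e1, κ, hκ, e2⟩ := hω p hp
    have := (hlab a ha κ hκ).2.2
    have hpe : p = (x, lab a κ) := by
      rw [e2]
      exact Prod.ext e1 rfl
    rw [hpe]
    exact this

end Pool.Agent.ABI
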