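import Pool.Agent.Lib_helper27.ABIF.Defs2
import Pool.Agent.Lib_helper27.ABIF.B.G5
import Pool.Agent.Lib_helper27.ABIF.B.N3
import Pool.Agent.Lib_helper27.ABIF.B.S3n

/-!
-/

set_option autoImplicit false

namespace Pool.Agent.ABI

open Pool.Agent.CK
open Pool.Agent.NPC (Lit St lw tw Cert Term Rst Comp res Stuck RS wt pw GoodRoot HBig te hx NC labs
  rv rq)
open Pool.Agent.ABO (Par Lvl lev CircF hits Fml Gate Circuit Game Hard Desc cst cTree gsz)
open Pool.Agent.TD.IS (PosI Stg patchI simI)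
open Pool.Agent.TD (Lam dd)

/-- S5 -/
theorem step_start {P : Par} {n0 : ℕ} (hn0 : ∀ n, n0 ≤ n → NumL n) {J N : ℕ}
    (hJ : 16 ≤ J) (hN : N = 2 ^ 2 ^ J) (O : Lang)
    (hO : ∀ r ∈ Us J N, ∀ l b, l.length = r.length → O (saddr r l b) = false)
    (hDB : DB P n0 O (uu J) (eta J)) (A : Fam) (hR : A.R = Us J N)
    (hH : ∀ r, A.H r = labs r.length) (hF : A.F = startF O (Us J N)) :
    RB P n0 J N 0 A (ux J 44) (fun n => 2 * eta J n) (fun n => 2 ^ ux J 54 n) := by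
  intro g hg Adv hAdv
  obtain ⟨h1, h2, h3⟩ := hg
  have hn := hn0 _ h1
  have hk := (stage_le hJ hN h2).2
  have hk' : J + 1 ≤ Kn (lv P g) := by omega
  obtain ⟨hs1, hs2⟩ := num_start hn hk'
  have h := risk_start hJ hN hn h2 O hO A hR hH hF (P.G g) (uu J (lv P g))
    (ux J 44 (lv P g)) (2 ^ ux J 56 (lv P g)) hs1 (thr P g (eta J (lv P g)))
    (eta J (lv P g)) (eta_mono _ _).1 (fun C hC => hDB g h1 C hC) Adv hAdv
  have e1 : thr P g (eta J (lv P g)) + eta J (lv P g) * 2 ^ (P.G g).s =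
      thr P g (2 * eta J (lv P g)) := by unfold thr; ring
  rw [e1] at h
  exact h.trans hs2


end Pool.Agent.ABI
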