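import Pool.Agent.Lib_helper27.ABIF.Defs2
import Pool.Agent.Lib_helper27.ABO.B.NA2

/-! ABI, block T1n: numbers for tables -/

set_option autoImplicit false

namespace Pool.Agent.ABI

open Pool.Agent.CK
open Pool.Agent.NPC (Lit St lw tw Cert Term Rst Comp res Stuck RS wt pw GoodRoot HBig te hx NC labs
  rv rq)
open Pool.Agent.ABO (Par Lvl lev CircF hits Fml Gate Circuit Game Hard Desc cst cTree gsz)
open Pool.Agent.TD.IS (PosI Stg patchI simI)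
open Pool.Agent.TD (Lam dd)

theorem t1n_uu (k n : ℕ) : uu (k + 1) n ≤ uu 0 n := by
  unfold uu
  exact Nat.add_le_add_left (Nat.mul_le_mul_left _ (by omega)) _

theorem num_table {n k L : ℕ} (hn : NumL n) (hk : k + 1 ≤ Kn n) (hL : L ≤ dd n) :
    let D := 2 ^ (Lam n + 2 + 5 * (Kn n - k) - 4)
    let R := 3 * D * (2 ^ ux k 15 n + 1) * dd n
    2 ^ ux k 0 n + (dd n + 1) * cst (dd n) (256 * (dd n + 1) ^ 4) (2 * dd n + 4) R ≤
        2 ^ ux k 44 n ∧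
      (2 ^ (L ^ 3) + 1) ^ (R + dd n) ≤ 2 ^ 2 ^ ux k 30 n ∧
      2 ^ ux k 14 n + ((ux k 0 n + 4) * (2 ^ ux k 0 n + 4) + (dd n + n + 4)) + 2 ≤
        2 ^ ux k 15 n ∧
      2 ^ ux k 30 n + 2 ^ ux k 15 n ≤ 2 ^ ux k 52 n ∧
      (1 : ℝ) / D = 16 * eta k n ∧ 3 * eta k n ≤ (1 : ℝ) / (4 * D) := by
  intro D R
  have hdd : dd n = 2 ^ Lam n := rfl
  have h16 := hn.h16
  have hLam := hn.hLam
  have hq := hn.hdd
  have huu := hn.huu
  have hB : Lb n = Lam n + 32 * Kn n + 64 := rfl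
  have hU0 := t1n_uu k n
  have hUB : 20 * Lb n ≤ uu (k + 1) n := by
    unfold uu
    omega
  have e0 : ux k 0 n = uu (k + 1) n := by unfold ux; ring
  have e14 : ux k 14 n = uu (k + 1) n + 14 * Lb n := rfl
  have e15 : ux k 15 n = uu (k + 1) n + 15 * Lb n := rfl
  have e30 : ux k 30 n = uu (k + 1) n + 30 * Lb n := rfl
  have e44 : ux k 44 n = uu (k + 1) n + 44 * Lb n := rfl
  have e52 : ux k 52 n = uu (k + 1) n + 52 * Lb n := rfl
  generalize hU : uu (k + 1) n = U at *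
  generalize hBB : Lb n = B at *
  generalize hM : Lam n = M at *
  generalize hK : Kn n = K at *
  have hn2 : n + 8 ≤ 2 ^ M := by nlinarith
  have hd1 : dd n + 1 ≤ 2 ^ (M + 1) := by
    rw [hdd]
    exact ABO.na2_add le_rfl (b := 0) (by norm_num) (by omega) (by omega)
  have hDe : D = 2 ^ (M + 2 + 5 * (K - k) - 4) := by
    rw [← hM, ← hK]
  have hD : 3 * D ≤ 2 ^ (2 + (M + 2 + 5 * (K - k) - 4)) :=
    ABO.na2_mul (a := 2) (by norm_num) (le_of_eq hDe) le_rfl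
  have h15 : 2 ^ ux k 15 n + 1 ≤ 2 ^ (U + 15 * B + 1) := by
    rw [e15]
    exact ABO.na2_add (le_refl _) (b := 0) (by norm_num) (by omega) (by omega)
  have hR : R ≤ 2 ^ (U + 17 * B) := by
    have h1 := ABO.na2_mul hD h15 le_rfl
    exact ABO.na2_mul h1 (le_of_eq hdd) (by omega)
  have hRd : R + dd n ≤ 2 ^ (U + 17 * B + 1) :=
    ABO.na2_add hR (le_of_eq hdd) le_rfl (by omega)
  have hRd1 : R + dd n + 1 ≤ 2 ^ (U + 17 * B + 1) := by
    have := ABO.na2_add hR hd1 (c := U + 17 * B + 1) le_rfl (by omega)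
    omega
  refine ⟨?_, ?_, ?_, ?_, ?_, ?_⟩
  · have h1 : (dd n + 1) ^ 4 ≤ 2 ^ (4 * M + 4) := by
      calc (dd n + 1) ^ 4 ≤ (2 ^ (M + 1)) ^ 4 := Nat.pow_le_pow_left hd1 4
        _ = 2 ^ (4 * M + 4) := by rw [← pow_mul]; congr 1; ring
    have h2 : 256 * (dd n + 1) ^ 4 ≤ 2 ^ (4 * M + 12) :=
      ABO.na2_mul (a := 8) (by norm_num) h1 (by omega)
    have h3 : 256 * (dd n + 1) ^ 4 + 1 ≤ 2 ^ (4 * M + 13) :=
      ABO.na2_add h2 (b := 0) (by norm_num) (by omega) (by omega)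
    have h4 : 2 * dd n + 4 + 1 ≤ 2 ^ (M + 2) := by
      have h5 : 2 ^ 3 ≤ 2 ^ M := ABO.na2_pw (by omega)
      have h6 : 2 ^ (M + 2) = 4 * 2 ^ M := by ring
      rw [hdd, h6]
      omega
    have h7 : 512 * (256 * (dd n + 1) ^ 4 + 1) ≤ 2 ^ (9 + (4 * M + 13)) :=
      ABO.na2_mul (a := 9) (by norm_num) h3 le_rfl
    have h8 := ABO.na2_mul h7 h4 le_rfl
    have h9 := ABO.na2_mul h8 hRd1 le_rfl
    have h10 : (dd n + 1) * cst (dd n) (256 * (dd n + 1) ^ 4) (2 * dd n + 4) R ≤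
        2 ^ (U + 24 * B) := by
      unfold cst
      exact ABO.na2_mul hd1 h9 (by omega)
    rw [e0, e44]
    exact ABO.na2_add (ABO.na2_pw (le_refl U)) h10 (by omega) (by omega)
  · have h1 : 2 ^ (L ^ 3) + 1 ≤ 2 ^ (L ^ 3 + 1) :=
      ABO.na2_add (le_refl _) (b := 0) (by norm_num) le_rfl (by omega)
    have h2 : L ^ 3 ≤ 2 ^ (3 * M) := by
      calc L ^ 3 ≤ (2 ^ M) ^ 3 := Nat.pow_le_pow_left (hL.trans (le_of_eq hdd)) 3
        _ = 2 ^ (3 * M) := by rw [← pow_mul]; congr 1; ring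
    have h3 : L ^ 3 + 1 ≤ 2 ^ (3 * M + 1) :=
      ABO.na2_add h2 (b := 0) (by norm_num) le_rfl (by omega)
    have h4 : (L ^ 3 + 1) * (R + dd n) ≤ 2 ^ (U + 30 * B) :=
      ABO.na2_mul h3 hRd (by omega)
    calc (2 ^ (L ^ 3) + 1) ^ (R + dd n) ≤ (2 ^ (L ^ 3 + 1)) ^ (R + dd n) :=
          Nat.pow_le_pow_left h1 _
      _ = 2 ^ ((L ^ 3 + 1) * (R + dd n)) := by rw [← pow_mul]
      _ ≤ 2 ^ 2 ^ (U + 30 * B) := ABO.na2_pw h4
      _ = 2 ^ 2 ^ ux k 30 n := by rw [e30]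
  · rw [e14, e15, e0]
    have h1 : 2 ^ U + 4 ≤ 2 ^ (U + 1) :=
      ABO.na2_add (ABO.na2_pw (le_refl U)) (b := 2) (by norm_num) le_rfl (by omega)
    have h2 : U + 4 ≤ 2 ^ M := by omega
    have h3 : (U + 4) * (2 ^ U + 4) ≤ 2 ^ (U + M + 1) := ABO.na2_mul h2 h1 (by omega)
    have h4 : dd n + n + 4 + 2 ≤ 2 ^ (M + 1) := by
      have h5 : 2 ^ (M + 1) = 2 * 2 ^ M := by ring
      rw [hdd, h5]
      omega
    have h6 : (U + 4) * (2 ^ U + 4) + (dd n + n + 4 + 2) ≤ 2 ^ (U + M + 2) :=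
      ABO.na2_add h3 h4 (by omega) (by omega)
    have h7 : 2 ^ (U + 14 * B) + ((U + 4) * (2 ^ U + 4) + (dd n + n + 4 + 2)) ≤
        2 ^ (U + 15 * B) :=
      ABO.na2_add (ABO.na2_pw (le_refl _)) h6 (by omega) (by omega)
    omega
  · rw [e30, e15, e52]
    exact ABO.na2_add (ABO.na2_pw (le_refl _)) (ABO.na2_pw (le_refl _)) (by omega) (by omega)
  · have h1 : M + 2 + 5 * (K - k) = (M + 2 + 5 * (K - k) - 4) + 4 := by omega
    have h2 : eta k n = (1 / 2 : ℝ) ^ (M + 2 + 5 * (K - k)) := by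
      unfold eta
      rw [hM, hK]
    rw [h2]
    rw [h1]
    generalize M + 2 + 5 * (K - k) - 4 = E at *
    have h3 : ((D : ℕ) : ℝ) = 2 ^ E := by
      rw [hDe]
      push_cast
      rfl
    rw [h3, pow_add, one_div_pow, one_div_pow]
    ring
  · have h1 : M + 2 + 5 * (K - k) = (M + 2 + 5 * (K - k) - 4) + 4 := by omega
    have h2 : eta k n = (1 / 2 : ℝ) ^ (M + 2 + 5 * (K - k)) := by
      unfold eta
      rw [hM, hK]
    rw [h2]
    rw [h1]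
    generalize M + 2 + 5 * (K - k) - 4 = E at *
    have h3 : ((D : ℕ) : ℝ) = 2 ^ E := by
      rw [hDe]
      push_cast
      rfl
    rw [h3, pow_add, one_div_pow, one_div_pow]
    have h4 : (0 : ℝ) < 1 / 2 ^ E := by positivity
    have h5 : (1 : ℝ) / (4 * 2 ^ E) = (1 / 4) * (1 / 2 ^ E) := by ring
    rw [h5]
    nlinarith


end Pool.Agent.ABI
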