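import Pool.Agent.Lib_helper27.ABIF.Defs2
import Pool.Agent.Lib_helper64.NPC.Blk.F1
import Pool.Agent.Lib_helper27.ABIF.B.C4a
import Pool.Agent.Lib_helper27.ABIF.B.C6
import Pool.Agent.Lib_helper27.ABIF.B.F9
import Pool.Agent.Lib_helper27.ABIF.B.G0
import Pool.Agent.Lib_helper27.ABIF.B.N3
import Pool.Agent.Lib_helper27.ABIF.B.N4
import Pool.Agent.Lib_helper27.ABIF.B.N5
import Pool.Agent.Lib_helper27.ABIF.B.T1n
import Pool.Agent.Lib_helper27.ABIF.B.U2

/-!
-/

set_option autoImplicit false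

namespace Pool.Agent.ABI

open Pool.Agent.CK
open Pool.Agent.NPC (Lit St lw tw Cert Term Rst Comp res Stuck RS wt pw GoodRoot HBig te hx NC labs
  rv rq)
open Pool.Agent.ABO (Par Lvl lev CircF hits Fml Gate Circuit Game Hard Desc cst cTree gsz)
open Pool.Agent.TD.IS (PosI Stg patchI simI)
open Pool.Agent.TD (Lam dd)

theorem t1_alen (e : ℕ) (z : Str) (b : ℕ) (c : Bool) : alen e z ≤ (taddr e z b c).length := by
  simp only [taddr, ones, List.length_cons, List.length_append, List.length_replicate]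
  omega

theorem t1_law {J N j : ℕ} {A B : Fam} (h : B.H = A.H) : lawA J N j B = lawA J N j A := by
  funext r
  simp only [lawA, h]

theorem t1_risk_congr {J N j : ℕ} {A B : Fam} (h : B.H = A.H) {s : ℕ} (Adv : X s → DT Str)
    (w : ℝ) (hF : ∀ ω x, (Adv x).eval (B.F ω) = (Adv x).eval (A.F ω)) :
    Risk J N j B Adv w = Risk J N j A Adv w := by
  have hh : ∀ ω, hits (fun _ => [true]) Adv (B.F ω) = hits (fun _ => [true]) Adv (A.F ω) := by
    intro ω
    unfold hits
    simp only [hF]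
  unfold Risk
  simp only [t1_law h, h, hh]

theorem t1_pr {Z Q : Type} [Fintype Z] [DecidableEq Z] [Fintype Q] [DecidableEq Q]
    (f : (Z → Q) → ℝ) :
    Pr (fun (_ : Z) (_ : Q) => (1 : ℝ) / Fintype.card Q) [] f =
      ∑ T, 1 / (Fintype.card (Z → Q) : ℝ) * f T := by
  unfold Pr
  refine Finset.sum_congr rfl fun T _ => ?_
  simp [CK.wt, Finset.prod_const]

theorem t1_card {Cs : Finset ((ℕ × ℕ) × ℕ)} {Gd : (ℕ × ℕ) × ℕ → Finset Str} (L : ℕ)
    (hlen : ∀ c ∈ Cs, ∀ r ∈ Gd c, r.length = c.2) (hL : ∀ c ∈ Cs, c.2 ≤ L) :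
    Fintype.card (QtC Cs Gd) ≤ 2 ^ (L * Cs.card) := by
  rw [Fintype.card_pi]
  calc ∏ c : {c // c ∈ Cs}, Fintype.card {r // r ∈ Gd c.1}
      ≤ ∏ _c : {c // c ∈ Cs}, 2 ^ L := by
        refine Finset.prod_le_prod' fun c _ => ?_
        rw [Fintype.card_coe]
        have h1 : Gd c.1 ⊆ labs c.1.2 := fun r hr => NPC.mem_labs.2 (hlen _ c.2 r hr)
        refine (Finset.card_le_card h1).trans ?_
        rw [NPC.card_labs]
        exact Nat.pow_le_pow_right (by norm_num) (hL _ c.2)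
    _ = 2 ^ (L * Cs.card) := by
        rw [Finset.prod_const, Finset.card_univ, Fintype.card_coe, ← pow_mul]

theorem t1_NL {J N j : ℕ} (hN : N = 2 ^ 2 ^ J) : N ≤ Lj N j := by
  have h1 : 1 ≤ N := by rw [hN]; exact Nat.one_le_two_pow
  calc N = N ^ 1 := (pow_one N).symm
    _ ≤ N ^ 2 ^ j := Nat.pow_le_pow_right h1 Nat.one_le_two_pow

theorem t1_JN {J N : ℕ} (hJ : 16 ≤ J) (hN : N = 2 ^ 2 ^ J) : J ^ 2 + 1 ≤ N := by
  have h1 : J < 2 ^ J := Nat.lt_two_pow_self
  have h2 : 2 * J ≤ 2 ^ J := by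
    have h3 : J - 1 < 2 ^ (J - 1) := Nat.lt_two_pow_self
    have h4 : 2 ^ J = 2 * 2 ^ (J - 1) := by
      rw [← pow_succ']; congr 1; omega
    omega
  have h3 : J ^ 2 < 2 ^ (2 * J) := by
    have : 2 ^ (2 * J) = 2 ^ J * 2 ^ J := by rw [← pow_add]; congr 1; ring
    rw [this, sq]
    exact Nat.mul_lt_mul'' h1 h1
  calc J ^ 2 + 1 ≤ 2 ^ (2 * J) := h3
    _ ≤ 2 ^ 2 ^ J := Nat.pow_le_pow_right (by norm_num) h2
    _ = N := hN.symm

theorem t1_classes {J N j : ℕ} (hJ : 16 ≤ J) (hN : N = 2 ^ 2 ^ J) (hj : j < J)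
    (items : Finset (ℕ × Str)) (hi : ∀ it ∈ items, InBatch J N j it.1 it.2) :
    (∀ c ∈ items.image (clsI N), c.2 ≤ Lj N j) ∧
      (items.image (clsI N)).card ≤ J ^ 2 * Lj N j := by
  have key : ∀ c ∈ items.image (clsI N), c.2 < Lj N j ∧ c.1.1 < J ∧ c.1.2 < J := by
    intro c hc
    obtain ⟨it, hit, rfl⟩ := Finset.mem_image.1 hc
    have h := item_range hJ hN hj (hi it hit)
    have h2 := (hi it hit).2.1
    have h3 : 2 * sz N it.1 it.2 + 2 < Lj N j := h.2.2.2.2.2.1
    refine ⟨?_, ?_, ?_⟩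
    · change sz N it.1 it.2 < _
      omega
    · change (pr it.1).1 < J
      unfold PairIn at h2
      nlinarith [Nat.zero_le (pr it.1).1, Nat.zero_le (pr it.1).2,
        Nat.zero_le ((pr it.1).1 * (pr it.1).2)]
    · change (pr it.1).2 < J
      unfold PairIn at h2
      nlinarith [Nat.zero_le (pr it.1).1, Nat.zero_le (pr it.1).2,
        Nat.zero_le ((pr it.1).1 * (pr it.1).2)]
  refine ⟨fun c hc => (key c hc).1.le, ?_⟩
  have hsub : items.image (clsI N) ⊆
      (Finset.range J ×ˢ Finset.range J) ×ˢ Finset.range (Lj N j) := by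
    intro c hc
    have := key c hc
    simp only [Finset.mem_product, Finset.mem_range]
    exact ⟨⟨this.2.1, this.2.2⟩, this.1⟩
  refine (Finset.card_le_card hsub).trans ?_
  rw [Finset.card_product, Finset.card_product, Finset.card_range, Finset.card_range]
  exact le_of_eq (by ring)

theorem t1_items {J N j : ℕ} (hJ : 16 ≤ J) (hN : N = 2 ^ 2 ^ J) (hj : j < J)
    (items : Finset (ℕ × Str)) (hi : ∀ it ∈ items, InBatch J N j it.1 it.2) :
    items.card ≤ 2 ^ Lj N j := by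
  obtain ⟨h1, h2⟩ := batch_finite hJ hN hj
  refine le_trans ?_ h2
  rw [← Set.ncard_coe_finset]
  exact Set.ncard_le_ncard (fun it hit => hi it hit) h1

theorem t1_total {J N j : ℕ} (hJ : 16 ≤ J) (hN : N = 2 ^ 2 ^ J) (hj : j < J)
    (items : Finset (ℕ × Str)) (hi : ∀ it ∈ items, InBatch J N j it.1 it.2)
    (Gd : (ℕ × ℕ) × ℕ → Finset Str)
    (hGd : ∀ c ∈ items.image (clsI N), (Gd c).Nonempty ∧ ∀ r ∈ Gd c, r.length = c.2) :
    items.card * Fintype.card (QtC (items.image (clsI N)) Gd) ≤ 2 ^ (Lj N j ^ 3) := by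
  obtain ⟨h1, h2⟩ := t1_classes hJ hN hj items hi
  have h3 := t1_card (Cs := items.image (clsI N)) (Gd := Gd) (Lj N j)
    (fun c hc => (hGd c hc).2) h1
  have h4 := t1_items hJ hN hj items hi
  have h5 : J ^ 2 + 1 ≤ Lj N j := (t1_JN hJ hN).trans (t1_NL hN)
  calc items.card * Fintype.card (QtC (items.image (clsI N)) Gd)
      ≤ 2 ^ Lj N j * 2 ^ (Lj N j * (items.image (clsI N)).card) := Nat.mul_le_mul h4 h3
    _ = 2 ^ (Lj N j + Lj N j * (items.image (clsI N)).card) := by rw [pow_add]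
    _ ≤ 2 ^ (Lj N j ^ 3) := by
        refine Nat.pow_le_pow_right (by norm_num) ?_
        calc Lj N j + Lj N j * (items.image (clsI N)).card
            ≤ Lj N j + Lj N j * (J ^ 2 * Lj N j) := by gcongr
          _ ≤ Lj N j * Lj N j + Lj N j * (J ^ 2 * Lj N j) := by
              gcongr
              nlinarith
          _ = (J ^ 2 + 1) * (Lj N j * Lj N j) := by ring
          _ ≤ Lj N j * (Lj N j * Lj N j) := Nat.mul_le_mul_right _ h5
          _ = Lj N j ^ 3 := by ring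

theorem t1_val {Cs : Finset ((ℕ × ℕ) × ℕ)} {Gd : (ℕ × ℕ) × ℕ → Finset Str} (N : ℕ)
    (qu : (ℕ × ℕ) × ℕ → Str → Str) (q : QtC Cs Gd) (e : ℕ) (z z' : Str)
    (h : z.length = z'.length) : valC N qu q (e, z) = valC N qu q (e, z') := by
  have h1 : clsI N (e, z) = clsI N (e, z') := by
    simp only [clsI, sz, NPC.sl, h]
  unfold valC
  exact congrArg (fun c => if h : c ∈ Cs then qu c (q ⟨c, h⟩).1 else []) h1

/-- T1: random tables, one game -/
theorem table_game {P : Par} (hP : P.OK) {J N j : ℕ} (hJ : 16 ≤ J) (hN : N = 2 ^ 2 ^ J)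
    (hj : j < J) (g : ℕ) (hn : NumL (lv P g)) (hc : N ≤ dd (lv P g)) (A : Fam)
    (hR : A.R ⊆ Us J N) (items : Finset (ℕ × Str))
    (hi : ∀ it ∈ items, InBatch J N j it.1 it.2)
    (hit : ∀ e (z z' : Str), z.length = z'.length → (e, z) ∈ items → (e, z') ∈ items)
    (Gd : (ℕ × ℕ) × ℕ → Finset Str)
    (hGd : ∀ c ∈ items.image (clsI N), (Gd c).Nonempty ∧ ∀ r ∈ Gd c, r.length = c.2)
    (qu : (ℕ × ℕ) × ℕ → Str → Str)
    (hRB : ∀ A' ∈ CircF (P.G g) (2 ^ ux (J + j) 44 (lv P g)) (dd (lv P g)),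
      Risk J N (j + 1) A A' (thr P g (3 * eta (J + j) (lv P g))) ≤
        (1 / 2) ^ 2 ^ ux (J + j) 52 (lv P g))
    (B : ({it // it ∈ items} → QtC (items.image (clsI N)) Gd) → Fam)
    (hBH : ∀ T, (B T).H = A.H)
    (hBF : ∀ T, (B T).F = tabF A.F items (fun it => if h : it ∈ items then
      valC N qu (T ⟨it, h⟩) it else [])) (Adv : X (P.G g).s → DT Str)
    (hA : Adv ∈ CircF (P.G g) (2 ^ ux (J + j) 0 (lv P g)) (dd (lv P g))) :
    ∑ T, 1 / (Fintype.card ({it // it ∈ items} → QtC (items.image (clsI N)) Gd) : ℝ) *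
      Risk J N (j + 1) (B T) Adv (thr P g (16 * eta (J + j) (lv P g))) ≤
        (1 / 2) ^ (2 ^ ux (J + j) 14 (lv P g) + ((ux (J + j) 0 (lv P g) + 4) *
          (2 ^ ux (J + j) 0 (lv P g) + 4) + (dd (lv P g) + lv P g + 4))) := by
  classical
  set n := lv P g with hndef
  set k := J + j with hkdef
  have hN2 : 2 ≤ N := by
    have := t1_JN hJ hN
    nlinarith
  have hk : k + 1 ≤ Kn n := by
    have := (stage_le hJ hN hc).2
    omega
  have hne : ∀ c : {c // c ∈ items.image (clsI N)}, Nonempty {r // r ∈ Gd c.1} := fun c => by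
    obtain ⟨r, hr⟩ := (hGd c.1 c.2).1
    exact ⟨⟨r, hr⟩⟩
  have : Nonempty (QtC (items.image (clsI N)) Gd) := ⟨fun c => (hne c).some⟩
  have heta := (eta_mono k n).1
  by_cases hL : Lj N j ≤ dd n
  · obtain ⟨n1, n2, n3, n4, n5, n6⟩ := num_table hn hk hL
    set D := 2 ^ (Lam n + 2 + 5 * (Kn n - k) - 4) with hD
    have hD1 : 1 ≤ D := Nat.one_le_two_pow
    have hlaw : ∀ r, Law (lawA J N (j + 1) A r) (A.H r.1) (et J r.1.length) :=
      fun r => law_lawA hJ hN (j + 1) A r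
    have key := table_risk (lawA J N (j + 1) A) (fun r => A.H r.1)
      (fun r => (hlaw r).nonneg) (fun r => (hlaw r).sum) (fun S => A.F (stf S))
      items (fun (q : QtC (items.image (clsI N)) Gd) it => valC N qu q it) hit
      (fun q e z z' h => t1_val N qu q e z z' h) (P.G g) (dd n) (ux k 44 n) (ux k 0 n)
      (P.v g) (hP.v_nonneg g) (hP.v_le g) D hD1 (2 ^ ux k 15 n) (2 ^ ux k 30 n)
      (2 ^ ux k 52 n) Adv hA n1 ?_ ?_
    · rw [t1_pr] at key
      have e1 : (P.v g + 1 / (D : ℝ)) * 2 ^ (P.G g).s = thr P g (16 * eta k n) := by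
        unfold thr; rw [n5]
      have e2 : ∀ T : {it // it ∈ items} → QtC (items.image (clsI N)) Gd,
          Risk J N (j + 1) (B T) Adv (thr P g (16 * eta k n)) =
          EX (lawA J N (j + 1) A) (fun r => A.H r.1) (fun S =>
            if (P.v g + 1 / (D : ℝ)) * 2 ^ (P.G g).s ≤ (hits (fun _ => [true]) Adv
              (patchI (stB items (fun (q : QtC (items.image (clsI N)) Gd) it =>
                valC N qu q it)) (A.F (stf S)) T) : ℝ) then 1 else 0) := by
        intro T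
        rw [e1]
        unfold Risk
        rw [t1_law (hBH T), hBH T, hBF T]
        congr 1
        funext S
        rw [patch_stB A.F items _ T (fun it => if h : it ∈ items then
          valC N qu (T ⟨it, h⟩) it else [])]
        intro it
        rw [dif_pos it.2]
      simp only [e2]
      refine key.trans ?_
      set t := 2 ^ ux k 14 n + ((ux k 0 n + 4) * (2 ^ ux k 0 n + 4) + (dd n + n + 4)) with ht
      have f1 : ((1 : ℝ) / 2) ^ (2 ^ ux k 15 n) ≤ (1 / 2) ^ (t + 1) :=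
        pow_le_pow_of_le_one (by norm_num) (by norm_num) (by omega)
      have f2 : (2 : ℝ) ^ (2 ^ ux k 30 n) * (1 / 2) ^ (2 ^ ux k 52 n) ≤ (1 / 2) ^ (t + 1) := by
        calc (2 : ℝ) ^ (2 ^ ux k 30 n) * (1 / 2) ^ (2 ^ ux k 52 n)
            ≤ (2 : ℝ) ^ (2 ^ ux k 30 n) * (1 / 2) ^ (2 ^ ux k 30 n + (t + 1)) := by
              gcongr ?_ * ?_
              exact pow_le_pow_of_le_one (by norm_num) (by norm_num) (by omega)
          _ = (1 / 2) ^ (t + 1) := by
              rw [pow_add, ← mul_assoc, ← mul_pow]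
              norm_num
      calc ((1 : ℝ) / 2) ^ (2 ^ ux k 15 n) + (2 : ℝ) ^ (2 ^ ux k 30 n) * (1 / 2) ^ (2 ^ ux k 52 n)
          ≤ (1 / 2) ^ (t + 1) + (1 / 2) ^ (t + 1) := add_le_add f1 f2
        _ = (1 / 2) ^ t := by rw [pow_succ]; ring
    · refine (Nat.pow_le_pow_left ?_ _).trans n2
      exact Nat.add_le_add_right (t1_total hJ hN hj items hi Gd hGd) 1
    · intro A' hA'
      refine le_trans ?_ (hRB A' hA')
      refine risk_anti hN2 A A' ?_
      unfold thr
      gcongr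
  · obtain ⟨n1, n2, n3, n4, n5, n6⟩ := num_table hn hk (Nat.zero_le (dd n))
    have hq := fun x => (ABO.circF_bounds hA x).2
    have e1 : ∀ T, Risk J N (j + 1) (B T) Adv (thr P g (16 * eta k n)) =
        Risk J N (j + 1) A Adv (thr P g (16 * eta k n)) := by
      intro T
      refine t1_risk_congr (hBH T) Adv _ fun ω x => ?_
      refine DT.eval_congr _ _ (hq x) fun w hw => ?_
      rw [hBF T]
      refine tabF_other A.F items _ ω w fun it hit b c hwe => ?_
      have h1 := t1_alen it.1 it.2 b c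
      have h2 : Lj N j ≤ alen it.1 it.2 := (hi it hit).2.2.2.2.1
      rw [← hwe] at h1
      omega
    simp only [e1]
    rw [← Finset.sum_mul, Finset.sum_const, Finset.card_univ, nsmul_eq_mul]
    have hcard : (Fintype.card ({it // it ∈ items} → QtC (items.image (clsI N)) Gd) : ℝ) ≠ 0 := by
      exact_mod_cast Fintype.card_ne_zero
    rw [mul_one_div_cancel hcard, one_mul]
    have n7 : 2 ^ ux k 15 n ≤ 2 ^ ux k 52 n := le_trans (Nat.le_add_left _ _) n4
    have hA44 : Adv ∈ CircF (P.G g) (2 ^ ux k 44 n) (dd n) := by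
      obtain ⟨C, hC, rfl⟩ := hA
      refine ⟨C, ABO.within_mono hC (Nat.pow_le_pow_right (by norm_num) ?_) le_rfl, rfl⟩
      unfold ux
      omega
    calc Risk J N (j + 1) A Adv (thr P g (16 * eta k n))
        ≤ Risk J N (j + 1) A Adv (thr P g (3 * eta k n)) := by
          refine risk_anti hN2 A Adv ?_
          unfold thr
          gcongr
          norm_num
      _ ≤ (1 / 2) ^ 2 ^ ux k 52 n := hRB Adv hA44
      _ ≤ _ := pow_le_pow_of_le_one (by norm_num) (by norm_num) (by omega)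


end Pool.Agent.ABI
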