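import Pool.Agent.Lib_helper27.ABIF.Defs2
import Pool.Agent.Lib_helper27.ABIF.B.N5

/-!
-/

set_option autoImplicit false

namespace Pool.Agent.ABI

open Pool.Agent.CK
open Pool.Agent.NPC (Lit St lw tw Cert Term Rst Comp res Stuck RS wt pw GoodRoot HBig te hx NC labs
  rv rq)
open Pool.Agent.ABO (Par Lvl lev CircF hits Fml Gate Circuit Game Hard Desc cst cTree gsz)
open Pool.Agent.TD.IS (PosI Stg patchI simI)
open Pool.Agent.TD (Lam dd)

theorem t2_pair {I C : Type} [Fintype I] [DecidableEq I] [Fintype C] [DecidableEq C]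
    (G : C → Finset Str) (i i' : I) (hii : i ≠ i') (c c' : C)
    (E : Finset (I → (c : C) → {r // r ∈ G c}))
    (hE : ∀ T ∈ E, (T i c).1 = (T i' c').1) :
    E.card * (G c').card ≤ Fintype.card (I → (c : C) → {r // r ∈ G c}) := by
  have h1 : (G c').card = (Finset.univ : Finset {r // r ∈ G c'}).card := by
    rw [Finset.card_univ, Fintype.card_coe]
  rw [h1, ← Finset.card_product, ← Finset.card_univ]
  apply Finset.card_le_card_of_injOn
    (fun p : (I → (c : C) → {r // r ∈ G c}) × {r // r ∈ G c'} =>
      Function.update p.1 i' (Function.update (p.1 i') c' p.2))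
  · intro p _
    exact Finset.mem_coe.2 (Finset.mem_univ _)
  · rintro ⟨T, r⟩ hT ⟨T', r'⟩ hT' heq
    rw [Finset.mem_coe, Finset.mem_product] at hT hT'
    have hT1 := hE T hT.1
    have hT1' := hE T' hT'.1
    simp only at heq
    have hr : r = r' := by
      have h2 := congrFun (congrFun heq i') c'
      rw [Function.update_self, Function.update_self, Function.update_self,
        Function.update_self] at h2
      exact h2
    have hother : ∀ k, k ≠ i' → T k = T' k := by
      intro k hk
      have h2 := congrFun heq k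
      rwa [Function.update_of_ne hk, Function.update_of_ne hk] at h2
    have hTi' : T i' = T' i' := by
      funext d
      by_cases hd : d = c'
      · subst hd
        apply Subtype.ext
        rw [← hT1, ← hT1', hother i hii]
      · have h2 := congrFun (congrFun heq i') d
        rwa [Function.update_self, Function.update_self, Function.update_of_ne hd,
          Function.update_of_ne hd] at h2
    have hTT : T = T' := by
      funext k
      by_cases hk : k = i'
      · rw [hk]; exact hTi'
      · exact hother k hk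
    rw [hr, hTT]

theorem t2_geom (N M : ℕ) (h : N ≤ M) :
    ∑ b ∈ Finset.Ico N M, ((1 : ℝ) / 2) ^ (b / 4) =
      (8 - (N % 4 : ℕ)) * (1 / 2) ^ (N / 4) - (8 - (M % 4 : ℕ)) * (1 / 2) ^ (M / 4) := by
  induction M, h using Nat.le_induction with
  | base => simp
  | succ M hM ih =>
    rw [Finset.sum_Ico_succ_top hM, ih]
    by_cases h3 : M % 4 = 3
    · have e1 : (M + 1) % 4 = 0 := by omega
      have e2 : (M + 1) / 4 = M / 4 + 1 := by omega
      rw [e1, e2, h3, pow_succ]
      push_cast
      ring
    · have e1 : (M + 1) % 4 = M % 4 + 1 := by omega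
      have e2 : (M + 1) / 4 = M / 4 := by omega
      rw [e1, e2]
      push_cast
      ring

theorem t2_sum (N : ℕ) (hN : 12 ≤ N) (S : Finset ℕ) (hS : ∀ b ∈ S, N ≤ b) :
    ∑ b ∈ S, ((1 : ℝ) / 2) ^ (b / 4) ≤ 1 := by
  set M := N + S.sup id + 1 with hM
  have hsub : S ⊆ Finset.Ico N M := by
    intro b hb
    rw [Finset.mem_Ico]
    refine ⟨hS b hb, ?_⟩
    have h1 : id b ≤ S.sup id := Finset.le_sup hb
    have h2 : b ≤ S.sup id := h1
    omega
  refine (Finset.sum_le_sum_of_subset_of_nonneg hsub (fun _ _ _ => by positivity)).trans ?_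
  rw [t2_geom N M (by omega)]
  have h1 : (0 : ℝ) ≤ (8 - (M % 4 : ℕ)) * (1 / 2) ^ (M / 4) := by
    apply mul_nonneg _ (by positivity)
    have : M % 4 ≤ 3 := by omega
    have h2 : ((M % 4 : ℕ) : ℝ) ≤ 3 := by exact_mod_cast this
    linarith
  have h2 : (8 - ((N % 4 : ℕ) : ℝ)) * (1 / 2) ^ (N / 4) ≤ 8 * (1 / 2) ^ 3 := by
    apply mul_le_mul
    · have : (0 : ℝ) ≤ ((N % 4 : ℕ) : ℝ) := Nat.cast_nonneg _
      linarith
    · apply pow_le_pow_of_le_one (by norm_num) (by norm_num)
      omega
    · positivity
    · norm_num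
  have h3 : (8 : ℝ) * (1 / 2) ^ 3 = 1 := by norm_num
  linarith

open Classical in
/-- T2: from `items_count`: entries of different sizes have different slots; sum over the pairs of
entries of the same size -/
theorem collision {J N j : ℕ} (hJ : 16 ≤ J) (hN : N = 2 ^ 2 ^ J) (hj : j < J)
    (items : Finset (ℕ × Str)) (hi : ∀ it ∈ items, InBatch J N j it.1 it.2)
    (Gd : (ℕ × ℕ) × ℕ → Finset Str)
    (hGd : ∀ c ∈ items.image (clsI N), 2 ^ c.2 ≤ 16 * Lj N j ^ 28 * (Gd c).card ∧
      ∀ r ∈ Gd c, r.length = c.2) :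
    ∑ T ∈ (Finset.univ : Finset ({it // it ∈ items} → QtC (items.image (clsI N)) Gd)).filter
        (fun T => ∃ it it' : {it // it ∈ items}, it ≠ it' ∧
          (T it ⟨clsI N it.1, Finset.mem_image_of_mem _ it.2⟩).1 =
            (T it' ⟨clsI N it'.1, Finset.mem_image_of_mem _ it'.2⟩).1),
      1 / (Fintype.card ({it // it ∈ items} → QtC (items.image (clsI N)) Gd) : ℝ) ≤ 1 / 2 := by
  have hN12 : 12 ≤ N := by
    rw [hN]
    calc 12 ≤ 2 ^ 2 ^ 2 := by norm_num
      _ ≤ 2 ^ 2 ^ J := Nat.pow_le_pow_right (by norm_num)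
          (Nat.pow_le_pow_right (by norm_num) (by omega))
  set Ω := ({it // it ∈ items} → QtC (items.image (clsI N)) Gd) with hΩdef
  set D : ℝ := 16 * (Lj N j : ℝ) ^ 28 with hD
  have hDpos : 0 ≤ D := by positivity
  have hGpos : ∀ c ∈ items.image (clsI N), 0 < (Gd c).card := by
    intro c hc
    rcases Nat.eq_zero_or_pos (Gd c).card with h | h
    · have h1 := (hGd c hc).1
      rw [h, mul_zero] at h1
      have h2 : 0 < 2 ^ c.2 := by positivity
      omega
    · exact h
  have hΩpos : 0 < Fintype.card Ω := by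
    apply Fintype.card_pos_iff.2
    refine ⟨fun _ c => ?_⟩
    have h1 := hGpos c.1 c.2
    have h2 := Finset.card_pos.1 h1
    exact ⟨h2.choose, h2.choose_spec⟩
  have hΩR : (0 : ℝ) < (Fintype.card Ω : ℝ) := by exact_mod_cast hΩpos
  let cc : {it // it ∈ items} → {c // c ∈ items.image (clsI N)} :=
    fun it => ⟨clsI N it.1, Finset.mem_image_of_mem _ it.2⟩
  let E : {it // it ∈ items} → {it // it ∈ items} → Finset Ω := fun it it' =>
    Finset.univ.filter (fun T : Ω => it ≠ it' ∧ (T it (cc it)).1 = (T it' (cc it')).1)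
  have hpair : ∀ it it' : {it // it ∈ items}, ((E it it').card : ℝ) * (1 / (Fintype.card Ω : ℝ)) ≤
      if sz N it.1.1 it.1.2 = sz N it'.1.1 it'.1.2 then D / 2 ^ (sz N it'.1.1 it'.1.2) else 0 := by
    intro it it'
    by_cases hne : it = it'
    · have hE0 : E it it' = ∅ := by
        apply Finset.filter_eq_empty_iff.2
        intro T _ hT
        exact hT.1 hne
      rw [hE0, Finset.card_empty, Nat.cast_zero, zero_mul]
      split_ifs
      · positivity
      · exact le_rfl
    · by_cases hs : sz N it.1.1 it.1.2 = sz N it'.1.1 it'.1.2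
      · rw [if_pos hs]
        have h1 : (E it it').card * (Gd (cc it').1).card ≤ Fintype.card Ω :=
          t2_pair (C := {c // c ∈ items.image (clsI N)}) (fun c => Gd c.1) it it' hne (cc it)
            (cc it') (E it it') (fun T hT => ((Finset.mem_filter.1 hT).2).2)
        have h2 := (hGd (cc it').1 (cc it').2).1
        have h3 := hGpos (cc it').1 (cc it').2
        have h1R : ((E it it').card : ℝ) * ((Gd (cc it').1).card : ℝ) ≤ (Fintype.card Ω : ℝ) := by
          exact_mod_cast h1
        have h2R : (2 : ℝ) ^ (sz N it'.1.1 it'.1.2) ≤ D * ((Gd (cc it').1).card : ℝ) := by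
          have : ((2 ^ (cc it').1.2 : ℕ) : ℝ) ≤
            ((16 * Lj N j ^ 28 * (Gd (cc it').1).card : ℕ) : ℝ) := by exact_mod_cast h2
          push_cast at this
          exact this
        have h3R : (0 : ℝ) < ((Gd (cc it').1).card : ℝ) := by exact_mod_cast h3
        rw [mul_one_div, div_le_div_iff₀ hΩR (by positivity)]
        calc ((E it it').card : ℝ) * 2 ^ (sz N it'.1.1 it'.1.2)
            ≤ ((E it it').card : ℝ) * (D * ((Gd (cc it').1).card : ℝ)) :=
              mul_le_mul_of_nonneg_left h2R (Nat.cast_nonneg _)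
          _ = D * (((E it it').card : ℝ) * ((Gd (cc it').1).card : ℝ)) := by ring
          _ ≤ D * (Fintype.card Ω : ℝ) := mul_le_mul_of_nonneg_left h1R hDpos
      · rw [if_neg hs]
        have hE0 : E it it' = ∅ := by
          apply Finset.filter_eq_empty_iff.2
          intro T _ hT
          apply hs
          have h1 : (T it (cc it)).1.length = (cc it).1.2 :=
            (hGd (cc it).1 (cc it).2).2 _ (T it (cc it)).2
          have h2 : (T it' (cc it')).1.length = (cc it').1.2 :=
            (hGd (cc it').1 (cc it').2).2 _ (T it' (cc it')).2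
          rw [hT.2, h2] at h1
          exact h1.symm
        rw [hE0, Finset.card_empty, Nat.cast_zero, zero_mul]
  rw [Finset.sum_const, nsmul_eq_mul]
  -- union bound
  have hcard : (((Finset.univ : Finset Ω).filter
        (fun T => ∃ it it' : {it // it ∈ items}, it ≠ it' ∧
          (T it ⟨clsI N it.1, Finset.mem_image_of_mem _ it.2⟩).1 =
            (T it' ⟨clsI N it'.1, Finset.mem_image_of_mem _ it'.2⟩).1)).card : ℝ) ≤
      ∑ it' : {it // it ∈ items}, ∑ it : {it // it ∈ items}, ((E it it').card : ℝ) := by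
    have hsub : ((Finset.univ : Finset Ω).filter
        (fun T => ∃ it it' : {it // it ∈ items}, it ≠ it' ∧
          (T it ⟨clsI N it.1, Finset.mem_image_of_mem _ it.2⟩).1 =
            (T it' ⟨clsI N it'.1, Finset.mem_image_of_mem _ it'.2⟩).1)) ⊆
        (Finset.univ : Finset {it // it ∈ items}).biUnion fun it' =>
          (Finset.univ : Finset {it // it ∈ items}).biUnion fun it => E it it' := by
      intro T hT
      obtain ⟨it, it', hne, heq⟩ := (Finset.mem_filter.1 hT).2
      rw [Finset.mem_biUnion]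
      refine ⟨it', Finset.mem_univ _, ?_⟩
      rw [Finset.mem_biUnion]
      exact ⟨it, Finset.mem_univ _, Finset.mem_filter.2 ⟨Finset.mem_univ _, hne, heq⟩⟩
    have h1 := (Finset.card_le_card hsub).trans (Finset.card_biUnion_le.trans
      (Finset.sum_le_sum fun it' _ => Finset.card_biUnion_le))
    exact_mod_cast h1
  refine (mul_le_mul_of_nonneg_right hcard (by positivity)).trans ?_
  rw [Finset.sum_mul]
  simp only [Finset.sum_mul]
  refine (Finset.sum_le_sum fun it' _ => Finset.sum_le_sum fun it _ => hpair it it').trans ?_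
  -- the sum over the sizes
  set f : ℕ → ℝ := fun b => ((items.filter fun it => sz N it.1 it.2 = b).card : ℝ) * (D / 2 ^ b)
    with hf
  have hinner : ∀ it' : {it // it ∈ items}, ∑ it : {it // it ∈ items},
      (if sz N it.1.1 it.1.2 = sz N it'.1.1 it'.1.2 then D / 2 ^ (sz N it'.1.1 it'.1.2) else 0) =
      f (sz N it'.1.1 it'.1.2) := by
    intro it'
    have h1 := Finset.sum_coe_sort items (fun it : ℕ × Str =>
      if sz N it.1 it.2 = sz N it'.1.1 it'.1.2 then D / 2 ^ (sz N it'.1.1 it'.1.2) else (0 : ℝ))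
    rw [h1, ← Finset.sum_filter, Finset.sum_const, nsmul_eq_mul]
  rw [Finset.sum_congr rfl fun it' _ => hinner it']
  have h2 := Finset.sum_coe_sort items (fun it : ℕ × Str => f (sz N it.1 it.2))
  rw [h2, Finset.sum_comp f (fun it : ℕ × Str => sz N it.1 it.2)]
  have hterm : ∀ b ∈ items.image (fun it : ℕ × Str => sz N it.1 it.2),
      (items.filter fun it => sz N it.1 it.2 = b).card • f b ≤ 1 / 2 * (1 / 2) ^ (b / 4) := by
    intro b hb
    obtain ⟨it, hit, hitb⟩ := Finset.mem_image.1 hb
    have hNb : N ≤ b := by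
      rw [← hitb]
      exact le_max_left _ _
    have h3 := items_count hJ hN hj items hi (b := b) (by omega)
    have h3R : 32 * (Lj N j : ℝ) ^ 28 *
        ((items.filter fun it => sz N it.1 it.2 = b).card : ℝ) ^ 2 * 2 ^ (b / 4) ≤ 2 ^ b := by
      exact_mod_cast h3
    rw [hf, nsmul_eq_mul, hD, one_div_pow, ← mul_assoc, mul_div_assoc', mul_one_div,
      div_le_div_iff₀ (by positivity) (by positivity)]
    nlinarith [h3R]
  refine (Finset.sum_le_sum hterm).trans ?_
  rw [← Finset.mul_sum]
  have h4 := t2_sum N hN12 (items.image (fun it : ℕ × Str => sz N it.1 it.2)) (by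
    intro b hb
    obtain ⟨it, hit, hitb⟩ := Finset.mem_image.1 hb
    rw [← hitb]
    exact le_max_left _ _)
  linarith


end Pool.Agent.ABI
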