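import Pool.Agent.Lib_helper27.ABIF.Defs2
import Pool.Agent.Lib_helper27.ABIF.B.F9
import Pool.Agent.Lib_helper27.ABIF.B.T1
import Pool.Agent.Lib_helper27.ABIF.B.T2
import Pool.Agent.Lib_helper27.ABIF.B.U1
import Pool.Agent.Lib_helper27.ABIF.B.U2

set_option autoImplicit false

namespace Pool.Agent.ABI

open Pool.Agent.CK
open Pool.Agent.NPC (Lit St lw tw Cert Term Rst Comp res Stuck RS wt pw GoodRoot HBig te hx NC labs
  rv rq)
open Pool.Agent.ABO (Par Lvl lev CircF hits Fml Gate Circuit Game Hard Desc cst cTree gsz)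
open Pool.Agent.TD.IS (PosI Stg patchI simI)
open Pool.Agent.TD (Lam dd)

theorem t3_risk_congr {J N j : ℕ} {B B' : Fam} (hH : B.H = B'.H) (hF : B.F = B'.F) {s : ℕ}
    (Adv : X s → DT Str) (w : ℝ) : Risk J N j B Adv w = Risk J N j B' Adv w := by
  obtain ⟨R, H, F, h1, h2, h3⟩ := B
  obtain ⟨R', H', F', h1', h2', h3'⟩ := B'
  simp only at hH hF
  subst hH
  subst hF
  rfl

theorem t3_tabF_congr (F : St → Lang) (items : Finset (ℕ × Str)) {tv tv' : ℕ × Str → Str}
    (h : ∀ it ∈ items, tv it = tv' it) : tabF F items tv = tabF F items tv' := by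
  classical
  funext ω w
  unfold tabF
  cases hw : tdec w with
  | none => rfl
  | some p =>
    simp only
    by_cases hp : p.1 ∈ items
    · rw [if_pos hp, if_pos hp, h p.1 hp]
    · rw [if_neg hp, if_neg hp]

theorem step_table {P : Par} (hP : P.OK) {n0 : ℕ} (hn0 : ∀ n, n0 ≤ n → NumL n) {J N j : ℕ}
    (hJ : 16 ≤ J) (hN : N = 2 ^ 2 ^ J) (hj : j < J) (A : Fam) (hR : A.R ⊆ Us J N)
    (items : Finset (ℕ × Str)) (hi : ∀ it ∈ items, InBatch J N j it.1 it.2)
    (hit : ∀ e (z z' : Str), z.length = z'.length → (e, z) ∈ items → (e, z') ∈ items)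
    (Gd : (ℕ × ℕ) × ℕ → Finset Str)
    (hGd : ∀ c ∈ items.image (clsI N), 2 ^ c.2 ≤ 16 * Lj N j ^ 28 * (Gd c).card ∧
      ∀ r ∈ Gd c, r.length = c.2)
    (qu : (ℕ × ℕ) × ℕ → Str → Str)
    (hRB : RB P n0 J N (j + 1) A (ux (J + j) 44) (fun n => 3 * eta (J + j) n)
      (fun n => 2 ^ ux (J + j) 52 n)) :
    ∃ slot : ℕ × Str → Str, Set.InjOn slot items ∧ (∀ it ∈ items, slot it ∈ Gd (clsI N it)) ∧
      ∀ B : Fam, B.H = A.H → B.F = tabF A.F items (fun it => qu (clsI N it) (slot it)) →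
        RB P n0 J N (j + 1) B (ux (J + j) 0) (fun n => 16 * eta (J + j) n)
          (fun n => 2 ^ ux (J + j) 14 n) := by
  classical
  have hne : ∀ c ∈ items.image (clsI N), (Gd c).Nonempty := by
    intro c hc
    rw [← Finset.card_pos]
    rcases Nat.eq_zero_or_pos (Gd c).card with h | h
    · have h1 := (hGd c hc).1
      rw [h, mul_zero] at h1
      have : 0 < 2 ^ c.2 := by positivity
      omega
    · exact h
  have : Nonempty ({it // it ∈ items} → QtC (items.image (clsI N)) Gd) :=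
    ⟨fun _ c => ⟨(hne c.1 c.2).choose, (hne c.1 c.2).choose_spec⟩⟩
  have hN2 : 2 ≤ N := by
    rw [hN]
    exact Nat.le_self_pow (by positivity) 2
  choose B hBR hBH hBF using fun T : {it // it ∈ items} → QtC (items.image (clsI N)) Gd =>
    addT A items (fun it => if h : it ∈ items then valC N qu (T ⟨it, h⟩) it else [])
  have hcard : (Fintype.card ({it // it ∈ items} → QtC (items.image (clsI N)) Gd) : ℝ) ≠ 0 := by
    exact_mod_cast Fintype.card_ne_zero
  obtain ⟨T, _, _, hbad, hT⟩ := rb_choice hP n0 J N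
    (Finset.univ : Finset ({it // it ∈ items} → QtC (items.image (clsI N)) Gd))
    (fun _ => 1 / (Fintype.card ({it // it ∈ items} → QtC (items.image (clsI N)) Gd) : ℝ))
    (fun _ _ => by positivity)
    (by rw [Finset.sum_const, Finset.card_univ, nsmul_eq_mul, mul_one_div_cancel hcard])
    (fun T => ∃ it it' : {it // it ∈ items}, it ≠ it' ∧
      (T it ⟨clsI N it.1, Finset.mem_image_of_mem _ it.2⟩).1 =
        (T it' ⟨clsI N it'.1, Finset.mem_image_of_mem _ it'.2⟩).1)
    (by convert collision hJ hN hj items hi Gd hGd)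
    (fun g Adv T => Risk J N (j + 1) (B T) Adv (thr P g (16 * eta (J + j) (lv P g))))
    (fun g Adv T => risk_nonneg J N (j + 1) (B T) Adv _ hN2)
    (ux (J + j) 0) (fun n => 2 ^ ux (J + j) 14 n)
    (fun g _ => by
      unfold ux uu Lb
      omega)
    (fun g hg Adv hAdv => table_game hP hJ hN hj g (hn0 _ hg.1) hg.2.1 A hR items hi hit Gd
      (fun c hc => ⟨hne c hc, (hGd c hc).2⟩) qu (fun A' hA' => hRB g hg A' hA') B hBH hBF Adv hAdv)
  refine ⟨fun it => if h : it ∈ items then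
    (T ⟨it, h⟩ ⟨clsI N it, Finset.mem_image_of_mem _ h⟩).1 else [], ?_, ?_, ?_⟩
  · intro it h it' h' heq
    rw [Finset.mem_coe] at h h'
    by_contra hcon
    refine hbad ⟨⟨it, h⟩, ⟨it', h'⟩, fun hc => hcon (congrArg Subtype.val hc), ?_⟩
    simpa only [dif_pos h, dif_pos h'] using heq
  · intro it h
    simp only [dif_pos h]
    exact (T ⟨it, h⟩ ⟨clsI N it, Finset.mem_image_of_mem _ h⟩).2
  · intro B' hH' hF' g hg Adv hAdv
    have h1 : B'.F = (B T).F := by
      rw [hF', hBF]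
      refine t3_tabF_congr A.F items fun it h => ?_
      simp only [dif_pos h]
      unfold valC
      rw [dif_pos (Finset.mem_image_of_mem _ h)]
    rw [t3_risk_congr (hH'.trans (hBH T).symm) h1]
    exact hT g hg Adv hAdv


end Pool.Agent.ABI
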