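import Pool.Agent.Lib_helper27.ABIF.Defs2
import Pool.Agent.Lib_helper64.NPC.Blk.F1
import Pool.Agent.Lib_helper27.ABIF.B.F2a

/-! # Block F10b: start of an epoch -/

set_option autoImplicit false

namespace Pool.Agent.ABI

open Pool.Agent.CK
open Pool.Agent.NPC (Lit St lw tw Cert Term Rst Comp res Stuck RS wt pw GoodRoot HBig te hx NC labs
  rv rq)
open Pool.Agent.ABO (Par Lvl lev CircF hits)
open Pool.Agent.TD.IS (PosI Stg patchI simI)
open Pool.Agent.TD (Lam dd)

theorem f10b_lj0 (N : ℕ) : Lj N 0 = N := by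
  unfold Lj
  simp

theorem f10b_posBd_mono {N N' : ℕ} (h : N ≤ N') {w : Str} (hw : w ∈ PosBd N) : w ∈ PosBd N' := by
  rcases hw with ⟨r, l, h1, h2, h3⟩ | ⟨e, z, b, c, h1, h2, h3, h4⟩
  · exact Or.inl ⟨r, l, h1, lt_of_lt_of_le h2 h, h3⟩
  · exact Or.inr ⟨e, z, b, c, h1, lt_of_lt_of_le h2 h, lt_of_lt_of_le h3 h, h4⟩

/-- correctness on `x` depends on short positions only -/
theorem f10b_cor {N : ℕ} {O O' : Lang} (h : ∀ w : Str, w.length < N → O' w = O w) {m : ℕ × ℕ}
    {x : Str} (hx : (x.length + 2) ^ ((m.2 + 2) * (m.1 + 2)) ≤ N) :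
    PL m.2 (join O' (NL m.1 O')) x = PL m.2 (join O (NL m.1 O)) x ∧ V O' x = V O x := by
  have hk : ex m.2 ≤ m.2 := Nat.unpair_right_le m.2
  set n := x.length + 2 with hn
  have hn2 : 2 ≤ n := by omega
  have h1 : n ^ ex m.2 ≤ n ^ m.2 := Nat.pow_le_pow_right (by omega) hk
  have h0 : 1 ≤ n ^ m.2 := Nat.one_le_pow _ _ (by omega)
  have h2 : n ^ (m.2 + 2) = n ^ m.2 * n * n := by ring
  have h3 : n ^ m.2 ≤ n ^ m.2 * n := by nlinarith
  have h4 : n ≤ n ^ m.2 * n := by nlinarith
  have h5 : 2 * (n ^ m.2 * n) ≤ n ^ m.2 * n * n := by nlinarith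
  have hb : n + n ^ ex m.2 ≤ n ^ (m.2 + 2) := by omega
  have hpw : (n ^ (m.2 + 2)) ^ (m.1 + 2) ≤ N := by
    rw [← pow_mul]
    exact hx
  have hpw1 : n ^ (m.2 + 2) ≤ N := by
    refine le_trans ?_ hpw
    exact Nat.le_self_pow (by omega) _
  constructor
  · rw [← eval_PT, ← eval_PT]
    apply DT.eval_join_congr _ _ (allQ_PT m.2 x)
    · intro w hw
      apply h
      rw [List.length_cons, ← hn] at hw
      omega
    · intro w hw
      apply NL_congr
      intro v hv
      apply h
      rw [List.length_cons, ← hn] at hw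
      have h6 : w.length + 2 ≤ n ^ (m.2 + 2) := by omega
      have h7 : (w.length + 2) ^ (m.1 + 2) ≤ (n ^ (m.2 + 2)) ^ (m.1 + 2) :=
        Nat.pow_le_pow_left h6 _
      omega
  · apply V_congr
    intro w hw
    apply h
    have h8 : (n ^ (m.2 + 2)) * (n ^ (m.2 + 2)) ≤ (n ^ (m.2 + 2)) ^ (m.1 + 2) := by
      rw [← pow_two]
      exact Nat.pow_le_pow_right (by omega) (by omega)
    have h9 : 2 * n ≤ n ^ (m.2 + 2) * n ^ (m.2 + 2) := by nlinarith
    omega

theorem f10b_sec {O : Lang} {U : Finset Str} {w : Str} {p : Str × (Str × Bool)}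
    (hp : sdec w = some p) (hU : p.1 ∈ U) (ω : St) :
    startF O U ω w = (p.2.2 && ω (p.1, p.2.1)) := by
  unfold startF
  rw [hp]
  simp only [hU, if_true]

theorem f10b_out {O : Lang} {U : Finset Str} {w : Str} {p : Str × (Str × Bool)}
    (hp : sdec w = some p) (hU : p.1 ∉ U) (ω : St) :
    startF O U ω w = O w := by
  unfold startF
  rw [hp]
  simp only [hU, if_false]

theorem f10b_none {O : Lang} {U : Finset Str} {w : Str} (hp : sdec w = none) (ω : St) :
    startF O U ω w = O w := by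
  unfold startF
  rw [hp]

theorem f10b_mem_Us {J N : ℕ} {r : Str} :
    r ∈ Us J N ↔ N ≤ 2 * r.length + 2 ∧ 2 * r.length + 2 < Lj N J := by
  unfold Us
  rw [Finset.mem_filter]
  refine ⟨fun h => h.2, fun h => ⟨?_, h⟩⟩
  simp only [Set.Finite.mem_toFinset, Set.mem_ofPred_eq]
  omega

theorem start_ep (Os O : Lang) (J N : ℕ) (hJ : 16 ≤ J) (hN : N = 2 ^ 2 ^ J) (Kd : Set (ℕ × ℕ))
    (hins : ∀ w, O w ≠ Os w → w ∈ PosBd N) (hOs : ∀ w, (∃ p, sdec w = some p) → Os w = false)
    (hkil : ∀ m ∈ Kd, KilN N O m) (A : Fam) (hR : A.R = Us J N)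
    (hH : ∀ r, A.H r = labs r.length) (hF : A.F = startF O (Us J N)) :
    Ep Os O J N 0 Kd A := by
  have hN1 : 1 ≤ N := by rw [hN]; exact Nat.one_le_two_pow
  have h0 : Lj N 0 = N := f10b_lj0 N
  have hNL : N ≤ Lj N J := by
    unfold Lj
    exact Nat.le_self_pow (by positivity) N
  have hext : ∀ ω, Ext2 N O (A.F ω) := by
    intro ω w hw
    rw [hF]
    rcases hs : sdec w with _ | p
    · exact f10b_none hs ω
    · by_cases hU : p.1 ∈ Us J N
      · exfalso
        obtain ⟨h1, h2⟩ := sdec_eq hs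
        have h3 : key2 w = 2 * p.1.length + 2 := by
          conv_lhs => rw [h2]
          exact key2_saddr _ _ _ h1
        have h4 := (f10b_mem_Us.1 hU).1
        omega
      · exact f10b_out hs hU ω
  refine ⟨hR.subset, ?_, ?_, hext, ?_, ?_, ?_⟩
  · intro b hb1 hb2
    have hsub : labs b ⊆ A.R.filter fun r => r.length = b := by
      intro l hl
      rw [NPC.mem_labs] at hl
      rw [Finset.mem_filter, hR, f10b_mem_Us]
      exact ⟨by omega, hl⟩
    have h1 := Finset.card_le_card hsub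
    rw [NPC.card_labs] at h1
    rw [h0]
    calc 2 ^ b = 1 * 2 ^ b := (one_mul _).symm
      _ ≤ N ^ 20 * (A.R.filter fun r => r.length = b).card :=
        Nat.mul_le_mul (Nat.one_le_pow _ _ (by omega)) h1
  · intro r _ κ hκ
    rw [hH]
    have h1 : (cl r.length κ (labs r.length)).card = 2 ^ (r.length - r.length / 4) :=
      NPC.card_cl_labs r.length κ hκ
    rw [h1]
    apply Nat.pow_le_pow_right (by omega)
    unfold hx
    omega
  · intro ω w hw
    rw [hF] at hw
    rcases hs : sdec w with _ | p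
    · rw [f10b_none hs] at hw
      exact f10b_posBd_mono hNL (hins w hw)
    · by_cases hU : p.1 ∈ Us J N
      · obtain ⟨h1, h2⟩ := sdec_eq hs
        rw [f10b_sec hs hU, hOs w ⟨p, hs⟩] at hw
        have h3 : p.2.2 = true := by
          cases hb : p.2.2 with
          | true => rfl
          | false => simp [hb] at hw
        refine Or.inl ⟨p.1, p.2.1, h1, (f10b_mem_Us.1 hU).2, ?_⟩
        rw [← h3]
        exact h2
      · rw [f10b_out hs hU] at hw
        exact f10b_posBd_mono hNL (hins w hw)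
  · intro e z hd _ ω
    exfalso
    obtain ⟨h1, _, h3, _, h5⟩ := hd
    rcases h5 with h5 | h5
    · rw [h0] at h5
      have he : 2 ≤ e := by
        have h6 := h1.1
        have h7 : 1 ≤ (2 * iN e + 3) * (iC e + 3) * (iM e + 3) := by
          have : 0 < (2 * iN e + 3) * (iC e + 3) * (iM e + 3) := by positivity
          omega
        omega
      have h8 : (z.length + 2) ^ (2 * e) ≤ alen e z := by
        unfold alen
        apply Nat.pow_le_pow_right (by omega)
        nlinarith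
      omega
    · omega
  · intro m hm
    obtain ⟨x, hx1, hx2⟩ := hkil m hm
    refine ⟨x, by rw [h0]; exact hx1, fun ω => ?_⟩
    have h1 : ∀ w : Str, w.length < N → A.F ω w = O w := fun w hw =>
      hext ω w (lt_of_le_of_lt (key2_le w) hw)
    obtain ⟨h2, h3⟩ := f10b_cor h1 hx1
    rw [h2, h3]
    exact hx2

end Pool.Agent.ABI

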